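import Pool.Agent.Lib.QPR.Basic

set_option autoImplicit false

namespace QPR

open MeasureTheory Metric Set
open scoped Convolution

/-- every point of `ℝ^n` is a point of the unit cube plus an integer vector. -/
private theorem Approx_cube {n : ℕ} (x : Fin n → ℝ) :
    ∃ (y : Fin n → ℝ) (k : Fin n → ℤ), y ∈ Icc (0 : Fin n → ℝ) 1 ∧
      x = y + fun i => (k i : ℝ) := by
  refine ⟨fun i => Int.fract (x i), fun i => ⌊x i⌋, ⟨?_, ?_⟩, ?_⟩
  · intro i
    exact Int.fract_nonneg _
  · intro i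
    exact (Int.fract_lt_one _).le
  · funext i
    change x i = Int.fract (x i) + (⌊x i⌋ : ℝ)
    exact (Int.fract_add_floor _).symm

private theorem Approx_bdd {n : ℕ} {E : Type*} [SeminormedAddCommGroup E]
    (G : (Fin n → ℝ) → E) (hc : Continuous G) (hp : Per G) : ∃ M : ℝ, ∀ x, ‖G x‖ ≤ M := by
  obtain ⟨M, hM⟩ := (isCompact_Icc (a := (0 : Fin n → ℝ)) (b := 1)).exists_bound_of_continuousOn
    hc.continuousOn
  refine ⟨M, fun x => ?_⟩
  obtain ⟨y, k, hy, rfl⟩ := Approx_cube x
  rw [hp]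
  exact hM y hy

/-- Periodic smooth functions have bounded derivatives of every order (the derivatives are periodic
and continuous; the unit cube is compact). -/
theorem per_bdd {n : ℕ} {E : Type*} [NormedAddCommGroup E] [NormedSpace ℝ E]
    (F : (Fin n → ℝ) → E) (hF : Smo F) (hp : Per F) (r : ℕ) :
    ∃ M : ℝ, ∀ i ≤ r, ∀ x, ‖iteratedFDeriv ℝ i F x‖ ≤ M := by
  have h : ∀ i : ℕ, ∃ M : ℝ, ∀ x, ‖iteratedFDeriv ℝ i F x‖ ≤ M := by
    intro i
    refine Approx_bdd _ (hF.continuous_iteratedFDeriv (by exact_mod_cast le_top)) ?_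
    intro x k
    have h1 : (fun z => F (z + fun i => (k i : ℝ))) = F := by
      funext z
      exact hp z k
    rw [← iteratedFDeriv_comp_add_right, h1]
  choose M hM using h
  refine ⟨∑ i ∈ Finset.range (r + 1), |M i|, fun i hi x => ?_⟩
  refine (hM i x).trans ((le_abs_self _).trans ?_)
  exact Finset.single_le_sum (f := fun i => |M i|) (fun j _ => abs_nonneg _)
    (Finset.mem_range.mpr (by omega))

/-- periodic continuous functions are uniformly continuous -/
private theorem Approx_unif {n : ℕ} {E : Type*} [SeminormedAddCommGroup E]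
    (B : (Fin n → ℝ) → E) (hc : Continuous B) (hp : Per B) (η : ℝ) (hη : 0 < η) :
    ∃ δ : ℝ, 0 < δ ∧ ∀ x y, dist x y < δ → dist (B x) (B y) ≤ η := by
  have h1 := (isCompact_Icc (a := (-1 : Fin n → ℝ)) (b := 2)).uniformContinuousOn_of_continuous
    hc.continuousOn
  rw [Metric.uniformContinuousOn_iff] at h1
  obtain ⟨δ, hδ, h2⟩ := h1 η hη
  refine ⟨min δ 1, lt_min hδ one_pos, fun x y hxy => ?_⟩
  obtain ⟨x', k, hx', rfl⟩ := Approx_cube x
  have hd : dist x' (y - fun i => (k i : ℝ)) = dist (x' + fun i => (k i : ℝ)) y := by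
    rw [dist_eq_norm, dist_eq_norm]
    congr 1
    abel
  have hy : B y = B (y - fun i => (k i : ℝ)) := by
    rw [← hp (y - fun i => (k i : ℝ)) k, sub_add_cancel]
  rw [hp, hy]
  refine (h2 x' ⟨?_, ?_⟩ _ ⟨?_, ?_⟩ ?_).le
  · intro i
    have := hx'.1 i
    simp only [Pi.zero_apply, Pi.neg_apply, Pi.one_apply] at this ⊢
    linarith
  · intro i
    have := hx'.2 i
    simp only [Pi.ofNat_apply] at this ⊢
    linarith
  · intro i
    have h3 := hx'.1 i
    have h4 : dist (x' i) ((y - fun i => (k i : ℝ)) i) < 1 :=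
      (dist_le_pi_dist _ _ i).trans_lt (by rw [hd]; exact lt_of_lt_of_le hxy (min_le_right _ _))
    rw [Real.dist_eq, abs_lt] at h4
    simp only [Pi.zero_apply, Pi.neg_apply, Pi.one_apply] at h3 ⊢
    linarith [h4.1, h4.2]
  · intro i
    have h3 := hx'.2 i
    have h4 : dist (x' i) ((y - fun i => (k i : ℝ)) i) < 1 :=
      (dist_le_pi_dist _ _ i).trans_lt (by rw [hd]; exact lt_of_lt_of_le hxy (min_le_right _ _))
    rw [Real.dist_eq, abs_lt] at h4
    simp only [Pi.ofNat_apply] at h3 ⊢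
    linarith [h4.1, h4.2]
  · rw [hd]
    exact lt_of_lt_of_le hxy (min_le_left _ _)

private theorem Approx_smooth {n : ℕ} {E : Type*} [NormedAddCommGroup E] [NormedSpace ℝ E]
    [CompleteSpace E] (B : (Fin n → ℝ) → E) (hc : Continuous B) (hp : Per B) (η : ℝ)
    (hη : 0 < η) :
    ∃ B' : (Fin n → ℝ) → E, Smo B' ∧ Per B' ∧ ∀ x, ‖B' x - B x‖ ≤ η := by
  obtain ⟨δ, hδ, h1⟩ := Approx_unif B hc hp η hη
  let φ : ContDiffBump (0 : Fin n → ℝ) := ⟨δ / 2, δ, by linarith, by linarith⟩
  refine ⟨(φ.normed volume ⋆[ContinuousLinearMap.lsmul ℝ ℝ, volume] B), ?_, ?_, ?_⟩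
  · exact HasCompactSupport.contDiff_convolution_left _ φ.hasCompactSupport_normed
      φ.contDiff_normed hc.locallyIntegrable
  · intro x k
    simp only [convolution]
    congr 1
    funext t
    congr 1
    have : x + (fun i => (k i : ℝ)) - t = x - t + fun i => (k i : ℝ) := by abel
    rw [this, hp]
  · intro x
    rw [← dist_eq_norm]
    apply φ.dist_normed_convolution_le hc.aestronglyMeasurable
    intro y hy
    exact h1 y x hy

private theorem Approx_inv {𝔸 : Type*} [NormedRing 𝔸] [CompleteSpace 𝔸] {u v : 𝔸} {M η w : ℝ}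
    (hM : 0 < M) (hu : IsUnit u) (h1 : ‖Ring.inverse u‖ ≤ M) (h2 : ‖v - u‖ ≤ η)
    (h3 : M * η ≤ 1 / 2) (h4 : 2 * M * η ≤ w) :
    IsUnit v ∧ ‖u * Ring.inverse v - 1‖ ≤ w ∧ ‖v * Ring.inverse u - 1‖ ≤ w := by
  have hη : 0 ≤ η := (norm_nonneg _).trans h2
  have huu : u * Ring.inverse u = 1 := Ring.mul_inverse_cancel u hu
  have huu' : Ring.inverse u * u = 1 := Ring.inverse_mul_cancel u hu
  have h5 : ‖Ring.inverse u * (u - v)‖ ≤ 1 / 2 := by
    refine (norm_mul_le _ _).trans ?_
    rw [norm_sub_rev] at h2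
    exact (mul_le_mul h1 h2 (norm_nonneg _) hM.le).trans h3
  have hv : v = u * (1 - Ring.inverse u * (u - v)) := by
    rw [mul_sub, ← mul_assoc, huu]
    noncomm_ring
  have hv1 : IsUnit v := by
    rw [hv]
    exact hu.mul (isUnit_one_sub_of_norm_lt_one (by linarith))
  have hvv : v * Ring.inverse v = 1 := Ring.mul_inverse_cancel v hv1
  have h6 : ‖Ring.inverse v‖ ≤ 2 * M := by
    have e : Ring.inverse v = Ring.inverse u + Ring.inverse u * (u - v) * Ring.inverse v := by
      have : Ring.inverse u * (u - v) * Ring.inverse v =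
          (Ring.inverse u * u) * Ring.inverse v - Ring.inverse u * (v * Ring.inverse v) := by
        noncomm_ring
      rw [this, huu', hvv]
      noncomm_ring
    have h7 : ‖Ring.inverse v‖ ≤ M + 1 / 2 * ‖Ring.inverse v‖ := by
      calc ‖Ring.inverse v‖ = ‖Ring.inverse u + Ring.inverse u * (u - v) * Ring.inverse v‖ := by
            rw [← e]
        _ ≤ ‖Ring.inverse u‖ + ‖Ring.inverse u * (u - v) * Ring.inverse v‖ := norm_add_le _ _
        _ ≤ M + 1 / 2 * ‖Ring.inverse v‖ := by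
            refine add_le_add h1 ((norm_mul_le _ _).trans ?_)
            exact mul_le_mul_of_nonneg_right h5 (norm_nonneg _)
    linarith
  refine ⟨hv1, ?_, ?_⟩
  · have e : u * Ring.inverse v - 1 = (u - v) * Ring.inverse v := by
      rw [sub_mul, hvv]
    rw [e]
    refine (norm_mul_le _ _).trans ?_
    rw [norm_sub_rev] at h2
    calc ‖u - v‖ * ‖Ring.inverse v‖ ≤ η * (2 * M) :=
          mul_le_mul h2 h6 (norm_nonneg _) hη
      _ ≤ w := by linarith
  · have e : v * Ring.inverse u - 1 = (v - u) * Ring.inverse u := by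
      rw [sub_mul, huu]
    rw [e]
    refine (norm_mul_le _ _).trans ?_
    calc ‖v - u‖ * ‖Ring.inverse u‖ ≤ η * M := mul_le_mul h2 h1 (norm_nonneg _) hη
      _ ≤ w := by nlinarith

/-- Approximation of a continuous periodic function with invertible values by a smooth one: convolve
with a smooth bump function of small support (`ContDiffBump`, uniform continuity of `B`); the
inverse of `B` is continuous and bounded (periodicity), and units are open. -/
theorem approx_unit {n : ℕ} {𝔸 : Type*} [NormedRing 𝔸] [NormedAlgebra ℝ 𝔸] [CompleteSpace 𝔸]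
    (B : (Fin n → ℝ) → 𝔸) (hc : Continuous B) (hp : Per B) (hu : ∀ x, IsUnit (B x)) (w : ℝ)
    (hw : 0 < w) :
    ∃ B' : (Fin n → ℝ) → 𝔸, Smo B' ∧ Per B' ∧ (∀ x, IsUnit (B' x)) ∧
      Smo (fun x => Ring.inverse (B' x)) ∧
      (∀ x, ‖B x * Ring.inverse (B' x) - 1‖ ≤ w) ∧
      (∀ x, ‖B' x * Ring.inverse (B x) - 1‖ ≤ w) := by
  have hci : Continuous fun x => Ring.inverse (B x) := by
    rw [continuous_iff_continuousAt]
    intro x
    have h1 : ContinuousAt Ring.inverse (B x) := by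
      obtain ⟨U, hU⟩ := hu x
      rw [← hU]
      exact NormedRing.inverse_continuousAt U
    exact ContinuousAt.comp (f := B) h1 hc.continuousAt
  obtain ⟨M0, hM0⟩ := Approx_bdd _ hci (fun x k => by rw [hp])
  obtain ⟨M, hM, hMb⟩ : ∃ M : ℝ, 0 < M ∧ ∀ x, ‖Ring.inverse (B x)‖ ≤ M :=
    ⟨max M0 1, lt_max_of_lt_right one_pos, fun x => (hM0 x).trans (le_max_left _ _)⟩
  obtain ⟨B', h1, h2, h3⟩ := Approx_smooth B hc hp (min (1 / (2 * M)) (w / (2 * M)))
    (lt_min (by positivity) (by positivity))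
  have key : ∀ x, IsUnit (B' x) ∧ ‖B x * Ring.inverse (B' x) - 1‖ ≤ w ∧
      ‖B' x * Ring.inverse (B x) - 1‖ ≤ w := by
    intro x
    refine Approx_inv hM (hu x) (hMb x) (h3 x) ?_ ?_
    · calc M * min (1 / (2 * M)) (w / (2 * M)) ≤ M * (1 / (2 * M)) :=
            mul_le_mul_of_nonneg_left (min_le_left _ _) hM.le
        _ = 1 / 2 := by field_simp
    · calc 2 * M * min (1 / (2 * M)) (w / (2 * M)) ≤ 2 * M * (w / (2 * M)) :=
            mul_le_mul_of_nonneg_left (min_le_right _ _) (by positivity)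
        _ = w := by field_simp
  refine ⟨B', h1, h2, fun x => (key x).1, ?_, fun x => (key x).2.1, fun x => (key x).2.2⟩
  rw [Smo, contDiff_iff_contDiffAt]
  intro x
  have h4 : ContDiffAt ℝ ((⊤ : ℕ∞) : WithTop ℕ∞) Ring.inverse (B' x) := by
    obtain ⟨U, hU⟩ := (key x).1
    rw [← hU]
    exact contDiffAt_ringInverse ℝ U
  exact h4.comp x h1.contDiffAt

end QPR
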