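import Pool.Agent.Lib.QPR.FDef

set_option autoImplicit false

/-!
# Torus diffeomorphisms with Moebius coordinate maps: definitions

`UnitAddTorus (Fin d)` is `Fin d → UnitAddCircle`.
-/

namespace QPR

/-- the projection `ℝ^d → T^d`. -/
def pr {d : ℕ} (x : Fin d → ℝ) : UnitAddTorus (Fin d) := fun i => ((x i : ℝ) : UnitAddCircle)

/-- `C^∞` functions on the torus. -/
def SmT {d : ℕ} {E : Type*} [NormedAddCommGroup E] [NormedSpace ℝ E]
    (φ : UnitAddTorus (Fin d) → E) : Prop :=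
  ContDiff ℝ ((⊤ : ℕ∞) : WithTop ℕ∞) (fun x : Fin d → ℝ => φ (pr x))

/-- `C^∞` maps between tori: composition preserves real valued `C^∞` functions. -/
def SmM {d : ℕ} (H : UnitAddTorus (Fin d) → UnitAddTorus (Fin d)) : Prop :=
  ∀ φ : UnitAddTorus (Fin d) → ℝ, SmT φ → SmT (fun y => φ (H y))

/-- the circle coordinate `exp (2 π i t)`. -/
noncomputable def ee (t : UnitAddCircle) : ℂ := (AddCircle.toCircle t : ℂ)

/-- integer combinations of the coordinates. -/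
def dotT {d : ℕ} (l : Fin d → ℤ) (y : UnitAddTorus (Fin d)) : UnitAddCircle := ∑ i, l i • y i

/-- the function depends only on the coordinates `i < m`. -/
def DepLt {d : ℕ} {E : Type*} (m : ℕ) (φ : UnitAddTorus (Fin d) → E) : Prop :=
  ∀ x x' : UnitAddTorus (Fin d), (∀ i : Fin d, (i : ℕ) < m → x i = x' i) → φ x = φ x'

/-- Diophantine vectors (as in the problem). -/
def DioV {d : ℕ} (α : Fin d → ℝ) : Prop :=
  ∃ γ : ℝ, 0 < γ ∧ ∃ τ : ℝ, 0 < τ ∧ ∀ k : Fin d → ℤ, k ≠ 0 → ∀ n : ℤ,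
    γ / (∑ i, |(k i : ℝ)|) ^ τ ≤ |∑ i, (k i : ℝ) * α i - (n : ℝ)|

/-- the translation by `α` in the conjugacy relation `h (f y) = h y + α`. -/
def Conj {d : ℕ} (α : Fin d → ℝ) (f h : UnitAddTorus (Fin d) ≃ₜ UnitAddTorus (Fin d)) : Prop :=
  ∀ y, h (f y) = h y + pr α

/-- The induction state: the first `m` coordinates are already integer combinations of the
linearising coordinates `h`, the others are Moebius with smooth coefficients depending on the
previous coordinates. -/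
structure Lev {d : ℕ} (m : ℕ) (α : Fin d → ℝ) (f h : UnitAddTorus (Fin d) ≃ₜ UnitAddTorus (Fin d))
    (l : Fin d → (Fin d → ℤ)) (P Q : Fin d → UnitAddTorus (Fin d) → ℂ) : Prop where
  conj : Conj α f h
  low : ∀ i : Fin d, (i : ℕ) < m → ∀ x, x i = dotT (l i) (h x)
  smP : ∀ j : Fin d, m ≤ (j : ℕ) → SmT (P j)
  smQ : ∀ j : Fin d, m ≤ (j : ℕ) → SmT (Q j)
  depP : ∀ j : Fin d, m ≤ (j : ℕ) → DepLt (j : ℕ) (P j)
  depQ : ∀ j : Fin d, m ≤ (j : ℕ) → DepLt (j : ℕ) (Q j)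
  nm : ∀ j : Fin d, m ≤ (j : ℕ) → ∀ x, ‖P j x‖ ^ 2 - ‖Q j x‖ ^ 2 = 1
  mob : ∀ j : Fin d, m ≤ (j : ℕ) → ∀ x,
    ee (f x j) * (star (Q j x) * ee (x j) + star (P j x)) = P j x * ee (x j) + Q j x

/-- coefficients of the iterates: `S_{n+1} (x) = S_n (f x) * S (x)` for the matrices
`S = [[p, q], [star q, star p]]` (first rows). -/
noncomputable def itPQ {d : ℕ} (f : UnitAddTorus (Fin d) → UnitAddTorus (Fin d))
    (p q : UnitAddTorus (Fin d) → ℂ) : ℕ → UnitAddTorus (Fin d) → ℂ × ℂ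
  | 0, _ => (1, 0)
  | (n + 1), x => ((itPQ f p q n (f x)).1 * p x + (itPQ f p q n (f x)).2 * star (q x),
      (itPQ f p q n (f x)).1 * q x + (itPQ f p q n (f x)).2 * star (p x))

end QPR
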