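import Pool.Agent.Lib.QPR.Int2

set_option autoImplicit false

namespace QPR

private theorem Interp_seq (s : ℕ) : ∀ δ : ℝ, 0 < δ → ∃ C : ℝ, 0 ≤ C ∧ ∀ a : ℕ → ℝ,
    (∀ i, 0 ≤ a i) →
    (∀ ε : ℝ, 0 < ε → ε ≤ 1 → ∀ i, i + 2 ≤ s + 1 → a (i + 1) ≤ 2 / ε * a i + ε * a (i + 2)) →
    ∀ j, j < s + 1 → a j ≤ C * a 0 + δ * a (s + 1) := by
  induction s with
  | zero =>
    intro δ hδ
    refine ⟨1, zero_le_one, fun a ha _ j hj => ?_⟩
    have hj0 : j = 0 := by omega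
    subst hj0
    have := mul_nonneg hδ.le (ha (0 + 1))
    linarith
  | succ s ih =>
    intro δ hδ
    set ε : ℝ := min 1 (δ / 2) with hε
    have hε0 : 0 < ε := lt_min one_pos (by linarith)
    have hε1 : ε ≤ 1 := min_le_left _ _
    have hε2 : 2 * ε ≤ δ := by
      have : ε ≤ δ / 2 := min_le_right _ _
      linarith
    obtain ⟨C1, hC1, h1⟩ := ih (ε / 4) (by linarith)
    obtain ⟨C2, hC2, h2⟩ := ih 1 one_pos
    refine ⟨4 / ε * C1 + C2, by positivity, fun a ha hrec j hj => ?_⟩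
    have hrec' : ∀ ε : ℝ, 0 < ε → ε ≤ 1 → ∀ i, i + 2 ≤ s + 1 →
        a (i + 1) ≤ 2 / ε * a i + ε * a (i + 2) := fun e h0 h1 i hi => hrec e h0 h1 i (by omega)
    have h3 := h1 a ha hrec' s (Nat.lt_succ_self s)
    have h4 := hrec ε hε0 hε1 s (by omega)
    have h5 : 2 / ε * a s ≤ 2 / ε * (C1 * a 0 + ε / 4 * a (s + 1)) :=
      mul_le_mul_of_nonneg_left h3 (by positivity)
    have h6 : 2 / ε * (C1 * a 0 + ε / 4 * a (s + 1)) = 2 / ε * C1 * a 0 + a (s + 1) / 2 := by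
      field_simp
      ring
    have h7 : a (s + 1) ≤ 4 / ε * C1 * a 0 + 2 * ε * a (s + 2) := by
      have : 4 / ε * C1 * a 0 = 2 * (2 / ε * C1 * a 0) := by ring
      linarith
    have h8 : 2 * ε * a (s + 2) ≤ δ * a (s + 2) := mul_le_mul_of_nonneg_right hε2 (ha _)
    have h9 : a (s + 1) ≤ 4 / ε * C1 * a 0 + δ * a (s + 1 + 1) := by
      have : a (s + 1 + 1) = a (s + 2) := rfl
      rw [this]
      linarith
    have h10 : 0 ≤ C2 * a 0 := mul_nonneg hC2 (ha 0)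
    rcases Nat.lt_succ_iff_lt_or_eq.mp hj with hlt | heq
    · have h11 := h2 a ha hrec' j hlt
      have : (4 / ε * C1 + C2) * a 0 = 4 / ε * C1 * a 0 + C2 * a 0 := by ring
      linarith
    · subst heq
      have : (4 / ε * C1 + C2) * a 0 = 4 / ε * C1 * a 0 + C2 * a 0 := by ring
      linarith

/-- Landau-Kolmogorov interpolation in linear form (with a scale `t > 0`).
Proof: let `a_i` be the supremum over `x` of `t ^ i * ‖iteratedFDeriv ℝ i F x‖` (finite by `hM`).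
`second_order` with step `ε * t` (`0 < ε ≤ 1`) gives `a_{i+1} ≤ (2/ε) a_i + ε a_{i+2}` for
`i + 2 ≤ r`. By induction on `s ≤ r`, `s ≥ 1`: for every `δ > 0` there is a constant `C = C(s, δ)`
(not depending on `F`, `t`) with `a_j ≤ C a_0 + δ a_s` for all `j < s`.
Step `s → s+1`: with `a_{s-1} ≤ C a_0 + δ' a_s` and `a_s ≤ (2/ε) a_{s-1} + ε a_{s+1}` one gets
`a_s ≤ (2/ε) C a_0 + (2 δ'/ε) a_s + ε a_{s+1}`; choose `δ' = ε/4` and absorb:
`a_s ≤ (4 C/ε) a_0 + 2 ε a_{s+1}`. Then the `a_j`, `j < s`, follow from the induction hypothesis.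
Finally `a_0 ≤ a` and `a_r ≤ t ^ r * b`. (For `r = 0` take `C = 1`: `i = 0`, and
`‖F x‖ ≤ a ≤ a + b` since `b ≥ 0`.) -/
theorem interp (n : ℕ) (E : Type*) [NormedAddCommGroup E] [NormedSpace ℝ E] (r : ℕ) :
    ∃ C : ℝ, 1 ≤ C ∧ ∀ F : (Fin n → ℝ) → E, Smo F →
      (∃ M : ℝ, ∀ i ≤ r, ∀ x, ‖iteratedFDeriv ℝ i F x‖ ≤ M) →
      ∀ a b t : ℝ, 0 < t → (∀ x, ‖F x‖ ≤ a) → (∀ x, ‖iteratedFDeriv ℝ r F x‖ ≤ b) →
        ∀ i ≤ r, ∀ x, t ^ i * ‖iteratedFDeriv ℝ i F x‖ ≤ C * (a + t ^ r * b) := by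
  obtain ⟨C0, hC0, h0⟩ : ∃ C : ℝ, 0 ≤ C ∧ ∀ A : ℕ → ℝ, (∀ i, 0 ≤ A i) →
      (∀ ε : ℝ, 0 < ε → ε ≤ 1 → ∀ i, i + 2 ≤ r → A (i + 1) ≤ 2 / ε * A i + ε * A (i + 2)) →
      ∀ j, j < r → A j ≤ C * A 0 + 1 * A r := by
    cases r with
    | zero => exact ⟨0, le_rfl, fun A _ _ j hj => absurd hj (Nat.not_lt_zero j)⟩
    | succ s => exact Interp_seq s 1 one_pos
  refine ⟨max 1 C0, le_max_left _ _, ?_⟩
  rintro F hF ⟨M, hM⟩ a b t ht ha hb i hi x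
  set A : ℕ → ℝ := fun i => t ^ i * ⨆ x, ‖iteratedFDeriv ℝ i F x‖ with hA
  have hbd : ∀ i ≤ r, ∀ x, ‖iteratedFDeriv ℝ i F x‖ ≤ ⨆ x, ‖iteratedFDeriv ℝ i F x‖ := by
    intro i hi x
    refine le_ciSup (f := fun x => ‖iteratedFDeriv ℝ i F x‖) ⟨M, ?_⟩ x
    rintro _ ⟨y, rfl⟩
    exact hM i hi y
  have hA0 : ∀ i, 0 ≤ A i := fun i =>
    mul_nonneg (pow_nonneg ht.le i) (Real.iSup_nonneg fun x => norm_nonneg _)
  have hrec : ∀ ε : ℝ, 0 < ε → ε ≤ 1 → ∀ i, i + 2 ≤ r →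
      A (i + 1) ≤ 2 / ε * A i + ε * A (i + 2) := by
    intro ε hε _ i hi
    have h1 : ∀ x, ‖iteratedFDeriv ℝ (i + 1) F x‖ ≤
        (2 * (⨆ x, ‖iteratedFDeriv ℝ i F x‖) +
          (ε * t) ^ 2 * ⨆ x, ‖iteratedFDeriv ℝ (i + 2) F x‖) / (ε * t) := by
      intro x
      rw [le_div_iff₀ (mul_pos hε ht), mul_comm]
      exact second_order F hF i _ _ (hbd i (by omega)) (hbd (i + 2) hi) (ε * t)
        (mul_pos hε ht) x
    have h2 : (⨆ x, ‖iteratedFDeriv ℝ (i + 1) F x‖) ≤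
        (2 * (⨆ x, ‖iteratedFDeriv ℝ i F x‖) +
          (ε * t) ^ 2 * ⨆ x, ‖iteratedFDeriv ℝ (i + 2) F x‖) / (ε * t) := ciSup_le h1
    have h3 := mul_le_mul_of_nonneg_left h2 (pow_nonneg ht.le (i + 1))
    refine h3.trans (le_of_eq ?_)
    simp only [hA]
    field_simp
    try ring
  have hA0a : A 0 ≤ a := by
    simp only [hA, pow_zero, one_mul]
    refine ciSup_le fun y => ?_
    rw [norm_iteratedFDeriv_zero]
    exact ha y
  have hArb : A r ≤ t ^ r * b :=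
    mul_le_mul_of_nonneg_left (ciSup_le hb) (pow_nonneg ht.le r)
  have h1 : t ^ i * ‖iteratedFDeriv ℝ i F x‖ ≤ A i :=
    mul_le_mul_of_nonneg_left (hbd i hi x) (pow_nonneg ht.le i)
  have h2 : A i ≤ max 1 C0 * (A 0 + A r) := by
    rcases lt_or_eq_of_le hi with hlt | heq
    · have h3 := h0 A hA0 hrec i hlt
      have h4 : C0 * A 0 ≤ max 1 C0 * A 0 := mul_le_mul_of_nonneg_right (le_max_right _ _) (hA0 0)
      have h5 : 1 * A r ≤ max 1 C0 * A r := mul_le_mul_of_nonneg_right (le_max_left _ _) (hA0 r)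
      rw [mul_add]
      linarith
    · subst heq
      have h4 : 0 ≤ max 1 C0 * A 0 := mul_nonneg (zero_le_one.trans (le_max_left _ _)) (hA0 0)
      have h5 : 1 * A i ≤ max 1 C0 * A i := mul_le_mul_of_nonneg_right (le_max_left _ _) (hA0 i)
      rw [mul_add]
      linarith
  refine h1.trans (h2.trans ?_)
  exact mul_le_mul_of_nonneg_left (add_le_add hA0a hArb) (zero_le_one.trans (le_max_left _ _))

end QPR
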