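import Pool.Agent.Lib.QPR.FDef

set_option autoImplicit false

namespace QPR

open MeasureTheory

private theorem FDecay_ex_hasDerivAt (t : ℝ) :
    HasDerivAt ex (2 * Real.pi * Complex.I * ex t) t := by
  have h1 : HasDerivAt (fun s : ℝ => (2 * Real.pi * Complex.I * (s : ℂ)))
      (2 * Real.pi * Complex.I * 1) t := (Complex.ofRealCLM.hasDerivAt (x := t)).const_mul _
  have h2 := h1.cexp
  unfold ex
  convert h2 using 1
  ring

private theorem FDecay_norm_ex (t : ℝ) : ‖ex t‖ = 1 := by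
  unfold ex
  rw [show (2 * Real.pi * Complex.I * (t : ℂ)) = ((2 * Real.pi * t : ℝ) : ℂ) * Complex.I by
    push_cast; ring]
  exact Complex.norm_exp_ofReal_mul_I _

private theorem FDecay_ex_sub_int (t : ℝ) (m : ℤ) : ex (t - m) = ex t := by
  unfold ex
  rw [show (2 * Real.pi * Complex.I * ((t - m : ℝ) : ℂ)) =
    2 * Real.pi * Complex.I * (t : ℂ) + ((-m : ℤ) : ℂ) * (2 * Real.pi * Complex.I) by
    push_cast; ring]
  rw [Complex.exp_add, Complex.exp_int_mul_two_pi_mul_I, mul_one]

private noncomputable def FDecayPhi {n : ℕ} (ξ : Fin n → ℤ) : (Fin n → ℝ) →L[ℝ] ℝ :=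
  ∑ i, (ξ i : ℝ) • ContinuousLinearMap.proj i

private theorem FDecayPhi_apply {n : ℕ} (ξ : Fin n → ℤ) (x : Fin n → ℝ) :
    FDecayPhi ξ x = dotZ ξ x := by
  simp [FDecayPhi, dotZ]

private theorem FDecay_dot_hasFDerivAt {n : ℕ} (ξ : Fin n → ℤ) (x : Fin n → ℝ) :
    HasFDerivAt (fun x => dotZ ξ x) (FDecayPhi ξ) x := by
  have h := (FDecayPhi ξ).hasFDerivAt (x := x)
  have e : (fun x => dotZ ξ x) = fun x => FDecayPhi ξ x := by
    funext y
    rw [FDecayPhi_apply]
  rw [e]
  exact h

private theorem FDecay_char_hasFDerivAt {n : ℕ} (ξ : Fin n → ℤ) (x : Fin n → ℝ) :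
    HasFDerivAt (fun x => ex (-(dotZ ξ x)))
      ((ContinuousLinearMap.toSpanSingleton ℝ
        (2 * Real.pi * Complex.I * ex (-(dotZ ξ x)))).comp (-(FDecayPhi ξ))) x := by
  have h1 := (FDecay_dot_hasFDerivAt ξ x).fun_neg
  have h2 := (FDecay_ex_hasDerivAt (-(dotZ ξ x))).hasFDerivAt
  exact h2.comp x h1

private theorem FDecay_char_cont {n : ℕ} (ξ : Fin n → ℤ) :
    Continuous (fun x : Fin n → ℝ => ex (-(dotZ ξ x))) := by
  unfold ex dotZ
  fun_prop

private theorem FDecay_coef_norm_le {n : ℕ} (q : (Fin n → ℝ) → ℂ) (M : ℝ) (hM : ∀ x, ‖q x‖ ≤ M)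
    (ξ : Fin n → ℤ) : ‖coef q ξ‖ ≤ M := by
  unfold coef
  have hv : (volume : Measure (Fin n → ℝ)).real (Set.Icc (0 : Fin n → ℝ) 1) = 1 := by
    rw [Measure.real, Real.volume_Icc_pi]
    simp
  have h := norm_setIntegral_le_of_norm_le_const (μ := (volume : Measure (Fin n → ℝ)))
    (s := Set.Icc (0 : Fin n → ℝ) 1) (C := M) (f := fun x => q x * ex (-(dotZ ξ x)))
    (by exact isCompact_Icc.measure_lt_top) (fun x _ => by
      rw [norm_mul, FDecay_norm_ex, mul_one]
      exact hM x)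
  rw [hv, mul_one] at h
  exact h

private theorem FDecay_int_zero {n : ℕ} (h : (Fin (n + 1) → ℝ) → ℂ)
    (h' : (Fin (n + 1) → ℝ) → ((Fin (n + 1) → ℝ) →L[ℝ] ℂ)) (hd : ∀ x, HasFDerivAt h (h' x) x)
    (hp : Per h) (j : Fin (n + 1)) (hc : Continuous fun x => h' x (Pi.single j 1)) :
    ∫ x in Set.Icc (0 : Fin (n + 1) → ℝ) 1, h' x (Pi.single j 1) = 0 := by
  have hcont : Continuous h := continuous_iff_continuousAt.2 fun x => (hd x).continuousAt
  have hsum : ∀ x : Fin (n + 1) → ℝ,
      ∑ i, (if i = j then h' x else 0) (Pi.single i (1 : ℝ)) = h' x (Pi.single j 1) := by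
    intro x
    rw [Finset.sum_eq_single j]
    · simp
    · intro b _ hb
      simp [hb]
    · intro hj
      exact absurd (Finset.mem_univ j) hj
  have key := integral_divergence_of_hasFDerivAt_off_countable' (0 : Fin (n + 1) → ℝ) 1
    (by intro i; simp) (fun i => if i = j then h else fun _ => 0)
    (fun i x => if i = j then h' x else 0) ∅ Set.countable_empty
    (by
      intro i
      by_cases hi : i = j
      · simp only [hi, if_true]
        exact hcont.continuousOn
      · simp only [hi, if_false]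
        exact continuousOn_const)
    (by
      intro x _ i
      by_cases hi : i = j
      · simp only [hi, if_true]
        exact hd x
      · simp only [hi, if_false]
        exact hasFDerivAt_const _ _)
    (by
      simp only [hsum]
      exact hc.integrableOn_Icc)
  simp only [hsum] at key
  rw [key]
  apply Finset.sum_eq_zero
  intro i _
  by_cases hi : i = j
  · subst hi
    simp only [if_true]
    have e : ∀ y : Fin n → ℝ, h (Fin.insertNth i ((1 : Fin (n + 1) → ℝ) i) y) =
        h (Fin.insertNth i ((0 : Fin (n + 1) → ℝ) i) y) := by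
      intro y
      rw [← hp (Fin.insertNth i ((0 : Fin (n + 1) → ℝ) i) y) (Pi.single i 1)]
      congr 1
      funext l
      rcases Fin.eq_self_or_eq_succAbove i l with rfl | ⟨l', rfl⟩
      · simp
      · simp
    simp only [e, sub_self]
  · simp only [hi, if_false]
    simp

private theorem FDecay_step {n : ℕ} (g : (Fin (n + 1) → ℝ) → ℂ) (hg : ContDiff ℝ 1 g)
    (hp : Per g) (ξ : Fin (n + 1) → ℤ) (j : Fin (n + 1)) :
    coef (fun x => fderiv ℝ g x (Pi.single j 1)) ξ =
      (2 * Real.pi * Complex.I * (ξ j : ℂ)) * coef g ξ := by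
  have hgd : Differentiable ℝ g := hg.differentiable (by norm_num)
  have hgc : Continuous fun x => fderiv ℝ g x (Pi.single j 1) :=
    (hg.continuous_fderiv (by norm_num)).clm_apply continuous_const
  have hgc0 : Continuous g := hg.continuous
  have hec := FDecay_char_cont ξ
  have hd : ∀ x, HasFDerivAt (fun x => g x * ex (-(dotZ ξ x)))
      (g x • ((ContinuousLinearMap.toSpanSingleton ℝ
        (2 * Real.pi * Complex.I * ex (-(dotZ ξ x)))).comp (-(FDecayPhi ξ))) +
        ex (-(dotZ ξ x)) • fderiv ℝ g x) x := fun x =>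
    (hgd x).hasFDerivAt.mul (FDecay_char_hasFDerivAt ξ x)
  have hφ : FDecayPhi ξ (Pi.single j 1) = (ξ j : ℝ) := by
    rw [FDecayPhi_apply]
    unfold dotZ
    rw [Finset.sum_eq_single j]
    · simp
    · intro b _ hb
      simp [hb]
    · intro hj
      exact absurd (Finset.mem_univ j) hj
  have hval : ∀ x, (g x • ((ContinuousLinearMap.toSpanSingleton ℝ
        (2 * Real.pi * Complex.I * ex (-(dotZ ξ x)))).comp (-(FDecayPhi ξ))) +
        ex (-(dotZ ξ x)) • fderiv ℝ g x) (Pi.single j 1) =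
      fderiv ℝ g x (Pi.single j 1) * ex (-(dotZ ξ x)) -
        (2 * Real.pi * Complex.I * (ξ j : ℂ)) * (g x * ex (-(dotZ ξ x))) := by
    intro x
    simp only [add_apply, smul_apply,
      ContinuousLinearMap.comp_apply, neg_apply, hφ,
      ContinuousLinearMap.toSpanSingleton_apply, smul_eq_mul, Complex.real_smul]
    push_cast
    ring
  have hper : Per (fun x => g x * ex (-(dotZ ξ x))) := by
    intro x k
    simp only
    rw [hp x k]
    congr 1
    have : dotZ ξ (x + fun i => (k i : ℝ)) = dotZ ξ x + ((∑ i, ξ i * k i : ℤ) : ℝ) := by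
      unfold dotZ
      push_cast
      rw [← Finset.sum_add_distrib]
      refine Finset.sum_congr rfl fun i _ => ?_
      simp only [Pi.add_apply]
      ring
    rw [this, neg_add, ← sub_eq_add_neg, FDecay_ex_sub_int]
  have h0 := FDecay_int_zero _ _ hd hper j (by
    simp only [hval]
    exact (hgc.mul hec).sub (continuous_const.mul (hgc0.mul hec)))
  simp only [hval] at h0
  have i1 : IntegrableOn (fun x : Fin (n + 1) → ℝ =>
      fderiv ℝ g x (Pi.single j 1) * ex (-(dotZ ξ x))) (Set.Icc 0 1) :=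
    (hgc.mul hec).integrableOn_Icc
  have i2 : IntegrableOn (fun x : Fin (n + 1) → ℝ =>
      (2 * Real.pi * Complex.I * (ξ j : ℂ)) * (g x * ex (-(dotZ ξ x)))) (Set.Icc 0 1) :=
    (continuous_const.mul (hgc0.mul hec)).integrableOn_Icc
  rw [integral_sub i1 i2, integral_const_mul] at h0
  unfold coef
  exact sub_eq_zero.1 h0

private theorem FDecay_iter {n : ℕ} (q : (Fin (n + 1) → ℝ) → ℂ) (hq : Smo q) (hp : Per q)
    (ξ : Fin (n + 1) → ℤ) (j : Fin (n + 1)) (p : ℕ) :
    coef (fun x => iteratedFDeriv ℝ p q x (fun _ => Pi.single j 1)) ξ =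
      (2 * Real.pi * Complex.I * (ξ j : ℂ)) ^ p * coef q ξ := by
  induction p with
  | zero => simp [iteratedFDeriv_zero_apply]
  | succ p ih =>
    have hcd : ContDiff ℝ 1 (iteratedFDeriv ℝ p q) := by
      refine ContDiff.iteratedFDeriv_right hq ?_
      exact_mod_cast le_top
    have hG : ContDiff ℝ 1 (fun x => iteratedFDeriv ℝ p q x (fun _ => Pi.single j 1)) :=
      (ContinuousMultilinearMap.apply ℝ (fun _ : Fin p => (Fin (n + 1) → ℝ)) ℂ
        (fun _ => Pi.single j 1)).contDiff.comp hcd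
    have hper : Per (fun x => iteratedFDeriv ℝ p q x (fun _ => Pi.single j (1 : ℝ))) := by
      intro x k
      simp only
      have e : (fun z => q (z + fun i => (k i : ℝ))) = q := by
        funext z
        exact hp z k
      have h := iteratedFDeriv_comp_add_right (𝕜 := ℝ) (f := q) p (fun i => (k i : ℝ)) x
      rw [e] at h
      rw [← h]
    have h1 := FDecay_step _ hG hper ξ j
    rw [ih] at h1
    have e : (fun x => iteratedFDeriv ℝ (p + 1) q x (fun _ => Pi.single j (1 : ℝ))) =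
        fun x => fderiv ℝ (fun x => iteratedFDeriv ℝ p q x (fun _ => Pi.single j (1 : ℝ))) x
          (Pi.single j 1) := by
      funext x
      rw [fderiv_continuousMultilinear_apply_const_apply
        (hcd.differentiable (by norm_num) x), iteratedFDeriv_succ_apply_left]
      rfl
    rw [e, h1, pow_succ]
    ring

/-- Decay of Fourier coefficients of a smooth periodic function. Let `j` be an index with
`|ξ j| = ‖ξ‖` (sup norm). Integrating by parts `p` times in the `j`-th variable (Fubini; the boundary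
terms cancel by periodicity), `(2 π |ξ j|)^p * ‖coef q ξ‖ ≤ sup ‖∂_j^p q‖ ≤ H`. (If `n = 0` or
`ξ = 0` the left side is `0` for `p ≥ 1`, and for `p = 0` it is the trivial bound.) -/
theorem coef_decay {n : ℕ} (q : (Fin n → ℝ) → ℂ) (hq : Smo q) (hp : Per q) (p : ℕ) (H : ℝ)
    (hH : ∀ x, ‖iteratedFDeriv ℝ p q x‖ ≤ H) (ξ : Fin n → ℤ) :
    ‖coef q ξ‖ * ‖ξ‖ ^ p ≤ H := by
  have hH0 : 0 ≤ H := (norm_nonneg _).trans (hH 0)
  rcases Nat.eq_zero_or_pos p with rfl | hp0
  · rw [pow_zero, mul_one]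
    exact FDecay_coef_norm_le q H (fun x => by
      have := hH x
      rwa [norm_iteratedFDeriv_zero] at this) ξ
  rcases eq_or_lt_of_le (norm_nonneg ξ) with h0 | h0
  · rw [← h0, zero_pow hp0.ne', mul_zero]
    exact hH0
  obtain ⟨j, hj⟩ : ∃ j, ‖ξ‖ ≤ ‖ξ j‖ := by
    by_contra hcon
    push Not at hcon
    exact absurd ((pi_norm_lt_iff h0).2 hcon) (lt_irrefl _)
  cases n with
  | zero => exact j.elim0
  | succ n =>
    have h1 := FDecay_iter q hq hp ξ j p
    have h2 : ‖coef (fun x => iteratedFDeriv ℝ p q x (fun _ => Pi.single j (1 : ℝ))) ξ‖ ≤ H := by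
      apply FDecay_coef_norm_le
      intro x
      refine ((iteratedFDeriv ℝ p q x).le_opNorm _).trans ?_
      rw [Finset.prod_eq_one, mul_one]
      · exact hH x
      · intro i _
        rw [Pi.norm_single, norm_one]
    rw [h1, norm_mul, norm_pow] at h2
    have h3 : ‖ξ‖ ≤ ‖(2 * Real.pi * Complex.I * (ξ j : ℂ))‖ := by
      rw [norm_mul, norm_mul, norm_mul, Complex.norm_I, mul_one]
      have e1 : ‖(2 : ℂ)‖ = 2 := by simp
      have e2 : ‖((Real.pi : ℝ) : ℂ)‖ = Real.pi := by
        rw [Complex.norm_real, Real.norm_eq_abs, abs_of_pos Real.pi_pos]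
      have e3 : ‖((ξ j : ℤ) : ℂ)‖ = ‖ξ j‖ := by
        rw [Complex.norm_intCast, Int.norm_eq_abs]
      rw [e1, e2, e3]
      have := Real.pi_gt_three
      nlinarith [norm_nonneg (ξ j)]
    calc ‖coef q ξ‖ * ‖ξ‖ ^ p ≤
        ‖coef q ξ‖ * ‖(2 * Real.pi * Complex.I * (ξ j : ℂ))‖ ^ p := by
          gcongr
      _ = ‖(2 * Real.pi * Complex.I * (ξ j : ℂ))‖ ^ p * ‖coef q ξ‖ := mul_comm _ _
      _ ≤ H := h2

private theorem FDecay_summable_one {s : ℝ} (hs : 1 < s) :
    Summable (fun k : ℤ => (1 + ‖k‖) ^ (-s)) := by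
  have h1 : Summable fun k : ℕ => (1 + (k : ℝ)) ^ (-s) := by
    have h := (Real.summable_nat_rpow (p := -s)).2 (by linarith)
    have h2 := (summable_nat_add_iff 1).2 h
    refine h2.congr fun k => ?_
    push_cast
    rw [add_comm]
  rw [summable_int_iff_summable_nat_and_neg]
  constructor
  · refine h1.congr fun k => ?_
    simp
  · refine h1.congr fun k => ?_
    simp

/-- Summability over the lattice. -/
theorem summable_lattice (n : ℕ) :
    Summable (fun ξ : Fin n → ℤ => 1 / (1 + ‖ξ‖) ^ (n + 1)) := by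
  rcases Nat.eq_zero_or_pos n with rfl | hn
  · exact (hasSum_fintype _).summable
  have hn' : (0 : ℝ) < n := Nat.cast_pos.2 hn
  set s : ℝ := ((n : ℝ) + 1) / n with hs
  have hs1 : 1 < s := by
    rw [hs, lt_div_iff₀ hn']
    linarith
  have hg := FDecay_summable_one hs1
  have hg0 : ∀ k : ℤ, 0 ≤ (1 + ‖k‖) ^ (-s) := fun k => by positivity
  refine summable_of_sum_le (c := (∑' k : ℤ, (1 + ‖k‖) ^ (-s)) ^ n) (fun ξ => by positivity) ?_
  intro u
  have hpt : ∀ ξ : Fin n → ℤ, 1 / (1 + ‖ξ‖) ^ (n + 1) ≤ ∏ i, (1 + ‖ξ i‖) ^ (-s) := by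
    intro ξ
    have e1 : 1 / (1 + ‖ξ‖) ^ (n + 1) = ∏ _i : Fin n, (1 + ‖ξ‖) ^ (-s) := by
      rw [Finset.prod_const, Finset.card_univ, Fintype.card_fin,
        ← Real.rpow_natCast ((1 + ‖ξ‖) ^ (-s)) n, ← Real.rpow_mul (by positivity), one_div,
        ← Real.rpow_natCast _ (n + 1), ← Real.rpow_neg (by positivity)]
      congr 1
      rw [hs]
      push_cast
      field_simp
    rw [e1]
    refine Finset.prod_le_prod (fun i _ => by positivity) fun i _ => ?_
    exact Real.rpow_le_rpow_of_nonpos (by positivity) (by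
      have := norm_le_pi_norm ξ i
      linarith) (by linarith)
  classical
  calc ∑ ξ ∈ u, 1 / (1 + ‖ξ‖) ^ (n + 1) ≤ ∑ ξ ∈ u, ∏ i, (1 + ‖ξ i‖) ^ (-s) :=
        Finset.sum_le_sum fun ξ _ => hpt ξ
    _ ≤ ∑ ξ ∈ Fintype.piFinset (fun i : Fin n => u.image fun ξ => ξ i),
        ∏ i, (1 + ‖ξ i‖) ^ (-s) := by
        refine Finset.sum_le_sum_of_subset_of_nonneg ?_ fun ξ _ _ =>
          Finset.prod_nonneg fun i _ => hg0 _
        intro ξ hξ
        rw [Fintype.mem_piFinset]
        intro i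
        exact Finset.mem_image_of_mem (fun ξ : Fin n → ℤ => ξ i) hξ
    _ = ∏ i : Fin n, ∑ k ∈ u.image (fun ξ => ξ i), (1 + ‖k‖) ^ (-s) :=
        (Finset.prod_univ_sum (fun i : Fin n => u.image fun ξ => ξ i)
          (fun _ k => (1 + ‖k‖) ^ (-s))).symm
    _ ≤ ∏ _i : Fin n, ∑' k : ℤ, (1 + ‖k‖) ^ (-s) := by
        refine Finset.prod_le_prod (fun i _ => Finset.sum_nonneg fun k _ => hg0 k) fun i _ => ?_
        exact hg.sum_le_tsum _ fun k _ => hg0 k
    _ = (∑' k : ℤ, (1 + ‖k‖) ^ (-s)) ^ n := by simp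

end QPR
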