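import Pool.Agent.Lib.QPR.FDef

set_option autoImplicit false

namespace QPR

open MeasureTheory

/-- the projection `R^n -> T^n`. -/
private noncomputable def FInv_pr (n : ℕ) (x : Fin n → ℝ) : UnitAddTorus (Fin n) :=
  fun i => (x i : UnitAddCircle)

private theorem FInv_pr_quot (n : ℕ) : IsOpenQuotientMap (FInv_pr n) := by
  have h : IsOpenQuotientMap (Pi.map fun (_ : Fin n) (t : ℝ) => (t : UnitAddCircle)) :=
    IsOpenQuotientMap.piMap fun _ => QuotientAddGroup.isOpenQuotientMap_mk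
  exact h

private theorem FInv_pr_eq {n : ℕ} {q : (Fin n → ℝ) → ℂ} (hp : Per q) {x y : Fin n → ℝ}
    (h : FInv_pr n x = FInv_pr n y) : q x = q y := by
  have hk : ∀ i, ∃ k : ℤ, x i = y i + (k : ℝ) := by
    intro i
    have hi : ((x i : ℝ) : UnitAddCircle) = ((y i : ℝ) : UnitAddCircle) := congrFun h i
    obtain ⟨k, hk⟩ := (QuotientAddGroup.eq_iff_sub_mem.mp hi)
    refine ⟨k, ?_⟩
    have : (k : ℝ) = x i - y i := by simpa using hk
    linarith
  choose k hk using hk
  have : x = y + fun i => (k i : ℝ) := by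
    funext i
    simpa using hk i
  rw [this]
  exact hp y k

/-- Fourier inversion (upper bound form) for continuous periodic functions with summable
coefficients: pass to `UnitAddTorus (Fin n)` (`UnitAddTorus.mFourierCoeff`,
`UnitAddTorus.hasSum_mFourier_series_apply_of_summable`). -/
theorem coef_inversion {n : ℕ} (q : (Fin n → ℝ) → ℂ) (hq : Continuous q) (hp : Per q)
    (b : (Fin n → ℤ) → ℝ) (hb : Summable b) (hqb : ∀ ξ, ‖coef q ξ‖ ≤ b ξ) (x : Fin n → ℝ) :
    ‖q x‖ ≤ ∑' ξ, b ξ := by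
  have hQ := FInv_pr_quot n
  let Q : C(UnitAddTorus (Fin n), ℂ) := 
    ⟨fun y => q (Function.surjInv hQ.surjective y), by
      rw [← hQ.continuous_comp_iff]
      refine hq.congr fun x => ?_
      exact FInv_pr_eq hp (Function.surjInv_eq hQ.surjective _).symm⟩
  have hQq : ∀ x, Q (FInv_pr n x) = q x := fun x =>
    FInv_pr_eq hp (Function.surjInv_eq hQ.surjective _)
  have hfm : ∀ (ξ : Fin n → ℤ) (x : Fin n → ℝ),
      UnitAddTorus.mFourier ξ (FInv_pr n x) = ex (dotZ ξ x) := by
    intro ξ x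
    simp only [UnitAddTorus.mFourier, ContinuousMap.coe_mk, FInv_pr, ex, dotZ]
    push_cast
    rw [Finset.mul_sum, Complex.exp_sum]
    refine Finset.prod_congr rfl fun i _ => ?_
    rw [fourier_coe_apply]
    congr 1
    push_cast
    ring
  have hc : ∀ ξ, UnitAddTorus.mFourierCoeff Q ξ = coef q ξ := by
    intro ξ
    rw [UnitAddTorus.mFourierCoeff_eq_integral Q ξ 0]
    have hset : ({x : Fin n → ℝ | ∀ i, x i ∈ Set.Ioc ((0 : Fin n → ℝ) i) ((0 : Fin n → ℝ) i + 1)})
        = Set.univ.pi fun i => Set.Ioc ((0 : Fin n → ℝ) i) ((1 : Fin n → ℝ) i) := by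
      ext x
      simp
    rw [hset]
    unfold coef
    have hae := Measure.univ_pi_Ioc_ae_eq_Icc (μ := fun _ : Fin n => (volume : Measure ℝ))
      (f := (0 : Fin n → ℝ)) (g := (1 : Fin n → ℝ))
    rw [volume_pi, setIntegral_congr_set hae]
    refine integral_congr_ae (Filter.Eventually.of_forall fun x => ?_)
    have h1 := hQq x
    have h2 := hfm (-ξ) x
    have h3 : dotZ (-ξ) x = -(dotZ ξ x) := by
      simp [dotZ, Finset.sum_neg_distrib]
    change UnitAddTorus.mFourier (-ξ) (FInv_pr n x) • Q (FInv_pr n x) = q x * ex (-(dotZ ξ x))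
    rw [h1, h2, h3, smul_eq_mul]
    ring
  have hs : Summable (UnitAddTorus.mFourierCoeff Q) := by
    refine Summable.of_norm_bounded hb fun ξ => ?_
    rw [hc]
    exact hqb ξ
  have hsum := UnitAddTorus.hasSum_mFourier_series_apply_of_summable hs (FInv_pr n x)
  rw [hQq x] at hsum
  rw [← hsum.tsum_eq]
  refine tsum_of_norm_bounded hb.hasSum fun ξ => ?_
  rw [norm_smul, hc]
  have : ‖UnitAddTorus.mFourier ξ (FInv_pr n x)‖ ≤ 1 := by
    calc _ ≤ ‖(UnitAddTorus.mFourier ξ : C(UnitAddTorus (Fin n), ℂ))‖ :=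
          ContinuousMap.norm_coe_le_norm _ _
      _ = 1 := UnitAddTorus.mFourier_norm
  calc ‖coef q ξ‖ * _ ≤ ‖coef q ξ‖ * 1 := by gcongr
    _ ≤ b ξ := by simpa using hqb ξ

/-- A continuous periodic function whose Fourier coefficients vanish is zero. -/
theorem eq_zero_of_coef {n : ℕ} (q : (Fin n → ℝ) → ℂ) (hq : Continuous q) (hp : Per q)
    (h : ∀ ξ, coef q ξ = 0) : ∀ x, q x = 0 := by
  intro x
  have := coef_inversion q hq hp (fun _ => 0) summable_zero (fun ξ => by simp [h ξ]) x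
  simpa using this

end QPR
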