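import Pool.Agent.Lib.QPR.FBase
import Pool.Agent.Lib.QPR.FInv
import Pool.Agent.Lib.QPR.FDecay

set_option autoImplicit false

namespace QPR

private theorem CohEst_coef_E {n : ℕ} (lam : ℂ) (q : (Fin n → ℝ) → ℂ) (hq : Continuous q)
    (ξ : Fin n → ℤ) :
    coef (fun x => q x - (if lam = 1 then coef q 0 else 0)) ξ
      = if (ξ ≠ 0 ∨ lam ≠ 1) then coef q ξ else 0 := by
  rw [coef_sub q (fun _ => (if lam = 1 then coef q 0 else 0)) hq continuous_const, coef_const]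
  by_cases h0 : ξ = 0
  · subst h0
    by_cases hl : lam = 1
    · simp [hl]
    · simp [hl]
  · simp [h0]

private theorem CohEst_coef_g {n : ℕ} (α : Fin n → ℝ) (lam : ℂ) (q : (Fin n → ℝ) → ℂ)
    (hq : Continuous q) (hp : Per q) (ξ : Fin n → ℤ) :
    coef (fun x => lam * q (x + α) - q x) ξ = (lam * ex (dotZ ξ α) - 1) * coef q ξ := by
  have h1 : Continuous (fun x : Fin n → ℝ => lam * q (x + α)) :=
    continuous_const.mul (hq.comp (continuous_id.add continuous_const))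
  rw [coef_sub (fun x => lam * q (x + α)) q h1 hq,
    coef_mul_left (fun x => q (x + α)) lam, coef_translate q hq hp α ξ]
  ring

private theorem CohEst_contE {n : ℕ} (q : (Fin n → ℝ) → ℂ) (hq : Continuous q) (μ : ℂ) :
    Continuous (fun x => q x - μ) := hq.sub continuous_const

private theorem CohEst_perE {n : ℕ} (q : (Fin n → ℝ) → ℂ) (hq : Per q) (μ : ℂ) :
    Per (fun x => q x - μ) := by
  intro x k
  show q (x + fun i => (k i : ℝ)) - μ = q x - μ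
  rw [hq x k]

/-- Almost invariant smooth functions are almost constant. Put `E = q - μ`. All coefficients of `E`
with `ξ ≠ 0` equal those of `q`; `coef E 0 = 0` if `lam = 1`, and `= coef q 0` otherwise.
For `ξ ≠ 0` (or `ξ = 0`, `lam ≠ 1`), applying `coef` to `lam * q (x + α) - q x` gives
`‖coef q ξ‖ * ‖lam * ex (dotZ ξ α) - 1‖ ≤ κ`, so `‖coef q ξ‖ ≤ κ (1 + ‖ξ‖)^τ / c`; and
`‖coef q ξ‖ ≤ H / ‖ξ‖^p` by `coef_decay`. If `‖ξ‖ ≤ L` use the first bound: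
`≤ (κ (1+L)^(τ+n+1) / c) / (1+‖ξ‖)^(n+1)`; if `‖ξ‖ > L ≥ 1` use the second:
`‖ξ‖ ≥ (1+‖ξ‖)/2`, so `≤ 2^p H / (1+‖ξ‖)^p ≤ 2^p (H / L^(p-n-1)) / (1+‖ξ‖)^(n+1)`, `p ≥ n+1`.
Sum with `coef_inversion` and `summable_lattice`. -/
theorem coh_est (n : ℕ) (c : ℝ) (hc : 0 < c) (τ p : ℕ) (hp : n + 1 ≤ p) :
    ∃ D : ℝ, 0 < D ∧ ∀ (α : Fin n → ℝ) (lam : ℂ), ‖lam‖ = 1 →
      (∀ ξ : Fin n → ℤ, (ξ ≠ 0 ∨ lam ≠ 1) → c ≤ ‖lam * ex (dotZ ξ α) - 1‖ * (1 + ‖ξ‖) ^ τ) →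
      ∀ q : (Fin n → ℝ) → ℂ, Smo q → Per q → ∀ κ H L : ℝ, 1 ≤ L →
      (∀ x, ‖lam * q (x + α) - q x‖ ≤ κ) → (∀ x, ‖iteratedFDeriv ℝ p q x‖ ≤ H) →
      ∀ x, ‖q x - (if lam = 1 then coef q 0 else 0)‖
        ≤ D * (κ * (1 + L) ^ (τ + n + 1) + H / L ^ (p - n - 1)) := by
  set S : ℝ := ∑' ξ : Fin n → ℤ, 1 / (1 + ‖ξ‖) ^ (n + 1) with hS
  have hsum := summable_lattice n
  have hterm : ∀ ξ : Fin n → ℤ, 0 ≤ 1 / (1 + ‖ξ‖) ^ (n + 1) := fun ξ => by positivity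
  have hS1 : 0 < S := by
    have h1 : (1 : ℝ) / (1 + ‖(0 : Fin n → ℤ)‖) ^ (n + 1) ≤ S :=
      hsum.le_tsum 0 (fun ξ _ => hterm ξ)
    have h2 : (0 : ℝ) < 1 / (1 + ‖(0 : Fin n → ℤ)‖) ^ (n + 1) := by positivity
    linarith
  refine ⟨(1 / c + 2 ^ p) * S, by positivity, ?_⟩
  intro α lam hlam hdio q hq hper κ H L hL hκ hH x
  have hqc : Continuous q := hq.continuous
  have hκ0 : 0 ≤ κ := (norm_nonneg _).trans (hκ 0)
  have hH0 : 0 ≤ H := (norm_nonneg _).trans (hH 0)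
  have hL0 : 0 < L := by linarith
  set A : ℝ := κ * (1 + L) ^ (τ + n + 1) with hA
  set B : ℝ := H / L ^ (p - n - 1) with hB
  have hA0 : 0 ≤ A := by positivity
  have hB0 : 0 ≤ B := by positivity
  set M : ℝ := A / c + 2 ^ p * B with hM
  have hM0 : 0 ≤ M := by positivity
  have hAM : A / c ≤ M := by
    have : 0 ≤ 2 ^ p * B := by positivity
    linarith
  have hBM : 2 ^ p * B ≤ M := by
    have : 0 ≤ A / c := by positivity
    linarith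
  have key : ∀ ξ : Fin n → ℤ, (ξ ≠ 0 ∨ lam ≠ 1) →
      ‖coef q ξ‖ ≤ M * (1 / (1 + ‖ξ‖) ^ (n + 1)) := by
    intro ξ hξ
    have hN : 0 ≤ ‖ξ‖ := norm_nonneg ξ
    have hN1 : 0 < 1 + ‖ξ‖ := by linarith
    rw [mul_one_div, le_div_iff₀ (by positivity)]
    by_cases hle : ‖ξ‖ ≤ L
    · have h1 : ‖lam * ex (dotZ ξ α) - 1‖ * ‖coef q ξ‖ ≤ κ := by
        have := coef_norm_le (fun x => lam * q (x + α) - q x) κ hκ ξ
        rwa [CohEst_coef_g α lam q hqc hper ξ, norm_mul] at this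
      have h2 := hdio ξ hξ
      have h3 : c * ‖coef q ξ‖ ≤ κ * (1 + ‖ξ‖) ^ τ := by
        calc c * ‖coef q ξ‖
            ≤ (‖lam * ex (dotZ ξ α) - 1‖ * (1 + ‖ξ‖) ^ τ) * ‖coef q ξ‖ :=
              mul_le_mul_of_nonneg_right h2 (norm_nonneg _)
          _ = (‖lam * ex (dotZ ξ α) - 1‖ * ‖coef q ξ‖) * (1 + ‖ξ‖) ^ τ := by ring
          _ ≤ κ * (1 + ‖ξ‖) ^ τ := mul_le_mul_of_nonneg_right h1 (by positivity)
      have h4 : ‖coef q ξ‖ * (1 + ‖ξ‖) ^ (n + 1) ≤ A / c := by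
        rw [le_div_iff₀ hc]
        calc ‖coef q ξ‖ * (1 + ‖ξ‖) ^ (n + 1) * c
            = (c * ‖coef q ξ‖) * (1 + ‖ξ‖) ^ (n + 1) := by ring
          _ ≤ (κ * (1 + ‖ξ‖) ^ τ) * (1 + ‖ξ‖) ^ (n + 1) :=
              mul_le_mul_of_nonneg_right h3 (by positivity)
          _ = κ * (1 + ‖ξ‖) ^ (τ + n + 1) := by rw [mul_assoc, ← pow_add, add_assoc]
          _ ≤ κ * (1 + L) ^ (τ + n + 1) := by
              apply mul_le_mul_of_nonneg_left _ hκ0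
              exact pow_le_pow_left₀ hN1.le (by linarith) _
      exact h4.trans hAM
    · have hlt : L < ‖ξ‖ := not_le.mp hle
      have hNpos : 0 < ‖ξ‖ := hL0.trans hlt
      have hd := coef_decay q hq hper p H hH ξ
      obtain ⟨j, hj⟩ : ∃ j, p = (n + 1) + j := ⟨p - (n + 1), by omega⟩
      have hpj : p - n - 1 = j := by omega
      have h5 : ‖coef q ξ‖ * ‖ξ‖ ^ (n + 1) * L ^ j ≤ H := by
        calc ‖coef q ξ‖ * ‖ξ‖ ^ (n + 1) * L ^ j
            ≤ ‖coef q ξ‖ * ‖ξ‖ ^ (n + 1) * ‖ξ‖ ^ j := by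
              apply mul_le_mul_of_nonneg_left _ (by positivity)
              exact pow_le_pow_left₀ hL0.le hlt.le _
          _ = ‖coef q ξ‖ * ‖ξ‖ ^ p := by rw [mul_assoc, ← pow_add, hj]
          _ ≤ H := hd
      have h6 : ‖coef q ξ‖ * ‖ξ‖ ^ (n + 1) ≤ B := by
        rw [hB, hpj, le_div_iff₀ (by positivity)]
        exact h5
      have h7 : (1 + ‖ξ‖) ^ (n + 1) ≤ 2 ^ p * ‖ξ‖ ^ (n + 1) := by
        calc (1 + ‖ξ‖) ^ (n + 1) ≤ (2 * ‖ξ‖) ^ (n + 1) :=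
              pow_le_pow_left₀ hN1.le (by linarith) _
          _ = 2 ^ (n + 1) * ‖ξ‖ ^ (n + 1) := mul_pow _ _ _
          _ ≤ 2 ^ p * ‖ξ‖ ^ (n + 1) := by
              apply mul_le_mul_of_nonneg_right _ (by positivity)
              exact pow_le_pow_right₀ (by norm_num) hp
      calc ‖coef q ξ‖ * (1 + ‖ξ‖) ^ (n + 1)
          ≤ ‖coef q ξ‖ * (2 ^ p * ‖ξ‖ ^ (n + 1)) := mul_le_mul_of_nonneg_left h7 (norm_nonneg _)
        _ = 2 ^ p * (‖coef q ξ‖ * ‖ξ‖ ^ (n + 1)) := by ring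
        _ ≤ 2 ^ p * B := mul_le_mul_of_nonneg_left h6 (by positivity)
        _ ≤ M := hBM
  have hbound : ∀ ξ : Fin n → ℤ,
      ‖coef (fun x => q x - (if lam = 1 then coef q 0 else 0)) ξ‖
        ≤ M * (1 / (1 + ‖ξ‖) ^ (n + 1)) := by
    intro ξ
    rw [CohEst_coef_E lam q hqc ξ]
    by_cases hξ : ξ ≠ 0 ∨ lam ≠ 1
    · rw [if_pos hξ]
      exact key ξ hξ
    · rw [if_neg hξ, norm_zero]
      exact mul_nonneg hM0 (hterm ξ)
  have hfin := coef_inversion (fun x => q x - (if lam = 1 then coef q 0 else 0))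
    (CohEst_contE q hqc _) (CohEst_perE q hper _)
    (fun ξ => M * (1 / (1 + ‖ξ‖) ^ (n + 1))) (hsum.mul_left M) hbound x
  rw [tsum_mul_left] at hfin
  refine hfin.trans ?_
  rw [← hS]
  have hfac : M ≤ (1 / c + 2 ^ p) * (A + B) := by
    have e1 : 0 ≤ 1 / c * B := by positivity
    have e2 : 0 ≤ 2 ^ p * A := by positivity
    have e3 : A / c = 1 / c * A := by ring
    rw [hM, e3]
    nlinarith
  calc M * S ≤ ((1 / c + 2 ^ p) * (A + B)) * S := mul_le_mul_of_nonneg_right hfac hS1.le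
    _ = (1 / c + 2 ^ p) * S * (A + B) := by ring

/-- Invariant continuous functions are constant. -/
theorem coh_inv {n : ℕ} (α : Fin n → ℝ) (lam : ℂ)
    (hd : ∀ ξ : Fin n → ℤ, (ξ ≠ 0 ∨ lam ≠ 1) → lam * ex (dotZ ξ α) ≠ 1)
    (q : (Fin n → ℝ) → ℂ) (hq : Continuous q) (hp : Per q)
    (h : ∀ x, lam * q (x + α) = q x) :
    ∀ x, q x = (if lam = 1 then coef q 0 else 0) := by
  have hz : ∀ ξ : Fin n → ℤ, (ξ ≠ 0 ∨ lam ≠ 1) → coef q ξ = 0 := by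
    intro ξ hξ
    have h1 := CohEst_coef_g α lam q hq hp ξ
    have h2 : (fun x => lam * q (x + α) - q x) = fun _ => (0 : ℂ) := by
      funext x
      rw [h x, sub_self]
    rw [h2, coef_const] at h1
    have h3 : (lam * ex (dotZ ξ α) - 1) * coef q ξ = 0 := by
      rw [← h1]
      simp
    rcases mul_eq_zero.mp h3 with h4 | h4
    · exact absurd (sub_eq_zero.mp h4) (hd ξ hξ)
    · exact h4
  intro x
  have h5 := eq_zero_of_coef (fun x => q x - (if lam = 1 then coef q 0 else 0))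
    (CohEst_contE q hq _) (CohEst_perE q hp _) (fun ξ => by
      rw [CohEst_coef_E lam q hq ξ]
      by_cases hξ : ξ ≠ 0 ∨ lam ≠ 1
      · rw [if_pos hξ]
        exact hz ξ hξ
      · rw [if_neg hξ]) x
  exact sub_eq_zero.mp h5

end QPR
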