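import Pool.Agent.Lib.QPR.Basic

set_option autoImplicit false

namespace QPR

private theorem Int2_lip {n : ℕ} {E : Type*} [NormedAddCommGroup E] [NormedSpace ℝ E]
    (F : (Fin n → ℝ) → E) (hF : Smo F) (i : ℕ) (b : ℝ)
    (hb : ∀ x, ‖iteratedFDeriv ℝ (i + 2) F x‖ ≤ b) (x y : Fin n → ℝ) :
    ‖fderiv ℝ (iteratedFDeriv ℝ i F) y - fderiv ℝ (iteratedFDeriv ℝ i F) x‖ ≤ b * ‖y - x‖ := by
  have e : ‖fderiv ℝ (iteratedFDeriv ℝ i F) y - fderiv ℝ (iteratedFDeriv ℝ i F) x‖ =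
      ‖iteratedFDeriv ℝ (i + 1) F y - iteratedFDeriv ℝ (i + 1) F x‖ := by
    let L := continuousMultilinearCurryLeftEquiv ℝ (fun _ : Fin (i + 1) => (Fin n → ℝ)) E
    have h1 : L (iteratedFDeriv ℝ (i + 1) F y - iteratedFDeriv ℝ (i + 1) F x) =
      L (iteratedFDeriv ℝ (i + 1) F y) - L (iteratedFDeriv ℝ (i + 1) F x) :=
      L.toLinearEquiv.map_sub _ _
    have h2 := L.norm_map (iteratedFDeriv ℝ (i + 1) F y - iteratedFDeriv ℝ (i + 1) F x)
    rw [h1] at h2
    exact h2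
  rw [e]
  have hd : Differentiable ℝ (iteratedFDeriv ℝ (i + 1) F) :=
    hF.differentiable_iteratedFDeriv (by exact_mod_cast WithTop.coe_lt_top (i + 1))
  refine Convex.norm_image_sub_le_of_norm_fderiv_le (𝕜 := ℝ) (s := Set.univ)
    (fun z _ => hd z) (fun z _ => ?_) convex_univ (Set.mem_univ x) (Set.mem_univ y)
  rw [norm_fderiv_iteratedFDeriv]
  exact hb z

/-- Second order Landau inequality. Proof: let `G = iteratedFDeriv ℝ i F`; then
`‖fderiv ℝ G x‖ = ‖iteratedFDeriv ℝ (i+1) F x‖` (`norm_fderiv_iteratedFDeriv`), and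
`x ↦ iteratedFDeriv ℝ (i+1) F x` is `b`-Lipschitz (its derivative has norm
`‖iteratedFDeriv ℝ (i+2) F x‖ ≤ b`), so `fderiv ℝ G` is `b`-Lipschitz. For `‖v‖ ≤ 1`, the map
`s ↦ G (x + s v)` on `[0, t]` has derivative `fderiv ℝ G (x + s v) v`, hence
`‖G (x + t v) - G x - t • fderiv ℝ G x v‖ ≤ t * (b * t)` by the mean value inequality applied to
`y ↦ G y - fderiv ℝ G x y` on the ball of radius `t`
(`Convex.norm_image_sub_le_of_norm_hasFDerivWithin_le'` or similar), so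
`t * ‖fderiv ℝ G x v‖ ≤ 2 a + t ^ 2 b`. -/
theorem second_order {n : ℕ} {E : Type*} [NormedAddCommGroup E] [NormedSpace ℝ E]
    (F : (Fin n → ℝ) → E) (hF : Smo F) (i : ℕ) (a b : ℝ)
    (ha : ∀ x, ‖iteratedFDeriv ℝ i F x‖ ≤ a) (hb : ∀ x, ‖iteratedFDeriv ℝ (i + 2) F x‖ ≤ b)
    (t : ℝ) (ht : 0 < t) (x : Fin n → ℝ) :
    t * ‖iteratedFDeriv ℝ (i + 1) F x‖ ≤ 2 * a + t ^ 2 * b := by
  have hb0 : 0 ≤ b := (norm_nonneg _).trans (hb x)
  have ha0 : 0 ≤ a := (norm_nonneg _).trans (ha x)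
  have hd : Differentiable ℝ (iteratedFDeriv ℝ i F) :=
    hF.differentiable_iteratedFDeriv (by exact_mod_cast WithTop.coe_lt_top i)
  rw [← norm_fderiv_iteratedFDeriv]
  have key : ‖fderiv ℝ (iteratedFDeriv ℝ i F) x‖ ≤ (2 * a + t ^ 2 * b) / t := by
    refine ContinuousLinearMap.opNorm_le_of_unit_norm (by positivity) (fun v hv => ?_)
    have hy : x + t • v ∈ Metric.closedBall x t := by
      rw [Metric.mem_closedBall, dist_eq_norm, add_sub_cancel_left, norm_smul, hv, mul_one,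
        Real.norm_eq_abs, abs_of_pos ht]
    have h1 := Convex.norm_image_sub_le_of_norm_hasFDerivWithin_le' (𝕜 := ℝ)
      (f := iteratedFDeriv ℝ i F) (f' := fderiv ℝ (iteratedFDeriv ℝ i F))
      (φ := fderiv ℝ (iteratedFDeriv ℝ i F) x) (s := Metric.closedBall x t) (C := b * t)
      (fun z _ => (hd z).hasFDerivAt.hasFDerivWithinAt)
      (fun z hz => (Int2_lip F hF i b hb x z).trans
        (mul_le_mul_of_nonneg_left (by simpa [dist_eq_norm] using hz) hb0))
      (convex_closedBall x t) (Metric.mem_closedBall_self ht.le) hy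
    rw [add_sub_cancel_left, norm_smul, hv, mul_one, Real.norm_eq_abs, abs_of_pos ht, map_smul]
      at h1
    have h2 : ‖t • fderiv ℝ (iteratedFDeriv ℝ i F) x v‖ ≤ 2 * a + t ^ 2 * b := by
      calc ‖t • fderiv ℝ (iteratedFDeriv ℝ i F) x v‖
          = ‖(iteratedFDeriv ℝ i F (x + t • v) - iteratedFDeriv ℝ i F x) -
              (iteratedFDeriv ℝ i F (x + t • v) - iteratedFDeriv ℝ i F x -
                t • fderiv ℝ (iteratedFDeriv ℝ i F) x v)‖ := by
            congr 1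
            abel
        _ ≤ ‖iteratedFDeriv ℝ i F (x + t • v) - iteratedFDeriv ℝ i F x‖ +
              ‖iteratedFDeriv ℝ i F (x + t • v) - iteratedFDeriv ℝ i F x -
                t • fderiv ℝ (iteratedFDeriv ℝ i F) x v‖ := norm_sub_le _ _
        _ ≤ (a + a) + b * t * t :=
            add_le_add ((norm_sub_le _ _).trans (add_le_add (ha _) (ha _))) h1
        _ = 2 * a + t ^ 2 * b := by ring
    rw [norm_smul, Real.norm_eq_abs, abs_of_pos ht] at h2
    rw [le_div_iff₀ ht, mul_comm]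
    exact h2
  rw [le_div_iff₀ ht] at key
  rw [mul_comm]
  exact key

end QPR
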