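import Pool.Agent.Lib.QPR.FDef

set_option autoImplicit false

namespace QPR

open MeasureTheory

private theorem fb_norm_ex (t : ℝ) : ‖ex t‖ = 1 := by
  have : (2 * Real.pi * Complex.I * t : ℂ) = ((2 * Real.pi * t : ℝ) : ℂ) * Complex.I := by
    push_cast; ring
  rw [ex, this, Complex.norm_exp_ofReal_mul_I]

private theorem fb_ex_add (s t : ℝ) : ex (s + t) = ex s * ex t := by
  rw [ex, ex, ex, ← Complex.exp_add]
  congr 1
  push_cast
  ring

private theorem fb_ex_zero : ex 0 = 1 := by simp [ex]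

private theorem fb_ex_int (m : ℤ) : ex (m : ℝ) = 1 := by
  rw [ex]
  have : (2 * Real.pi * Complex.I * ((m : ℝ) : ℂ)) = (m : ℂ) * (2 * Real.pi * Complex.I) := by
    push_cast; ring
  rw [this, Complex.exp_int_mul_two_pi_mul_I]

private theorem fb_dot_add {n : ℕ} (ξ : Fin n → ℤ) (x y : Fin n → ℝ) :
    dotZ ξ (x + y) = dotZ ξ x + dotZ ξ y := by
  simp [dotZ, mul_add, Finset.sum_add_distrib]

private theorem fb_cont_ex {n : ℕ} (ξ : Fin n → ℤ) :
    Continuous fun x : Fin n → ℝ => ex (-(dotZ ξ x)) := by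
  unfold ex dotZ
  fun_prop

private theorem fb_vol {n : ℕ} : volume (Set.Icc (0 : Fin n → ℝ) 1) = 1 := by
  rw [Real.volume_Icc_pi]
  simp

/-- Trivial bound. -/
theorem coef_norm_le {n : ℕ} (q : (Fin n → ℝ) → ℂ) (M : ℝ) (hM : ∀ x, ‖q x‖ ≤ M)
    (ξ : Fin n → ℤ) : ‖coef q ξ‖ ≤ M := by
  have h := norm_setIntegral_le_of_norm_le_const (μ := volume) (s := Set.Icc (0 : Fin n → ℝ) 1)
    (f := fun x => q x * ex (-(dotZ ξ x))) (C := M) (by rw [fb_vol]; exact ENNReal.one_lt_top)
    (fun x _ => by rw [norm_mul, fb_norm_ex, mul_one]; exact hM x)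
  rwa [Measure.real, fb_vol, ENNReal.toReal_one, mul_one] at h

private theorem fb_cube {n : ℕ} (F : (Fin n → ℝ) → ℂ) (hF : Per F) (α : Fin n → ℝ) :
    ∫ x in Set.Icc (0 : Fin n → ℝ) 1, F (x + α) = ∫ x in Set.Icc (0 : Fin n → ℝ) 1, F x := by
  have hae : (Set.pi Set.univ fun _ : Fin n => Set.Ico (0 : ℝ) 1) =ᵐ[volume]
      Set.Icc (0 : Fin n → ℝ) 1 := Measure.univ_pi_Ico_ae_eq_Icc
  rw [← setIntegral_congr_set hae, ← setIntegral_congr_set hae,
    ← ZSpan.fundamentalDomain_pi_basisFun]
  have hfd := ZSpan.isAddFundamentalDomain' (Pi.basisFun ℝ (Fin n)) (volume : Measure (Fin n → ℝ))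
  have hfd2 := hfd.vadd_of_comm (G' := Fin n → ℝ) α
  have hinv : ∀ (g : (Submodule.span ℤ (Set.range (Pi.basisFun ℝ (Fin n)))).toAddSubgroup)
      (x : Fin n → ℝ), F (g +ᵥ x) = F x := by
    intro g x
    obtain ⟨g, hg⟩ := g
    have hg' : g ∈ Submodule.span ℤ (Set.range (Pi.basisFun ℝ (Fin n))) := hg
    rw [Module.Basis.mem_span_iff_repr_mem] at hg'
    choose k hk using hg'
    have e : g = fun i => ((k i : ℤ) : ℝ) := by
      funext i
      have := hk i
      simp at this
      exact this.symm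
    change F (g + x) = F x
    rw [add_comm, e]
    exact hF x k
  have : Countable (Submodule.span ℤ (Set.range (Pi.basisFun ℝ (Fin n)))).toAddSubgroup :=
    inferInstanceAs (Countable (Submodule.span ℤ (Set.range (Pi.basisFun ℝ (Fin n)))))
  rw [hfd.setIntegral_eq hfd2 hinv]
  have hmp : MeasurePreserving (fun x : Fin n → ℝ => x + α) volume volume :=
    measurePreserving_add_right volume α
  have hemb : MeasurableEmbedding (fun x : Fin n → ℝ => x + α) :=
    (MeasurableEquiv.addRight α).measurableEmbedding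
  rw [← hmp.setIntegral_image_emb hemb]
  congr 2
  ext x
  simp only [Set.mem_image, Set.mem_vadd_set, vadd_eq_add]
  constructor
  · rintro ⟨y, hy, rfl⟩
    exact ⟨y, hy, add_comm _ _⟩
  · rintro ⟨y, hy, rfl⟩
    exact ⟨y, hy, add_comm _ _⟩

/-- Fourier coefficients of a translate of a continuous periodic function: substitute, and use that
the integral of a periodic function over a translated unit cube does not change (`Fubini` and
`Function.Periodic.intervalIntegral_add_eq` in each variable, or transfer to `UnitAddTorus`, whose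
Haar measure is invariant). -/
theorem coef_translate {n : ℕ} (q : (Fin n → ℝ) → ℂ) (hq : Continuous q) (hp : Per q)
    (α : Fin n → ℝ) (ξ : Fin n → ℤ) :
    coef (fun x => q (x + α)) ξ = ex (dotZ ξ α) * coef q ξ := by
  have hper : Per fun x => q x * ex (-(dotZ ξ x)) := by
    intro x k
    dsimp only
    rw [hp x k, fb_dot_add, neg_add, fb_ex_add]
    have : -(dotZ ξ fun i => ((k i : ℤ) : ℝ)) = ((-(∑ i, ξ i * k i) : ℤ) : ℝ) := by
      simp [dotZ]
    rw [this, fb_ex_int, mul_one]
  have h := fb_cube _ hper α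
  rw [coef, coef, ← h, ← integral_const_mul]
  refine integral_congr_ae (Filter.Eventually.of_forall fun x => ?_)
  dsimp only
  rw [fb_dot_add, neg_add, fb_ex_add]
  have : ex (dotZ ξ α) * ex (-(dotZ ξ α)) = 1 := by
    rw [← fb_ex_add, add_neg_cancel, fb_ex_zero]
  linear_combination (-(q (x + α) * ex (-(dotZ ξ x)))) * this

theorem coef_sub {n : ℕ} (q q' : (Fin n → ℝ) → ℂ) (hq : Continuous q) (hq' : Continuous q')
    (ξ : Fin n → ℤ) : coef (fun x => q x - q' x) ξ = coef q ξ - coef q' ξ := by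
  rw [coef, coef, coef, ← integral_sub]
  · refine integral_congr_ae (Filter.Eventually.of_forall fun x => ?_)
    dsimp only
    ring
  · exact (hq.mul (fb_cont_ex ξ)).integrableOn_Icc
  · exact (hq'.mul (fb_cont_ex ξ)).integrableOn_Icc

theorem coef_mul_left {n : ℕ} (q : (Fin n → ℝ) → ℂ) (c : ℂ)
    (ξ : Fin n → ℤ) : coef (fun x => c * q x) ξ = c * coef q ξ := by
  rw [coef, coef, ← integral_const_mul]
  refine integral_congr_ae (Filter.Eventually.of_forall fun x => ?_)
  dsimp only
  ring

/-- coefficients of a constant. -/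
theorem coef_const {n : ℕ} (c : ℂ) (ξ : Fin n → ℤ) :
    coef (fun _ : Fin n → ℝ => c) ξ = if ξ = 0 then c else 0 := by
  split_ifs with h
  · subst h
    rw [coef]
    have : ∀ x : Fin n → ℝ, c * ex (-(dotZ 0 x)) = c := by
      intro x
      simp [dotZ, fb_ex_zero]
    simp only [this]
    rw [setIntegral_const, Measure.real, fb_vol, ENNReal.toReal_one, one_smul]
  · obtain ⟨j, hj⟩ : ∃ j, ξ j ≠ 0 := by
      by_contra hc
      push Not at hc
      exact h (funext hc)
    have hj' : (ξ j : ℝ) ≠ 0 := Int.cast_ne_zero.2 hj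
    set α : Fin n → ℝ := Pi.single j (1 / (2 * (ξ j : ℝ))) with hα
    have hd : dotZ ξ α = 1 / 2 := by
      rw [dotZ, Finset.sum_eq_single j]
      · rw [hα, Pi.single_eq_same]
        field_simp
      · intro i _ hi
        rw [hα, Pi.single_eq_of_ne hi, mul_zero]
      · intro hn
        exact absurd (Finset.mem_univ j) hn
    have key := coef_translate (fun _ : Fin n → ℝ => c) continuous_const (fun _ _ => rfl) α ξ
    have hex : ex (1 / 2) = -1 := by
      rw [ex]
      have : (2 * Real.pi * Complex.I * ((1 / 2 : ℝ) : ℂ)) = Real.pi * Complex.I := by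
        push_cast; ring
      rw [this, Complex.exp_pi_mul_I]
    rw [hd, hex] at key
    have : (2 : ℂ) * coef (fun _ : Fin n → ℝ => c) ξ = 0 := by linear_combination key
    exact (mul_eq_zero.1 this).resolve_left two_ne_zero

end QPR
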