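import Pool.Agent.Lib.QPR.TDef

set_option autoImplicit false

namespace QPR

/-- the iterates. -/
theorem conj_iter {d : ℕ} {α : Fin d → ℝ} {f h : UnitAddTorus (Fin d) ≃ₜ UnitAddTorus (Fin d)}
    (hc : Conj α f h) (n : ℕ) (x : UnitAddTorus (Fin d)) :
    h ((f : UnitAddTorus (Fin d) → UnitAddTorus (Fin d))^[n] x) = h x + (n : ℤ) • pr α := by
  induction n with
  | zero => simp
  | succ n ih =>
    have e : ((n + 1 : ℕ) : ℤ) • pr α = (n : ℤ) • pr α + pr α := by
      rw [Nat.cast_succ, add_smul, one_smul]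
    rw [Function.iterate_succ_apply', hc, ih, add_assoc, e]

/-- Equicontinuity of the iterates: `f^n x = h⁻¹ (h x + n α)`, translations are isometries and
`h`, `h⁻¹` are uniformly continuous (compactness). -/
theorem equi {d : ℕ} {α : Fin d → ℝ} {f h : UnitAddTorus (Fin d) ≃ₜ UnitAddTorus (Fin d)}
    (hc : Conj α f h) (ε : ℝ) (hε : 0 < ε) : ∃ δ : ℝ, 0 < δ ∧ ∀ (n : ℕ)
      (x y : UnitAddTorus (Fin d)), dist x y < δ →
      dist ((f : UnitAddTorus (Fin d) → UnitAddTorus (Fin d))^[n] x)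
        ((f : UnitAddTorus (Fin d) → UnitAddTorus (Fin d))^[n] y) < ε := by
  have h1 : UniformContinuous h.symm :=
    CompactSpace.uniformContinuous_of_continuous h.symm.continuous
  have h2 : UniformContinuous h :=
    CompactSpace.uniformContinuous_of_continuous h.continuous
  obtain ⟨δ1, hδ1, H1⟩ := Metric.uniformContinuous_iff.mp h1 ε hε
  obtain ⟨δ2, hδ2, H2⟩ := Metric.uniformContinuous_iff.mp h2 δ1 hδ1
  refine ⟨δ2, hδ2, fun n x y hxy => ?_⟩
  have e : ∀ z, (f : UnitAddTorus (Fin d) → UnitAddTorus (Fin d))^[n] z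
      = h.symm (h z + (n : ℤ) • pr α) := by
    intro z
    rw [← conj_iter hc n z, h.symm_apply_apply]
  rw [e x, e y]
  apply H1
  have h3 : dist (h x + (n : ℤ) • pr α) (h y + (n : ℤ) • pr α) = dist (h x) (h y) :=
    dist_add_right _ _ _
  rw [h3]
  exact H2 hxy

end QPR
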