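import Pool.Agent.Lib.QPR.TSm
import Pool.Agent.Lib.QPR.CohEst

set_option autoImplicit false

namespace QPR

/-- A Diophantine vector is rationally independent. -/
theorem DioV.ne {d : ℕ} {α : Fin d → ℝ} (hα : DioV α) (ξ : Fin d → ℤ) (hξ : ξ ≠ 0) :
    ex (dotZ ξ α) ≠ 1 := by
  intro h
  obtain ⟨γ, hγ, τ, hτ, hd⟩ := hα
  unfold ex at h
  rw [Complex.exp_eq_one_iff] at h
  obtain ⟨n, hn⟩ := h
  have h2 : (2 * (Real.pi : ℂ) * Complex.I) ≠ 0 := Complex.two_pi_I_ne_zero
  have h3 : ((dotZ ξ α : ℝ) : ℂ) = (n : ℂ) := by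
    have h4 : (2 * (Real.pi : ℂ) * Complex.I) * ((dotZ ξ α : ℝ) : ℂ)
        = (2 * (Real.pi : ℂ) * Complex.I) * (n : ℂ) := by
      rw [hn]; ring
    exact mul_left_cancel₀ h2 h4
  have h5 : dotZ ξ α = (n : ℝ) := by
    have h6 : ((dotZ ξ α : ℝ) : ℂ) = ((n : ℝ) : ℂ) := by
      rw [h3]; simp
    exact Complex.ofReal_injective h6
  have h7 := hd ξ hξ n
  have h8 : (∑ i, (ξ i : ℝ) * α i - (n : ℝ)) = 0 := by
    have : (∑ i, (ξ i : ℝ) * α i) = dotZ ξ α := rfl
    rw [this, h5, sub_self]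
  rw [h8, abs_zero] at h7
  have h9 : 0 < ∑ i, |(ξ i : ℝ)| := by
    obtain ⟨i, hi⟩ : ∃ i, ξ i ≠ 0 := by
      by_contra hc
      push Not at hc
      exact hξ (funext hc)
    have : (0 : ℝ) < |(ξ i : ℝ)| := abs_pos.mpr (by exact_mod_cast hi)
    exact lt_of_lt_of_le this
      (Finset.single_le_sum (f := fun i => |(ξ i : ℝ)|) (fun j _ => abs_nonneg _)
        (Finset.mem_univ i))
  have h10 : 0 < γ / (∑ i, |(ξ i : ℝ)|) ^ τ := div_pos hγ (Real.rpow_pos_of_pos h9 τ)
  linarith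

private theorem TMin_pr_add {d : ℕ} (x y : Fin d → ℝ) : pr (x + y) = pr x + pr y := by
  funext i
  simp [pr]

private theorem TMin_pr_int {d : ℕ} (k : Fin d → ℤ) : pr (fun i => (k i : ℝ)) = 0 := by
  funext i
  show ((k i : ℝ) : UnitAddCircle) = 0
  rw [AddCircle.coe_eq_zero_iff]
  exact ⟨k i, by simp⟩

private theorem TMin_pr_surj {d : ℕ} (y : UnitAddTorus (Fin d)) :
    ∃ x : Fin d → ℝ, pr x = y := by
  have h : ∀ i, ∃ t : ℝ, ((t : ℝ) : UnitAddCircle) = y i := fun i =>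
    QuotientAddGroup.mk_surjective (y i)
  choose x hx using h
  exact ⟨x, funext hx⟩

private theorem TMin_pr_cont {d : ℕ} : Continuous (pr : (Fin d → ℝ) → UnitAddTorus (Fin d)) := by
  refine continuous_pi fun i => ?_
  exact (AddCircle.continuous_mk' (1 : ℝ)).comp (continuous_apply i)

/-- Continuous invariant functions are constant: `g ∘ h⁻¹ ∘ pr` is a continuous periodic function
invariant under translation by `α`; use `coh_inv` with `lam = 1`. -/
theorem inv_const {d : ℕ} {α : Fin d → ℝ} (hα : DioV α)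
    {f h : UnitAddTorus (Fin d) ≃ₜ UnitAddTorus (Fin d)} (hc : Conj α f h)
    (g : UnitAddTorus (Fin d) → ℂ) (hg : Continuous g) (hi : ∀ x, g (f x) = g x) :
    ∀ x y, g x = g y := by
  have key : ∀ z : UnitAddTorus (Fin d), h.symm (z + pr α) = f (h.symm z) := by
    intro z
    have h1 := hc (h.symm z)
    rw [h.apply_symm_apply] at h1
    rw [← h1, h.symm_apply_apply]
  have hq := coh_inv α 1 (fun ξ hξ => by
      rw [one_mul]
      rcases hξ with hξ | hξ
      · exact hα.ne ξ hξ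
      · exact absurd rfl hξ) (fun x => g (h.symm (pr x)))
    (hg.comp (h.symm.continuous.comp TMin_pr_cont))
    (by
      intro x k
      show g (h.symm (pr (x + fun i => (k i : ℝ)))) = g (h.symm (pr x))
      rw [TMin_pr_add, TMin_pr_int, add_zero])
    (by
      intro x
      show 1 * g (h.symm (pr (x + α))) = g (h.symm (pr x))
      rw [TMin_pr_add, key, hi, one_mul])
  intro x y
  obtain ⟨u, hu⟩ := TMin_pr_surj (h x)
  obtain ⟨v, hv⟩ := TMin_pr_surj (h y)
  have h1 := hq u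
  have h2 := hq v
  simp only [hu, hv, h.symm_apply_apply] at h1 h2
  rw [h1, h2]

end QPR
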