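import Pool.Agent.Lib.QPR.CMat

set_option autoImplicit false

namespace QPR

open scoped Matrix.Norms.Operator

variable {n : ℕ} {ι : Type} [Fintype ι] [DecidableEq ι] [Nonempty ι]

private theorem AvgX_pow (C Ci : Matrix ι ι ℂ) (h : Ci * C = 1) (k : ℕ) : Ci ^ k * C ^ k = 1 := by
  induction k with
  | zero => simp
  | succ k ih =>
    rw [pow_succ Ci, pow_succ' C, mul_assoc, ← mul_assoc Ci C, h, one_mul, ih]

private theorem AvgX_npow (C : Matrix ι ι ℂ) (h : ‖C‖ ≤ 1) (k : ℕ) : ‖C ^ k‖ ≤ 1 := by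
  rcases Nat.eq_zero_or_pos k with rfl | hk
  · simp
  · exact (norm_pow_le' C hk).trans (pow_le_one₀ (norm_nonneg _) h)

private theorem AvgX_conj_close {C Ci : Matrix ι ι ℂ} (h : IsoC C Ci) (k : ℕ)
    (Y : Matrix ι ι ℂ) : ‖Ci ^ k * Y * C ^ k‖ ≤ ‖Y‖ := by
  have h1 := AvgX_npow C h.norm_le k
  have h2 := AvgX_npow Ci h.norm_inv_le k
  calc ‖Ci ^ k * Y * C ^ k‖ ≤ ‖Ci ^ k * Y‖ * ‖C ^ k‖ := norm_mul_le _ _
    _ ≤ ‖Ci ^ k‖ * ‖Y‖ * ‖C ^ k‖ := by gcongr; exact norm_mul_le _ _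
    _ ≤ 1 * ‖Y‖ * 1 := by gcongr
    _ = ‖Y‖ := by ring

/-- the conjugates of the inverse -/
private noncomputable def AvgX_U (α : Fin n → ℝ) (lam : ι → ℂ)
    (W : (Fin n → ℝ) → Matrix ι ι ℂ) (k : ℕ) (x : Fin n → ℝ) : Matrix ι ι ℂ :=
  cDi lam ^ k * Ring.inverse (W (x + (k : ℝ) • α)) * cD lam ^ k

private theorem AvgX_U_close {α : Fin n → ℝ} {lam : ι → ℂ} {A W : (Fin n → ℝ) → Matrix ι ι ℂ}
    (h : BaseS α lam A W) (k : ℕ) (x : Fin n → ℝ) : ‖AvgX_U α lam W k x - 1‖ ≤ 1 / 100 := by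
  have hI := isoC_diag lam h.lam_norm
  have e : AvgX_U α lam W k x - 1
      = cDi lam ^ k * (Ring.inverse (W (x + (k : ℝ) • α)) - 1) * cD lam ^ k := by
    rw [mul_sub, sub_mul, mul_one, AvgX_pow _ _ hI.left]
    rfl
  rw [e]
  exact (AvgX_conj_close hI k _).trans (h.closeW' _)

private theorem AvgX_X {α : Fin n → ℝ} {lam : ι → ℂ} {A W : (Fin n → ℝ) → Matrix ι ι ℂ}
    (h : BaseS α lam A W) (k : ℕ) (x : Fin n → ℝ) :
    Xn α (cDi lam) A k x = AvgX_U α lam W k x * W x := by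
  have h1 := An_conj α A W (cD lam) h.conj k x
  have h2 : An α A k x = Ring.inverse (W (x + (k : ℝ) • α)) * (cD lam ^ k * W x) := by
    rw [← h1, ← mul_assoc, Ring.inverse_mul_cancel _ (h.unitW _), one_mul]
  unfold Xn AvgX_U
  rw [h2]
  simp only [mul_assoc]

private theorem AvgX_avg (N : ℕ) (hN : 1 ≤ N) (f : ℕ → Matrix ι ι ℂ) (e : ℝ)
    (hf : ∀ k, ‖f k - 1‖ ≤ e) :
    ‖(1 / (N : ℝ)) • ∑ k ∈ Finset.range N, f k - 1‖ ≤ e := by
  have hN0 : (0 : ℝ) < N := by exact_mod_cast hN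
  have e1 : (1 / (N : ℝ)) • ∑ k ∈ Finset.range N, f k - 1
      = (1 / (N : ℝ)) • ∑ k ∈ Finset.range N, (f k - 1) := by
    rw [Finset.sum_sub_distrib, smul_sub]
    congr 1
    rw [Finset.sum_const, Finset.card_range, ← Nat.cast_smul_eq_nsmul ℝ, smul_smul]
    rw [one_div, inv_mul_cancel₀ hN0.ne', one_smul]
  rw [e1, norm_smul]
  have h1 : ‖∑ k ∈ Finset.range N, (f k - 1)‖ ≤ N * e := by
    refine (norm_sum_le _ _).trans ?_
    refine (Finset.sum_le_sum fun k _ => hf k).trans ?_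
    rw [Finset.sum_const, Finset.card_range, nsmul_eq_mul]
  rw [Real.norm_of_nonneg (by positivity)]
  calc 1 / (N : ℝ) * ‖∑ k ∈ Finset.range N, (f k - 1)‖ ≤ 1 / (N : ℝ) * (N * e) := by gcongr
    _ = e := by field_simp

/-- `X_k x = (Ci^k * (W (x + kα))⁻¹ * C^k) * W x` (from `An_conj`), hence `‖X_k - 1‖ ≤ 1/30`, and the
same for the averages. -/
theorem MN_close {α : Fin n → ℝ} {lam : ι → ℂ} {A W : (Fin n → ℝ) → Matrix ι ι ℂ}
    (h : BaseS α lam A W) (N : ℕ) (hN : 1 ≤ N) (x : Fin n → ℝ) :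
    ‖MN α lam A N x - 1‖ ≤ 1 / 30 := by
  unfold MN
  refine AvgX_avg N hN _ _ fun k => ?_
  rw [AvgX_X h k x]
  have h1 := AvgX_U_close h k x
  have h2 := h.closeW x
  have e : AvgX_U α lam W k x * W x - 1
      = (AvgX_U α lam W k x - 1) * (W x - 1) + (AvgX_U α lam W k x - 1) + (W x - 1) := by
    noncomm_ring
  rw [e]
  have h3 : ‖(AvgX_U α lam W k x - 1) * (W x - 1)‖ ≤ 1 / 100 * (1 / 100) :=
    (norm_mul_le _ _).trans (mul_le_mul h1 h2 (norm_nonneg _) (by norm_num))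
  calc _ ≤ ‖(AvgX_U α lam W k x - 1) * (W x - 1)‖ + ‖AvgX_U α lam W k x - 1‖ + ‖W x - 1‖ :=
        norm_add₃_le
    _ ≤ 1 / 100 * (1 / 100) + 1 / 100 + 1 / 100 := by gcongr
    _ ≤ 1 / 30 := by norm_num

private theorem AvgX_An_smo {α : Fin n → ℝ} {A : (Fin n → ℝ) → Matrix ι ι ℂ}
    (hA : Smo A) (hp : Per A) (k : ℕ) : Smo (An α A k) ∧ Per (An α A k) := by
  induction k with
  | zero =>
    constructor
    · exact contDiff_const
    · intro x j; rfl
  | succ k ih =>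
    constructor
    · have h1 : Smo (fun x => An α A k (x + α) * A x) :=
        (ih.1.comp (contDiff_id.add contDiff_const)).mul hA
      exact h1
    · intro x j
      rw [An_succ, An_succ, hp x j]
      congr 1
      have := ih.2 (x + α) j
      rw [← this]
      congr 1
      exact add_right_comm _ _ _

/-- `MN` is smooth and periodic. -/
theorem MN_smo {α : Fin n → ℝ} {lam : ι → ℂ} {A W : (Fin n → ℝ) → Matrix ι ι ℂ}
    (h : BaseS α lam A W) (N : ℕ) : Smo (MN α lam A N) ∧ Per (MN α lam A N) := by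
  have h1 := fun k => AvgX_An_smo (α := α) h.smoA h.perA k
  constructor
  · have h2 : Smo (fun x => (1 / (N : ℝ)) • ∑ k ∈ Finset.range N, Xn α (cDi lam) A k x) := by
      refine ContDiff.const_smul _ (ContDiff.sum fun k _ => ?_)
      exact contDiff_const.mul (h1 k).1
    exact h2
  · intro x j
    unfold MN Xn
    congr 1
    refine Finset.sum_congr rfl fun k _ => ?_
    rw [(h1 k).2 x j]

private theorem AvgX_V {α : Fin n → ℝ} {lam : ι → ℂ} {A W : (Fin n → ℝ) → Matrix ι ι ℂ}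
    (h : BaseS α lam A W) (N : ℕ) (x : Fin n → ℝ) :
    MN α lam A N x * Ring.inverse (W x)
      = (1 / (N : ℝ)) • ∑ k ∈ Finset.range N, AvgX_U α lam W k x := by
  unfold MN
  rw [smul_mul_assoc, Finset.sum_mul]
  congr 1
  refine Finset.sum_congr rfl fun k _ => ?_
  rw [AvgX_X h k x, mul_assoc, Ring.mul_inverse_cancel _ (h.unitW x), mul_one]

/-- `V_N = M_N W⁻¹ = (1/N) ∑ Ci^k (W (x + kα))⁻¹ C^k` is close to one. -/
theorem VN_close {α : Fin n → ℝ} {lam : ι → ℂ} {A W : (Fin n → ℝ) → Matrix ι ι ℂ}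
    (h : BaseS α lam A W) (N : ℕ) (hN : 1 ≤ N) (x : Fin n → ℝ) :
    ‖MN α lam A N x * Ring.inverse (W x) - 1‖ ≤ 1 / 100 := by
  rw [AvgX_V h N x]
  exact AvgX_avg N hN _ _ fun k => AvgX_U_close h k x

/-- `V_N` is almost invariant under `F ↦ Ci * F (· + α) * C` (telescoping sum). -/
theorem VN_inv {α : Fin n → ℝ} {lam : ι → ℂ} {A W : (Fin n → ℝ) → Matrix ι ι ℂ}
    (h : BaseS α lam A W) (N : ℕ) (hN : 1 ≤ N) (x : Fin n → ℝ) :
    ‖cDi lam * (MN α lam A N (x + α) * Ring.inverse (W (x + α))) * cD lam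
      - MN α lam A N x * Ring.inverse (W x)‖ ≤ 1 / N := by
  have hN0 : (0 : ℝ) < N := by exact_mod_cast hN
  rw [AvgX_V h N x, AvgX_V h N (x + α), mul_smul_comm, smul_mul_assoc, ← smul_sub,
    Finset.mul_sum, Finset.sum_mul, ← Finset.sum_sub_distrib]
  have hstep : ∀ k : ℕ, cDi lam * AvgX_U α lam W k (x + α) * cD lam
      = AvgX_U α lam W (k + 1) x := by
    intro k
    have e : x + α + (k : ℝ) • α = x + ((k + 1 : ℕ) : ℝ) • α := by
      push_cast
      rw [add_smul, one_smul, add_assoc, add_comm α]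
    unfold AvgX_U
    rw [e, pow_succ' (cDi lam), pow_succ (cD lam)]
    simp only [mul_assoc]
  have hsum : ∑ k ∈ Finset.range N, (cDi lam * AvgX_U α lam W k (x + α) * cD lam
      - AvgX_U α lam W k x) = AvgX_U α lam W N x - AvgX_U α lam W 0 x := by
    rw [← Finset.sum_range_sub (fun k => AvgX_U α lam W k x)]
    exact Finset.sum_congr rfl fun k _ => by rw [hstep k]
  rw [hsum, norm_smul, Real.norm_of_nonneg (by positivity)]
  have h1 : ‖AvgX_U α lam W N x - AvgX_U α lam W 0 x‖ ≤ 1 := by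
    have e : AvgX_U α lam W N x - AvgX_U α lam W 0 x
        = (AvgX_U α lam W N x - 1) - (AvgX_U α lam W 0 x - 1) := by abel
    rw [e]
    refine (norm_sub_le _ _).trans ?_
    have := AvgX_U_close h N x
    have := AvgX_U_close h 0 x
    linarith
  calc 1 / (N : ℝ) * ‖AvgX_U α lam W N x - AvgX_U α lam W 0 x‖ ≤ 1 / (N : ℝ) * 1 := by gcongr
    _ = 1 / N := mul_one _

private theorem AvgX_unit {Y : Matrix ι ι ℂ} (h : ‖Y - 1‖ ≤ 1 / 30) : IsUnit Y := by
  haveI : CompleteSpace (Matrix ι ι ℂ) := FiniteDimensional.complete ℂ _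
  have h1 : ‖(1 : Matrix ι ι ℂ) - Y‖ < 1 := by
    rw [norm_sub_rev]
    linarith
  have h2 := isUnit_one_sub_of_norm_lt_one h1
  rwa [sub_sub_cancel] at h2

private theorem AvgX_inv {Y : Matrix ι ι ℂ} (h : ‖Y - 1‖ ≤ 1 / 100) :
    ‖Ring.inverse Y - 1‖ ≤ 1 / 99 ∧ ‖Ring.inverse Y‖ ≤ 2 := by
  have hu : IsUnit Y := AvgX_unit (h.trans (by norm_num))
  have e : Ring.inverse Y - 1 = -((Y - 1) * Ring.inverse Y) := by
    rw [sub_mul, Ring.mul_inverse_cancel _ hu, one_mul]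
    abel
  have h1 : ‖Ring.inverse Y - 1‖ ≤ 1 / 100 * ‖Ring.inverse Y‖ := by
    rw [e, norm_neg]
    exact (norm_mul_le _ _).trans (mul_le_mul_of_nonneg_right h (norm_nonneg _))
  have h2 : ‖Ring.inverse Y‖ ≤ ‖Ring.inverse Y - 1‖ + 1 := by
    have := norm_add_le (Ring.inverse Y - 1) 1
    rwa [sub_add_cancel, norm_one] at this
  constructor <;> linarith

private theorem AvgX_Q {α : Fin n → ℝ} {lam : ι → ℂ} {A W : (Fin n → ℝ) → Matrix ι ι ℂ}
    (h : BaseS α lam A W) (N : ℕ) (hN : 1 ≤ N) (x : Fin n → ℝ) :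
    QN α lam A N x = (MN α lam A (N ^ 2) x * Ring.inverse (W x)) *
      Ring.inverse (MN α lam A N x * Ring.inverse (W x)) := by
  have hM : IsUnit (MN α lam A N x) := AvgX_unit (MN_close h N hN x)
  have hV : IsUnit (MN α lam A N x * Ring.inverse (W x)) :=
    AvgX_unit ((VN_close h N hN x).trans (by norm_num))
  unfold QN
  have e : Ring.inverse (W x) * Ring.inverse (MN α lam A N x * Ring.inverse (W x))
      = Ring.inverse (MN α lam A N x) := by
    have h1 : MN α lam A N x * (Ring.inverse (W x) *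
        Ring.inverse (MN α lam A N x * Ring.inverse (W x))) = 1 := by
      rw [← mul_assoc, Ring.mul_inverse_cancel _ hV]
    calc _ = Ring.inverse (MN α lam A N x) * MN α lam A N x * (Ring.inverse (W x) *
        Ring.inverse (MN α lam A N x * Ring.inverse (W x))) := by
          rw [Ring.inverse_mul_cancel _ hM, one_mul]
      _ = Ring.inverse (MN α lam A N x) := by rw [mul_assoc, h1, mul_one]
  rw [mul_assoc, e]

private theorem AvgX_sq {N : ℕ} (hN : 1 ≤ N) : 1 ≤ N ^ 2 := Nat.one_le_pow _ _ hN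

/-- `Q_N = M_{N²} M_N⁻¹ = V_{N²} V_N⁻¹` is close to one. -/
theorem QN_close {α : Fin n → ℝ} {lam : ι → ℂ} {A W : (Fin n → ℝ) → Matrix ι ι ℂ}
    (h : BaseS α lam A W) (N : ℕ) (hN : 1 ≤ N) (x : Fin n → ℝ) :
    ‖QN α lam A N x - 1‖ ≤ 1 / 10 := by
  rw [AvgX_Q h N hN x]
  have h1 := VN_close h (N ^ 2) (AvgX_sq hN) x
  have h2 := AvgX_inv (VN_close h N hN x)
  set a := MN α lam A (N ^ 2) x * Ring.inverse (W x)
  set b := Ring.inverse (MN α lam A N x * Ring.inverse (W x))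
  have e : a * b - 1 = (a - 1) * (b - 1) + (a - 1) + (b - 1) := by noncomm_ring
  rw [e]
  have h3 : ‖(a - 1) * (b - 1)‖ ≤ 1 / 100 * (1 / 99) :=
    (norm_mul_le _ _).trans (mul_le_mul h1 h2.1 (norm_nonneg _) (by norm_num))
  calc _ ≤ ‖(a - 1) * (b - 1)‖ + ‖a - 1‖ + ‖b - 1‖ := norm_add₃_le
    _ ≤ 1 / 100 * (1 / 99) + 1 / 100 + 1 / 99 := by
        have := h2.1
        gcongr
    _ ≤ 1 / 10 := by norm_num

theorem QN_smo {α : Fin n → ℝ} {lam : ι → ℂ} {A W : (Fin n → ℝ) → Matrix ι ι ℂ}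
    (h : BaseS α lam A W) (N : ℕ) (hN : 1 ≤ N) : Smo (QN α lam A N) ∧ Per (QN α lam A N) := by
  haveI : CompleteSpace (Matrix ι ι ℂ) := FiniteDimensional.complete ℂ _
  have h1 := MN_smo h N
  have h2 := MN_smo h (N ^ 2)
  constructor
  · have h3 : Smo (fun x => Ring.inverse (MN α lam A N x)) := by
      refine contDiff_iff_contDiffAt.mpr ?_
      intro x
      obtain ⟨u, hu⟩ := AvgX_unit (MN_close h N hN x)
      have h4 := contDiffAt_ringInverse ℝ u (n := ((⊤ : ℕ∞) : WithTop ℕ∞))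
      rw [hu] at h4
      exact h4.comp x h1.1.contDiffAt
    exact h2.1.mul h3
  · intro x j
    unfold QN
    rw [h1.2 x j, h2.2 x j]

/-- `Q_N = V_{N²} V_N⁻¹` is almost invariant. -/
theorem QN_inv {α : Fin n → ℝ} {lam : ι → ℂ} {A W : (Fin n → ℝ) → Matrix ι ι ℂ}
    (h : BaseS α lam A W) (N : ℕ) (hN : 1 ≤ N) (x : Fin n → ℝ) :
    ‖cDi lam * QN α lam A N (x + α) * cD lam - QN α lam A N x‖ ≤ 10 / N := by
  have hI := isoC_diag lam h.lam_norm
  have hN0 : (0 : ℝ) < N := by exact_mod_cast hN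
  have hN1 : (1 : ℝ) ≤ N := by exact_mod_cast hN
  have ha := VN_inv h (N ^ 2) (AvgX_sq hN) x
  have hb := VN_inv h N hN x
  have ha1 := VN_close h (N ^ 2) (AvgX_sq hN) x
  have hb1 := VN_close h N hN x
  have hb2 := VN_close h N hN (x + α)
  rw [AvgX_Q h N hN x, AvgX_Q h N hN (x + α)]
  have hub : IsUnit (MN α lam A N x * Ring.inverse (W x)) := AvgX_unit (hb1.trans (by norm_num))
  have hub' : IsUnit (MN α lam A N (x + α) * Ring.inverse (W (x + α))) :=
    AvgX_unit (hb2.trans (by norm_num))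
  have hc1 := AvgX_inv hb1
  have hc2 := AvgX_inv hb2
  set a := MN α lam A (N ^ 2) x * Ring.inverse (W x) with hadef
  set b := MN α lam A N x * Ring.inverse (W x) with hbdef
  set a' := MN α lam A (N ^ 2) (x + α) * Ring.inverse (W (x + α)) with hadef'
  set b' := MN α lam A N (x + α) * Ring.inverse (W (x + α)) with hbdef'
  have e1 : cDi lam * (a' * Ring.inverse b') * cD lam - a * Ring.inverse b
      = (cDi lam * a' * cD lam - a) * (cDi lam * Ring.inverse b' * cD lam)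
        + a * (cDi lam * Ring.inverse b' * cD lam) * (b - cDi lam * b' * cD lam)
          * Ring.inverse b := by
    have p1 : cDi lam * (a' * Ring.inverse b') * cD lam
        = (cDi lam * a' * cD lam) * (cDi lam * Ring.inverse b' * cD lam) := by
      calc cDi lam * (a' * Ring.inverse b') * cD lam
          = cDi lam * a' * 1 * (Ring.inverse b' * cD lam) := by
            rw [mul_one]; simp only [mul_assoc]
        _ = cDi lam * a' * (cD lam * cDi lam) * (Ring.inverse b' * cD lam) := by rw [hI.right]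
        _ = _ := by simp only [mul_assoc]
    have p2 : (cDi lam * Ring.inverse b' * cD lam) * (cDi lam * b' * cD lam) = 1 := by
      calc (cDi lam * Ring.inverse b' * cD lam) * (cDi lam * b' * cD lam)
          = cDi lam * Ring.inverse b' * (cD lam * cDi lam) * (b' * cD lam) := by
            simp only [mul_assoc]
        _ = cDi lam * (Ring.inverse b' * b') * cD lam := by
            rw [hI.right, mul_one]; simp only [mul_assoc]
        _ = 1 := by rw [Ring.inverse_mul_cancel _ hub', mul_one, hI.left]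
    have p3 : a * (cDi lam * Ring.inverse b' * cD lam) * (b - cDi lam * b' * cD lam)
          * Ring.inverse b
        = a * (cDi lam * Ring.inverse b' * cD lam) * (b * Ring.inverse b)
          - a * ((cDi lam * Ring.inverse b' * cD lam) * (cDi lam * b' * cD lam))
            * Ring.inverse b := by noncomm_ring
    rw [p1, p3, p2, Ring.mul_inverse_cancel _ hub, mul_one, mul_one]
    noncomm_ring
  rw [e1]
  have q1 : ‖cDi lam * Ring.inverse b' * cD lam‖ ≤ 2 := by
    have := AvgX_conj_close hI 1 (Ring.inverse b')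
    rw [pow_one, pow_one] at this
    exact this.trans hc2.2
  have q2 : ‖a‖ ≤ 2 := by
    have := norm_add_le (a - 1) 1
    rw [sub_add_cancel, norm_one] at this
    linarith
  have q3 : ‖b - cDi lam * b' * cD lam‖ ≤ 1 / N := by rw [norm_sub_rev]; exact hb
  have q4 : ‖cDi lam * a' * cD lam - a‖ ≤ 1 / N := by
    refine ha.trans ?_
    push_cast
    rw [div_le_div_iff₀ (by positivity) hN0]
    nlinarith
  have t1 : ‖(cDi lam * a' * cD lam - a) * (cDi lam * Ring.inverse b' * cD lam)‖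
      ≤ 1 / N * 2 :=
    (norm_mul_le _ _).trans (mul_le_mul q4 q1 (norm_nonneg _) (by positivity))
  have t2 : ‖a * (cDi lam * Ring.inverse b' * cD lam)‖ ≤ 2 * 2 :=
    (norm_mul_le _ _).trans (mul_le_mul q2 q1 (norm_nonneg _) (by positivity))
  have t3 : ‖a * (cDi lam * Ring.inverse b' * cD lam) * (b - cDi lam * b' * cD lam)‖
      ≤ 2 * 2 * (1 / N) :=
    (norm_mul_le _ _).trans (mul_le_mul t2 q3 (norm_nonneg _) (by positivity))
  have t4 : ‖a * (cDi lam * Ring.inverse b' * cD lam) * (b - cDi lam * b' * cD lam)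
      * Ring.inverse b‖ ≤ 2 * 2 * (1 / N) * 2 :=
    (norm_mul_le _ _).trans (mul_le_mul t3 hc1.2 (norm_nonneg _) (by positivity))
  refine (norm_add_le _ _).trans ?_
  calc _ ≤ 1 / (N : ℝ) * 2 + 2 * 2 * (1 / N) * 2 := add_le_add t1 t4
    _ = 10 / N := by ring

end QPR
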