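import Mathlib

set_option autoImplicit false

/-!
# Rigidity of quasi-periodic cocycles: basic definitions

Functions on the torus `ℝ^n / ℤ^n` are `ℤ^n`-periodic functions on `Fin n → ℝ`.
-/

namespace QPR

/-- smooth (`C^∞`) functions on `ℝ^n`. -/
abbrev Smo {n : ℕ} {E : Type*} [NormedAddCommGroup E] [NormedSpace ℝ E]
    (F : (Fin n → ℝ) → E) : Prop :=
  ContDiff ℝ ((⊤ : ℕ∞) : WithTop ℕ∞) F

/-- `ℤ^n`-periodic functions on `ℝ^n`. -/
def Per {n : ℕ} {E : Type*} (F : (Fin n → ℝ) → E) : Prop :=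
  ∀ (x : Fin n → ℝ) (k : Fin n → ℤ), F (x + fun i => (k i : ℝ)) = F x

/-- `F` is smooth and its derivatives of order `i ≤ r` are bounded by `q * K ^ i`. -/
def Bd {n : ℕ} {E : Type*} [NormedAddCommGroup E] [NormedSpace ℝ E]
    (r : ℕ) (K q : ℝ) (F : (Fin n → ℝ) → E) : Prop :=
  Smo F ∧ ∀ i ≤ r, ∀ x, ‖iteratedFDeriv ℝ i F x‖ ≤ q * K ^ i

/-- the iterates `A_k (x) = A (x + (k-1) α) * ... * A (x)` of a cocycle over `x ↦ x + α`. -/
def An {n : ℕ} {𝔸 : Type*} [Monoid 𝔸] (α : Fin n → ℝ) (A : (Fin n → ℝ) → 𝔸) :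
    ℕ → (Fin n → ℝ) → 𝔸
  | 0, _ => 1
  | (k + 1), x => An α A k (x + α) * A x

/-- the normalised iterates `X_k = Ci ^ k * A_k` (`Ci` is the inverse of the constant `C`). -/
def Xn {n : ℕ} {𝔸 : Type*} [Monoid 𝔸] (α : Fin n → ℝ) (Ci : 𝔸) (A : (Fin n → ℝ) → 𝔸)
    (k : ℕ) (x : Fin n → ℝ) : 𝔸 :=
  Ci ^ k * An α A k x

/-- `C` is an invertible constant, with inverse `Ci`, and both have norm at most one (so all powers
of `C` and `Ci` have norm at most one and conjugation by them does not change norms). -/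
structure IsoC {𝔸 : Type*} [NormedRing 𝔸] (C Ci : 𝔸) : Prop where
  left : Ci * C = 1
  right : C * Ci = 1
  norm_le : ‖C‖ ≤ 1
  norm_inv_le : ‖Ci‖ ≤ 1

theorem An_zero {n : ℕ} {𝔸 : Type*} [Monoid 𝔸] (α : Fin n → ℝ) (A : (Fin n → ℝ) → 𝔸)
    (x : Fin n → ℝ) : An α A 0 x = 1 := rfl

theorem An_succ {n : ℕ} {𝔸 : Type*} [Monoid 𝔸] (α : Fin n → ℝ) (A : (Fin n → ℝ) → 𝔸)
    (k : ℕ) (x : Fin n → ℝ) : An α A (k + 1) x = An α A k (x + α) * A x := rfl

theorem An_add {n : ℕ} {𝔸 : Type*} [Monoid 𝔸] (α : Fin n → ℝ) (A : (Fin n → ℝ) → 𝔸)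
    (j k : ℕ) (x : Fin n → ℝ) : An α A (j + k) x = An α A j (x + (k : ℝ) • α) * An α A k x := by
  induction k generalizing x with
  | zero => simp [An_zero]
  | succ k ih =>
    rw [← add_assoc, An_succ, ih, An_succ, mul_assoc]
    congr 2
    rw [add_assoc]
    congr 1
    push_cast
    rw [add_smul, one_smul, add_comm]

theorem An_succ' {n : ℕ} {𝔸 : Type*} [Monoid 𝔸] (α : Fin n → ℝ) (A : (Fin n → ℝ) → 𝔸)
    (k : ℕ) (x : Fin n → ℝ) : An α A (k + 1) x = A (x + (k : ℝ) • α) * An α A k x := by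
  rw [add_comm, An_add]
  simp [An]

/-- a conjugacy `B (x + α) * A x = C * B x` gives `B (x + k α) * A_k x = C ^ k * B x`. -/
theorem An_conj {n : ℕ} {𝔸 : Type*} [Monoid 𝔸] (α : Fin n → ℝ) (A B : (Fin n → ℝ) → 𝔸) (C : 𝔸)
    (h : ∀ x, B (x + α) * A x = C * B x) (k : ℕ) (x : Fin n → ℝ) :
    B (x + (k : ℝ) • α) * An α A k x = C ^ k * B x := by
  induction k generalizing x with
  | zero => simp [An_zero]
  | succ k ih =>
    have e : x + ((k + 1 : ℕ) : ℝ) • α = x + α + (k : ℝ) • α := by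
      push_cast
      rw [add_smul, one_smul, add_assoc, add_comm α]
    rw [e, An_succ, ← mul_assoc, ih (x + α), mul_assoc, h x, ← mul_assoc, ← pow_succ]

end QPR
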