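import Pool.Agent.Lib.QPR.Basic

set_option autoImplicit false

namespace QPR

variable {n : ℕ} {E : Type*} [NormedAddCommGroup E] [NormedSpace ℝ E]

theorem Bd.smo {r : ℕ} {K q : ℝ} {F : (Fin n → ℝ) → E} (h : Bd r K q F) : Smo F := h.1

theorem Bd.norm_le {r : ℕ} {K q : ℝ} {F : (Fin n → ℝ) → E} (h : Bd r K q F) (x : Fin n → ℝ) :
    ‖F x‖ ≤ q := by
  simpa using h.2 0 (Nat.zero_le _) x

/-- larger constant. -/
theorem Bd.mono_q {r : ℕ} {K q q' : ℝ} {F : (Fin n → ℝ) → E} (h : Bd r K q F) (hK : 0 ≤ K)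
    (hq : q ≤ q') : Bd r K q' F := by
  refine ⟨h.1, fun i hi x => (h.2 i hi x).trans ?_⟩
  exact mul_le_mul_of_nonneg_right hq (pow_nonneg hK i)

/-- larger frequency. -/
theorem Bd.mono_K {r : ℕ} {K K' q : ℝ} {F : (Fin n → ℝ) → E} (h : Bd r K q F) (hK : 0 ≤ K)
    (hq : 0 ≤ q) (hKK : K ≤ K') : Bd r K' q F := by
  refine ⟨h.1, fun i hi x => (h.2 i hi x).trans ?_⟩
  exact mul_le_mul_of_nonneg_left (pow_le_pow_left₀ hK hKK i) hq

/-- lower order. -/
theorem Bd.mono_r {r r' : ℕ} {K q : ℝ} {F : (Fin n → ℝ) → E} (h : Bd r K q F)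
    (hr : r' ≤ r) : Bd r' K q F := by
  exact ⟨h.1, fun i hi x => h.2 i (hi.trans hr) x⟩

/-- sums. -/
theorem Bd.add {r : ℕ} {K q q' : ℝ} {F G : (Fin n → ℝ) → E} (h : Bd r K q F)
    (h' : Bd r K q' G) : Bd r K (q + q') (fun x => F x + G x) := by
  refine ⟨h.1.add h'.1, fun i hi x => ?_⟩
  have h1 : ContDiffAt ℝ (i : WithTop ℕ∞) F x :=
    (h.1.of_le (by exact_mod_cast le_top)).contDiffAt
  have h2 : ContDiffAt ℝ (i : WithTop ℕ∞) G x :=
    (h'.1.of_le (by exact_mod_cast le_top)).contDiffAt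
  have h3 : iteratedFDeriv ℝ i (fun x => F x + G x) x =
      iteratedFDeriv ℝ i F x + iteratedFDeriv ℝ i G x :=
    iteratedFDeriv_add_apply h1 h2
  rw [h3, add_mul]
  exact (norm_add_le _ _).trans (add_le_add (h.2 i hi x) (h'.2 i hi x))

theorem Bd.neg {r : ℕ} {K q : ℝ} {F : (Fin n → ℝ) → E} (h : Bd r K q F) :
    Bd r K q (fun x => - F x) := by
  refine ⟨h.1.neg, fun i hi x => ?_⟩
  have h3 : iteratedFDeriv ℝ i (fun x => - F x) x = - iteratedFDeriv ℝ i F x :=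
    iteratedFDeriv_neg_apply
  rw [h3, norm_neg]
  exact h.2 i hi x

/-- real multiples. -/
theorem Bd.smul {r : ℕ} {K q : ℝ} {F : (Fin n → ℝ) → E} (h : Bd r K q F) (c : ℝ) :
    Bd r K (|c| * q) (fun x => c • F x) := by
  refine ⟨h.1.const_smul c, fun i hi x => ?_⟩
  have h1 : ContDiffAt ℝ (i : WithTop ℕ∞) F x :=
    (h.1.of_le (by exact_mod_cast le_top)).contDiffAt
  have h3 : iteratedFDeriv ℝ i (fun x => c • F x) x = c • iteratedFDeriv ℝ i F x :=
    iteratedFDeriv_const_smul_apply h1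
  rw [h3, norm_smul, Real.norm_eq_abs, mul_assoc]
  exact mul_le_mul_of_nonneg_left (h.2 i hi x) (abs_nonneg c)

/-- finite sums. -/
theorem Bd.sum {r : ℕ} {K q : ℝ} (hK : 0 ≤ K) {F : ℕ → (Fin n → ℝ) → E} (N : ℕ)
    (h : ∀ k < N, Bd r K q (F k)) :
    Bd r K (N * q) (fun x => ∑ k ∈ Finset.range N, F k x) := by
  induction N with
  | zero =>
    refine ⟨?_, fun i _ x => ?_⟩
    · simpa using (contDiff_const : ContDiff ℝ ((⊤ : ℕ∞) : WithTop ℕ∞) fun _ : Fin n → ℝ => (0 : E))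
    · have h1 : (fun x : Fin n → ℝ => ∑ k ∈ Finset.range 0, F k x) = fun _ => (0 : E) := by
        funext y
        simp
      have h2 : iteratedFDeriv ℝ i (fun _ : Fin n → ℝ => (0 : E)) x = 0 := by
        have h4 := congrFun (iteratedFDeriv_zero_fun (𝕜 := ℝ) (E := Fin n → ℝ) (F := E) (n := i)) x
        simpa using h4
      rw [h1, h2]
      simp
  | succ N ih =>
    have h1 := (ih fun k hk => h k (hk.trans (Nat.lt_succ_self N))).add (h N (Nat.lt_succ_self N))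
    have h2 : (fun x : Fin n → ℝ => ∑ k ∈ Finset.range (N + 1), F k x) =
        fun x => (∑ k ∈ Finset.range N, F k x) + F N x := by
      funext y
      rw [Finset.sum_range_succ]
    have h3 : ((N + 1 : ℕ) : ℝ) * q = N * q + q := by
      push_cast
      ring
    rw [h2, h3]
    exact h1

/-- averages. -/
theorem Bd.avg {r : ℕ} {K q : ℝ} (hK : 0 ≤ K) {F : ℕ → (Fin n → ℝ) → E} (N : ℕ)
    (hN : 1 ≤ N) (h : ∀ k < N, Bd r K q (F k)) :
    Bd r K q (fun x => (1 / (N : ℝ)) • ∑ k ∈ Finset.range N, F k x) := by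
  have h1 := (Bd.sum hK N h).smul (1 / (N : ℝ))
  have hN' : (0 : ℝ) < N := by exact_mod_cast hN
  have h2 : |1 / (N : ℝ)| * (N * q) = q := by
    rw [abs_of_pos (by positivity)]
    field_simp
  rw [h2] at h1
  exact h1

/-- translations. -/
theorem Bd.translate {r : ℕ} {K q : ℝ} {F : (Fin n → ℝ) → E} (h : Bd r K q F) (v : Fin n → ℝ) :
    Bd r K q (fun x => F (x + v)) := by
  refine ⟨h.1.comp (contDiff_id.add contDiff_const), fun i hi x => ?_⟩
  have h3 : iteratedFDeriv ℝ i (fun x => F (x + v)) x = iteratedFDeriv ℝ i F (x + v) :=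
    iteratedFDeriv_comp_add_right i v x
  rw [h3]
  exact h.2 i hi _

/-- constants. -/
theorem Bd.const {r : ℕ} {K : ℝ} (hK : 0 ≤ K) (e : E) :
    Bd r K ‖e‖ (fun _ : Fin n → ℝ => e) := by
  refine ⟨contDiff_const, fun i _ x => ?_⟩
  rcases Nat.eq_zero_or_pos i with rfl | hi
  · simp
  · have h1 : iteratedFDeriv ℝ i (fun _ : Fin n → ℝ => e) x = 0 := by
      have h4 := congrFun (iteratedFDeriv_const_of_ne (𝕜 := ℝ) (E := Fin n → ℝ) hi.ne' e) x
      simpa using h4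
    rw [h1, norm_zero]
    positivity

/-- constant factors on both sides in a normed algebra
(`F ↦ a * F * b` is composition with a continuous linear map of norm at most `‖a‖ * ‖b‖`). -/
theorem Bd.conj {r : ℕ} {K q : ℝ} {𝔸 : Type*} [NormedRing 𝔸] [NormedAlgebra ℝ 𝔸]
    {F : (Fin n → ℝ) → 𝔸} (h : Bd r K q F) (a b : 𝔸) (ha : ‖a‖ ≤ 1) (hb : ‖b‖ ≤ 1)
    (hK : 0 ≤ K) (hq : 0 ≤ q) : Bd r K q (fun x => a * F x * b) := by
  have h1 : (fun x => a * F x * b) = (ContinuousLinearMap.mulLeftRight ℝ 𝔸 a b) ∘ F := by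
    funext x
    simp
  have h2 : ‖ContinuousLinearMap.mulLeftRight ℝ 𝔸 a b‖ ≤ 1 :=
    (ContinuousLinearMap.opNorm_mulLeftRight_apply_apply_le ℝ 𝔸 a b).trans
      (mul_le_one₀ ha (norm_nonneg b) hb)
  rw [h1]
  refine ⟨(ContinuousLinearMap.contDiff _).comp h.1, fun i hi x => ?_⟩
  have h3 : ContDiffAt ℝ (i : WithTop ℕ∞) F x :=
    (h.1.of_le (by exact_mod_cast le_top)).contDiffAt
  refine (ContinuousLinearMap.norm_iteratedFDeriv_comp_left _ h3 le_rfl).trans ?_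
  calc _ ≤ 1 * (q * K ^ i) := mul_le_mul h2 (h.2 i hi x) (norm_nonneg _) zero_le_one
    _ = q * K ^ i := one_mul _

end QPR
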