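import Pool.Agent.Lib.QPR.Interp
import Pool.Agent.Lib.QPR.BdLin

set_option autoImplicit false

namespace QPR

/-- Interpolation in terms of `Bd`: a function of size `w` which is `Bd r K q` becomes small at the
frequency scale `Λ * K` as soon as `q ≤ w * Λ ^ r`. Proof: apply `interp` with `a = w`,
`b = q * K ^ r`, `t = 1 / (Λ * K)`: `t ^ r * b = q / Λ ^ r ≤ w`. -/
theorem bd_int (n : ℕ) (E : Type*) [NormedAddCommGroup E] [NormedSpace ℝ E] (r : ℕ) :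
    ∃ C : ℝ, 1 ≤ C ∧ ∀ F : (Fin n → ℝ) → E, ∀ K q w Λ : ℝ, 0 < K → 1 ≤ Λ → 0 ≤ q → 0 ≤ w →
      Bd r K q F → (∀ x, ‖F x‖ ≤ w) → q ≤ w * Λ ^ r → Bd r (Λ * K) (C * w) F := by
  obtain ⟨C, hC1, hC⟩ := interp n E r
  refine ⟨2 * C, by linarith, ?_⟩
  intro F K q w Λ hK hΛ hq hw hF hFw hqw
  have hΛ0 : 0 < Λ := lt_of_lt_of_le one_pos hΛ
  have hΛK : 0 < Λ * K := mul_pos hΛ0 hK
  have hb : ∃ M : ℝ, ∀ i ≤ r, ∀ x, ‖iteratedFDeriv ℝ i F x‖ ≤ M := by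
    refine ⟨∑ i ∈ Finset.range (r + 1), q * K ^ i, fun i hi x => (hF.2 i hi x).trans ?_⟩
    exact Finset.single_le_sum (f := fun i => q * K ^ i)
      (fun j _ => mul_nonneg hq (pow_nonneg hK.le j)) (Finset.mem_range.mpr (by omega))
  have ht : 0 < 1 / (Λ * K) := one_div_pos.mpr hΛK
  have key := hC F hF.1 hb w (q * K ^ r) (1 / (Λ * K)) ht hFw (hF.2 r le_rfl)
  have htr : (1 / (Λ * K)) ^ r * (q * K ^ r) ≤ w := by
    have h1 : (1 / (Λ * K)) ^ r * (q * K ^ r) = q / Λ ^ r := by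
      have hKr : K ^ r ≠ 0 := pow_ne_zero _ hK.ne'
      have hLr : Λ ^ r ≠ 0 := pow_ne_zero _ hΛ0.ne'
      rw [div_pow, one_pow, mul_pow]
      field_simp
    rw [h1, div_le_iff₀ (pow_pos hΛ0 r)]
    exact hqw
  refine ⟨hF.1, fun i hi x => ?_⟩
  have h2 := key i hi x
  have h3 : (1 / (Λ * K)) ^ i * ‖iteratedFDeriv ℝ i F x‖ ≤ 2 * C * w := by
    refine h2.trans ?_
    have : C * (w + (1 / (Λ * K)) ^ r * (q * K ^ r)) ≤ C * (w + w) :=
      mul_le_mul_of_nonneg_left (by linarith) (by linarith)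
    linarith
  rw [div_pow, one_pow, one_div, inv_mul_le_iff₀ (pow_pos hΛK i)] at h3
  linarith [mul_comm ((Λ * K) ^ i) (2 * C * w)]

end QPR
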