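import Pool.Agent.Lib.QPR.BdMul

set_option autoImplicit false

namespace QPR

private theorem BdInv_bound {n : ℕ} {𝔸 : Type*} [NormedRing 𝔸] [NormedAlgebra ℝ 𝔸]
    {r : ℕ} {K q : ℝ} (hK : 0 ≤ K) (hq : 0 ≤ q) (hq2 : 2 ^ r * q ≤ 1 / 2)
    {m w : (Fin n → ℝ) → 𝔸} (h : Bd r K q m) (hw : Smo w) (e : ∀ x, w x = -(m x) - m x * w x)
    (i : ℕ) : i ≤ r → ∀ x, ‖iteratedFDeriv ℝ i w x‖ ≤ 2 * q * K ^ i := by
  induction i using Nat.strong_induction_on with
  | _ i ih =>
    intro hi x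
    have hm := h.1
    have e1 : w = fun x => -(m x) - m x * w x := funext e
    have hmi : ContDiff ℝ i m := hm.of_le (by exact_mod_cast le_top)
    have hwi : ContDiff ℝ i w := hw.of_le (by exact_mod_cast le_top)
    have hmw : ContDiff ℝ i (fun x => m x * w x) := hmi.mul hwi
    have e2 : iteratedFDeriv ℝ i w x
        = -(iteratedFDeriv ℝ i m x) - iteratedFDeriv ℝ i (fun x => m x * w x) x := by
      have e3 : w = (-m) - (fun x => m x * w x) := by
        funext y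
        simp only [Pi.sub_apply, Pi.neg_apply]
        exact e y
      conv_lhs => rw [e3]
      have hmn : ContDiff ℝ i (-m) := hmi.neg
      rw [iteratedFDeriv_sub_apply hmn.contDiffAt hmw.contDiffAt, iteratedFDeriv_neg]
      rfl
    have b1 : ‖iteratedFDeriv ℝ i m x‖ ≤ q * K ^ i := h.2 i hi x
    have b2 := norm_iteratedFDeriv_mul_le (𝕜 := ℝ) hm hw x (n := i) (by exact_mod_cast le_top)
    have b3 : ∑ l ∈ Finset.range (i + 1), (i.choose l : ℝ) * ‖iteratedFDeriv ℝ l m x‖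
        * ‖iteratedFDeriv ℝ (i - l) w x‖
        ≤ q * ‖iteratedFDeriv ℝ i w x‖ + ((2 : ℝ) ^ i - 1) * (q * (2 * q) * K ^ i) := by
      rw [Finset.sum_range_succ']
      have s0 : (i.choose 0 : ℝ) * ‖iteratedFDeriv ℝ 0 m x‖ * ‖iteratedFDeriv ℝ (i - 0) w x‖
          ≤ q * ‖iteratedFDeriv ℝ i w x‖ := by
        have := h.2 0 (Nat.zero_le _) x
        simp only [pow_zero, mul_one] at this
        simp only [Nat.choose_zero_right, Nat.cast_one, one_mul, Nat.sub_zero]
        exact mul_le_mul_of_nonneg_right this (norm_nonneg _)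
      have s1 : ∑ l ∈ Finset.range i, (i.choose (l + 1) : ℝ) * ‖iteratedFDeriv ℝ (l + 1) m x‖
          * ‖iteratedFDeriv ℝ (i - (l + 1)) w x‖
          ≤ ((2 : ℝ) ^ i - 1) * (q * (2 * q) * K ^ i) := by
        have hs : ((2 : ℝ) ^ i - 1) = ∑ l ∈ Finset.range i, (i.choose (l + 1) : ℝ) := by
          have := Nat.sum_range_choose i
          rw [Finset.sum_range_succ'] at this
          have h2 : ((2 : ℝ) ^ i) = ((∑ k ∈ Finset.range i, i.choose (k + 1) + i.choose 0 : ℕ) : ℝ) := by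
            rw [this]; push_cast; ring
          rw [h2]
          push_cast
          simp
        rw [hs, Finset.sum_mul]
        apply Finset.sum_le_sum
        intro l hl
        have hl' := Finset.mem_range.mp hl
        have c1 : ‖iteratedFDeriv ℝ (l + 1) m x‖ ≤ q * K ^ (l + 1) := h.2 (l + 1) (by omega) x
        have c2 : ‖iteratedFDeriv ℝ (i - (l + 1)) w x‖ ≤ 2 * q * K ^ (i - (l + 1)) :=
          ih (i - (l + 1)) (by omega) (by omega) x
        have c3 : K ^ (l + 1) * K ^ (i - (l + 1)) = K ^ i := by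
          rw [← pow_add]; congr 1; omega
        calc (i.choose (l + 1) : ℝ) * ‖iteratedFDeriv ℝ (l + 1) m x‖
              * ‖iteratedFDeriv ℝ (i - (l + 1)) w x‖
            ≤ (i.choose (l + 1) : ℝ) * (q * K ^ (l + 1)) * (2 * q * K ^ (i - (l + 1))) := by
              gcongr
          _ = (i.choose (l + 1) : ℝ) * (q * (2 * q) * (K ^ (l + 1) * K ^ (i - (l + 1)))) := by ring
          _ = (i.choose (l + 1) : ℝ) * (q * (2 * q) * K ^ i) := by rw [c3]
      linarith
    have b4 : ‖iteratedFDeriv ℝ i w x‖ ≤ q * K ^ i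
        + (q * ‖iteratedFDeriv ℝ i w x‖ + ((2 : ℝ) ^ i - 1) * (q * (2 * q) * K ^ i)) := by
      calc ‖iteratedFDeriv ℝ i w x‖
          = ‖-(iteratedFDeriv ℝ i m x) - iteratedFDeriv ℝ i (fun x => m x * w x) x‖ := by rw [← e2]
        _ ≤ ‖-(iteratedFDeriv ℝ i m x)‖ + ‖iteratedFDeriv ℝ i (fun x => m x * w x) x‖ :=
            norm_sub_le _ _
        _ ≤ _ := by
            rw [norm_neg]
            exact add_le_add b1 (b2.trans b3)
    have hKi : 0 ≤ K ^ i := pow_nonneg hK i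
    have hpow : (2 : ℝ) ^ i ≤ 2 ^ r := pow_le_pow_right₀ (by norm_num) hi
    have hqi : (2 : ℝ) ^ i * q ≤ 1 / 2 := (mul_le_mul_of_nonneg_right hpow hq).trans hq2
    have hq1 : q ≤ 1 / 2 := by
      have : (1 : ℝ) ≤ 2 ^ i := one_le_pow₀ (by norm_num)
      nlinarith
    have key : (1 - q) * ‖iteratedFDeriv ℝ i w x‖ ≤ (1 - q) * (2 * q * K ^ i) := by
      have hqk : 0 ≤ q * K ^ i := mul_nonneg hq hKi
      nlinarith [mul_le_mul_of_nonneg_left hqi hqk]
    exact le_of_mul_le_mul_left key (by linarith)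

/-- Inverses of functions close to one. Proof by the Neumann series
`(1 + m)⁻¹ - 1 = ∑_{j ≥ 1} (-m)^j`: by `Bd.mul` the function `x ↦ (-(m x))^j`, `j ≥ 1`, is
`Bd r K ((2^r)^(j-1) * q^j)`, and `∑_{j ≥ 1} (2^r)^(j-1) q^j = q / (1 - 2^r q) ≤ 2 q`; use
`iteratedFDeriv_tsum` / `contDiff_tsum` (Mathlib.Analysis.Calculus.SmoothSeries) and the geometric
series `tsum_geometric` / `NormedRing.inverse_one_sub` / `Ring.inverse`. -/
theorem Bd.inverse {n : ℕ} {𝔸 : Type*} [NormedRing 𝔸] [NormedAlgebra ℝ 𝔸] [CompleteSpace 𝔸]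
    [NormOneClass 𝔸] {r : ℕ} {K q : ℝ} (hK : 0 ≤ K) (hq : 0 ≤ q) (hq2 : 2 ^ r * q ≤ 1 / 2)
    {m : (Fin n → ℝ) → 𝔸} (h : Bd r K q m) :
    (∀ x, IsUnit (1 + m x)) ∧ Bd r K (2 * q) (fun x => Ring.inverse (1 + m x) - 1) := by
  have hq1 : q ≤ 1 / 2 := by
    have : (1 : ℝ) ≤ 2 ^ r := one_le_pow₀ (by norm_num)
    nlinarith
  have hn : ∀ x, ‖m x‖ ≤ q := by
    intro x
    simpa using h.2 0 (Nat.zero_le _) x
  have hu : ∀ x, IsUnit (1 + m x) := by
    intro x
    have h1 : ‖-(m x)‖ < 1 := by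
      rw [norm_neg]
      exact lt_of_le_of_lt (hn x) (by linarith)
    have h2 := (Units.oneSub (-(m x)) h1).isUnit
    simpa using h2
  have hs : Smo (fun x => Ring.inverse (1 + m x) - 1) := by
    apply ContDiff.sub _ contDiff_const
    rw [contDiff_iff_contDiffAt]
    intro x
    obtain ⟨u, hu'⟩ := hu x
    have h3 : ContDiffAt ℝ ((⊤ : ℕ∞) : WithTop ℕ∞) Ring.inverse (1 + m x) := by
      rw [← hu']
      exact contDiffAt_ringInverse ℝ u
    exact h3.comp x ((contDiff_const.add h.1).contDiffAt)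
  refine ⟨hu, hs, fun i hi x => BdInv_bound hK hq hq2 h hs ?_ i hi x⟩
  intro y
  have h4 : (1 + m y) * Ring.inverse (1 + m y) = 1 := Ring.mul_inverse_cancel _ (hu y)
  generalize Ring.inverse (1 + m y) = z at h4 ⊢
  rw [add_mul, one_mul] at h4
  have h5 : m y * z = 1 - z := eq_sub_of_add_eq' h4
  simp only [mul_sub, mul_one, h5]
  abel

end QPR
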