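import Pool.Agent.Lib.QPR.BdLin

set_option autoImplicit false

namespace QPR

/-- Leibniz rule, `norm_iteratedFDeriv_mul_le`:
`‖D^i (F G)‖ ≤ ∑ l, choose i l * (q K^l) * (q' K^(i-l)) = 2^i q q' K^i ≤ 2^r q q' K^i`. -/
theorem Bd.mul {n : ℕ} {𝔸 : Type*} [NormedRing 𝔸] [NormedAlgebra ℝ 𝔸] {r : ℕ} {K q q' : ℝ}
    (hK : 0 ≤ K) (hq : 0 ≤ q) (hq' : 0 ≤ q') {F G : (Fin n → ℝ) → 𝔸} (h : Bd r K q F)
    (h' : Bd r K q' G) : Bd r K (2 ^ r * (q * q')) (fun x => F x * G x) := by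
  refine ⟨h.1.mul h'.1, fun i hi x => ?_⟩
  have hi' : ((i : ℕ) : WithTop ℕ∞) ≤ ((⊤ : ℕ∞) : WithTop ℕ∞) := by
    exact_mod_cast le_top
  refine (norm_iteratedFDeriv_mul_le h.1 h'.1 x hi').trans ?_
  have h1 : ∑ l ∈ Finset.range (i + 1), (i.choose l : ℝ) * ‖iteratedFDeriv ℝ l F x‖ *
      ‖iteratedFDeriv ℝ (i - l) G x‖ ≤
      ∑ l ∈ Finset.range (i + 1), (i.choose l : ℝ) * (q * q' * K ^ i) := by
    refine Finset.sum_le_sum fun l hl => ?_
    have hl' : l ≤ i := Nat.lt_succ_iff.mp (Finset.mem_range.mp hl)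
    have h2 := h.2 l (hl'.trans hi) x
    have h3 := h'.2 (i - l) ((Nat.sub_le i l).trans hi) x
    have h4 : K ^ l * K ^ (i - l) = K ^ i := by
      rw [← pow_add, Nat.add_sub_cancel' hl']
    calc (i.choose l : ℝ) * ‖iteratedFDeriv ℝ l F x‖ * ‖iteratedFDeriv ℝ (i - l) G x‖
        ≤ (i.choose l : ℝ) * (q * K ^ l) * (q' * K ^ (i - l)) := by
          refine mul_le_mul (mul_le_mul_of_nonneg_left h2 (Nat.cast_nonneg _)) h3
            (norm_nonneg _) ?_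
          exact mul_nonneg (Nat.cast_nonneg _) (mul_nonneg hq (pow_nonneg hK _))
      _ = (i.choose l : ℝ) * (q * q' * (K ^ l * K ^ (i - l))) := by ring
      _ = (i.choose l : ℝ) * (q * q' * K ^ i) := by rw [h4]
  refine h1.trans ?_
  rw [← Finset.sum_mul]
  have h5 : ∑ l ∈ Finset.range (i + 1), (i.choose l : ℝ) = 2 ^ i := by
    have := Nat.sum_range_choose i
    exact_mod_cast this
  rw [h5]
  have h6 : (2 : ℝ) ^ i ≤ 2 ^ r := pow_le_pow_right₀ (by norm_num) hi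
  have h7 : 0 ≤ q * q' * K ^ i := mul_nonneg (mul_nonneg hq hq') (pow_nonneg hK _)
  calc (2 : ℝ) ^ i * (q * q' * K ^ i) ≤ 2 ^ r * (q * q' * K ^ i) :=
        mul_le_mul_of_nonneg_right h6 h7
    _ = 2 ^ r * (q * q') * K ^ i := by ring

end QPR
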