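import Pool.Agent.Lib.QPR.MatDefs

set_option autoImplicit false

namespace QPR

open scoped Matrix.Norms.Operator

variable {n : ℕ} {ι : Type} [Fintype ι] [DecidableEq ι] [Nonempty ι]

private theorem norm_le_rows (A : Matrix ι ι ℂ) {c : ℝ} (hc : 0 ≤ c) :
    ‖A‖ ≤ c ↔ ∀ i, ∑ j, ‖A i j‖ ≤ c := by
  rw [Matrix.linfty_opNorm_def]
  obtain ⟨c', rfl⟩ : ∃ c' : NNReal, (c' : ℝ) = c := ⟨⟨c, hc⟩, rfl⟩
  rw [NNReal.coe_le_coe, Finset.sup_le_iff]
  refine ⟨fun h i => ?_, fun h i _ => ?_⟩
  · have h1 := h i (Finset.mem_univ i)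
    rw [← NNReal.coe_le_coe, NNReal.coe_sum] at h1
    exact h1
  · rw [← NNReal.coe_le_coe, NNReal.coe_sum]
    exact h i

private theorem row_le (A : Matrix ι ι ℂ) (i : ι) : ∑ j, ‖A i j‖ ≤ ‖A‖ :=
  (norm_le_rows A (norm_nonneg A)).mp le_rfl i

private theorem star_mul_one {z : ℂ} (h : ‖z‖ = 1) : star z * z = 1 := by
  change (starRingEnd ℂ) z * z = 1
  rw [mul_comm, Complex.mul_conj, Complex.normSq_eq_norm_sq, h]
  simp

/-- diagonal unimodular matrices are isometric. -/
theorem isoC_diag (lam : ι → ℂ) (h : ∀ i, ‖lam i‖ = 1) : IsoC (cD lam) (cDi lam) := by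
  refine ⟨?_, ?_, ?_, ?_⟩
  · rw [cD, cDi, Matrix.diagonal_mul_diagonal, ← Matrix.diagonal_one]
    congr 1
    funext i
    exact star_mul_one (h i)
  · rw [cD, cDi, Matrix.diagonal_mul_diagonal, ← Matrix.diagonal_one]
    congr 1
    funext i
    rw [mul_comm]
    exact star_mul_one (h i)
  · rw [cD, Matrix.linfty_opNorm_diagonal, pi_norm_le_iff_of_nonneg zero_le_one]
    intro i
    rw [h i]
  · rw [cDi, Matrix.linfty_opNorm_diagonal, pi_norm_le_iff_of_nonneg zero_le_one]
    intro i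
    rw [norm_star, h i]

/-- `piC` does not increase the norm (row sums). -/
theorem norm_piC_le (lam : ι → ℂ) (b : Matrix ι ι ℂ) : ‖piC lam b‖ ≤ ‖b‖ := by
  rw [norm_le_rows _ (norm_nonneg b)]
  intro i
  refine le_trans (Finset.sum_le_sum fun j _ => ?_) (row_le b i)
  rw [piC]
  split_ifs
  · exact le_rfl
  · rw [norm_zero]
    exact norm_nonneg _

theorem piC_one (lam : ι → ℂ) : piC lam 1 = 1 := by
  ext i j
  rw [piC, Matrix.one_apply]
  by_cases h : i = j
  · rw [h, if_pos rfl]
  · rw [if_neg h, ite_self]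

theorem piC_add (lam : ι → ℂ) (a b : Matrix ι ι ℂ) :
    piC lam (a + b) = piC lam a + piC lam b := by
  ext i j
  rw [Matrix.add_apply, piC, piC, piC]
  split_ifs
  · rfl
  · rw [add_zero]

theorem piC_sub (lam : ι → ℂ) (a b : Matrix ι ι ℂ) :
    piC lam (a - b) = piC lam a - piC lam b := by
  ext i j
  rw [Matrix.sub_apply, piC, piC, piC]
  split_ifs
  · rfl
  · rw [sub_zero]

/-- `piC` is linear over the commutant. -/
theorem piC_mul (lam : ι → ℂ) (a b : Matrix ι ι ℂ) :
    piC lam (piC lam a * b) = piC lam a * piC lam b := by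
  ext i j
  rw [Matrix.mul_apply]
  change (if lam i = lam j then (piC lam a * b) i j else 0) = _
  rw [Matrix.mul_apply]
  split_ifs with h
  · refine Finset.sum_congr rfl fun k _ => ?_
    by_cases h1 : lam i = lam k
    · have h2 : lam k = lam j := h1.symm.trans h
      simp only [piC, if_pos h1, if_pos h2]
    · simp only [piC, if_neg h1, zero_mul]
  · symm
    refine Finset.sum_eq_zero fun k _ => ?_
    by_cases h1 : lam i = lam k
    · have h2 : ¬ lam k = lam j := fun h3 => h (h1.trans h3)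
      simp only [piC, if_neg h2, mul_zero]
    · simp only [piC, if_neg h1, zero_mul]

/-- elements of the commutant commute with `cD`; conjugation by `cD` fixes them. -/
theorem conj_piC (lam : ι → ℂ) (h : ∀ i, ‖lam i‖ = 1) (a : Matrix ι ι ℂ) :
    cDi lam * piC lam a * cD lam = piC lam a := by
  ext i j
  rw [cD, cDi, Matrix.mul_diagonal, Matrix.diagonal_mul]
  by_cases h1 : lam i = lam j
  · rw [← h1]
    have h2 := star_mul_one (h i)
    linear_combination (piC lam a i j) * h2
  · simp only [piC, if_neg h1, mul_zero, zero_mul]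

omit [Fintype ι] [DecidableEq ι] [Nonempty ι] in
private theorem meanM_apply (Q : (Fin n → ℝ) → Matrix ι ι ℂ) (i j : ι) :
    meanM Q i j = ∫ x in Set.Icc (0 : Fin n → ℝ) 1, Q x i j := by
  rw [meanM, coef]
  refine MeasureTheory.integral_congr_ae (Filter.Eventually.of_forall fun x => ?_)
  change Q x i j * ex (-(dotZ 0 x)) = Q x i j
  have h1 : ex (-(dotZ 0 x)) = 1 := by
    rw [ex, dotZ]
    simp
  rw [h1, mul_one]

private theorem cube_vol : (MeasureTheory.volume (Set.Icc (0 : Fin n → ℝ) 1)).toReal = 1 := by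
  rw [Real.volume_Icc_pi_toReal zero_le_one]
  simp

omit [Fintype ι] [DecidableEq ι] [Nonempty ι] in
private theorem int_entry {Q : (Fin n → ℝ) → Matrix ι ι ℂ} (hQ : Continuous Q) (i j : ι) :
    MeasureTheory.IntegrableOn (fun x => Q x i j) (Set.Icc (0 : Fin n → ℝ) 1) :=
  (hQ.matrix_elem i j).continuousOn.integrableOn_compact isCompact_Icc

/-- the mean of a function with values `ε`-close to `e` (row sums: for every row `i`,
`∑ j, ‖∫ (Q x - e) i j‖ ≤ ∫ ∑ j, ‖(Q x - e) i j‖ ≤ ε`, the cube has volume one). -/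
theorem meanM_close (Q : (Fin n → ℝ) → Matrix ι ι ℂ) (hQ : Continuous Q)
    (e : Matrix ι ι ℂ) (ε : ℝ) (h : ∀ x, ‖Q x - e‖ ≤ ε) : ‖meanM Q - e‖ ≤ ε := by
  have hε : 0 ≤ ε := (norm_nonneg _).trans (h 0)
  rw [norm_le_rows _ hε]
  intro i
  have hc : MeasureTheory.volume (Set.Icc (0 : Fin n → ℝ) 1) ≠ ⊤ :=
    isCompact_Icc.measure_lt_top.ne
  have hint : ∀ j, MeasureTheory.IntegrableOn (fun x => Q x i j - e i j)
      (Set.Icc (0 : Fin n → ℝ) 1) := fun j =>
    (int_entry hQ i j).sub (MeasureTheory.integrableOn_const hc)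
  have h1 : ∀ j, (meanM Q - e) i j = ∫ x in Set.Icc (0 : Fin n → ℝ) 1, (Q x i j - e i j) := by
    intro j
    rw [Matrix.sub_apply, meanM_apply, MeasureTheory.integral_sub (int_entry hQ i j)
      (MeasureTheory.integrableOn_const hc), MeasureTheory.setIntegral_const,
      MeasureTheory.Measure.real, cube_vol, one_smul]
  calc ∑ j, ‖(meanM Q - e) i j‖
      = ∑ j, ‖∫ x in Set.Icc (0 : Fin n → ℝ) 1, (Q x i j - e i j)‖ := by
        refine Finset.sum_congr rfl fun j _ => ?_
        rw [h1 j]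
    _ ≤ ∑ j, ∫ x in Set.Icc (0 : Fin n → ℝ) 1, ‖Q x i j - e i j‖ :=
        Finset.sum_le_sum fun j _ => MeasureTheory.norm_integral_le_integral_norm _
    _ = ∫ x in Set.Icc (0 : Fin n → ℝ) 1, ∑ j, ‖Q x i j - e i j‖ := by
        rw [MeasureTheory.integral_finsetSum]
        intro j _
        exact (hint j).norm
    _ ≤ ∫ _ in Set.Icc (0 : Fin n → ℝ) 1, ε := by
        refine MeasureTheory.integral_mono ?_ (MeasureTheory.integrableOn_const hc) fun x => ?_
        · exact MeasureTheory.integrable_finsetSum _ fun j _ => (hint j).norm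
        · exact (row_le (Q x - e) i).trans (h x)
    _ = ε := by
        rw [MeasureTheory.setIntegral_const, MeasureTheory.Measure.real, cube_vol, one_smul]

/-- the mean commutes with constant left factors. -/
theorem meanM_mul_left (Q : (Fin n → ℝ) → Matrix ι ι ℂ) (hQ : Continuous Q)
    (e : Matrix ι ι ℂ) : meanM (fun x => e * Q x) = e * meanM Q := by
  ext i j
  rw [meanM_apply, Matrix.mul_apply]
  have h1 : ∀ x, (e * Q x) i j = ∑ k, e i k * Q x k j := fun x => Matrix.mul_apply
  simp only [h1]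
  rw [MeasureTheory.integral_finsetSum]
  · refine Finset.sum_congr rfl fun k _ => ?_
    rw [MeasureTheory.integral_const_mul, meanM_apply]
  · intro k _
    exact (int_entry hQ k j).const_mul _

theorem meanM_sub (Q Q' : (Fin n → ℝ) → Matrix ι ι ℂ) (hQ : Continuous Q) (hQ' : Continuous Q') :
    meanM (fun x => Q x - Q' x) = meanM Q - meanM Q' := by
  ext i j
  rw [Matrix.sub_apply, meanM_apply, meanM_apply, meanM_apply]
  simp only [Matrix.sub_apply]
  exact MeasureTheory.integral_sub (int_entry hQ i j) (int_entry hQ' i j)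

end QPR
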