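import Pool.Agent.Lib.QPR.Basic

set_option autoImplicit false

namespace QPR

open MeasureTheory

/-- the character `exp (2 π i t)`. -/
noncomputable def ex (t : ℝ) : ℂ := Complex.exp (2 * Real.pi * Complex.I * t)

/-- `ξ · x` for an integer vector `ξ`. -/
def dotZ {n : ℕ} (ξ : Fin n → ℤ) (x : Fin n → ℝ) : ℝ := ∑ i, (ξ i : ℝ) * x i

/-- Fourier coefficients of a periodic function. -/
noncomputable def coef {n : ℕ} (q : (Fin n → ℝ) → ℂ) (ξ : Fin n → ℤ) : ℂ :=
  ∫ x in Set.Icc (0 : Fin n → ℝ) 1, q x * ex (-(dotZ ξ x))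

end QPR
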