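import Pool.Agent.Lib.QPR.SlowMul

set_option autoImplicit false

namespace QPR

/-- scalar slow families. -/
private def SlowInv_P {X : Type*} (a : ℕ → X → ℝ) : Prop :=
  (∀ N x, 0 ≤ a N x) ∧ ∀ m : ℕ, ∃ D : ℝ, 0 ≤ D ∧ ∀ N : ℕ, 1 ≤ N → ∀ x, a N x ^ m ≤ D * N

private theorem SlowInv_P_mono {X : Type*} {a b : ℕ → X → ℝ} (ha : SlowInv_P a)
    (hb : ∀ N x, 0 ≤ b N x) (hab : ∀ N, 1 ≤ N → ∀ x, b N x ≤ a N x) : SlowInv_P b := by
  refine ⟨hb, fun m => ?_⟩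
  obtain ⟨D, hD, h⟩ := ha.2 m
  exact ⟨D, hD, fun N hN x => (pow_le_pow_left₀ (hb N x) (hab N hN x) m).trans (h N hN x)⟩

private theorem SlowInv_P_const {X : Type*} {c : ℝ} (hc : 0 ≤ c) :
    SlowInv_P (fun (_ : ℕ) (_ : X) => c) := by
  refine ⟨fun _ _ => hc, fun m => ⟨c ^ m, pow_nonneg hc m, fun N hN _ => ?_⟩⟩
  exact le_mul_of_one_le_right (pow_nonneg hc m) (by exact_mod_cast hN)

private theorem SlowInv_P_add {X : Type*} {a b : ℕ → X → ℝ} (ha : SlowInv_P a)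
    (hb : SlowInv_P b) : SlowInv_P (fun N x => a N x + b N x) := by
  refine ⟨fun N x => add_nonneg (ha.1 N x) (hb.1 N x), fun m => ?_⟩
  obtain ⟨D, hD, h⟩ := ha.2 m
  obtain ⟨D', hD', h'⟩ := hb.2 m
  refine ⟨2 ^ (m - 1) * (D + D'), by positivity, fun N hN x => ?_⟩
  refine (add_pow_le (ha.1 N x) (hb.1 N x) m).trans ?_
  have h1 := h N hN x
  have h2 := h' N hN x
  have h3 : (0 : ℝ) ≤ 2 ^ (m - 1) := by positivity
  calc (2 : ℝ) ^ (m - 1) * (a N x ^ m + b N x ^ m) ≤ 2 ^ (m - 1) * (D * N + D' * N) :=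
        mul_le_mul_of_nonneg_left (add_le_add h1 h2) h3
    _ = 2 ^ (m - 1) * (D + D') * N := by ring

private theorem SlowInv_P_mul {X : Type*} {a b : ℕ → X → ℝ} (ha : SlowInv_P a)
    (hb : SlowInv_P b) : SlowInv_P (fun N x => a N x * b N x) := by
  refine ⟨fun N x => mul_nonneg (ha.1 N x) (hb.1 N x), fun m => ?_⟩
  obtain ⟨D, hD, h⟩ := ha.2 (2 * m)
  obtain ⟨D', hD', h'⟩ := hb.2 (2 * m)
  refine ⟨(D + D') / 2, by positivity, fun N hN x => ?_⟩
  have h1 := h N hN x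
  have h2 := h' N hN x
  rw [mul_comm 2 m, pow_mul] at h1 h2
  rw [mul_pow]
  nlinarith [two_mul_le_add_sq (a N x ^ m) (b N x ^ m)]

private theorem SlowInv_P_sum {X : Type*} (s : Finset ℕ) {a : ℕ → ℕ → X → ℝ}
    (ha : ∀ l ∈ s, SlowInv_P (a l)) : SlowInv_P (fun N x => ∑ l ∈ s, a l N x) := by
  induction s using Finset.induction_on with
  | empty =>
    simp only [Finset.sum_empty]
    exact SlowInv_P_const le_rfl
  | insert l s hl ih =>
    simp only [Finset.sum_insert hl]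
    exact SlowInv_P_add (ha l (Finset.mem_insert_self _ _))
      (ih fun l' hl' => ha l' (Finset.mem_insert_of_mem hl'))

private theorem SlowInv_P_pow {X : Type*} {a : ℕ → X → ℝ} (ha : SlowInv_P a) (i : ℕ) :
    SlowInv_P (fun N x => a N x ^ i) := by
  induction i with
  | zero =>
    simp only [pow_zero]
    exact SlowInv_P_const zero_le_one
  | succ i ih =>
    simp only [pow_succ]
    exact SlowInv_P_mul ih ha

private theorem SlowInv_toP {n : ℕ} {E : Type*} [NormedAddCommGroup E] [NormedSpace ℝ E]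
    {F : ℕ → (Fin n → ℝ) → E} (hF : Slow F) (i : ℕ) :
    SlowInv_P fun N x => ‖iteratedFDeriv ℝ i (F N) x‖ := by
  refine ⟨fun _ _ => norm_nonneg _, fun m => ?_⟩
  obtain ⟨D, h⟩ := hF.2 i m
  refine ⟨max 0 D, le_max_left _ _, fun N hN x => (h N hN x).trans ?_⟩
  exact mul_le_mul_of_nonneg_right (le_max_right _ _) (Nat.cast_nonneg N)

private theorem SlowInv_ofP {n : ℕ} {E : Type*} [NormedAddCommGroup E] [NormedSpace ℝ E]
    {F : ℕ → (Fin n → ℝ) → E} (h1 : ∀ N : ℕ, 1 ≤ N → Smo (F N))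
    (h2 : ∀ i, SlowInv_P fun N x => ‖iteratedFDeriv ℝ i (F N) x‖) : Slow F := by
  refine ⟨h1, fun i m => ?_⟩
  obtain ⟨D, _, h⟩ := (h2 i).2 m
  exact ⟨D, h⟩

/-- Inverses of a slow family staying close to one. `Ring.inverse` is `C^∞` on the open set of units
(`contDiffAt_ringInverse`), its derivatives of order `≤ i` are bounded on the compact ball
`{y : ‖y - 1‖ ≤ 1/2}` (finite dimension), and the Faa di Bruno bound
`norm_iteratedFDerivWithin_comp_le` (with `D = 1 + ∑_{1 ≤ j ≤ i} ‖D^j F (x)‖`) gives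
`‖D^i (F⁻¹)‖ ≤ i! * C * D^i`. -/
theorem Slow.inv {n : ℕ} {𝔸 : Type*} [NormedRing 𝔸] [NormedAlgebra ℝ 𝔸] [CompleteSpace 𝔸]
    [NormOneClass 𝔸] [FiniteDimensional ℝ 𝔸] {F : ℕ → (Fin n → ℝ) → 𝔸} (hF : Slow F)
    (h1 : ∀ N, 1 ≤ N → ∀ x, ‖F N x - 1‖ ≤ 1 / 2) :
    Slow (fun N x => Ring.inverse (F N x)) := by
  have hle : ∀ i : ℕ, (i : WithTop ℕ∞) ≤ ((⊤ : ℕ∞) : WithTop ℕ∞) := fun i => by
    exact_mod_cast le_top
  set t : Set 𝔸 := {y | IsUnit y} with ht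
  have hto : IsOpen t := Units.isOpen
  have hinv : ContDiffOn ℝ ((⊤ : ℕ∞) : WithTop ℕ∞) (Ring.inverse : 𝔸 → 𝔸) t := by
    intro y hy
    obtain ⟨u, rfl⟩ := hy
    exact (contDiffAt_ringInverse ℝ u).contDiffWithinAt
  have hball : Metric.closedBall (1 : 𝔸) (1 / 2) ⊆ t := by
    intro y hy
    rw [Metric.mem_closedBall, dist_eq_norm] at hy
    have h2 : ‖1 - y‖ < 1 := by
      rw [norm_sub_rev]
      exact hy.trans_lt (by norm_num)
    have h3 := isUnit_one_sub_of_norm_lt_one h2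
    rwa [sub_sub_cancel] at h3
  have hFt : ∀ N, 1 ≤ N → Set.range (F N) ⊆ t := by
    rintro N hN _ ⟨x, rfl⟩
    refine hball ?_
    rw [Metric.mem_closedBall, dist_eq_norm]
    exact h1 N hN x
  have hsm : ∀ N : ℕ, 1 ≤ N → Smo (fun x => Ring.inverse (F N x)) := by
    intro N hN
    exact hinv.comp_contDiff (hF.1 N hN) fun x => hFt N hN ⟨x, rfl⟩
  have hC : ∀ i : ℕ, ∃ C : ℝ, 0 ≤ C ∧ ∀ j, j ≤ i → ∀ y ∈ Metric.closedBall (1 : 𝔸) (1 / 2),
      ‖iteratedFDerivWithin ℝ j (Ring.inverse : 𝔸 → 𝔸) t y‖ ≤ C := by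
    have hp : ProperSpace 𝔸 := FiniteDimensional.proper_real 𝔸
    have h2 : ∀ j : ℕ, ∃ C : ℝ, ∀ y ∈ Metric.closedBall (1 : 𝔸) (1 / 2),
        ‖iteratedFDerivWithin ℝ j (Ring.inverse : 𝔸 → 𝔸) t y‖ ≤ C := by
      intro j
      refine (isCompact_closedBall (1 : 𝔸) (1 / 2)).exists_bound_of_continuousOn ?_
      exact (hinv.continuousOn_iteratedFDerivWithin (hle j) hto.uniqueDiffOn).mono hball
    choose c hc using h2
    intro i
    refine ⟨∑ j ∈ Finset.range (i + 1), |c j|, Finset.sum_nonneg fun _ _ => abs_nonneg _, ?_⟩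
    intro j hj y hy
    refine (hc j y hy).trans ((le_abs_self _).trans ?_)
    exact Finset.single_le_sum (f := fun j => |c j|) (fun _ _ => abs_nonneg _)
      (Finset.mem_range.mpr (by omega))
  refine SlowInv_ofP hsm fun i => ?_
  obtain ⟨C, hC0, hC⟩ := hC i
  have h3 : SlowInv_P fun N x => (i.factorial : ℝ) * C *
      (1 + ∑ l ∈ Finset.range (i + 1), ‖iteratedFDeriv ℝ l (F N) x‖) ^ i := by
    refine SlowInv_P_mul (SlowInv_P_const (by positivity)) (SlowInv_P_pow ?_ i)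
    exact SlowInv_P_add (SlowInv_P_const zero_le_one)
      (SlowInv_P_sum _ fun l _ => SlowInv_toP hF l)
  refine SlowInv_P_mono h3 (fun _ _ => norm_nonneg _) fun N hN x => ?_
  refine norm_iteratedFDeriv_comp_le' (hFt N hN) hto.uniqueDiffOn hinv (hF.1 N hN) (hle i) x
    (fun j hj => hC j hj _ ?_) ?_
  · rw [Metric.mem_closedBall, dist_eq_norm]
    exact h1 N hN x
  · intro j hj1 hji
    have h4 : ‖iteratedFDeriv ℝ j (F N) x‖ ≤
        ∑ l ∈ Finset.range (i + 1), ‖iteratedFDeriv ℝ l (F N) x‖ :=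
      Finset.single_le_sum (f := fun l => ‖iteratedFDeriv ℝ l (F N) x‖)
        (fun _ _ => norm_nonneg _) (Finset.mem_range.mpr (by omega))
    have h5 : 0 ≤ ∑ l ∈ Finset.range (i + 1), ‖iteratedFDeriv ℝ l (F N) x‖ :=
      Finset.sum_nonneg fun _ _ => norm_nonneg _
    calc ‖iteratedFDeriv ℝ j (F N) x‖
        ≤ 1 + ∑ l ∈ Finset.range (i + 1), ‖iteratedFDeriv ℝ l (F N) x‖ := by linarith
      _ ≤ (1 + ∑ l ∈ Finset.range (i + 1), ‖iteratedFDeriv ℝ l (F N) x‖) ^ j :=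
        le_self_pow₀ (by linarith) (by omega)

end QPR
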