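import Pool.Agent.Lib.QPR.Growth
import Pool.Agent.Lib.QPR.AvgX
import Pool.Agent.Lib.QPR.SlowInv

set_option autoImplicit false

namespace QPR

open scoped Matrix.Norms.Operator

variable {n : ℕ} {ι : Type} [Fintype ι] [DecidableEq ι] [Nonempty ι]

omit [Nonempty ι] in
private theorem GrowX_An_smo {α : Fin n → ℝ} {A : (Fin n → ℝ) → Matrix ι ι ℂ} (hA : Smo A)
    (k : ℕ) : Smo (An α A k) := by
  induction k with
  | zero =>
    have e : An α A 0 = fun _ => (1 : Matrix ι ι ℂ) := funext fun x => An_zero α A x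
    rw [e]
    exact contDiff_const
  | succ k ih =>
    have e : An α A (k + 1) = fun x => An α A k (x + α) * A x := funext fun x => An_succ α A k x
    rw [e]
    exact (ih.comp (contDiff_id.add contDiff_const)).mul hA

private theorem GrowX_npow (C : Matrix ι ι ℂ) (h : ‖C‖ ≤ 1) (k : ℕ) : ‖C ^ k‖ ≤ 1 := by
  rcases Nat.eq_zero_or_pos k with rfl | hk
  · simp
  · exact (norm_pow_le' C hk).trans (pow_le_one₀ (norm_nonneg _) h)

/-- from `growth` (with `B = W`): the iterates are a slow family, hence so are their averages. -/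
theorem MN_slow {α : Fin n → ℝ} {lam : ι → ℂ} {A W : (Fin n → ℝ) → Matrix ι ι ℂ}
    (h : BaseS α lam A W) : Slow (MN α lam A) := by
  have : CompleteSpace (Matrix ι ι ℂ) := FiniteDimensional.complete ℂ _
  have hI := isoC_diag lam h.lam_norm
  have h1 : Slow (An α A) := ⟨fun N _ => GrowX_An_smo h.smoA N,
    growth α (cD lam) (cDi lam) hI A W h.smoA h.perA h.contW h.perW h.unitW h.conj⟩
  have h2 : Slow (fun N x => cDi lam ^ N * An α A N x) :=
    h1.const_mul (fun N => cDi lam ^ N) 1 fun N _ => GrowX_npow _ hI.norm_inv_le N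
  exact Slow.avg (X := fun N x => Xn α (cDi lam) A N x) h2 fun x => by simp [Xn, An_zero]

/-- products, `Slow.sq` and `Slow.inv`. -/
theorem QN_slow {α : Fin n → ℝ} {lam : ι → ℂ} {A W : (Fin n → ℝ) → Matrix ι ι ℂ}
    (h : BaseS α lam A W) : Slow (QN α lam A) := by
  have : CompleteSpace (Matrix ι ι ℂ) := FiniteDimensional.complete ℂ _
  have h1 := MN_slow h
  have h2 : Slow (fun N x => Ring.inverse (MN α lam A N x)) :=
    h1.inv fun N hN x => (MN_close h N hN x).trans (by norm_num)
  exact h1.sq.mul h2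

end QPR
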