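import Pool.Agent.Lib.QPR.Iter
import Pool.Agent.Lib.QPR.Approx

set_option autoImplicit false

namespace QPR

section aux

variable {n : ℕ} {𝔸 : Type*} [NormedRing 𝔸] [NormedAlgebra ℝ 𝔸] [CompleteSpace 𝔸]
  [NormOneClass 𝔸]

omit [NormedAlgebra ℝ 𝔸] [CompleteSpace 𝔸] in
private theorem Growth_pow {C : 𝔸} (hC : ‖C‖ ≤ 1) (k : ℕ) : ‖C ^ k‖ ≤ 1 :=
  (norm_pow_le C k).trans (pow_le_one₀ (norm_nonneg _) hC)

omit [NormOneClass 𝔸] [NormedAlgebra ℝ 𝔸] [CompleteSpace 𝔸] in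
private theorem Growth_CiC {C Ci : 𝔸} (h : Ci * C = 1) (k : ℕ) : Ci ^ k * C ^ k = 1 := by
  induction k with
  | zero => simp
  | succ k ih =>
    rw [pow_succ Ci k, pow_succ' C k, mul_assoc, ← mul_assoc Ci C, h, one_mul, ih]

/-- the smooth data: `A` is smoothly conjugate to `A'` whose normalised iterates are close to one -/
private theorem Growth_prep (α : Fin n → ℝ) (C Ci : 𝔸) (hC : IsoC C Ci) (A B : (Fin n → ℝ) → 𝔸)
    (hA : Smo A) (hAp : Per A) (hB : Continuous B) (hBp : Per B) (hBu : ∀ x, IsUnit (B x))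
    (h : ∀ x, B (x + α) * A x = C * B x) {w : ℝ} (hw : 0 < w) :
    ∃ A' B' Bi : (Fin n → ℝ) → 𝔸, Smo A' ∧ Per A' ∧ Smo B' ∧ Per B' ∧ Smo Bi ∧ Per Bi ∧
      (∀ k x, ‖Xn α Ci A' k x - 1‖ ≤ w) ∧
      ∀ k x, An α A k x = Bi (x + (k : ℝ) • α) * (C ^ k * Xn α Ci A' k x) * B' x := by
  obtain ⟨w', hw0, hw1, hw3⟩ : ∃ w' : ℝ, 0 < w' ∧ w' ≤ 1 ∧ 3 * w' ≤ w := by
    refine ⟨min 1 (w / 3), lt_min one_pos (by positivity), min_le_left _ _, ?_⟩
    have := min_le_right 1 (w / 3)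
    linarith
  obtain ⟨B', hB', hBp', hBu', hBi, h1, h2⟩ := approx_unit B hB hBp hBu w' hw0
  -- the inverse
  have hBi1 : ∀ x, Ring.inverse (B' x) * B' x = 1 := fun x => Ring.inverse_mul_cancel _ (hBu' x)
  have hBi2 : ∀ x, B' x * Ring.inverse (B' x) = 1 := fun x => Ring.mul_inverse_cancel _ (hBu' x)
  have hB1 : ∀ x, Ring.inverse (B x) * B x = 1 := fun x => Ring.inverse_mul_cancel _ (hBu x)
  set A' : (Fin n → ℝ) → 𝔸 := fun x => B' (x + α) * A x * Ring.inverse (B' x) with hA'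
  have hA's : Smo A' :=
    ((hB'.comp (contDiff_id.add contDiff_const)).mul hA).mul hBi
  have hshift : ∀ (x : Fin n → ℝ) (v k : Fin n → ℝ), x + k + v = x + v + k := by
    intro x v k
    rw [add_assoc, add_comm k v, ← add_assoc]
  have hA'p : Per A' := by
    intro x k
    change B' (x + (fun i => (k i : ℝ)) + α) * A (x + fun i => (k i : ℝ)) *
      Ring.inverse (B' (x + fun i => (k i : ℝ))) = _
    rw [hshift, hBp', hBp', hAp]
  -- the continuous conjugacy of `A'`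
  set W : (Fin n → ℝ) → 𝔸 := fun x => B x * Ring.inverse (B' x) with hW
  set Wi : (Fin n → ℝ) → 𝔸 := fun x => B' x * Ring.inverse (B x) with hWi
  have hWi1 : ∀ x, Wi x * W x = 1 := by
    intro x
    change B' x * Ring.inverse (B x) * (B x * Ring.inverse (B' x)) = 1
    rw [mul_assoc, ← mul_assoc (Ring.inverse (B x)), hB1, one_mul, hBi2]
  have hWC : ∀ x, W (x + α) * A' x = C * W x := by
    intro x
    change B (x + α) * Ring.inverse (B' (x + α)) * (B' (x + α) * A x * Ring.inverse (B' x)) =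
      C * (B x * Ring.inverse (B' x))
    have e1 : B (x + α) * Ring.inverse (B' (x + α)) * (B' (x + α) * A x * Ring.inverse (B' x)) =
        B (x + α) * (Ring.inverse (B' (x + α)) * B' (x + α)) * A x * Ring.inverse (B' x) := by
      simp only [mul_assoc]
    rw [e1, hBi1, mul_one, h x, mul_assoc]
  have hAn' : ∀ (k : ℕ) x, An α A' k x = Wi (x + (k : ℝ) • α) * (C ^ k * W x) := by
    intro k x
    rw [← An_conj α A' W C hWC k x, ← mul_assoc, hWi1, one_mul]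
  have hBA : ∀ x, B' (x + α) * A x = A' x * B' x := by
    intro x
    change _ = B' (x + α) * A x * Ring.inverse (B' x) * B' x
    rw [mul_assoc _ (Ring.inverse (B' x)), hBi1, mul_one]
  have hBAn : ∀ (k : ℕ) x, B' (x + (k : ℝ) • α) * An α A k x = An α A' k x * B' x := by
    intro k
    induction k with
    | zero => intro x; simp [An_zero]
    | succ k ih =>
      intro x
      have e : x + ((k + 1 : ℕ) : ℝ) • α = x + α + (k : ℝ) • α := by
        push_cast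
        rw [add_smul, one_smul, add_assoc, add_comm α]
      rw [e, An_succ, An_succ, ← mul_assoc, ih (x + α), mul_assoc, hBA x, ← mul_assoc]
  have hCC : ∀ k, C ^ k * Ci ^ k = 1 := Growth_CiC hC.right
  have hCC' : ∀ k, Ci ^ k * C ^ k = 1 := Growth_CiC hC.left
  refine ⟨A', B', fun x => Ring.inverse (B' x), hA's, hA'p, hB', hBp', hBi, ?_, ?_, ?_⟩
  · intro x k
    change Ring.inverse (B' (x + fun i => (k i : ℝ))) = _
    rw [hBp']
  · intro k x
    have e1 : Xn α Ci A' k x - 1 = Ci ^ k * (Wi (x + (k : ℝ) • α) - 1) * C ^ k +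
        (W x - 1) + Ci ^ k * (Wi (x + (k : ℝ) • α) - 1) * C ^ k * (W x - 1) := by
      rw [Xn, hAn']
      have e2 : Ci ^ k * (Wi (x + (k : ℝ) • α) - 1) * C ^ k =
          Ci ^ k * Wi (x + (k : ℝ) • α) * C ^ k - 1 := by
        rw [mul_sub, mul_one, sub_mul, hCC']
      rw [e2]
      simp only [mul_sub, sub_mul, mul_one, one_mul, mul_assoc]
      abel
    have n1 : ‖Ci ^ k * (Wi (x + (k : ℝ) • α) - 1) * C ^ k‖ ≤ w' := by
      calc _ ≤ ‖Ci ^ k * (Wi (x + (k : ℝ) • α) - 1)‖ * ‖C ^ k‖ := norm_mul_le _ _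
        _ ≤ ‖Ci ^ k * (Wi (x + (k : ℝ) • α) - 1)‖ * 1 :=
          mul_le_mul_of_nonneg_left (Growth_pow hC.norm_le k) (norm_nonneg _)
        _ = ‖Ci ^ k * (Wi (x + (k : ℝ) • α) - 1)‖ := mul_one _
        _ ≤ ‖Ci ^ k‖ * ‖Wi (x + (k : ℝ) • α) - 1‖ := norm_mul_le _ _
        _ ≤ 1 * w' := mul_le_mul (Growth_pow hC.norm_inv_le k) (h2 _) (norm_nonneg _) zero_le_one
        _ = w' := one_mul _
    have n2 : ‖W x - 1‖ ≤ w' := h1 x
    rw [e1]
    calc _ ≤ ‖Ci ^ k * (Wi (x + (k : ℝ) • α) - 1) * C ^ k + (W x - 1)‖ +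
          ‖Ci ^ k * (Wi (x + (k : ℝ) • α) - 1) * C ^ k * (W x - 1)‖ := norm_add_le _ _
      _ ≤ (w' + w') + w' * w' := by
        refine add_le_add ((norm_add_le _ _).trans (add_le_add n1 n2)) ?_
        exact (norm_mul_le _ _).trans (mul_le_mul n1 n2 (norm_nonneg _) hw0.le)
      _ ≤ w := by nlinarith
  · intro k x
    have e1 : C ^ k * Xn α Ci A' k x = An α A' k x := by
      rw [Xn, ← mul_assoc, hCC, one_mul]
    rw [e1, mul_assoc, ← hBAn, ← mul_assoc]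
    change _ = Ring.inverse (B' (x + (k : ℝ) • α)) * B' (x + (k : ℝ) • α) * _
    rw [hBi1, one_mul]

omit [CompleteSpace 𝔸] [NormOneClass 𝔸] in
private theorem Growth_bd (F : (Fin n → ℝ) → 𝔸) (hF : Smo F) (hp : Per F) (r : ℕ) :
    ∃ M : ℝ, 0 ≤ M ∧ ∀ K : ℝ, 1 ≤ K → Bd r K M F := by
  obtain ⟨M, hM⟩ := per_bdd F hF hp r
  have hM0 : 0 ≤ M := (norm_nonneg _).trans (hM 0 (Nat.zero_le _) 0)
  refine ⟨M, hM0, fun K hK => ⟨hF, fun i hi x => (hM i hi x).trans ?_⟩⟩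
  exact le_mul_of_one_le_right hM0 (one_le_pow₀ hK)

private theorem Growth_num {K K₀ : ℝ} {k N : ℕ} (hK : 0 < K) (hK0 : 0 < K₀) (hk : 1 ≤ k)
    (h : K ^ (2 * N + 1) ≤ K₀ * (k : ℝ) ^ 2) : (1 + K) ^ N ≤ 2 ^ N * (1 + K₀) * k := by
  have hk1 : (1 : ℝ) ≤ k := by exact_mod_cast hk
  rcases le_total K 1 with h1 | h1
  · calc (1 + K) ^ N ≤ 2 ^ N := pow_le_pow_left₀ (by positivity) (by linarith) N
      _ = 2 ^ N * 1 * 1 := by ring
      _ ≤ 2 ^ N * (1 + K₀) * k := by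
        refine mul_le_mul (mul_le_mul_of_nonneg_left (by linarith) (by positivity)) hk1
          zero_le_one (by positivity)
  · have h2 : K ^ N ≤ (1 + K₀) * k := by
      have h3 : (K ^ N) ^ 2 ≤ ((1 + K₀) * k) ^ 2 := by
        calc (K ^ N) ^ 2 = K ^ (2 * N) := by rw [← pow_mul, mul_comm]
          _ ≤ K ^ (2 * N + 1) := pow_le_pow_right₀ h1 (Nat.le_succ _)
          _ ≤ K₀ * (k : ℝ) ^ 2 := h
          _ ≤ (1 + K₀) ^ 2 * (k : ℝ) ^ 2 := by
            refine mul_le_mul_of_nonneg_right ?_ (by positivity)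
            nlinarith
          _ = ((1 + K₀) * k) ^ 2 := by ring
      exact le_of_sq_le_sq h3 (by positivity)
    calc (1 + K) ^ N ≤ (2 * K) ^ N := pow_le_pow_left₀ (by positivity) (by linarith) N
      _ = 2 ^ N * K ^ N := mul_pow _ _ _
      _ ≤ 2 ^ N * ((1 + K₀) * k) := mul_le_mul_of_nonneg_left h2 (by positivity)
      _ = _ := by ring

end aux

/-- Subpolynomial growth of all derivatives of the iterates of a smooth cocycle which is only
continuously conjugate to a constant `C`: for every order `i` and every `m`,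
`sup_x ‖D^i A_k (x)‖ ^ m ≤ D * k`.
Proof: let `r = 2 * i * m + 1` or any `r ≥ max 1 (2 i m)`, `w` from `growth_iter`; choose `B'` by
`approx_unit` with `(1 + w')^2 - 1 ≤ w`, `W = B * B'⁻¹`, `A' x = B' (x+α) * A x * (B' x)⁻¹`. Then
`W (x+α) * A' x = C * W x`, so (`An_conj`) `Xn α Ci A' k x = (Ci^k * (W (x+kα))⁻¹ * C^k) * W x` is
`w`-close to one. By `growth_iter`, `Xn α Ci A' k - 1` is `Bd r K 1` with `K^r ≤ K₀ k^2`; also
`A_k x = (B' (x+kα))⁻¹ * C^k * Xn α Ci A' k x * B' x`, so by the Leibniz rule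
`‖D^i A_k‖ ≤ D₁ (1 + K)^i`, and `(1+K)^(i m) ≤ 2^(im) (1 + K^(im))`, `K^(i m) ≤ 1 + K^(r/2)`, i.e.
`(K^(im))^2 ≤ 1 + K^r ≤ 1 + K₀ k²`. (For `i = 0` the iterates are bounded.) -/
theorem growth {n : ℕ} {𝔸 : Type*} [NormedRing 𝔸] [NormedAlgebra ℝ 𝔸] [CompleteSpace 𝔸]
    [NormOneClass 𝔸] (α : Fin n → ℝ) (C Ci : 𝔸) (hC : IsoC C Ci) (A B : (Fin n → ℝ) → 𝔸)
    (hA : Smo A) (hAp : Per A) (hB : Continuous B) (hBp : Per B) (hBu : ∀ x, IsUnit (B x))
    (h : ∀ x, B (x + α) * A x = C * B x) :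
    ∀ i m : ℕ, ∃ D : ℝ, ∀ k : ℕ, 1 ≤ k → ∀ x, ‖iteratedFDeriv ℝ i (An α A k) x‖ ^ m ≤ D * k := by
  intro i m
  rcases Nat.eq_zero_or_pos m with rfl | hm
  · refine ⟨1, fun k hk x => ?_⟩
    rw [pow_zero, one_mul]
    exact_mod_cast hk
  set r : ℕ := 2 * (i * m) + 1 with hr
  have hir : i ≤ r := by
    have : i ≤ i * m := Nat.le_mul_of_pos_right i hm
    omega
  obtain ⟨w, hw, hgi⟩ := growth_iter n 𝔸 r (by omega)
  obtain ⟨A', B', Bi, hA', hA'p, hB', hB'p, hBi, hBip, hX, hAn⟩ :=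
    Growth_prep α C Ci hC A B hA hAp hB hBp hBu h hw
  obtain ⟨K₀, hK₀, hgk⟩ := hgi α C Ci hC A' hA' (per_bdd A' hA' hA'p r) hX
  obtain ⟨M, hM0, hM⟩ := Growth_bd B' hB' hB'p r
  obtain ⟨M', hM'0, hM'⟩ := Growth_bd Bi hBi hBip r
  set D₁ : ℝ := 2 ^ r * ((2 ^ r * (M' * 2)) * M) with hD₁
  have hD₁0 : 0 ≤ D₁ := by positivity
  refine ⟨D₁ ^ m * (2 ^ (i * m) * (1 + K₀)), fun k hk x => ?_⟩
  obtain ⟨K, hK, hKr, hBd⟩ := hgk k hk
  have hK1 : (1 : ℝ) ≤ 1 + K := by linarith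
  have hK1' : (0 : ℝ) ≤ 1 + K := by linarith
  have b1 : Bd r (1 + K) 1 (fun x => Xn α Ci A' k x - 1) :=
    hBd.mono_K hK.le zero_le_one (by linarith)
  have b2 : Bd r (1 + K) 2 (fun x => Xn α Ci A' k x) := by
    have b3 := b1.add (Bd.const (n := n) (r := r) hK1' (1 : 𝔸))
    have e1 : (1 : ℝ) + ‖(1 : 𝔸)‖ = 2 := by rw [norm_one]; norm_num
    rw [e1] at b3
    simpa only [sub_add_cancel] using b3
  have b4 : Bd r (1 + K) 2 (fun x => C ^ k * Xn α Ci A' k x) := by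
    have b5 := b2.conj (C ^ k) 1 (Growth_pow hC.norm_le k) norm_one.le hK1' zero_le_two
    simpa only [mul_one] using b5
  have b6 : Bd r (1 + K) M' (fun x => Bi (x + (k : ℝ) • α)) := (hM' _ hK1).translate _
  have b7 := Bd.mul hK1' (by positivity) hM0 (Bd.mul hK1' hM'0 zero_le_two b6 b4) (hM _ hK1)
  have e2 : An α A k = fun x => Bi (x + (k : ℝ) • α) * (C ^ k * Xn α Ci A' k x) * B' x :=
    funext fun x => hAn k x
  have b8 : ‖iteratedFDeriv ℝ i (An α A k) x‖ ≤ D₁ * (1 + K) ^ i := by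
    rw [e2]
    exact b7.2 i hir x
  calc ‖iteratedFDeriv ℝ i (An α A k) x‖ ^ m ≤ (D₁ * (1 + K) ^ i) ^ m :=
        pow_le_pow_left₀ (norm_nonneg _) b8 m
    _ = D₁ ^ m * (1 + K) ^ (i * m) := by rw [mul_pow, ← pow_mul]
    _ ≤ D₁ ^ m * (2 ^ (i * m) * (1 + K₀) * k) :=
      mul_le_mul_of_nonneg_left (Growth_num hK hK₀ hk hKr) (by positivity)
    _ = _ := by ring

end QPR
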