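import Pool.Agent.Lib.QPR.Step

set_option autoImplicit false

namespace QPR

private theorem Iter_base {n : ℕ} {𝔸 : Type*} [NormedRing 𝔸] [NormedAlgebra ℝ 𝔸]
    (r : ℕ) (A : (Fin n → ℝ) → 𝔸) (hA : Smo A) (Ci : 𝔸) (hCi : ‖Ci‖ ≤ 1) (M c w : ℝ)
    (hM : ∀ i ≤ r, ∀ x, ‖iteratedFDeriv ℝ i A x‖ ≤ M) (hc : 0 < c) (hw : w ≤ c)
    (h0 : ∀ x, ‖Ci * A x - 1‖ ≤ w) :
    Bd r (max 1 (M / c)) c (fun x => Ci * A x - 1) := by
  have hs : Smo (fun x => Ci * A x) := contDiff_const.mul hA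
  refine ⟨hs.sub contDiff_const, ?_⟩
  intro i hi x
  have hM0 : 0 ≤ M := (norm_nonneg _).trans (hM 0 (Nat.zero_le _) x)
  rcases Nat.eq_zero_or_pos i with h | h
  · subst h
    simpa using (h0 x).trans hw
  · have e1 : iteratedFDeriv ℝ i (fun x => Ci * A x - 1) x
        = iteratedFDeriv ℝ i (fun x => Ci * A x) x := by
      have e := iteratedFDeriv_sub_apply (𝕜 := ℝ) (i := i) (x := x) (f := fun x => Ci * A x)
        (g := fun _ => (1 : 𝔸)) ((hs.of_le (by exact_mod_cast le_top)).contDiffAt)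
        (contDiff_const.contDiffAt)
      rw [iteratedFDeriv_const_of_ne (by omega)] at e
      have e' : iteratedFDeriv ℝ i (fun x => Ci * A x - 1) x
        = iteratedFDeriv ℝ i (fun x => Ci * A x) x - 0 := e
      rw [e', sub_zero]
    have e2 : iteratedFDeriv ℝ i (fun x => Ci * A x) x
        = (ContinuousLinearMap.mul ℝ 𝔸 Ci).compContinuousMultilinearMap
          (iteratedFDeriv ℝ i A x) :=
      (ContinuousLinearMap.mul ℝ 𝔸 Ci).iteratedFDeriv_comp_left hA.contDiffAt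
        (by exact_mod_cast le_top)
    rw [e1, e2]
    have h1 := ContinuousLinearMap.norm_compContinuousMultilinearMap_le
      (ContinuousLinearMap.mul ℝ 𝔸 Ci) (iteratedFDeriv ℝ i A x)
    have h2 : ‖ContinuousLinearMap.mul ℝ 𝔸 Ci‖ ≤ 1 := by
      refine (ContinuousLinearMap.opNorm_mul_apply_le ℝ 𝔸 Ci).trans hCi
    have h3 : (1 : ℝ) ≤ max 1 (M / c) := le_max_left _ _
    have h4 : M ≤ c * max 1 (M / c) := by
      have : M / c ≤ max 1 (M / c) := le_max_right _ _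
      calc M = c * (M / c) := by field_simp
        _ ≤ _ := mul_le_mul_of_nonneg_left this hc.le
    have h5 : max 1 (M / c) ≤ max 1 (M / c) ^ i := le_self_pow₀ h3 (by omega)
    calc _ ≤ ‖ContinuousLinearMap.mul ℝ 𝔸 Ci‖ * ‖iteratedFDeriv ℝ i A x‖ := h1
      _ ≤ 1 * M := mul_le_mul h2 (hM i hi x) (norm_nonneg _) zero_le_one
      _ ≤ c * max 1 (M / c) ^ i := by
        rw [one_mul]
        exact h4.trans (mul_le_mul_of_nonneg_left h5 hc.le)

/-- Iterating `growth_step` with a small fixed `w`: take `w ≤ w₀`, `w ≤ c'/4` and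
`c / w ≤ (c' / (2 w))^2`, `Λ ≥ 1` with `Λ ^ r = c / w`. Start with `N_0 = 1` and `K_0` so large that
`Xn 0 - 1 = 0` and `Xn 1 - 1 = Ci * A - 1` are `Bd r K_0 c` (possible since `‖Ci A - 1‖ ≤ w ≤ c` and
the derivatives of orders `1, ..., r` are bounded). Put `N_{j+1} = ⌊c' N_j / w⌋ ≥ c' N_j / (2 w)`,
`≥ 2 N_j`, `K_{j+1} = Λ K_j`. Then `K_j ^ r = K_0 ^ r (c/w)^j ≤ K_0 ^ r N_j ^ 2`. For `k ≥ 1` take
the first `j` with `k ≤ N_j`; if `j ≥ 1` then `K_j ^ r = (c/w) K_{j-1} ^ r ≤ (c/w) K_0 ^ r k ^ 2`. -/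
theorem growth_iter (n : ℕ) (𝔸 : Type*) [NormedRing 𝔸] [NormedAlgebra ℝ 𝔸] [CompleteSpace 𝔸]
    [NormOneClass 𝔸] (r : ℕ) (hr : 1 ≤ r) :
    ∃ w : ℝ, 0 < w ∧
      ∀ (α : Fin n → ℝ) (C Ci : 𝔸), IsoC C Ci → ∀ A : (Fin n → ℝ) → 𝔸, Smo A →
      (∃ M : ℝ, ∀ i ≤ r, ∀ x, ‖iteratedFDeriv ℝ i A x‖ ≤ M) →
      (∀ k x, ‖Xn α Ci A k x - 1‖ ≤ w) →
      ∃ K₀ : ℝ, 0 < K₀ ∧ ∀ k : ℕ, 1 ≤ k → ∃ K : ℝ, 0 < K ∧ K ^ r ≤ K₀ * (k : ℝ) ^ 2 ∧
        Bd r K 1 (fun x => Xn α Ci A k x - 1) := by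
  obtain ⟨c, hc0, hc1, c', hc'0, hc'1, w₀, hw₀, hw₀c, hstep⟩ := growth_step n 𝔸 r
  set w : ℝ := min w₀ (min (c' / 4) (c' ^ 2 / (4 * c))) with hwd
  have hw0 : 0 < w := by
    rw [hwd]
    refine lt_min hw₀ (lt_min (by positivity) (by positivity))
  have hw1 : w ≤ w₀ := min_le_left _ _
  have hw2 : w ≤ c' / 4 := (min_le_right _ _).trans (min_le_left _ _)
  have hw3 : w ≤ c' ^ 2 / (4 * c) := (min_le_right _ _).trans (min_le_right _ _)
  refine ⟨w, hw0, ?_⟩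
  intro α C Ci hC A hA hM hX
  obtain ⟨M, hM⟩ := hM
  set L : ℝ := c / w with hL
  have hL1 : 1 ≤ L := by
    rw [hL, le_div_iff₀ hw0]; linarith
  have hL0 : 0 < L := by linarith
  obtain ⟨Λ, hΛ1, hΛr⟩ : ∃ Λ : ℝ, 1 ≤ Λ ∧ Λ ^ r = L := by
    refine ⟨L ^ ((r : ℝ)⁻¹), Real.one_le_rpow hL1 (by positivity), ?_⟩
    exact Real.rpow_inv_natCast_pow hL0.le (by omega)
  have hΛ0 : 0 < Λ := by linarith
  have hcw : c ≤ w * Λ ^ r := by
    rw [hΛr, hL]; field_simp; exact le_rfl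
  set K₁ : ℝ := max 1 (M / c) with hK₁
  have hK₁1 : 1 ≤ K₁ := le_max_left _ _
  have hK₁0 : 0 < K₁ := by linarith
  have hCi : ‖Ci‖ ≤ 1 := hC.norm_inv_le
  have hb0 : ∀ k ≤ 1, Bd r K₁ c (fun x => Xn α Ci A k x - 1) := by
    intro k hk
    interval_cases k
    · have e : (fun x => Xn α Ci A 0 x - 1) = fun _ => (0 : 𝔸) := by
        funext x; simp [Xn, An]
      rw [e]
      refine ⟨contDiff_const, ?_⟩
      intro i _ x
      have : iteratedFDeriv ℝ i (fun _ : Fin n → ℝ => (0 : 𝔸)) x = 0 := by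
        rcases Nat.eq_zero_or_pos i with h | h
        · subst h
          ext; simp
        · rw [iteratedFDeriv_const_of_ne (by omega)]; rfl
      rw [this, norm_zero]
      positivity
    · have e : (fun x => Xn α Ci A 1 x - 1) = fun x => Ci * A x - 1 := by
        funext x; simp [Xn, An]
      rw [e]
      refine Iter_base r A hA Ci hCi M c w hM hc0 (hw1.trans hw₀c) ?_
      intro x
      have := hX 1 x
      simpa [Xn, An] using this
  -- the sequences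
  obtain ⟨Nj, hN0, hNs⟩ : ∃ Nj : ℕ → ℕ, Nj 0 = 1 ∧ ∀ j, Nj (j + 1) = ⌊c' * (Nj j : ℝ) / w⌋₊ :=
    ⟨fun j => Nat.rec (motive := fun _ => ℕ) 1 (fun _ N => ⌊c' * (N : ℝ) / w⌋₊) j, rfl,
      fun j => rfl⟩
  have h4 : 4 ≤ c' / w := by
    rw [le_div_iff₀ hw0]; linarith
  have hN1 : ∀ j, 1 ≤ Nj j ∧ c' * Nj j / (2 * w) ≤ Nj (j + 1) := by
    intro j
    induction j with
    | zero =>
      refine ⟨hN0.ge, ?_⟩
      rw [hNs, hN0]
      have h5 := Nat.lt_floor_add_one (c' * ((1 : ℕ) : ℝ) / w)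
      have e : c' * ((1 : ℕ) : ℝ) / (2 * w) = (c' * ((1 : ℕ) : ℝ) / w) / 2 := by
        field_simp
      rw [e]
      have h6 : 4 ≤ c' * ((1 : ℕ) : ℝ) / w := by simpa using h4
      linarith
    | succ j ih =>
      obtain ⟨ih1, ih2⟩ := ih
      have h1 : (1 : ℝ) ≤ Nj j := by exact_mod_cast ih1
      have h2 : (2 : ℝ) ≤ Nj (j + 1) := by
        refine le_trans ?_ ih2
        rw [le_div_iff₀ (by positivity)]
        have : 4 * w ≤ c' := by linarith
        nlinarith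
      have h3 : 1 ≤ Nj (j + 1) := by
        have : (1 : ℝ) ≤ Nj (j + 1) := by linarith
        exact_mod_cast this
      refine ⟨h3, ?_⟩
      rw [hNs (j + 1)]
      have h5 := Nat.lt_floor_add_one (c' * (Nj (j + 1) : ℝ) / w)
      have e : c' * (Nj (j + 1) : ℝ) / (2 * w) = (c' * (Nj (j + 1) : ℝ) / w) / 2 := by
        field_simp
      rw [e]
      have h6 : 4 ≤ c' * (Nj (j + 1) : ℝ) / w := by
        rw [le_div_iff₀ hw0]
        nlinarith
      linarith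
  have hNg : ∀ j, 2 ^ j ≤ Nj j := by
    intro j
    induction j with
    | zero => simp [hN0]
    | succ j ih =>
      obtain ⟨h1, h2⟩ := hN1 j
      have h3 : (2 : ℝ) * Nj j ≤ Nj (j + 1) := by
        refine le_trans ?_ h2
        rw [le_div_iff₀ (by positivity)]
        have h1' : (1 : ℝ) ≤ Nj j := by exact_mod_cast h1
        have : 4 * w ≤ c' := by linarith
        nlinarith
      have h4 : 2 * Nj j ≤ Nj (j + 1) := by exact_mod_cast h3
      rw [pow_succ]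
      omega
  have hNsq : ∀ j, L ^ j ≤ (Nj j : ℝ) ^ 2 := by
    intro j
    induction j with
    | zero => simp [hN0]
    | succ j ih =>
      obtain ⟨h1, h2⟩ := hN1 j
      have h3 : L ≤ (c' / (2 * w)) ^ 2 := by
        rw [hL, div_pow, div_le_div_iff₀ hw0 (by positivity)]
        have h5 : w * (4 * c) ≤ c' ^ 2 := by
          rwa [le_div_iff₀ (by positivity)] at hw3
        nlinarith
      calc L ^ (j + 1) = L ^ j * L := pow_succ _ _
        _ ≤ (Nj j : ℝ) ^ 2 * (c' / (2 * w)) ^ 2 :=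
          mul_le_mul ih h3 hL0.le (sq_nonneg _)
        _ = (c' * Nj j / (2 * w)) ^ 2 := by ring
        _ ≤ (Nj (j + 1) : ℝ) ^ 2 := by
          refine pow_le_pow_left₀ (by positivity) h2 2
  have hP : ∀ j, ∀ k ≤ Nj j, Bd r (Λ ^ j * K₁) c (fun x => Xn α Ci A k x - 1) := by
    intro j
    induction j with
    | zero =>
      intro k hk
      rw [pow_zero, one_mul]
      exact hb0 k (by rwa [hN0] at hk)
    | succ j ih =>
      intro k hk
      have h1 := hstep α C Ci hC A hA w hw0 hw1 hX (Nj j) (Λ ^ j * K₁) Λ (hN1 j).1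
        (by positivity) hΛ1 hcw ih k (by
          have h5 : (k : ℝ) ≤ Nj (j + 1) := by exact_mod_cast hk
          have h6 : (Nj (j + 1) : ℝ) ≤ c' * Nj j / w := by
            rw [hNs]; exact Nat.floor_le (by positivity)
          have h7 := h5.trans h6
          rwa [le_div_iff₀ hw0] at h7)
      have e : Λ ^ (j + 1) * K₁ = Λ * (Λ ^ j * K₁) := by ring
      rw [e]; exact h1
  have hmono : ∀ (K : ℝ), 0 < K → ∀ k, Bd r K c (fun x => Xn α Ci A k x - 1) →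
      Bd r K 1 (fun x => Xn α Ci A k x - 1) := by
    intro K hK k h
    refine ⟨h.1, fun i hi x => (h.2 i hi x).trans ?_⟩
    exact mul_le_mul_of_nonneg_right hc1 (by positivity)
  refine ⟨L * K₁ ^ r, by positivity, ?_⟩
  intro k hk
  have hk1 : (1 : ℝ) ≤ k := by exact_mod_cast hk
  have hex : ∃ j, k ≤ Nj j := ⟨k, (Nat.lt_two_pow_self).le.trans (hNg k)⟩
  classical
  obtain ⟨j, hj, hjm⟩ : ∃ j, k ≤ Nj j ∧ ∀ i < j, ¬ k ≤ Nj i :=
    ⟨Nat.find hex, Nat.find_spec hex, fun i hi => Nat.find_min hex hi⟩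
  refine ⟨Λ ^ j * K₁, by positivity, ?_, hmono _ (by positivity) k (hP j k hj)⟩
  have e : (Λ ^ j * K₁) ^ r = L ^ j * K₁ ^ r := by
    rw [mul_pow, ← pow_mul, mul_comm j r, pow_mul, hΛr]
  rw [e]
  rcases j with _ | j
  · rw [pow_zero, one_mul]
    have : K₁ ^ r ≤ L * K₁ ^ r := le_mul_of_one_le_left (by positivity) hL1
    refine this.trans (le_mul_of_one_le_right (by positivity) ?_)
    nlinarith
  · have h1 := hjm j (Nat.lt_succ_self j)
    push Not at h1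
    have h2 : (Nj j : ℝ) ≤ k := by exact_mod_cast h1.le
    have h3 : (Nj j : ℝ) ^ 2 ≤ (k : ℝ) ^ 2 := pow_le_pow_left₀ (by positivity) h2 2
    have h5 := (hNsq j).trans h3
    have e2 : L ^ (j + 1) * K₁ ^ r = L * K₁ ^ r * L ^ j := by ring
    rw [e2]
    exact mul_le_mul_of_nonneg_left h5 (by positivity)

end QPR
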