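import Pool.Agent.Lib.QPR.MatDefs

set_option autoImplicit false

namespace QPR

/-- Limits along `N_k = 2 ^ (2 ^ k)` (`N_{k+1} = N_k ^ 2`): if `F (N²) - F N` is tiny then
`F (N_k)` converges uniformly to a smooth function. (`‖D^i (F_{k+1} - F_k)‖ ≤ D N_k^(-1/j)`, which is
summable; use `contDiff_tsum` for the series `F_0 + ∑ (F_{k+1} - F_k)`, for each finite order.) -/
theorem lim_smo {n : ℕ} {E : Type*} [NormedAddCommGroup E] [NormedSpace ℝ E] [CompleteSpace E]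
    {j : ℕ} (hj : 1 ≤ j) (F : ℕ → (Fin n → ℝ) → E) (hF : ∀ N, 1 ≤ N → Smo (F N))
    (h : Tiny j (fun N x => F (N ^ 2) x - F N x)) :
    ∃ G : (Fin n → ℝ) → E, Smo G ∧
      ∀ ε : ℝ, 0 < ε → ∃ k₀ : ℕ, ∀ k ≥ k₀, ∀ x, ‖F (2 ^ (2 ^ k)) x - G x‖ ≤ ε := by
  obtain ⟨hs, hb⟩ := h
  choose D hD using hb
  set g : ℕ → (Fin n → ℝ) → E := fun k x => F ((2 ^ (2 ^ k)) ^ 2) x - F (2 ^ (2 ^ k)) x with hg
  have hN1 : ∀ k : ℕ, 1 ≤ 2 ^ (2 ^ k) := fun k => Nat.one_le_two_pow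
  have hj0 : (0 : ℝ) < (j : ℝ) := by exact_mod_cast hj
  have hjne : j ≠ 0 := by omega
  -- the bound
  set r : ℝ := (2 : ℝ) ^ (-(1 / (j : ℝ))) with hr
  have hr0 : 0 < r := Real.rpow_pos_of_pos (by norm_num) _
  have hr1 : r < 1 := by
    apply Real.rpow_lt_one_of_one_lt_of_neg (by norm_num)
    have : 0 < 1 / (j : ℝ) := by positivity
    linarith
  have hrj : r ^ j = 1 / 2 := by
    rw [hr, ← Real.rpow_natCast, ← Real.rpow_mul (by norm_num)]
    have : -(1 / (j : ℝ)) * (j : ℝ) = -1 := by field_simp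
    rw [this, Real.rpow_neg_one]
    norm_num
  set v : ℕ → ℕ → ℝ := fun i k => (max (D i) 0 + 1) * r ^ k with hv
  have hvsum : ∀ i, Summable (v i) := fun i =>
    (summable_geometric_of_lt_one hr0.le hr1).mul_left _
  have hbound : ∀ (i k : ℕ) (x : Fin n → ℝ), ‖iteratedFDeriv ℝ i (g k) x‖ ≤ v i k := by
    intro i k x
    have h1 := hD i (2 ^ (2 ^ k)) (hN1 k) x
    have h2 : ‖iteratedFDeriv ℝ i (g k) x‖ ^ j * ((2 ^ (2 ^ k) : ℕ) : ℝ) ≤ D i := h1
    have hk : (2 : ℝ) ^ k ≤ ((2 ^ (2 ^ k) : ℕ) : ℝ) := by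
      push_cast
      exact pow_le_pow_right₀ (by norm_num) (Nat.lt_two_pow_self).le
    have hpos : (0 : ℝ) ≤ ‖iteratedFDeriv ℝ i (g k) x‖ ^ j := by positivity
    have h3 : ‖iteratedFDeriv ℝ i (g k) x‖ ^ j * (2 : ℝ) ^ k ≤ D i :=
      (mul_le_mul_of_nonneg_left hk hpos).trans h2
    have hM1 : (1 : ℝ) ≤ max (D i) 0 + 1 := by
      have := le_max_right (D i) 0
      linarith
    have h4 : ‖iteratedFDeriv ℝ i (g k) x‖ ^ j ≤ (v i k) ^ j := by
      rw [hv]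
      simp only
      rw [mul_pow, ← pow_mul, mul_comm k j, pow_mul, hrj]
      have h5 : max (D i) 0 + 1 ≤ (max (D i) 0 + 1) ^ j := le_self_pow₀ hM1 hjne
      have h6 : ‖iteratedFDeriv ℝ i (g k) x‖ ^ j ≤ D i * (1 / 2) ^ k := by
        have h7 : (0 : ℝ) < (2 : ℝ) ^ k := by positivity
        rw [one_div, inv_pow]
        rw [← div_eq_mul_inv, le_div_iff₀ h7]
        exact h3
      refine h6.trans ?_
      apply mul_le_mul_of_nonneg_right _ (by positivity)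
      have := le_max_left (D i) 0
      linarith
    have hv0 : 0 ≤ v i k := by
      rw [hv]
      positivity
    exact le_of_pow_le_pow_left₀ hjne hv0 h4
  have hgsmo : ∀ k, Smo (g k) := fun k => hs (2 ^ (2 ^ k)) (hN1 k)
  have htsum : Smo (fun x => ∑' k, g k x) := by
    refine contDiff_tsum (N := (⊤ : ℕ∞)) (v := v) hgsmo (fun i _ => hvsum i) ?_
    intro i k x _
    exact hbound i k x
  have hb0 : ∀ k x, ‖g k x‖ ≤ v 0 k := by
    intro k x
    have := hbound 0 k x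
    rwa [norm_iteratedFDeriv_zero] at this
  have hsx : ∀ x, Summable (fun k => g k x) := fun x =>
    Summable.of_norm_bounded (hvsum 0) (fun k => hb0 k x)
  have htel : ∀ k x, F (2 ^ (2 ^ k)) x = F (2 ^ (2 ^ 0)) x + ∑ l ∈ Finset.range k, g l x := by
    intro k x
    induction k with
    | zero => simp
    | succ k ih =>
      rw [Finset.sum_range_succ, ← add_assoc, ← ih, hg]
      simp only
      have : (2 ^ (2 ^ k)) ^ 2 = 2 ^ (2 ^ (k + 1)) := by
        rw [← pow_mul, ← pow_succ]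
      rw [this]
      abel
  refine ⟨fun x => F (2 ^ (2 ^ 0)) x + ∑' k, g k x, (hF _ (hN1 0)).add htsum, ?_⟩
  intro ε hε
  have htend := tendsto_sum_nat_add (v 0)
  obtain ⟨k₀, hk₀⟩ := (Metric.tendsto_atTop.mp htend) ε hε
  refine ⟨k₀, fun k hk x => ?_⟩
  have h1 : F (2 ^ (2 ^ k)) x - (F (2 ^ (2 ^ 0)) x + ∑' l, g l x) = -∑' l, g (l + k) x := by
    rw [htel k x, ← (hsx x).sum_add_tsum_nat_add k]
    abel
  rw [h1, norm_neg]
  have h2 : ‖∑' l, g (l + k) x‖ ≤ ∑' l, v 0 (l + k) :=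
    tsum_of_norm_bounded ((summable_nat_add_iff k).mpr (hvsum 0)).hasSum (fun l => hb0 (l + k) x)
  have h3 := hk₀ k hk
  rw [Real.dist_eq, sub_zero] at h3
  exact h2.trans ((le_abs_self _).trans h3.le)

end QPR
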