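import Pool.Agent.Lib.QPR.QEst

set_option autoImplicit false

namespace QPR

open scoped Matrix.Norms.Operator

variable {n : ℕ} {ι : Type} [Fintype ι] [DecidableEq ι] [Nonempty ι]

omit [Nonempty ι] in
private theorem MHat_isUnit (u : Matrix ι ι ℂ) (h : ‖u - 1‖ ≤ 1 / 30) : IsUnit u := by
  have : CompleteSpace (Matrix ι ι ℂ) := FiniteDimensional.complete ℂ _
  have h1 : ‖1 - u‖ < 1 := by
    rw [norm_sub_rev]
    linarith
  have h2 := (Units.oneSub (1 - u) h1).isUnit
  rwa [Units.val_oneSub, sub_sub_cancel] at h2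

private theorem MHat_inv (u : Matrix ι ι ℂ) (h : ‖u - 1‖ ≤ 1 / 30) :
    ‖Ring.inverse u‖ ≤ 2 ∧ ‖Ring.inverse u - 1‖ ≤ 1 / 29 := by
  have hu : IsUnit u := MHat_isUnit u h
  have e : Ring.inverse u - 1 = -((u - 1) * Ring.inverse u) := by
    rw [sub_mul, Ring.mul_inverse_cancel _ hu, one_mul]
    abel
  have h1 : ‖Ring.inverse u - 1‖ ≤ 1 / 30 * ‖Ring.inverse u‖ := by
    rw [e, norm_neg]
    exact (norm_mul_le _ _).trans (mul_le_mul_of_nonneg_right h (norm_nonneg _))
  have h2 : ‖Ring.inverse u‖ ≤ ‖Ring.inverse u - 1‖ + 1 := by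
    have := norm_add_le (Ring.inverse u - 1) 1
    rwa [sub_add_cancel, norm_one] at this
  constructor <;> linarith

/-- the normalising constants `μ_N = piC (mean M_N)`. -/
noncomputable def muN (α : Fin n → ℝ) (lam : ι → ℂ) (A : (Fin n → ℝ) → Matrix ι ι ℂ) (N : ℕ) :
    Matrix ι ι ℂ :=
  piC lam (meanM (MN α lam A N))

theorem muN_close {α : Fin n → ℝ} {lam : ι → ℂ} {A W : (Fin n → ℝ) → Matrix ι ι ℂ}
    (h : BaseS α lam A W) (N : ℕ) (hN : 1 ≤ N) : ‖muN α lam A N - 1‖ ≤ 1 / 30 := by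
  have h1 : muN α lam A N - 1 = piC lam (meanM (MN α lam A N) - 1) := by
    rw [piC_sub, piC_one]
    rfl
  rw [h1]
  exact (norm_piC_le _ _).trans
    (meanM_close _ (MN_smo h N).1.continuous 1 _ (fun x => MN_close h N hN x))

/-- normalised averages `μ_N⁻¹ M_N`. -/
noncomputable def MH (α : Fin n → ℝ) (lam : ι → ℂ) (A : (Fin n → ℝ) → Matrix ι ι ℂ) (N : ℕ)
    (x : Fin n → ℝ) : Matrix ι ι ℂ :=
  Ring.inverse (muN α lam A N) * MN α lam A N x

/-- `‖MH N x - 1‖ ≤ 1/10`. -/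
theorem MH_close {α : Fin n → ℝ} {lam : ι → ℂ} {A W : (Fin n → ℝ) → Matrix ι ι ℂ}
    (h : BaseS α lam A W) (N : ℕ) (hN : 1 ≤ N) (x : Fin n → ℝ) :
    ‖MH α lam A N x - 1‖ ≤ 1 / 10 := by
  have h1 := (MHat_inv _ (muN_close h N hN)).2
  have h2 := MN_close h N hN x
  unfold MH
  set a := Ring.inverse (muN α lam A N)
  set b := MN α lam A N x
  have e : a * b - 1 = (a - 1) * (b - 1) + (a - 1) + (b - 1) := by noncomm_ring
  rw [e]
  have h3 : ‖(a - 1) * (b - 1)‖ ≤ 1 / 29 * (1 / 30) :=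
    (norm_mul_le _ _).trans (mul_le_mul h1 h2 (norm_nonneg _) (by norm_num))
  calc _ ≤ ‖(a - 1) * (b - 1)‖ + ‖a - 1‖ + ‖b - 1‖ := norm_add₃_le
    _ ≤ 1 / 29 * (1 / 30) + 1 / 29 + 1 / 30 := by gcongr
    _ ≤ 1 / 10 := by norm_num

private theorem MHat_congr {E : Type*} [NormedAddCommGroup E] [NormedSpace ℝ E] {j : ℕ}
    {F G : ℕ → (Fin n → ℝ) → E} (h : ∀ N : ℕ, 1 ≤ N → F N = G N) (hF : Tiny j F) :
    Tiny j G := by
  refine ⟨fun N hN => ?_, fun i => ?_⟩
  · rw [← h N hN]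
    exact hF.1 N hN
  · obtain ⟨D, hD⟩ := hF.2 i
    refine ⟨D, fun N hN x => ?_⟩
    rw [← h N hN]
    exact hD N hN x

private theorem MHat_const {E : Type*} [NormedAddCommGroup E] [NormedSpace ℝ E] {j : ℕ}
    (hj : 1 ≤ j) (d : ℕ → E) (D : ℝ) (h : ∀ N : ℕ, 1 ≤ N → ‖d N‖ ^ j * N ≤ D) :
    Tiny j (fun N (_ : Fin n → ℝ) => d N) := by
  refine ⟨fun N _ => contDiff_const, fun i => ?_⟩
  rcases Nat.eq_zero_or_pos i with rfl | hi
  · refine ⟨D, fun N hN x => ?_⟩
    rw [norm_iteratedFDeriv_zero]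
    exact h N hN
  · refine ⟨0, fun N hN x => ?_⟩
    rw [iteratedFDeriv_const_of_ne (by omega)]
    simp only [Pi.zero_apply, norm_zero]
    rw [zero_pow (by omega), zero_mul]

/-- `MH (N²) - MH N` is `O (N ^ (-1/8))` in every `C^s`. Let `E_N = Q_N - q_N`,
`q_N = piC (mean Q_N)`, tiny of exponent `2`. Then `M_{N²} - q_N M_N = E_N M_N` is tiny of exponent
`4` (`Tiny.mul_slow`), so `‖μ_{N²} - q_N μ_N‖ = ‖piC (mean (E_N M_N))‖` is `O (N^(-1/4))`
(`piC_mul`, `meanM_mul_left`, `norm_piC_le`, `meanM_close`), and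
`MH (N²) - MH N = μ_{N²}⁻¹ (E_N M_N) + μ_{N²}⁻¹ (q_N μ_N - μ_{N²}) μ_N⁻¹ M_N`; the second term is
tiny (constants) times slow. -/
theorem MH_tiny {α : Fin n → ℝ} {lam : ι → ℂ} {A W : (Fin n → ℝ) → Matrix ι ι ℂ}
    (h : BaseS α lam A W) {c : ℝ} (hc : 0 < c) {τ : ℕ} (hd : DioL α lam c τ) :
    Tiny 8 (fun N x => MH α lam A (N ^ 2) x - MH α lam A N x) := by
  have hE := QN_const h hc hd
  have hEM : Tiny (2 * 2) (fun N x => (QN α lam A N x - piC lam (meanM (QN α lam A N)))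
      * MN α lam A N x) := hE.mul_slow (by norm_num) (MN_slow h)
  have hu : ∀ N : ℕ, 1 ≤ N → ∀ x, IsUnit (MN α lam A N x) := fun N hN x =>
    MHat_isUnit _ (MN_close h N hN x)
  have hsq : ∀ N : ℕ, 1 ≤ N → 1 ≤ N ^ 2 := fun N hN => Nat.one_le_pow _ _ hN
  have key : ∀ N : ℕ, 1 ≤ N → ∀ x, (QN α lam A N x - piC lam (meanM (QN α lam A N)))
      * MN α lam A N x = MN α lam A (N ^ 2) x - piC lam (meanM (QN α lam A N)) * MN α lam A N x := by
    intro N hN x
    rw [sub_mul]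
    congr 1
    unfold QN
    rw [mul_assoc, Ring.inverse_mul_cancel _ (hu N hN x), mul_one]
  obtain ⟨D, hD⟩ := hEM.2 0
  -- the constants
  have hconst : Tiny 4 (fun N (_ : Fin n → ℝ) =>
      piC lam (meanM (QN α lam A N)) * muN α lam A N - muN α lam A (N ^ 2)) := by
    refine MHat_const (by norm_num) _ D fun N hN => ?_
    have hN0 : (0 : ℝ) < N := by exact_mod_cast hN
    have hc1 : Continuous (MN α lam A N) := (MN_smo h N).1.continuous
    have hc2 : Continuous (MN α lam A (N ^ 2)) := (MN_smo h (N ^ 2)).1.continuous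
    have hc3 : Continuous (fun x => piC lam (meanM (QN α lam A N)) * MN α lam A N x) :=
      continuous_const.mul hc1
    have e1 : muN α lam A (N ^ 2) - piC lam (meanM (QN α lam A N)) * muN α lam A N =
        piC lam (meanM (fun x => MN α lam A (N ^ 2) x
          - piC lam (meanM (QN α lam A N)) * MN α lam A N x)) := by
      rw [meanM_sub _ _ hc2 hc3, meanM_mul_left _ hc1, piC_sub, piC_mul]
      rfl
    have hD0 : 0 ≤ D := by
      refine le_trans ?_ (hD N hN 0)
      positivity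
    set ε : ℝ := (D / N) ^ ((4 : ℝ)⁻¹) with hε
    have hε0 : 0 ≤ ε := Real.rpow_nonneg (by positivity) _
    have hε4 : ε ^ 4 * N = D := by
      have h5 : ε ^ 4 = D / N := by
        rw [hε]
        have h6 := Real.rpow_inv_natCast_pow (x := D / N) (by positivity) (n := 4) (by norm_num)
        exact_mod_cast h6
      rw [h5]
      field_simp
    have h7 : ‖meanM (fun x => MN α lam A (N ^ 2) x
          - piC lam (meanM (QN α lam A N)) * MN α lam A N x)‖ ≤ ε := by
      have h8 := meanM_close (fun x => MN α lam A (N ^ 2) x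
          - piC lam (meanM (QN α lam A N)) * MN α lam A N x) (hc2.sub hc3) 0 ε ?_
      · rwa [sub_zero] at h8
      · intro x
        rw [sub_zero, ← key N hN x]
        have h9 := hD N hN x
        rw [norm_iteratedFDeriv_zero] at h9
        rw [← hε4] at h9
        have h10 := le_of_mul_le_mul_right h9 hN0
        exact (pow_le_pow_iff_left₀ (norm_nonneg _) hε0 (by norm_num)).mp h10
    have h11 : ‖piC lam (meanM (QN α lam A N)) * muN α lam A N - muN α lam A (N ^ 2)‖ ≤ ε := by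
      rw [norm_sub_rev, e1]
      exact (norm_piC_le _ _).trans h7
    calc _ ≤ ε ^ 4 * (N : ℝ) :=
          mul_le_mul_of_nonneg_right (pow_le_pow_left₀ (norm_nonneg _) h11 4) hN0.le
      _ = D := hε4
  have hs : Slow (fun N x => Ring.inverse (muN α lam A N) * MN α lam A N x) :=
    (MN_slow h).const_mul _ 2 fun N hN => (MHat_inv _ (muN_close h N hN)).1
  have t2 : Tiny (2 * 4) (fun N x =>
      (piC lam (meanM (QN α lam A N)) * muN α lam A N - muN α lam A (N ^ 2)) *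
        (Ring.inverse (muN α lam A N) * MN α lam A N x)) :=
    hconst.mul_slow (by norm_num) hs
  have t1 : Tiny 8 (fun N x => (QN α lam A N x - piC lam (meanM (QN α lam A N)))
      * MN α lam A N x) := hEM.mono (by norm_num) (by norm_num)
  have hb : ∀ N : ℕ, 1 ≤ N → ‖Ring.inverse (muN α lam A (N ^ 2))‖ ≤ 2 := fun N hN =>
    (MHat_inv _ (muN_close h (N ^ 2) (hsq N hN))).1
  have t3 := (t1.const_mul (fun N => Ring.inverse (muN α lam A (N ^ 2))) 2 hb).add (by norm_num)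
    (t2.const_mul (fun N => Ring.inverse (muN α lam A (N ^ 2))) 2 hb)
  refine MHat_congr (fun N hN => ?_) t3
  funext x
  have hmu : IsUnit (muN α lam A N) := MHat_isUnit _ (muN_close h N hN)
  have hmu2 : IsUnit (muN α lam A (N ^ 2)) := MHat_isUnit _ (muN_close h (N ^ 2) (hsq N hN))
  have k1 := key N hN x
  rw [k1]
  unfold MH
  set q := piC lam (meanM (QN α lam A N))
  set m := muN α lam A N
  set m2 := muN α lam A (N ^ 2)
  set a := MN α lam A N x
  set b := MN α lam A (N ^ 2) x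
  have e1 : m * (Ring.inverse m * a) = a := by
    rw [← mul_assoc, Ring.mul_inverse_cancel _ hmu, one_mul]
  have e2 : Ring.inverse m2 * (m2 * (Ring.inverse m * a)) = Ring.inverse m * a := by
    rw [← mul_assoc, Ring.inverse_mul_cancel _ hmu2, one_mul]
  rw [sub_mul (q * m), mul_assoc q m, e1, mul_sub, mul_sub, e2]
  abel

end QPR
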