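import Pool.Agent.Lib.QPR.FDef

set_option autoImplicit false

namespace QPR

open scoped Matrix.Norms.Operator

variable {n : ℕ} {ι : Type} [Fintype ι] [DecidableEq ι] [Nonempty ι]

/-- the constant matrix. -/
noncomputable def cD (lam : ι → ℂ) : Matrix ι ι ℂ := Matrix.diagonal lam

/-- its inverse (for `|lam i| = 1`). -/
noncomputable def cDi (lam : ι → ℂ) : Matrix ι ι ℂ := Matrix.diagonal (fun i => star (lam i))

/-- projection onto the commutant of `cD lam`. -/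
noncomputable def piC (lam : ι → ℂ) (b : Matrix ι ι ℂ) : Matrix ι ι ℂ :=
  fun i j => if lam i = lam j then b i j else 0

/-- mean value of a matrix valued periodic function. -/
noncomputable def meanM (Q : (Fin n → ℝ) → Matrix ι ι ℂ) : Matrix ι ι ℂ :=
  fun i j => coef (fun x => Q x i j) 0

/-- Herman averages of the normalised iterates. -/
noncomputable def MN (α : Fin n → ℝ) (lam : ι → ℂ) (A : (Fin n → ℝ) → Matrix ι ι ℂ) (N : ℕ)
    (x : Fin n → ℝ) : Matrix ι ι ℂ :=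
  (1 / (N : ℝ)) • ∑ k ∈ Finset.range N, Xn α (cDi lam) A k x

/-- quotients of Herman averages. -/
noncomputable def QN (α : Fin n → ℝ) (lam : ι → ℂ) (A : (Fin n → ℝ) → Matrix ι ι ℂ) (N : ℕ)
    (x : Fin n → ℝ) : Matrix ι ι ℂ :=
  MN α lam A (N ^ 2) x * Ring.inverse (MN α lam A N x)

/-- Diophantine condition for `α` and the eigenvalues `lam i`. -/
def DioL (α : Fin n → ℝ) (lam : ι → ℂ) (c : ℝ) (τ : ℕ) : Prop :=
  ∀ (ξ : Fin n → ℤ) (i j : ι), (ξ ≠ 0 ∨ lam i ≠ lam j) →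
    c ≤ ‖star (lam i) * lam j * ex (dotZ ξ α) - 1‖ * (1 + ‖ξ‖) ^ τ

/-- base situation: a smooth cocycle `A`, conjugate to the constant `diag lam` by a continuous `W`
which is close to one. -/
structure BaseS (α : Fin n → ℝ) (lam : ι → ℂ) (A W : (Fin n → ℝ) → Matrix ι ι ℂ) : Prop where
  lam_norm : ∀ i, ‖lam i‖ = 1
  smoA : Smo A
  perA : Per A
  contW : Continuous W
  perW : Per W
  unitW : ∀ x, IsUnit (W x)
  closeW : ∀ x, ‖W x - 1‖ ≤ 1 / 100
  closeW' : ∀ x, ‖Ring.inverse (W x) - 1‖ ≤ 1 / 100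
  conj : ∀ x, W (x + α) * A x = cD lam * W x

/-- a family of smooth functions whose derivatives grow slower than every power. -/
def Slow {E : Type*} [NormedAddCommGroup E] [NormedSpace ℝ E]
    (F : ℕ → (Fin n → ℝ) → E) : Prop :=
  (∀ N : ℕ, 1 ≤ N → Smo (F N)) ∧ ∀ i m : ℕ, ∃ D : ℝ, ∀ N : ℕ, 1 ≤ N → ∀ x,
    ‖iteratedFDeriv ℝ i (F N) x‖ ^ m ≤ D * N

/-- a family of smooth functions all of whose derivatives are `O (N ^ (-1/j))`. -/
def Tiny {E : Type*} [NormedAddCommGroup E] [NormedSpace ℝ E] (j : ℕ)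
    (F : ℕ → (Fin n → ℝ) → E) : Prop :=
  (∀ N : ℕ, 1 ≤ N → Smo (F N)) ∧ ∀ i : ℕ, ∃ D : ℝ, ∀ N : ℕ, 1 ≤ N → ∀ x,
    ‖iteratedFDeriv ℝ i (F N) x‖ ^ j * N ≤ D

end QPR
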