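import Pool.Agent.Lib.QPR.TSm

set_option autoImplicit false

namespace QPR

open MeasureTheory

private theorem MobInt_lt (p q : ℂ) (h : ‖p‖ ^ 2 - ‖q‖ ^ 2 = 1) : ‖q‖ < ‖p‖ := by
  have h1 := norm_nonneg p
  have h2 := norm_nonneg q
  nlinarith

private theorem MobInt_star (q : ℂ) : ‖star q‖ = ‖q‖ := norm_star q

/-- the denominator does not vanish. -/
theorem mob_den_ne (p q z : ℂ) (h : ‖p‖ ^ 2 - ‖q‖ ^ 2 = 1) (hz : ‖z‖ = 1) :
    star q * z + star p ≠ 0 := by
  intro h0
  have h1 : star p = -(star q * z) := by linear_combination h0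
  have h2 := congrArg norm h1
  rw [norm_neg, norm_mul, hz, mul_one, MobInt_star, MobInt_star] at h2
  have h3 := MobInt_lt p q h
  linarith

/-- Moebius maps preserve the circle. -/
theorem mob_norm (p q z : ℂ) (h : ‖p‖ ^ 2 - ‖q‖ ^ 2 = 1) (hz : ‖z‖ = 1) :
    ‖(p * z + q) / (star q * z + star p)‖ = 1 := by
  have hd := mob_den_ne p q z h hz
  have hzz : star z * z = 1 := by
    have h1 : star z * z = ((Complex.normSq z : ℝ) : ℂ) := Complex.normSq_eq_conj_mul_self.symm
    rw [h1, Complex.normSq_eq_norm_sq, hz]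
    norm_num
  have h1 : star q * z + star p = z * star (p * z + q) := by
    rw [star_add, star_mul']
    linear_combination (-star p) * hzz
  have h2 : ‖star q * z + star p‖ = ‖p * z + q‖ := by
    rw [h1, norm_mul, hz, one_mul, norm_star]
  rw [norm_div, h2]
  refine div_self ?_
  rw [← h2]
  exact norm_ne_zero_iff.2 hd

private theorem MobInt_univ : (volume : Measure UnitAddCircle).real Set.univ = 1 := by
  rw [measureReal_def, UnitAddCircle.measure_univ, ENNReal.toReal_one]

private theorem MobInt_fourier (n : ℕ) (t : UnitAddCircle) :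
    (fourier (n : ℤ) t : ℂ) = ee t ^ n := by
  rw [fourier_apply, natCast_zsmul, AddCircle.toCircle_nsmul]
  unfold ee
  rw [Circle.coe_pow]

private theorem MobInt_pow (n : ℕ) :
    ∫ t : UnitAddCircle, ee t ^ n = if n = 0 then 1 else 0 := by
  by_cases hn : n = 0
  · subst hn
    rw [if_pos rfl]
    simp only [pow_zero, integral_const, MobInt_univ, one_smul]
  · rw [if_neg hn]
    have hn' : (n : ℤ) ≠ 0 := by exact_mod_cast hn
    refine integral_eq_zero_of_add_right_eq_neg (g := (((1 : ℝ) / 2 / ((n : ℤ) : ℝ) : ℝ) : UnitAddCircle))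
      fun t => ?_
    rw [← MobInt_fourier, ← MobInt_fourier]
    exact fourier_add_half_inv_index hn' one_pos t

private theorem MobInt_int {f : UnitAddCircle → ℂ} (hf : Continuous f) :
    Integrable f (volume : Measure UnitAddCircle) :=
  hf.integrable_of_hasCompactSupport (HasCompactSupport.of_compactSpace _)

private theorem MobInt_ne (w : ℂ) (hw : ‖w‖ < 1) (t : UnitAddCircle) : 1 - w * ee t ≠ 0 := by
  intro h0
  have h1 : w * ee t = 1 := by linear_combination -h0
  have h2 := congrArg norm h1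
  rw [norm_mul, norm_ee, mul_one, norm_one] at h2
  linarith

private theorem MobInt_geom (w : ℂ) (hw : ‖w‖ < 1) (j : ℕ) :
    ∫ t : UnitAddCircle, ee t ^ j * (1 - w * ee t)⁻¹ = if j = 0 then 1 else 0 := by
  have hcont : ∀ k : ℕ, Continuous fun t : UnitAddCircle => ee t ^ j * (w * ee t) ^ k := fun k =>
    (continuous_ee.pow j).mul ((continuous_const.mul continuous_ee).pow k)
  have hn : ∀ (k : ℕ) (t : UnitAddCircle), ‖ee t ^ j * (w * ee t) ^ k‖ = ‖w‖ ^ k := by
    intro k t
    rw [norm_mul, norm_pow, norm_pow, norm_mul, norm_ee, one_pow, one_mul, mul_one]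
  have h1 := hasSum_integral_of_summable_integral_norm (μ := (volume : Measure UnitAddCircle))
    (F := fun (k : ℕ) (t : UnitAddCircle) => ee t ^ j * (w * ee t) ^ k)
    (fun k => MobInt_int (hcont k)) (by
      simp_rw [hn]
      simp only [integral_const, smul_eq_mul]
      exact (summable_geometric_of_lt_one (norm_nonneg w) hw).mul_left _)
  have h2 : ∀ t : UnitAddCircle, ∑' k : ℕ, ee t ^ j * (w * ee t) ^ k =
      ee t ^ j * (1 - w * ee t)⁻¹ := by
    intro t
    have h3 : ‖w * ee t‖ < 1 := by rwa [norm_mul, norm_ee, mul_one]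
    exact ((hasSum_geometric_of_norm_lt_one h3).mul_left _).tsum_eq
  simp_rw [h2] at h1
  refine h1.unique ?_
  have h4 : ∀ k : ℕ, ∫ t : UnitAddCircle, ee t ^ j * (w * ee t) ^ k =
      if k = 0 then (if j = 0 then 1 else 0) else 0 := by
    intro k
    have h5 : ∀ t : UnitAddCircle, ee t ^ j * (w * ee t) ^ k = w ^ k * ee t ^ (j + k) := by
      intro t
      rw [mul_pow, pow_add]
      ring
    simp_rw [h5]
    rw [integral_const_mul, MobInt_pow]
    by_cases hk : k = 0
    · subst hk
      simp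
    · rw [if_neg (by omega), if_neg hk, mul_zero]
  simp_rw [h4]
  exact hasSum_ite_eq 0 _

private theorem MobInt_split (p q : ℂ) (h : ‖p‖ ^ 2 - ‖q‖ ^ 2 = 1) (t : UnitAddCircle) :
    (p * ee t + q) / (star q * ee t + star p) =
      q / star p + 1 / (star p) ^ 2 * (ee t ^ 1 * (1 - (-(star q / star p)) * ee t)⁻¹) := by
  have hp : star p ≠ 0 := by
    intro h0
    have h1 : p = 0 := star_eq_zero.1 h0
    have h2 := MobInt_lt p q h
    rw [h1, norm_zero] at h2
    exact absurd h2 (not_lt.2 (norm_nonneg q))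
  have hd := mob_den_ne p q (ee t) h (norm_ee t)
  have hpp : p * star p - q * star q = 1 := by
    have h1 : ∀ z : ℂ, z * star z = ((‖z‖ ^ 2 : ℝ) : ℂ) := by
      intro z
      have h2 : z * star z = ((Complex.normSq z : ℝ) : ℂ) := Complex.mul_conj z
      rw [h2, Complex.normSq_eq_norm_sq]
    rw [h1, h1, ← Complex.ofReal_sub, h, Complex.ofReal_one]
  have h1 : 1 - (-(star q / star p)) * ee t = (star q * ee t + star p) / star p := by
    field_simp
    ring
  rw [h1, inv_div, div_eq_iff hd]
  generalize ee t = z at *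
  obtain ⟨D, hD⟩ : ∃ D, D = star q * z + star p := ⟨_, rfl⟩
  rw [← hD] at hd ⊢
  obtain ⟨P, hP⟩ : ∃ P, P = star p := ⟨_, rfl⟩
  rw [← hP] at hp hpp hD ⊢
  have h3 : (q / P + 1 / P ^ 2 * (z ^ 1 * (P / D))) * D = (q * D + z) / P := by
    field_simp
  rw [h3, hD, eq_div_iff hp]
  linear_combination z * hpp

private theorem MobInt_w (p q : ℂ) (h : ‖p‖ ^ 2 - ‖q‖ ^ 2 = 1) : ‖-(star q / star p)‖ < 1 := by
  have h2 := MobInt_lt p q h
  rw [norm_neg, norm_div, norm_star, norm_star, div_lt_one (lt_of_le_of_lt (norm_nonneg q) h2)]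
  exact h2

private theorem MobInt_contG (w : ℂ) (hw : ‖w‖ < 1) (j : ℕ) :
    Continuous fun t : UnitAddCircle => ee t ^ j * (1 - w * ee t)⁻¹ :=
  (continuous_ee.pow j).mul
    ((continuous_const.sub (continuous_const.mul continuous_ee)).inv₀ (MobInt_ne w hw))

/-- Mean value: `(p z + q) / (star q z + star p) = q/star p + (1/star p^2) ∑ (-star q/star p)^k z^(k+1)`
for `|z| = 1` (`|q| < |p|`). -/
theorem mob_int0 (p q : ℂ) (h : ‖p‖ ^ 2 - ‖q‖ ^ 2 = 1) :
    ∫ t : UnitAddCircle, (p * ee t + q) / (star q * ee t + star p) = q / star p := by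
  simp_rw [MobInt_split p q h]
  rw [integral_add (integrable_const _) ((MobInt_int (MobInt_contG _ (MobInt_w p q h) 1)).const_mul _),
    integral_const_mul, MobInt_geom _ (MobInt_w p q h), integral_const, MobInt_univ]
  simp

/-- First Fourier coefficient. -/
theorem mob_int1 (p q : ℂ) (h : ‖p‖ ^ 2 - ‖q‖ ^ 2 = 1) :
    ∫ t : UnitAddCircle, ee (-t) * ((p * ee t + q) / (star q * ee t + star p))
      = 1 / (star p) ^ 2 := by
  have h0 : ∀ t : UnitAddCircle, ee (-t) * ee t = 1 := by
    intro t
    rw [← ee_add, neg_add_cancel]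
    have h1 := ee_zsmul 0 t
    rwa [zero_smul, zpow_zero] at h1
  have h1 : ∀ t : UnitAddCircle, ee (-t) * ((p * ee t + q) / (star q * ee t + star p)) =
      q / star p * ee (-t) +
        1 / (star p) ^ 2 * (ee t ^ 0 * (1 - (-(star q / star p)) * ee t)⁻¹) := by
    intro t
    rw [MobInt_split p q h, mul_add, pow_one, pow_zero]
    linear_combination (1 / (star p) ^ 2 * (1 - (-(star q / star p)) * ee t)⁻¹) * h0 t
  simp_rw [h1]
  have h2 : Continuous fun t : UnitAddCircle => ee (-t) := continuous_ee.comp continuous_neg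
  rw [integral_add ((MobInt_int h2).const_mul _)
    ((MobInt_int (MobInt_contG _ (MobInt_w p q h) 0)).const_mul _),
    integral_const_mul, integral_const_mul, MobInt_geom _ (MobInt_w p q h)]
  have h3 : ∫ t : UnitAddCircle, ee (-t) = 0 := by
    rw [integral_neg_eq_self (fun t : UnitAddCircle => ee t)]
    have h4 := MobInt_pow 1
    simpa using h4
  rw [h3]
  simp

/-- An equicontinuity bound for a Moebius map bounds its coefficients. Let
`G t = (p ee t + q)/(star q ee t + star p)`, `g₀ = ∫ G = q / star p`, `c` a unit complex number with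
`star c * g₀ = |g₀|` ; `∫ ‖G - c‖^2 = 2 - 2 |g₀|`. `G` takes the value `-c` at some `t₀` (the inverse
Moebius map), and for `dist t t₀ < δ` one has `‖G t - c‖ ≥ 2 - 1 = 1`; this ball has measure
`2 δ` (`δ ≤ 1/2`), so `2 - 2 |g₀| ≥ 2 δ`, `1 / |p|^2 = 1 - |g₀|^2 ≥ 1 - (1-δ)^2 ≥ δ`. -/
theorem mob_bd (p q : ℂ) (h : ‖p‖ ^ 2 - ‖q‖ ^ 2 = 1) (δ : ℝ) (hδ : 0 < δ) (hδ2 : δ ≤ 1 / 2)
    (he : ∀ s t : UnitAddCircle, dist s t < δ →
      ‖(p * ee s + q) / (star q * ee s + star p) - (p * ee t + q) / (star q * ee t + star p)‖ < 1) :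
    ‖p‖ ^ 2 ≤ 1 / δ := by
  have hlt := MobInt_lt p q h
  have hp0 : 0 < ‖p‖ := lt_of_le_of_lt (norm_nonneg q) hlt
  have hp : p ≠ 0 := norm_pos_iff.1 hp0
  obtain ⟨G, hG⟩ : ∃ G : UnitAddCircle → ℂ, ∀ t,
    G t = (p * ee t + q) / (star q * ee t + star p) := ⟨_, fun t => rfl⟩
  have hGn : ∀ t, ‖G t‖ = 1 := fun t => by rw [hG]; exact mob_norm p q _ h (norm_ee t)
  have hGc : Continuous G := by
    have h1 : G = fun t => (p * ee t + q) / (star q * ee t + star p) := funext hG
    rw [h1]
    exact ((continuous_const.mul continuous_ee).add continuous_const).div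
      ((continuous_const.mul continuous_ee).add continuous_const)
      fun t => mob_den_ne p q _ h (norm_ee t)
  have hG0 : ∫ t, G t = q / star p := by
    simp_rw [hG]
    exact mob_int0 p q h
  obtain ⟨c, hc1, hc2⟩ : ∃ c : ℂ, ‖c‖ = 1 ∧ star c * (q / star p) = ((‖q / star p‖ : ℝ) : ℂ) := by
    by_cases hq : q / star p = 0
    · exact ⟨1, norm_one, by rw [hq]; simp⟩
    · have hn : ‖q / star p‖ ≠ 0 := norm_ne_zero_iff.2 hq
      refine ⟨(q / star p) / ((‖q / star p‖ : ℝ) : ℂ), ?_, ?_⟩
      · rw [norm_div, Complex.norm_real, norm_norm, div_self hn]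
      · have h1 : star (q / star p) * (q / star p) = ((‖q / star p‖ ^ 2 : ℝ) : ℂ) := by
          have h2 : star (q / star p) * (q / star p) =
              ((Complex.normSq (q / star p) : ℝ) : ℂ) := Complex.normSq_eq_conj_mul_self.symm
          rw [h2, Complex.normSq_eq_norm_sq]
        have h3 : star ((q / star p) / ((‖q / star p‖ : ℝ) : ℂ)) =
            star (q / star p) / ((‖q / star p‖ : ℝ) : ℂ) := by
          rw [star_div₀]
          congr 1
          exact Complex.conj_ofReal _
        have hn' : ((‖q / star p‖ : ℝ) : ℂ) ≠ 0 := by exact_mod_cast hn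
        rw [h3, div_mul_eq_mul_div, h1, div_eq_iff hn']
        push_cast
        ring
  -- the point with value `-c`
  obtain ⟨t₀, ht₀⟩ : ∃ t₀, G t₀ = -c := by
    obtain ⟨g, hg, -⟩ := exists_ee_section
    have hcc : star c * c = 1 := by
      have h1 : star c * c = ((Complex.normSq c : ℝ) : ℂ) := Complex.normSq_eq_conj_mul_self.symm
      rw [h1, Complex.normSq_eq_norm_sq, hc1]
      norm_num
    have hd : p + c * star q ≠ 0 := by
      intro h0
      have h1 : p = -(c * star q) := by linear_combination h0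
      have h2 := congrArg norm h1
      rw [norm_neg, norm_mul, hc1, one_mul, norm_star] at h2
      linarith
    have h1 : ‖-(q + c * star p) / (p + c * star q)‖ = 1 := by
      rw [norm_div, norm_neg]
      have h2 : q + c * star p = c * star (p + c * star q) := by
        rw [star_add, star_mul', star_star]
        linear_combination (-q) * hcc
      have h3 : ‖q + c * star p‖ = ‖p + c * star q‖ := by
        rw [h2, norm_mul, hc1, one_mul, norm_star]
      rw [h3, div_self (norm_ne_zero_iff.2 hd)]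
    refine ⟨g (-(q + c * star p) / (p + c * star q)), ?_⟩
    rw [hG, hg _ h1]
    have h4 := mob_den_ne p q _ h h1
    rw [div_eq_iff h4]
    field_simp
    ring
  -- the integral of `‖G - c‖ ^ 2`
  have hsq : ∀ t, ‖G t - c‖ ^ 2 = 2 - 2 * (star c * G t).re := by
    intro t
    have h1 : ∀ z : ℂ, ‖z‖ ^ 2 = (star z * z).re := by
      intro z
      have h2 : star z * z = ((Complex.normSq z : ℝ) : ℂ) := Complex.normSq_eq_conj_mul_self.symm
      rw [h2, Complex.ofReal_re, Complex.normSq_eq_norm_sq]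
    have h2 : star (G t - c) * (G t - c) = star (G t) * G t + star c * c -
        (star c * G t + star (star c * G t)) := by
      rw [star_sub, star_mul', star_star]
      ring
    have h3 : (star (star c * G t)).re = (star c * G t).re := Complex.conj_re _
    rw [h1, h2, Complex.sub_re, Complex.add_re, Complex.add_re, ← h1, ← h1, hGn, hc1, h3]
    ring
  have hint : ∫ t, ‖G t - c‖ ^ 2 = 2 - 2 * ‖q / star p‖ := by
    simp_rw [hsq]
    have hi : Integrable (fun t => star c * G t) (volume : Measure UnitAddCircle) :=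
      (MobInt_int hGc).const_mul _
    have h1 : ∫ t, (star c * G t).re = ‖q / star p‖ := by
      have h2 : ∫ t, (star c * G t).re = (∫ t, star c * G t).re := integral_re hi
      rw [h2, integral_const_mul, hG0, hc2, Complex.ofReal_re]
    have hi2 : Integrable (fun t => (star c * G t).re) (volume : Measure UnitAddCircle) := hi.re
    rw [integral_sub (integrable_const _) (hi2.const_mul _), integral_const_mul, h1,
      integral_const, MobInt_univ, one_smul]
  -- the lower bound
  have hlow : ∀ ε : ℝ, 0 ≤ ε → ε < δ → 2 * ε ≤ 2 - 2 * ‖q / star p‖ := by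
    intro ε hε hεδ
    rw [← hint]
    have hcont : Continuous fun t => ‖G t - c‖ ^ 2 := ((hGc.sub continuous_const).norm).pow 2
    have hi : Integrable (fun t => ‖G t - c‖ ^ 2) (volume : Measure UnitAddCircle) :=
      hcont.integrable_of_hasCompactSupport (HasCompactSupport.of_compactSpace _)
    have h1 : ∫ t in Metric.closedBall t₀ ε, ‖G t - c‖ ^ 2 ≤ ∫ t, ‖G t - c‖ ^ 2 :=
      setIntegral_le_integral hi (Filter.Eventually.of_forall fun t => by positivity)
    have h2 : ∫ t in Metric.closedBall t₀ ε, (1 : ℝ) ≤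
        ∫ t in Metric.closedBall t₀ ε, ‖G t - c‖ ^ 2 := by
      refine setIntegral_mono_on (integrable_const _).integrableOn hi.integrableOn
        measurableSet_closedBall fun t ht => ?_
      have h3 := he t t₀ (lt_of_le_of_lt (Metric.mem_closedBall.1 ht) hεδ)
      rw [← hG, ← hG, ht₀] at h3
      have h4 : (2 : ℝ) ≤ ‖G t - c‖ + ‖G t - -c‖ := by
        have h5 : (2 : ℂ) * c = (G t - -c) - (G t - c) := by ring
        have h6 : ‖(2 : ℂ) * c‖ = 2 := by
          rw [norm_mul, hc1, mul_one]
          norm_num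
        calc (2 : ℝ) = ‖(G t - -c) - (G t - c)‖ := by rw [← h5, h6]
          _ ≤ ‖G t - -c‖ + ‖G t - c‖ := norm_sub_le _ _
          _ = _ := add_comm _ _
      have h7 : 1 ≤ ‖G t - c‖ := by linarith
      nlinarith
    have h3 : ∫ t in Metric.closedBall t₀ ε, (1 : ℝ) = 2 * ε := by
      rw [setIntegral_const, smul_eq_mul, mul_one, measureReal_def, AddCircle.volume_closedBall,
        ENNReal.toReal_ofReal (by positivity), min_eq_right (by linarith)]
    linarith
  have h2 : δ ≤ 1 - ‖q / star p‖ := by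
    by_contra hcon
    push Not at hcon
    have h3 : 0 ≤ 1 - ‖q / star p‖ := by
      have := hlow 0 le_rfl hδ
      linarith
    have h4 := hlow (((1 - ‖q / star p‖) + δ) / 2) (by linarith) (by linarith)
    linarith
  have h3 : ‖q / star p‖ = ‖q‖ / ‖p‖ := by rw [norm_div, norm_star]
  have h4 : (‖q / star p‖) ^ 2 = 1 - 1 / ‖p‖ ^ 2 := by
    rw [h3, div_pow]
    have h5 : ‖p‖ ^ 2 ≠ 0 := pow_ne_zero _ hp0.ne'
    field_simp
    linarith
  have h5 := norm_nonneg (q / star p)
  have h6 : δ ≤ 1 / ‖p‖ ^ 2 := by nlinarith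
  rw [le_div_iff₀ (pow_pos hp0 2)] at h6
  rw [le_div_iff₀ hδ]
  linarith

end QPR
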