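import Pool.Agent.Lib.QPR.GrowX
import Pool.Agent.Lib.QPR.CohEst
import Pool.Agent.Lib.QPR.Interp

set_option autoImplicit false

namespace QPR

open scoped Matrix.Norms.Operator

namespace QE

theorem root_le {m : ℕ} (hm : m ≠ 0) {D y b : ℝ} (hy : 0 ≤ y) (hb : 0 ≤ b)
    (h : b ^ m ≤ D * y ^ m) : b ≤ max 1 D * y := by
  have h0 : (0 : ℝ) ≤ max 1 D := zero_le_one.trans (le_max_left _ _)
  rw [← pow_le_pow_iff_left₀ hb (mul_nonneg h0 hy) hm, mul_pow]
  refine h.trans (mul_le_mul_of_nonneg_right ?_ (pow_nonneg hy m))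
  exact (le_max_right 1 D).trans (le_self_pow₀ (le_max_left _ _) hm)

section

variable {ι : Type} [Fintype ι]

theorem norm_entry_le (M : Matrix ι ι ℂ) (i j : ι) : ‖M i j‖ ≤ ‖M‖ := by
  rw [← coe_nnnorm, ← coe_nnnorm, NNReal.coe_le_coe, Matrix.linfty_opNNNorm_def]
  refine le_trans ?_ (Finset.le_sup (f := fun i => ∑ j, ‖M i j‖₊) (Finset.mem_univ i))
  exact Finset.single_le_sum (f := fun j => ‖M i j‖₊) (fun _ _ => zero_le) (Finset.mem_univ j)

theorem norm_le_of_entry [Nonempty ι] {M : Matrix ι ι ℂ} {a : ℝ} (h : ∀ i j, ‖M i j‖ ≤ a) :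
    ‖M‖ ≤ Fintype.card ι * a := by
  have ha : 0 ≤ a := (norm_nonneg _).trans (h (Classical.arbitrary ι) (Classical.arbitrary ι))
  lift a to NNReal using ha
  rw [← coe_nnnorm, Matrix.linfty_opNNNorm_def, ← NNReal.coe_natCast, ← NNReal.coe_mul,
    NNReal.coe_le_coe]
  refine Finset.sup_le fun i _ => ?_
  refine (Finset.sum_le_card_nsmul _ _ a fun j _ => ?_).trans ?_
  · exact_mod_cast h i j
  · rw [nsmul_eq_mul, Finset.card_univ]

/-- the entry as a linear map. -/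
def ent (i j : ι) : Matrix ι ι ℂ →ₗ[ℝ] ℂ where
  toFun := fun M => M i j
  map_add' := fun _ _ => rfl
  map_smul' := fun _ _ => rfl

end

theorem lin_deriv {n : ℕ} {E E' : Type*} [NormedAddCommGroup E] [NormedSpace ℝ E]
    [NormedAddCommGroup E'] [NormedSpace ℝ E'] (l : E →ₗ[ℝ] E') (hl : ∀ e, ‖l e‖ ≤ ‖e‖)
    {F : (Fin n → ℝ) → E} (hF : Smo F) :
    Smo (fun x => l (F x)) ∧ ∀ (p : ℕ) (x : Fin n → ℝ),
      ‖iteratedFDeriv ℝ p (fun x => l (F x)) x‖ ≤ ‖iteratedFDeriv ℝ p F x‖ := by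
  set L : E →L[ℝ] E' := l.mkContinuous 1 (fun e => by simpa using hl e) with hL
  have h0 : ‖L‖ ≤ 1 := LinearMap.mkContinuous_norm_le _ zero_le_one _
  have h2 : (fun x => l (F x)) = L ∘ F := rfl
  rw [h2]
  refine ⟨L.contDiff.comp hF, fun p x => ?_⟩
  have h := L.norm_iteratedFDeriv_comp_left (hF.contDiffAt (x := x)) (n := p)
    (by exact_mod_cast le_top)
  exact h.trans (mul_le_of_le_one_left (norm_nonneg _) h0)

theorem deriv_sub_const {n : ℕ} {E : Type*} [NormedAddCommGroup E] [NormedSpace ℝ E]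
    {F : (Fin n → ℝ) → E} (hF : Smo F) (c : E) {i : ℕ} (hi : i ≠ 0) (x : Fin n → ℝ) :
    iteratedFDeriv ℝ i (fun x => F x - c) x = iteratedFDeriv ℝ i F x := by
  have h1 : ContDiff ℝ (i : WithTop ℕ∞) F := hF.of_le (by exact_mod_cast le_top)
  have h := iteratedFDeriv_sub_apply (x := x) h1.contDiffAt
    (contDiff_const (c := c) : ContDiff ℝ (i : WithTop ℕ∞) fun _ : Fin n → ℝ => c).contDiffAt
  have h2 : (fun x => F x - c) = F - fun _ => c := rfl
  rw [h2, h, iteratedFDeriv_const_of_ne hi, Pi.zero_apply, sub_zero]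

section

variable {n : ℕ} {ι : Type} [Fintype ι] [DecidableEq ι]

theorem twist_entry (lam : ι → ℂ) (M : Matrix ι ι ℂ) (i j : ι) :
    (cDi lam * M * cD lam) i j = star (lam i) * lam j * M i j := by
  rw [cDi, cD, Matrix.mul_diagonal, Matrix.diagonal_mul]
  ring

omit [Fintype ι] [DecidableEq ι] in
theorem twist_eq_one {lam : ι → ℂ} (h : ∀ i, ‖lam i‖ = 1) (i j : ι) :
    star (lam i) * lam j = 1 ↔ lam i = lam j := by
  have h1 : star (lam i) * lam i = 1 := by
    have h2 := Complex.conj_mul' (lam i)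
    rw [h i] at h2
    simpa using h2
  constructor
  · intro h2
    have h3 : lam i * star (lam i) = 1 := by rw [mul_comm, h1]
    calc lam i = lam i * (star (lam i) * lam j) := by rw [h2, mul_one]
      _ = (lam i * star (lam i)) * lam j := by ring
      _ = lam j := by rw [h3, one_mul]
  · intro h2
    rw [← h2, h1]

/-- Step 1: the sup norm. -/
theorem sup_est [Nonempty ι] {α : Fin n → ℝ} {lam : ι → ℂ} {A W : (Fin n → ℝ) → Matrix ι ι ℂ}
    (h : BaseS α lam A W) {c : ℝ} (hc : 0 < c) {τ : ℕ} (hd : DioL α lam c τ) :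
    ∃ D : ℝ, 0 ≤ D ∧ ∀ N : ℕ, 1 ≤ N → ∀ w : ℝ, 1 ≤ w → w ^ 8 = N → ∀ x,
      ‖QN α lam A N x - piC lam (meanM (QN α lam A N))‖ ≤ D / w ^ 6 := by
  obtain ⟨D, hD, hcoh⟩ := coh_est n c hc τ (n + 1 + 8 * (τ + n + 1)) (by omega)
  obtain ⟨H, hH⟩ := (QN_slow h).2 (n + 1 + 8 * (τ + n + 1)) 2
  set s := τ + n + 1 with hs
  have hs0 : s ≠ 0 := by omega
  refine ⟨Fintype.card ι * (D * (10 * 2 ^ s + max 1 H)), by positivity, ?_⟩
  intro N hN w hw hwN x
  have hN0 : (0 : ℝ) < N := by exact_mod_cast hN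
  have hw0 : (0 : ℝ) < w := lt_of_lt_of_le one_pos hw
  obtain ⟨L, hL1, hL⟩ : ∃ L : ℝ, 1 ≤ L ∧ L ^ s = w ^ 2 := by
    refine ⟨(w ^ 2) ^ ((s : ℝ)⁻¹), Real.one_le_rpow (one_le_pow₀ hw) (by positivity), ?_⟩
    exact Real.rpow_inv_natCast_pow (by positivity) hs0
  rw [mul_div_assoc]
  refine norm_le_of_entry fun i j => ?_
  obtain ⟨hsmo, hper⟩ := QN_smo h N hN
  obtain ⟨hq, hqd⟩ := lin_deriv (ent i j) (fun e => norm_entry_le e i j) hsmo
  have hμ : ‖star (lam i) * lam j‖ = 1 := by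
    rw [norm_mul, norm_star, h.lam_norm, h.lam_norm, mul_one]
  have hq2 := hcoh α (star (lam i) * lam j) hμ ?_ (fun x => ent i j (QN α lam A N x)) hq
    (fun x k => congrArg (ent i j) (hper x k)) (10 / N) (max 1 H * w ^ 4) L hL1 ?_ ?_ x
  · have e1 : n + 1 + 8 * s - n - 1 = s * 8 := by omega
    rw [e1, pow_mul, hL] at hq2
    have e2 : (QN α lam A N x - piC lam (meanM (QN α lam A N))) i j =
        ent i j (QN α lam A N x) -
          (if star (lam i) * lam j = 1 then coef (fun x => ent i j (QN α lam A N x)) 0 else 0) := by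
      rw [Matrix.sub_apply]
      unfold piC meanM
      simp only [twist_eq_one h.lam_norm]
      rfl
    rw [e2]
    refine hq2.trans ?_
    rw [mul_div_assoc D]
    refine mul_le_mul_of_nonneg_left ?_ hD.le
    have h3 : (1 + L) ^ s ≤ 2 ^ s * w ^ 2 := by
      rw [← hL, ← mul_pow]
      exact pow_le_pow_left₀ (by positivity) (by linarith) s
    rw [← hwN, add_div]
    refine add_le_add ?_ ?_
    · calc 10 / w ^ 8 * (1 + L) ^ s ≤ 10 / w ^ 8 * (2 ^ s * w ^ 2) :=
            mul_le_mul_of_nonneg_left h3 (by positivity)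
        _ = 10 * 2 ^ s / w ^ 6 := by field_simp
    · have h4 : max 1 H * w ^ 4 / (w ^ 2) ^ 8 = max 1 H / w ^ 6 * (1 / w ^ 6) := by
        field_simp
      rw [h4]
      refine mul_le_of_le_one_right (by positivity) ?_
      rw [div_le_one (by positivity)]
      exact one_le_pow₀ hw
  · intro ξ hξ
    exact hd ξ i j (hξ.imp id fun h1 h2 => h1 ((twist_eq_one h.lam_norm i j).mpr h2))
  · intro y
    have h5 := (norm_entry_le _ i j).trans (QN_inv h N hN y)
    rw [Matrix.sub_apply, twist_entry] at h5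
    exact h5
  · intro y
    refine (hqd _ y).trans ?_
    refine root_le two_ne_zero (by positivity) (norm_nonneg _) ?_
    rw [← pow_mul, hwN]
    exact hH N hN y

end

end QE

open QE

variable {n : ℕ} {ι : Type} [Fintype ι] [DecidableEq ι] [Nonempty ι]

/-- `Q_N` is constant up to `O (N ^ (-1/2))` in every `C^s`. -/
theorem QN_const {α : Fin n → ℝ} {lam : ι → ℂ} {A W : (Fin n → ℝ) → Matrix ι ι ℂ}
    (h : BaseS α lam A W) {c : ℝ} (hc : 0 < c) {τ : ℕ} (hd : DioL α lam c τ) :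
    Tiny 2 (fun N x => QN α lam A N x - piC lam (meanM (QN α lam A N))) := by
  have hsm : ∀ N : ℕ, 1 ≤ N → Smo (fun x => QN α lam A N x - piC lam (meanM (QN α lam A N))) :=
    fun N hN => (QN_smo h N hN).1.sub contDiff_const
  refine ⟨hsm, fun i => ?_⟩
  obtain ⟨D, hD, hsup⟩ := sup_est h hc hd
  set r := 8 * i + 8 with hr
  obtain ⟨C, hC, hint⟩ := interp n (Matrix ι ι ℂ) r
  obtain ⟨H, hH⟩ := (QN_slow h).2 r 4
  choose B hB using fun j => (QN_slow h).2 j 1
  refine ⟨(C * (D + max 1 H)) ^ 2, fun N hN x => ?_⟩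
  have hN0 : (0 : ℝ) < N := by exact_mod_cast hN
  have hN1 : (1 : ℝ) ≤ N := by exact_mod_cast hN
  obtain ⟨w, hw, hwN⟩ : ∃ w : ℝ, 1 ≤ w ∧ w ^ 8 = N :=
    ⟨(N : ℝ) ^ (((8 : ℕ) : ℝ)⁻¹), Real.one_le_rpow hN1 (by positivity),
      Real.rpow_inv_natCast_pow (by positivity) (by norm_num)⟩
  have hw0 : (0 : ℝ) < w := lt_of_lt_of_le one_pos hw
  obtain ⟨u, hu, huN⟩ : ∃ u : ℝ, 1 ≤ u ∧ u ^ r = N :=
    ⟨(N : ℝ) ^ ((r : ℝ)⁻¹), Real.one_le_rpow hN1 (by positivity),
      Real.rpow_inv_natCast_pow (by positivity) (by omega)⟩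
  have hu0 : (0 : ℝ) < u := lt_of_lt_of_le one_pos hu
  have hr0 : r ≠ 0 := by omega
  have h1 := hint _ (hsm N hN) ?_ (D / w ^ 6) (max 1 H * w ^ 2) u⁻¹ (inv_pos.mpr hu0)
    (hsup N hN w hw hwN) ?_ i (by omega) x
  · have h2 : (u⁻¹) ^ r * (max 1 H * w ^ 2) = max 1 H / w ^ 6 := by
      rw [inv_pow, huN, ← hwN]
      field_simp
    rw [h2, ← add_div, inv_pow, inv_mul_le_iff₀ (by positivity)] at h1
    have h3 : u ^ i ≤ w := by
      rw [← pow_le_pow_iff_left₀ (by positivity) hw0.le (by norm_num : (8 : ℕ) ≠ 0), hwN, ← huN,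
        ← pow_mul]
      exact pow_le_pow_right₀ hu (by omega)
    have h4 : ‖iteratedFDeriv ℝ i (fun x => QN α lam A N x - piC lam (meanM (QN α lam A N))) x‖
        ≤ C * (D + max 1 H) / w ^ 5 := by
      refine h1.trans ((mul_le_mul_of_nonneg_right h3 (by positivity)).trans (le_of_eq ?_))
      field_simp
    calc ‖iteratedFDeriv ℝ i (fun x => QN α lam A N x - piC lam (meanM (QN α lam A N))) x‖ ^ 2 * N
        ≤ (C * (D + max 1 H) / w ^ 5) ^ 2 * N :=
          mul_le_mul_of_nonneg_right (pow_le_pow_left₀ (norm_nonneg _) h4 2) hN0.le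
      _ = (C * (D + max 1 H)) ^ 2 * (1 / w ^ 2) := by
          rw [← hwN]
          field_simp
      _ ≤ (C * (D + max 1 H)) ^ 2 := by
          refine mul_le_of_le_one_right (by positivity) ?_
          rw [div_le_one (by positivity)]
          exact one_le_pow₀ hw
  · refine ⟨∑ j ∈ Finset.range (r + 1), |B j * N| + D, fun j hj y => ?_⟩
    by_cases hj0 : j = 0
    · subst hj0
      rw [norm_iteratedFDeriv_zero]
      refine (hsup N hN w hw hwN y).trans ?_
      refine (div_le_self hD (one_le_pow₀ hw)).trans ?_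
      exact le_add_of_nonneg_left (Finset.sum_nonneg fun _ _ => abs_nonneg _)
    · rw [deriv_sub_const (QN_smo h N hN).1 _ hj0]
      have h5 := hB j N hN y
      rw [pow_one] at h5
      refine h5.trans ((le_abs_self _).trans ?_)
      refine (Finset.single_le_sum (f := fun j => |B j * N|) (fun _ _ => abs_nonneg _)
        (Finset.mem_range.mpr (Nat.lt_succ_of_le hj))).trans ?_
      exact le_add_of_nonneg_right hD
  · intro y
    rw [deriv_sub_const (QN_smo h N hN).1 _ hr0]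
    refine root_le (by norm_num : (4 : ℕ) ≠ 0) (by positivity) (norm_nonneg _) ?_
    rw [← pow_mul, hwN]
    exact hH N hN y

end QPR
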