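import Pool.Agent.Lib.QPR.RLBase

set_option autoImplicit false

namespace QPR

open scoped Matrix.Norms.Operator

variable {n : ℕ} {ι : Type} [Fintype ι] [DecidableEq ι] [Nonempty ι]

theorem ring_inverse_eq_of_mul {R : Type*} [Ring R] {a b : R} (h1 : a * b = 1) (h2 : b * a = 1) :
    Ring.inverse a = b :=
  Ring.inverse_unit ⟨a, b, h1, h2⟩

/-- RIGIDITY THEOREM. A continuous conjugacy `B` of a smooth quasi-periodic cocycle `A` to a constant
diagonal unitary matrix with a Diophantine condition is smooth.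
Proof: `approx_unit` with `w = 1/100`; `W = B * B'⁻¹`, `A' x = B' (x+α) * A x * (B' x)⁻¹`;
`W⁻¹ = B' * B⁻¹`; apply `rl_base`, then `B = W * B'`. -/
theorem rigidity (α : Fin n → ℝ) (lam : ι → ℂ) (hlam : ∀ i, ‖lam i‖ = 1)
    (A B : (Fin n → ℝ) → Matrix ι ι ℂ) (hA : Smo A) (hAp : Per A) (hB : Continuous B)
    (hBp : Per B) (hBu : ∀ x, IsUnit (B x)) (h : ∀ x, B (x + α) * A x = cD lam * B x)
    {c : ℝ} (hc : 0 < c) {τ : ℕ} (hd : DioL α lam c τ) : Smo B := by
  obtain ⟨B', hs, hp, hu, hsi, h1, h2⟩ := approx_unit B hB hBp hBu (1 / 100) (by norm_num)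
  have c1 : ∀ x, B' x * Ring.inverse (B' x) = 1 := fun x => Ring.mul_inverse_cancel _ (hu x)
  have c2 : ∀ x, Ring.inverse (B' x) * B' x = 1 := fun x => Ring.inverse_mul_cancel _ (hu x)
  have d1 : ∀ x, B x * Ring.inverse (B x) = 1 := fun x => Ring.mul_inverse_cancel _ (hBu x)
  have d2 : ∀ x, Ring.inverse (B x) * B x = 1 := fun x => Ring.inverse_mul_cancel _ (hBu x)
  have e1 : ∀ x, (B x * Ring.inverse (B' x)) * (B' x * Ring.inverse (B x)) = 1 := by
    intro x
    rw [mul_assoc, ← mul_assoc (Ring.inverse (B' x)), c2, one_mul, d1]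
  have e2 : ∀ x, (B' x * Ring.inverse (B x)) * (B x * Ring.inverse (B' x)) = 1 := by
    intro x
    rw [mul_assoc, ← mul_assoc (Ring.inverse (B x)), d2, one_mul, c1]
  have inv : ∀ x, Ring.inverse (B x * Ring.inverse (B' x)) = B' x * Ring.inverse (B x) :=
    fun x => ring_inverse_eq_of_mul (e1 x) (e2 x)
  have hbase : BaseS α lam (fun x => B' (x + α) * A x * Ring.inverse (B' x))
      (fun x => B x * Ring.inverse (B' x)) := by
    refine ⟨hlam, ?_, ?_, ?_, ?_, ?_, h1, ?_, ?_⟩
    · have t : Smo (fun x => B' (x + α)) := hs.comp (contDiff_id.add contDiff_const)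
      exact (t.mul hA).mul hsi
    · intro x k
      have t : x + (fun i => (k i : ℝ)) + α = (x + α) + fun i => (k i : ℝ) := by
        rw [add_right_comm]
      simp only [t, hp _ k, hAp _ k]
    · exact hB.mul hsi.continuous
    · intro x k
      simp only [hp _ k, hBp _ k]
    · intro x
      exact ⟨⟨_, _, e1 x, e2 x⟩, rfl⟩
    · intro x
      show ‖Ring.inverse (B x * Ring.inverse (B' x)) - 1‖ ≤ 1 / 100
      rw [inv x]
      exact h2 x
    · intro x
      show B (x + α) * Ring.inverse (B' (x + α)) * (B' (x + α) * A x * Ring.inverse (B' x))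
        = cD lam * (B x * Ring.inverse (B' x))
      rw [← mul_assoc (cD lam), ← h x]
      simp only [← mul_assoc]
      rw [mul_assoc (B (x + α)) _ (B' (x + α)), c2, mul_one]
  have hW := rl_base hbase hc hd
  have hBeq : B = fun x => (B x * Ring.inverse (B' x)) * B' x := by
    funext x
    rw [mul_assoc, c2, mul_one]
  rw [hBeq]
  exact hW.mul hs

end QPR
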