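import Pool.Agent.Lib.QPR.MHat
import Pool.Agent.Lib.QPR.LimS

set_option autoImplicit false

namespace QPR

open scoped Matrix.Norms.Operator

variable {n : ℕ} {ι : Type} [Fintype ι] [DecidableEq ι] [Nonempty ι]

private theorem RLBase_complete : CompleteSpace (Matrix ι ι ℂ) := FiniteDimensional.complete ℂ _

private theorem RLBase_isUnit (u : Matrix ι ι ℂ) (h : ‖u - 1‖ < 1) : IsUnit u := by
  have : CompleteSpace (Matrix ι ι ℂ) := RLBase_complete
  have h1 : ‖1 - u‖ < 1 := by rwa [norm_sub_rev]
  have h2 := (Units.oneSub (1 - u) h1).isUnit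
  rwa [Units.val_oneSub, sub_sub_cancel] at h2

private theorem RLBase_inv_le (u : Matrix ι ι ℂ) (h : ‖u - 1‖ ≤ 1 / 30) :
    ‖Ring.inverse u‖ ≤ 2 := by
  have hu : IsUnit u := RLBase_isUnit u (lt_of_le_of_lt h (by norm_num))
  have h1 : Ring.inverse u * u = 1 := Ring.inverse_mul_cancel _ hu
  have h2 : Ring.inverse u = 1 - Ring.inverse u * (u - 1) := by
    rw [mul_sub, h1, mul_one]
    abel
  have h3 : ‖Ring.inverse u‖ ≤ 1 + ‖Ring.inverse u‖ * (1 / 30) := by
    calc ‖Ring.inverse u‖ = ‖1 - Ring.inverse u * (u - 1)‖ := by rw [← h2]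
      _ ≤ ‖(1 : Matrix ι ι ℂ)‖ + ‖Ring.inverse u * (u - 1)‖ := norm_sub_le _ _
      _ ≤ 1 + ‖Ring.inverse u‖ * ‖u - 1‖ := by
          rw [norm_one]
          exact add_le_add_right (norm_mul_le _ _) _
      _ ≤ 1 + ‖Ring.inverse u‖ * (1 / 30) := by
          have := mul_le_mul_of_nonneg_left h (norm_nonneg (Ring.inverse u))
          linarith
  have h4 := norm_nonneg (Ring.inverse u)
  linarith

/-- Rigidity in the base situation. Let `G = lim MH (N_k)` (`lim_smo`), smooth, periodic,
`‖G - 1‖ ≤ 1/10`, so invertible with smooth inverse. Put `R = W * G⁻¹`, continuous and periodic. With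
`V_N = M_N W⁻¹`: `W * (MH N)⁻¹ = V_N⁻¹ * μ_N`, and since `μ_N` is in the commutant,
`Ci (V_N⁻¹ μ_N)(x+α) C - V_N⁻¹ μ_N x = O (1/N)` by `VN_inv`, `VN_close`. In the limit
`Ci * R (x + α) * C = R x`. By `coh_inv` for every entry (the Diophantine condition gives
`star (lam i) * lam j * ex (dotZ ξ α) ≠ 1` for `ξ ≠ 0` or `lam i ≠ lam j`) `R` is constant, so
`W = R * G` is smooth. -/
theorem rl_base {α : Fin n → ℝ} {lam : ι → ℂ} {A W : (Fin n → ℝ) → Matrix ι ι ℂ}
    (h : BaseS α lam A W) {c : ℝ} (hc : 0 < c) {τ : ℕ} (hd : DioL α lam c τ) : Smo W := by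
  have : CompleteSpace (Matrix ι ι ℂ) := RLBase_complete
  have hiso := isoC_diag lam h.lam_norm
  have hMHs : ∀ N, 1 ≤ N → Smo (MH α lam A N) := fun N _ =>
    contDiff_const.mul (MN_smo h N).1
  obtain ⟨G, hG, hlim⟩ := lim_smo (j := 8) (by norm_num) (MH α lam A) hMHs (MH_tiny h hc hd)
  have hN1 : ∀ k : ℕ, 1 ≤ 2 ^ (2 ^ k) := fun k => Nat.one_le_two_pow
  have hlim' : ∀ x, Filter.Tendsto (fun k : ℕ => MH α lam A (2 ^ (2 ^ k)) x) Filter.atTop
      (nhds (G x)) := by
    intro x
    refine Metric.tendsto_atTop.mpr ?_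
    intro ε hε
    obtain ⟨k₀, hk₀⟩ := hlim (ε / 2) (by positivity)
    refine ⟨k₀, fun k hk => ?_⟩
    rw [dist_eq_norm]
    exact lt_of_le_of_lt (hk₀ k hk x) (by linarith)
  -- closeness and periodicity of `G`
  have hGclose : ∀ x, ‖G x - 1‖ ≤ 1 / 10 := by
    intro x
    have h1 : Filter.Tendsto (fun k : ℕ => ‖MH α lam A (2 ^ (2 ^ k)) x - 1‖) Filter.atTop
        (nhds ‖G x - 1‖) := ((hlim' x).sub tendsto_const_nhds).norm
    exact le_of_tendsto h1 (Filter.Eventually.of_forall (fun k => MH_close h _ (hN1 k) x))
  have hGunit : ∀ x, IsUnit (G x) := fun x =>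
    RLBase_isUnit _ (lt_of_le_of_lt (hGclose x) (by norm_num))
  have hGper : Per G := by
    intro x k
    have h1 := hlim' (x + fun i => (k i : ℝ))
    have h2 : (fun m : ℕ => MH α lam A (2 ^ (2 ^ m)) (x + fun i => (k i : ℝ)))
        = fun m : ℕ => MH α lam A (2 ^ (2 ^ m)) x := by
      funext m
      unfold MH
      rw [(MN_smo h _).2 x k]
    rw [h2] at h1
    exact tendsto_nhds_unique h1 (hlim' x)
  -- the invariant function
  set S : (Fin n → ℝ) → Matrix ι ι ℂ := fun x => G x * Ring.inverse (W x) with hS
  have hScont : Continuous S := by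
    refine hG.continuous.mul ?_
    rw [continuous_iff_continuousAt]
    intro x
    obtain ⟨u, hu⟩ := h.unitW x
    have h1 : ContinuousAt (Ring.inverse : Matrix ι ι ℂ → Matrix ι ι ℂ) (W x) := by
      rw [← hu]
      exact NormedRing.inverse_continuousAt u
    exact ContinuousAt.comp (f := W) h1 h.contW.continuousAt
  have hSper : Per S := by
    intro x k
    show G (x + fun i => (k i : ℝ)) * Ring.inverse (W (x + fun i => (k i : ℝ)))
      = G x * Ring.inverse (W x)
    rw [hGper x k, h.perW x k]
  -- almost invariance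
  have hmu : ∀ N, 1 ≤ N → cDi lam * Ring.inverse (muN α lam A N)
      = Ring.inverse (muN α lam A N) * cDi lam := by
    intro N hN
    have hunit : IsUnit (muN α lam A N) :=
      RLBase_isUnit _ (lt_of_le_of_lt (muN_close h N hN) (by norm_num))
    have h1 : cDi lam * muN α lam A N * cD lam = muN α lam A N :=
      conj_piC lam h.lam_norm _
    have h2 : cDi lam * muN α lam A N = muN α lam A N * cDi lam := by
      calc cDi lam * muN α lam A N
          = cDi lam * muN α lam A N * (cD lam * cDi lam) := by rw [hiso.right, mul_one]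
        _ = (cDi lam * muN α lam A N * cD lam) * cDi lam := by simp only [mul_assoc]
        _ = muN α lam A N * cDi lam := by rw [h1]
    have h3 : Ring.inverse (muN α lam A N) * muN α lam A N = 1 := Ring.inverse_mul_cancel _ hunit
    have h4 : muN α lam A N * Ring.inverse (muN α lam A N) = 1 := Ring.mul_inverse_cancel _ hunit
    calc cDi lam * Ring.inverse (muN α lam A N)
        = (Ring.inverse (muN α lam A N) * muN α lam A N) *
            (cDi lam * Ring.inverse (muN α lam A N)) := by rw [h3, one_mul]
      _ = Ring.inverse (muN α lam A N) * (muN α lam A N * cDi lam) *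
            Ring.inverse (muN α lam A N) := by simp only [mul_assoc]
      _ = Ring.inverse (muN α lam A N) * (cDi lam * muN α lam A N) *
            Ring.inverse (muN α lam A N) := by rw [h2]
      _ = Ring.inverse (muN α lam A N) * cDi lam *
            (muN α lam A N * Ring.inverse (muN α lam A N)) := by simp only [mul_assoc]
      _ = Ring.inverse (muN α lam A N) * cDi lam := by rw [h4, mul_one]
  have halm : ∀ N : ℕ, 1 ≤ N → ∀ x,
      ‖cDi lam * (MH α lam A N (x + α) * Ring.inverse (W (x + α))) * cD lam
        - MH α lam A N x * Ring.inverse (W x)‖ ≤ 2 / N := by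
    intro N hN x
    have h1 : cDi lam * (MH α lam A N (x + α) * Ring.inverse (W (x + α))) * cD lam
        - MH α lam A N x * Ring.inverse (W x)
        = Ring.inverse (muN α lam A N) *
          (cDi lam * (MN α lam A N (x + α) * Ring.inverse (W (x + α))) * cD lam
            - MN α lam A N x * Ring.inverse (W x)) := by
      unfold MH
      rw [mul_sub]
      congr 1
      · calc cDi lam * (Ring.inverse (muN α lam A N) * MN α lam A N (x + α)
              * Ring.inverse (W (x + α))) * cD lam
            = (cDi lam * Ring.inverse (muN α lam A N)) * (MN α lam A N (x + α)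
              * Ring.inverse (W (x + α)) * cD lam) := by simp only [mul_assoc]
          _ = (Ring.inverse (muN α lam A N) * cDi lam) * (MN α lam A N (x + α)
              * Ring.inverse (W (x + α)) * cD lam) := by rw [hmu N hN]
          _ = _ := by simp only [mul_assoc]
      · rw [mul_assoc]
    rw [h1]
    calc ‖Ring.inverse (muN α lam A N) *
          (cDi lam * (MN α lam A N (x + α) * Ring.inverse (W (x + α))) * cD lam
            - MN α lam A N x * Ring.inverse (W x))‖
        ≤ ‖Ring.inverse (muN α lam A N)‖ *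
          ‖cDi lam * (MN α lam A N (x + α) * Ring.inverse (W (x + α))) * cD lam
            - MN α lam A N x * Ring.inverse (W x)‖ := norm_mul_le _ _
      _ ≤ 2 * (1 / N) := by
          apply mul_le_mul (RLBase_inv_le _ (muN_close h N hN)) (VN_inv h N hN x)
            (norm_nonneg _) (by norm_num)
      _ = 2 / N := by ring
  -- invariance of the limit
  have hinv : ∀ x, cDi lam * S (x + α) * cD lam = S x := by
    intro x
    have h1 : Filter.Tendsto (fun k : ℕ =>
        cDi lam * (MH α lam A (2 ^ (2 ^ k)) (x + α) * Ring.inverse (W (x + α))) * cD lam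
        - MH α lam A (2 ^ (2 ^ k)) x * Ring.inverse (W x)) Filter.atTop
        (nhds (cDi lam * (G (x + α) * Ring.inverse (W (x + α))) * cD lam
          - G x * Ring.inverse (W x))) :=
      ((tendsto_const_nhds.mul ((hlim' (x + α)).mul tendsto_const_nhds)).mul
        tendsto_const_nhds).sub ((hlim' x).mul tendsto_const_nhds)
    have h2 : Filter.Tendsto (fun k : ℕ =>
        cDi lam * (MH α lam A (2 ^ (2 ^ k)) (x + α) * Ring.inverse (W (x + α))) * cD lam
        - MH α lam A (2 ^ (2 ^ k)) x * Ring.inverse (W x)) Filter.atTop (nhds 0) := by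
      have h3 : Filter.Tendsto (fun k : ℕ => (2 : ℝ) / ((2 ^ (2 ^ k) : ℕ) : ℝ)) Filter.atTop
          (nhds 0) := by
        apply Filter.Tendsto.div_atTop tendsto_const_nhds
        apply tendsto_natCast_atTop_atTop.comp
        have h4 : Filter.Tendsto (fun k : ℕ => 2 ^ k) Filter.atTop Filter.atTop :=
          tendsto_pow_atTop_atTop_of_one_lt (by norm_num)
        exact h4.comp h4
      exact squeeze_zero_norm (fun k => halm _ (hN1 k) x) h3
    have h3 := tendsto_nhds_unique h1 h2
    exact sub_eq_zero.mp h3
  -- `S` is constant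
  have hconst : ∀ x, S x = S 0 := by
    intro x
    ext i j
    have hdd : ∀ ξ : Fin n → ℤ, (ξ ≠ 0 ∨ star (lam i) * lam j ≠ 1) →
        star (lam i) * lam j * ex (dotZ ξ α) ≠ 1 := by
      intro ξ hξ heq
      have h1 : ξ ≠ 0 ∨ lam i ≠ lam j := by
        rcases hξ with hξ | hξ
        · exact Or.inl hξ
        · right
          intro hij
          apply hξ
          rw [← hij]
          have h2 : star (lam i) * lam i = ((‖lam i‖ ^ 2 : ℝ) : ℂ) := by
            have := Complex.conj_mul' (lam i)
            rw [show star (lam i) = (starRingEnd ℂ) (lam i) from rfl, this]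
            push_cast
            rfl
          rw [h2, h.lam_norm i]
          simp
      have h3 := hd ξ i j h1
      rw [heq, sub_self, norm_zero, zero_mul] at h3
      linarith
    have hent : Continuous (fun y => S y i j) := by
      exact (continuous_apply j).comp ((continuous_apply i).comp hScont)
    have hperent : Per (fun y => S y i j) := by
      intro y k
      show S (y + fun i => (k i : ℝ)) i j = S y i j
      rw [hSper y k]
    have hinvent : ∀ y, star (lam i) * lam j * S (y + α) i j = S y i j := by
      intro y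
      have h1 := congrFun (congrFun (hinv y) i) j
      unfold cDi cD at h1
      rw [Matrix.mul_diagonal, Matrix.diagonal_mul] at h1
      rw [← h1]
      ring
    have h1 := coh_inv α (star (lam i) * lam j) hdd (fun y => S y i j) hent hperent hinvent
    exact (h1 x).trans (h1 0).symm
  -- conclusion
  have hSunit : IsUnit (S 0) := by
    refine (hGunit 0).mul ?_
    obtain ⟨u, hu⟩ := h.unitW 0
    rw [← hu, Ring.inverse_unit]
    exact u⁻¹.isUnit
  have hfin : W = fun x => Ring.inverse (S 0) * G x := by
    funext x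
    have h1 : G x = S 0 * W x := by
      rw [← hconst x, hS]
      simp only
      rw [mul_assoc, Ring.inverse_mul_cancel _ (h.unitW x), mul_one]
    rw [h1, ← mul_assoc, Ring.inverse_mul_cancel _ hSunit, one_mul]
  rw [hfin]
  exact contDiff_const.mul hG

end QPR
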