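import Pool.Agent.Lib.QPR.MatDefs

set_option autoImplicit false

namespace QPR

variable {n : ℕ} {𝔸 : Type*} [NormedRing 𝔸] [NormedAlgebra ℝ 𝔸]

/-- scalar slow families. -/
private def SlowMul_P {X : Type*} (a : ℕ → X → ℝ) : Prop :=
  (∀ N x, 0 ≤ a N x) ∧ ∀ m : ℕ, ∃ D : ℝ, 0 ≤ D ∧ ∀ N : ℕ, 1 ≤ N → ∀ x, a N x ^ m ≤ D * N

/-- scalar tiny families. -/
private def SlowMul_T {X : Type*} (j : ℕ) (a : ℕ → X → ℝ) : Prop :=
  (∀ N x, 0 ≤ a N x) ∧ ∃ D : ℝ, 0 ≤ D ∧ ∀ N : ℕ, 1 ≤ N → ∀ x, a N x ^ j * N ≤ D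

private theorem SlowMul_P_mono {X : Type*} {a b : ℕ → X → ℝ} (ha : SlowMul_P a)
    (hb : ∀ N x, 0 ≤ b N x) (hab : ∀ N, 1 ≤ N → ∀ x, b N x ≤ a N x) : SlowMul_P b := by
  refine ⟨hb, fun m => ?_⟩
  obtain ⟨D, hD, h⟩ := ha.2 m
  exact ⟨D, hD, fun N hN x => (pow_le_pow_left₀ (hb N x) (hab N hN x) m).trans (h N hN x)⟩

private theorem SlowMul_P_const {X : Type*} {c : ℝ} (hc : 0 ≤ c) :
    SlowMul_P (fun (_ : ℕ) (_ : X) => c) := by
  refine ⟨fun _ _ => hc, fun m => ⟨c ^ m, pow_nonneg hc m, fun N hN _ => ?_⟩⟩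
  exact le_mul_of_one_le_right (pow_nonneg hc m) (by exact_mod_cast hN)

private theorem SlowMul_P_add {X : Type*} {a b : ℕ → X → ℝ} (ha : SlowMul_P a)
    (hb : SlowMul_P b) : SlowMul_P (fun N x => a N x + b N x) := by
  refine ⟨fun N x => add_nonneg (ha.1 N x) (hb.1 N x), fun m => ?_⟩
  obtain ⟨D, hD, h⟩ := ha.2 m
  obtain ⟨D', hD', h'⟩ := hb.2 m
  refine ⟨2 ^ (m - 1) * (D + D'), by positivity, fun N hN x => ?_⟩
  refine (add_pow_le (ha.1 N x) (hb.1 N x) m).trans ?_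
  have h1 := h N hN x
  have h2 := h' N hN x
  have h3 : (0 : ℝ) ≤ 2 ^ (m - 1) := by positivity
  calc (2 : ℝ) ^ (m - 1) * (a N x ^ m + b N x ^ m) ≤ 2 ^ (m - 1) * (D * N + D' * N) :=
        mul_le_mul_of_nonneg_left (add_le_add h1 h2) h3
    _ = 2 ^ (m - 1) * (D + D') * N := by ring

private theorem SlowMul_P_mul {X : Type*} {a b : ℕ → X → ℝ} (ha : SlowMul_P a)
    (hb : SlowMul_P b) : SlowMul_P (fun N x => a N x * b N x) := by
  refine ⟨fun N x => mul_nonneg (ha.1 N x) (hb.1 N x), fun m => ?_⟩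
  obtain ⟨D, hD, h⟩ := ha.2 (2 * m)
  obtain ⟨D', hD', h'⟩ := hb.2 (2 * m)
  refine ⟨(D + D') / 2, by positivity, fun N hN x => ?_⟩
  have h1 := h N hN x
  have h2 := h' N hN x
  rw [mul_comm 2 m, pow_mul] at h1 h2
  rw [mul_pow]
  nlinarith [two_mul_le_add_sq (a N x ^ m) (b N x ^ m)]

private theorem SlowMul_P_sum {X : Type*} (s : Finset ℕ) {a : ℕ → ℕ → X → ℝ}
    (ha : ∀ l ∈ s, SlowMul_P (a l)) : SlowMul_P (fun N x => ∑ l ∈ s, a l N x) := by
  induction s using Finset.induction_on with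
  | empty =>
    simp only [Finset.sum_empty]
    exact SlowMul_P_const le_rfl
  | insert l s hl ih =>
    simp only [Finset.sum_insert hl]
    exact SlowMul_P_add (ha l (Finset.mem_insert_self _ _))
      (ih fun l' hl' => ha l' (Finset.mem_insert_of_mem hl'))

private theorem SlowMul_T_mono {X : Type*} {j : ℕ} {a b : ℕ → X → ℝ} (ha : SlowMul_T j a)
    (hb : ∀ N x, 0 ≤ b N x) (hab : ∀ N, 1 ≤ N → ∀ x, b N x ≤ a N x) : SlowMul_T j b := by
  refine ⟨hb, ?_⟩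
  obtain ⟨D, hD, h⟩ := ha.2
  exact ⟨D, hD, fun N hN x => (mul_le_mul_of_nonneg_right
    (pow_le_pow_left₀ (hb N x) (hab N hN x) j) (Nat.cast_nonneg N)).trans (h N hN x)⟩

private theorem SlowMul_T_zero {X : Type*} {j : ℕ} (hj : 1 ≤ j) :
    SlowMul_T j (fun (_ : ℕ) (_ : X) => (0 : ℝ)) := by
  refine ⟨fun _ _ => le_rfl, 0, le_rfl, fun N _ _ => ?_⟩
  rw [zero_pow (by omega), zero_mul]

private theorem SlowMul_T_add {X : Type*} {j : ℕ} {a b : ℕ → X → ℝ} (ha : SlowMul_T j a)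
    (hb : SlowMul_T j b) : SlowMul_T j (fun N x => a N x + b N x) := by
  refine ⟨fun N x => add_nonneg (ha.1 N x) (hb.1 N x), ?_⟩
  obtain ⟨D, hD, h⟩ := ha.2
  obtain ⟨D', hD', h'⟩ := hb.2
  refine ⟨2 ^ (j - 1) * (D + D'), by positivity, fun N hN x => ?_⟩
  have h1 := h N hN x
  have h2 := h' N hN x
  have h3 : (0 : ℝ) ≤ 2 ^ (j - 1) := by positivity
  calc (a N x + b N x) ^ j * N ≤ (2 ^ (j - 1) * (a N x ^ j + b N x ^ j)) * N :=
        mul_le_mul_of_nonneg_right (add_pow_le (ha.1 N x) (hb.1 N x) j) (Nat.cast_nonneg N)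
    _ = 2 ^ (j - 1) * (a N x ^ j * N + b N x ^ j * N) := by ring
    _ ≤ 2 ^ (j - 1) * (D + D') := mul_le_mul_of_nonneg_left (add_le_add h1 h2) h3

private theorem SlowMul_T_sum {X : Type*} {j : ℕ} (hj : 1 ≤ j) (s : Finset ℕ)
    {a : ℕ → ℕ → X → ℝ} (ha : ∀ l ∈ s, SlowMul_T j (a l)) :
    SlowMul_T j (fun N x => ∑ l ∈ s, a l N x) := by
  induction s using Finset.induction_on with
  | empty =>
    simp only [Finset.sum_empty]
    exact SlowMul_T_zero hj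
  | insert l s hl ih =>
    simp only [Finset.sum_insert hl]
    exact SlowMul_T_add (ha l (Finset.mem_insert_self _ _))
      (ih fun l' hl' => ha l' (Finset.mem_insert_of_mem hl'))

private theorem SlowMul_T_smul {X : Type*} {j : ℕ} {a : ℕ → X → ℝ} (ha : SlowMul_T j a)
    {c : ℝ} (hc : 0 ≤ c) : SlowMul_T j (fun N x => c * a N x) := by
  refine ⟨fun N x => mul_nonneg hc (ha.1 N x), ?_⟩
  obtain ⟨D, hD, h⟩ := ha.2
  refine ⟨c ^ j * D, by positivity, fun N hN x => ?_⟩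
  rw [mul_pow, mul_assoc]
  exact mul_le_mul_of_nonneg_left (h N hN x) (pow_nonneg hc j)

private theorem SlowMul_T_mul {X : Type*} {j : ℕ} {a g : ℕ → X → ℝ} (ha : SlowMul_T j a)
    (hg : SlowMul_P g) : SlowMul_T (2 * j) (fun N x => a N x * g N x) := by
  refine ⟨fun N x => mul_nonneg (ha.1 N x) (hg.1 N x), ?_⟩
  obtain ⟨D, hD, h⟩ := ha.2
  obtain ⟨D', hD', h'⟩ := hg.2 (2 * j)
  refine ⟨D ^ 2 * D', by positivity, fun N hN x => ?_⟩
  have hN0 : (0 : ℝ) < N := by exact_mod_cast hN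
  have h1 := h N hN x
  have h2 := h' N hN x
  have h3 : 0 ≤ a N x ^ j * N := mul_nonneg (pow_nonneg (ha.1 N x) j) hN0.le
  have h4 : (a N x ^ j * N) ^ 2 ≤ D ^ 2 := pow_le_pow_left₀ h3 h1 2
  have h5 : (a N x * g N x) ^ (2 * j) * N * N = (a N x ^ j * N) ^ 2 * g N x ^ (2 * j) := by
    rw [mul_pow, mul_comm 2 j, pow_mul, pow_mul]
    ring
  have h6 : (a N x * g N x) ^ (2 * j) * N * N ≤ D ^ 2 * D' * N := by
    rw [h5, mul_assoc]
    exact mul_le_mul h4 h2 (pow_nonneg (hg.1 N x) _) (by positivity)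
  exact le_of_mul_le_mul_right h6 hN0

private theorem SlowMul_T_le {X : Type*} {j j' : ℕ} (hj : 1 ≤ j) (hjj : j ≤ j')
    {a : ℕ → X → ℝ} (ha : SlowMul_T j a) : SlowMul_T j' a := by
  refine ⟨ha.1, ?_⟩
  obtain ⟨D, hD, h⟩ := ha.2
  refine ⟨D * (max 1 D) ^ (j' - j), by positivity, fun N hN x => ?_⟩
  have hN1 : (1 : ℝ) ≤ N := by exact_mod_cast hN
  have h1 := h N hN x
  have h0 := ha.1 N x
  have h2 : a N x ≤ max 1 D := by
    rcases le_total (a N x) 1 with h3 | h3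
    · exact h3.trans (le_max_left _ _)
    · refine le_trans ?_ (le_max_right _ _)
      calc a N x = a N x ^ 1 := (pow_one _).symm
        _ ≤ a N x ^ j := pow_le_pow_right₀ h3 hj
        _ ≤ a N x ^ j * N := le_mul_of_one_le_right (pow_nonneg h0 j) hN1
        _ ≤ D := h1
  calc a N x ^ j' * N = (a N x ^ j * N) * a N x ^ (j' - j) := by
        rw [← Nat.add_sub_cancel' hjj, pow_add, Nat.add_sub_cancel' hjj]
        ring
    _ ≤ D * (max 1 D) ^ (j' - j) :=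
        mul_le_mul h1 (pow_le_pow_left₀ h0 h2 _) (pow_nonneg h0 _) hD

private theorem SlowMul_le (i : ℕ) : (i : WithTop ℕ∞) ≤ ((⊤ : ℕ∞) : WithTop ℕ∞) := by
  exact_mod_cast le_top

private theorem SlowMul_toP {E : Type*} [NormedAddCommGroup E] [NormedSpace ℝ E]
    {F : ℕ → (Fin n → ℝ) → E} (hF : Slow F) (i : ℕ) :
    SlowMul_P fun N x => ‖iteratedFDeriv ℝ i (F N) x‖ := by
  refine ⟨fun _ _ => norm_nonneg _, fun m => ?_⟩
  obtain ⟨D, h⟩ := hF.2 i m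
  refine ⟨max 0 D, le_max_left _ _, fun N hN x => (h N hN x).trans ?_⟩
  exact mul_le_mul_of_nonneg_right (le_max_right _ _) (Nat.cast_nonneg N)

private theorem SlowMul_ofP {E : Type*} [NormedAddCommGroup E] [NormedSpace ℝ E]
    {F : ℕ → (Fin n → ℝ) → E} (h1 : ∀ N : ℕ, 1 ≤ N → Smo (F N))
    (h2 : ∀ i, SlowMul_P fun N x => ‖iteratedFDeriv ℝ i (F N) x‖) : Slow F := by
  refine ⟨h1, fun i m => ?_⟩
  obtain ⟨D, _, h⟩ := (h2 i).2 m
  exact ⟨D, h⟩

private theorem SlowMul_toT {E : Type*} [NormedAddCommGroup E] [NormedSpace ℝ E] {j : ℕ}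
    {F : ℕ → (Fin n → ℝ) → E} (hF : Tiny j F) (i : ℕ) :
    SlowMul_T j fun N x => ‖iteratedFDeriv ℝ i (F N) x‖ := by
  refine ⟨fun _ _ => norm_nonneg _, ?_⟩
  obtain ⟨D, h⟩ := hF.2 i
  exact ⟨max 0 D, le_max_left _ _, fun N hN x => (h N hN x).trans (le_max_right _ _)⟩

private theorem SlowMul_ofT {E : Type*} [NormedAddCommGroup E] [NormedSpace ℝ E] {j : ℕ}
    {F : ℕ → (Fin n → ℝ) → E} (h1 : ∀ N : ℕ, 1 ≤ N → Smo (F N))
    (h2 : ∀ i, SlowMul_T j fun N x => ‖iteratedFDeriv ℝ i (F N) x‖) : Tiny j F := by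
  refine ⟨h1, fun i => ?_⟩
  obtain ⟨D, _, h⟩ := (h2 i).2
  exact ⟨D, h⟩

private theorem SlowMul_const_mul_le {F : (Fin n → ℝ) → 𝔸} (hF : Smo F) (c : 𝔸) (i : ℕ)
    (x : Fin n → ℝ) : ‖iteratedFDeriv ℝ i (fun y => c * F y) x‖ ≤
      ‖c‖ * ‖iteratedFDeriv ℝ i F x‖ := by
  have h1 := (ContinuousLinearMap.mul ℝ 𝔸 c).iteratedFDeriv_comp_left (x := x)
    (hF.contDiffAt) (SlowMul_le i)
  have h2 : (fun y => c * F y) = (ContinuousLinearMap.mul ℝ 𝔸 c) ∘ F := rfl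
  rw [h2, h1]
  refine (ContinuousLinearMap.norm_compContinuousMultilinearMap_le _ _).trans ?_
  exact mul_le_mul_of_nonneg_right (ContinuousLinearMap.opNorm_mul_apply_le ℝ 𝔸 c)
    (norm_nonneg _)

/-- Leibniz rule and `(a_1 + ... + a_s)^m ≤ s^(m-1) (a_1^m + ...)`; for the product of `‖D^l F‖` and
`‖D^(i-l) G‖` use the bounds with exponent `2 m` and `(a b)^m ≤ (a^(2m) + b^(2m))/2`
(for `m = 0` everything is `1 ≤ D * N`). -/
theorem Slow.mul {F G : ℕ → (Fin n → ℝ) → 𝔸} (hF : Slow F) (hG : Slow G) :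
    Slow (fun N x => F N x * G N x) := by
  refine SlowMul_ofP (fun N hN => (hF.1 N hN).mul (hG.1 N hN)) fun i => ?_
  have h1 : SlowMul_P fun N x => ∑ l ∈ Finset.range (i + 1), (i.choose l : ℝ) *
      ‖iteratedFDeriv ℝ l (F N) x‖ * ‖iteratedFDeriv ℝ (i - l) (G N) x‖ := by
    refine SlowMul_P_sum _ fun l _ => ?_
    exact SlowMul_P_mul (SlowMul_P_mul (SlowMul_P_const (Nat.cast_nonneg _)) (SlowMul_toP hF l))
      (SlowMul_toP hG (i - l))
  exact SlowMul_P_mono h1 (fun _ _ => norm_nonneg _) fun N hN x =>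
    norm_iteratedFDeriv_mul_le (hF.1 N hN) (hG.1 N hN) x (SlowMul_le i)

/-- bounded constant factors. -/
theorem Slow.const_mul {F : ℕ → (Fin n → ℝ) → 𝔸} (hF : Slow F) (c : ℕ → 𝔸) (b : ℝ)
    (hc : ∀ N, 1 ≤ N → ‖c N‖ ≤ b) : Slow (fun N x => c N * F N x) := by
  have hb : 0 ≤ b := (norm_nonneg _).trans (hc 1 le_rfl)
  refine SlowMul_ofP (fun N hN => contDiff_const.mul (hF.1 N hN)) fun i => ?_
  exact SlowMul_P_mono (SlowMul_P_mul (SlowMul_P_const hb) (SlowMul_toP hF i))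
    (fun _ _ => norm_nonneg _) fun N hN x =>
      (SlowMul_const_mul_le (hF.1 N hN) (c N) i x).trans
        (mul_le_mul_of_nonneg_right (hc N hN) (norm_nonneg _))

/-- the subsequence `N ^ 2` (use the bound with exponent `2 m`). -/
theorem Slow.sq {F : ℕ → (Fin n → ℝ) → 𝔸} (hF : Slow F) : Slow (fun N => F (N ^ 2)) := by
  refine ⟨fun N hN => hF.1 (N ^ 2) (Nat.one_le_pow _ _ hN), fun i m => ?_⟩
  obtain ⟨D, hD, h⟩ := (SlowMul_toP hF i).2 (2 * m)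
  refine ⟨√D, fun N hN x => ?_⟩
  have h1 := h (N ^ 2) (Nat.one_le_pow _ _ hN) x
  refine (pow_le_pow_iff_left₀ (by positivity) (by positivity) two_ne_zero).mp ?_
  rw [← pow_mul, mul_comm m 2, mul_pow, Real.sq_sqrt hD]
  push_cast at h1
  exact h1

/-- averages of a slow family `X_k`, `k ≥ 1`, with `X_0 = 1`. -/
theorem Slow.avg {X : ℕ → (Fin n → ℝ) → 𝔸} (hX : Slow X) (h0 : ∀ x, X 0 x = 1) :
    Slow (fun N x => (1 / (N : ℝ)) • ∑ k ∈ Finset.range N, X k x) := by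
  have hX0 : X 0 = fun _ => 1 := funext h0
  have hs : ∀ k, Smo (X k) := by
    intro k
    rcases Nat.eq_zero_or_pos k with rfl | hk
    · rw [hX0]
      exact contDiff_const
    · exact hX.1 k hk
  have hder : ∀ (i N : ℕ) (x : Fin n → ℝ),
      ‖iteratedFDeriv ℝ i (fun x => (1 / (N : ℝ)) • ∑ k ∈ Finset.range N, X k x) x‖ ≤
        (1 / (N : ℝ)) * ∑ k ∈ Finset.range N, ‖iteratedFDeriv ℝ i (X k) x‖ := by
    intro i N x
    have h1 : (fun x => (1 / (N : ℝ)) • ∑ k ∈ Finset.range N, X k x) =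
        (1 / (N : ℝ)) • (fun x => ∑ k ∈ Finset.range N, X k x) := rfl
    have h2 : ContDiff ℝ i (fun x => ∑ k ∈ Finset.range N, X k x) :=
      ContDiff.sum fun k _ => (hs k).of_le (SlowMul_le i)
    rw [h1, iteratedFDeriv_const_smul_apply h2.contDiffAt, norm_smul,
      iteratedFDeriv_sum fun k _ => (hs k).of_le (SlowMul_le i), Real.norm_of_nonneg (by positivity),
      Finset.sum_apply]
    exact mul_le_mul_of_nonneg_left (norm_sum_le _ _) (by positivity)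
  refine ⟨fun N _ => (ContDiff.sum fun k _ => hs k).const_smul _, fun i m => ?_⟩
  obtain ⟨D, hD, h⟩ := (SlowMul_toP hX i).2 m
  refine ⟨D + ‖(1 : 𝔸)‖ ^ m + 1, fun N hN x => ?_⟩
  have hN1 : (1 : ℝ) ≤ N := by exact_mod_cast hN
  have hN0 : (0 : ℝ) < N := by linarith
  obtain ⟨k, hk, hmax⟩ := Finset.exists_max_image (Finset.range N)
    (fun k => ‖iteratedFDeriv ℝ i (X k) x‖) ⟨0, Finset.mem_range.mpr hN⟩
  have h3 : (1 / (N : ℝ)) * ∑ k ∈ Finset.range N, ‖iteratedFDeriv ℝ i (X k) x‖ ≤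
      ‖iteratedFDeriv ℝ i (X k) x‖ := by
    have h4 := Finset.sum_le_card_nsmul _ _ _ hmax
    rw [Finset.card_range, nsmul_eq_mul] at h4
    rw [one_div, inv_mul_le_iff₀ hN0]
    exact h4
  have h5 : ‖iteratedFDeriv ℝ i (X k) x‖ ^ m ≤ (D + ‖(1 : 𝔸)‖ ^ m + 1) * N := by
    have h6 : 0 ≤ ‖(1 : 𝔸)‖ ^ m := by positivity
    rcases Nat.eq_zero_or_pos k with rfl | hk0
    · rw [hX0]
      rcases Nat.eq_zero_or_pos i with rfl | hi
      · rw [norm_iteratedFDeriv_zero]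
        nlinarith
      · rw [iteratedFDeriv_const_of_ne (by omega), Pi.zero_apply, norm_zero]
        rcases Nat.eq_zero_or_pos m with rfl | hm
        · rw [pow_zero] at h6 ⊢
          nlinarith
        · rw [zero_pow (by omega)]
          positivity
    · have h7 := h k hk0 x
      have h8 : (k : ℝ) ≤ N := by exact_mod_cast (Finset.mem_range.mp hk).le
      nlinarith [mul_le_mul_of_nonneg_left h8 hD]
  exact (pow_le_pow_left₀ (norm_nonneg _) ((hder i N x).trans h3) m).trans h5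

/-- products of a tiny and a slow family. -/
theorem Tiny.mul_slow {j : ℕ} (hj : 1 ≤ j) {F G : ℕ → (Fin n → ℝ) → 𝔸} (hF : Tiny j F)
    (hG : Slow G) : Tiny (2 * j) (fun N x => F N x * G N x) := by
  refine SlowMul_ofT (fun N hN => (hF.1 N hN).mul (hG.1 N hN)) fun i => ?_
  have h1 : SlowMul_T (2 * j) fun N x => ∑ l ∈ Finset.range (i + 1), (i.choose l : ℝ) *
      ‖iteratedFDeriv ℝ l (F N) x‖ * ‖iteratedFDeriv ℝ (i - l) (G N) x‖ := by
    refine SlowMul_T_sum (by omega) _ fun l _ => ?_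
    exact SlowMul_T_mul (SlowMul_T_smul (SlowMul_toT hF l) (Nat.cast_nonneg _))
      (SlowMul_toP hG (i - l))
  exact SlowMul_T_mono h1 (fun _ _ => norm_nonneg _) fun N hN x =>
    norm_iteratedFDeriv_mul_le (hF.1 N hN) (hG.1 N hN) x (SlowMul_le i)

theorem Tiny.add {j : ℕ} (hj : 1 ≤ j) {F G : ℕ → (Fin n → ℝ) → 𝔸} (hF : Tiny j F)
    (hG : Tiny j G) : Tiny j (fun N x => F N x + G N x) := by
  refine SlowMul_ofT (fun N hN => (hF.1 N hN).add (hG.1 N hN)) fun i => ?_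
  refine SlowMul_T_mono (SlowMul_T_add (SlowMul_toT hF i) (SlowMul_toT hG i))
    (fun _ _ => norm_nonneg _) fun N hN x => ?_
  have h1 : iteratedFDeriv ℝ i (fun x => F N x + G N x) x =
      iteratedFDeriv ℝ i (F N) x + iteratedFDeriv ℝ i (G N) x :=
    iteratedFDeriv_add_apply ((hF.1 N hN).of_le (SlowMul_le i)).contDiffAt
      ((hG.1 N hN).of_le (SlowMul_le i)).contDiffAt
  rw [h1]
  exact norm_add_le _ _

theorem Tiny.mono {j j' : ℕ} (hj : 1 ≤ j) (hjj : j ≤ j') {F : ℕ → (Fin n → ℝ) → 𝔸}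
    (hF : Tiny j F) : Tiny j' F :=
  SlowMul_ofT hF.1 fun i => SlowMul_T_le hj hjj (SlowMul_toT hF i)

/-- bounded constant factors. -/
theorem Tiny.const_mul {j : ℕ} {F : ℕ → (Fin n → ℝ) → 𝔸} (hF : Tiny j F) (c : ℕ → 𝔸) (b : ℝ)
    (hc : ∀ N, 1 ≤ N → ‖c N‖ ≤ b) : Tiny j (fun N x => c N * F N x) := by
  have hb : 0 ≤ b := (norm_nonneg _).trans (hc 1 le_rfl)
  refine SlowMul_ofT (fun N hN => contDiff_const.mul (hF.1 N hN)) fun i => ?_
  exact SlowMul_T_mono (SlowMul_T_smul (SlowMul_toT hF i) hb)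
    (fun _ _ => norm_nonneg _) fun N hN x =>
      (SlowMul_const_mul_le (hF.1 N hN) (c N) i x).trans
        (mul_le_mul_of_nonneg_right (hc N hN) (norm_nonneg _))

end QPR
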