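import Pool.Agent.Lib.QPR.BdMul

set_option autoImplicit false

namespace QPR

/-- Products of many factors close to one. `Y_0 = 1`, `Y_{k+1} = (1 + P_k) Y_k`. If every `P_k`
(`k < N`) is `Bd r K p` and `2^(r+1) * k * p ≤ 1`, `k ≤ N`, then `Y_k - 1` is
`Bd r K (2^(r+1) * k * p)`.
Proof by induction on `k`: `Y_{k+1} - 1 = (Y_k - 1) + P_k * Y_k`, where `Y_k = 1 + (Y_k - 1)` is
`Bd r K 2`, so `P_k * Y_k` is `Bd r K (2^r * (p * 2))`. -/
theorem tel {n : ℕ} {𝔸 : Type*} [NormedRing 𝔸] [NormedAlgebra ℝ 𝔸] [NormOneClass 𝔸]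
    {r : ℕ} {K p : ℝ} (hK : 0 ≤ K) (hp : 0 ≤ p) (N : ℕ) (P Y : ℕ → (Fin n → ℝ) → 𝔸)
    (hP : ∀ k < N, Bd r K p (P k)) (hY0 : ∀ x, Y 0 x = 1)
    (hY : ∀ k < N, ∀ x, Y (k + 1) x = (1 + P k x) * Y k x)
    (k : ℕ) (hk : k ≤ N) (hkp : 2 ^ (r + 1) * (k * p) ≤ 1) :
    Bd r K (2 ^ (r + 1) * (k * p)) (fun x => Y k x - 1) := by
  induction k with
  | zero =>
    have h0 : Bd r K ‖(0 : 𝔸)‖ (fun _ : Fin n → ℝ => (0 : 𝔸)) := Bd.const hK 0
    rw [norm_zero] at h0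
    have e1 : (fun x => Y 0 x - 1) = fun _ : Fin n → ℝ => (0 : 𝔸) := by
      funext x
      rw [hY0, sub_self]
    have e2 : (2 : ℝ) ^ (r + 1) * (((0 : ℕ) : ℝ) * p) = 0 := by
      rw [Nat.cast_zero, zero_mul, mul_zero]
    rw [e1, e2]
    exact h0
  | succ k ih =>
    have hpw : (0 : ℝ) < 2 ^ (r + 1) := by positivity
    have hle : (2 : ℝ) ^ (r + 1) * ((k : ℝ) * p) ≤ 1 := by
      refine le_trans (mul_le_mul_of_nonneg_left (mul_le_mul_of_nonneg_right ?_ hp) hpw.le) hkp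
      exact_mod_cast Nat.le_succ k
    have h1 := ih (Nat.le_of_succ_le hk) hle
    have h2 : Bd r K 2 (Y k) := by
      have h3 := (Bd.const (r := r) (n := n) hK (1 : 𝔸)).add h1
      have e1 : (fun x => (1 : 𝔸) + (Y k x - 1)) = Y k := by
        funext x
        rw [add_sub_cancel]
      rw [e1, norm_one] at h3
      exact h3.mono_q hK (by linarith)
    have h4 := Bd.mul hK hp (by norm_num : (0 : ℝ) ≤ 2) (hP k hk) h2
    have h5 := h1.add h4
    have e3 : (fun x => (Y k x - 1) + P k x * Y k x) = fun x => Y (k + 1) x - 1 := by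
      funext x
      rw [hY k hk x, add_mul, one_mul]
      abel
    have e4 : (2 : ℝ) ^ (r + 1) * ((k : ℝ) * p) + 2 ^ r * (p * 2) =
        2 ^ (r + 1) * (((k + 1 : ℕ) : ℝ) * p) := by
      rw [Nat.cast_add, Nat.cast_one]
      ring
    rw [e3, e4] at h5
    exact h5

end QPR
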