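import Pool.Agent.Lib.QPR.BdInv
import Pool.Agent.Lib.QPR.BdInt
import Pool.Agent.Lib.QPR.Tel

set_option autoImplicit false

namespace QPR

private theorem Step_npow {𝔸 : Type*} [NormedRing 𝔸] [NormOneClass 𝔸] {C : 𝔸} (h : ‖C‖ ≤ 1)
    (k : ℕ) : ‖C ^ k‖ ≤ 1 :=
  (norm_pow_le C k).trans (pow_le_one₀ (norm_nonneg _) h)

private theorem Step_inv {𝔸 : Type*} [Ring 𝔸] {C Ci : 𝔸} (h : Ci * C = 1) (k : ℕ) :
    Ci ^ k * C ^ k = 1 := by
  induction k with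
  | zero => rw [pow_zero, pow_zero, one_mul]
  | succ k ih => rw [pow_succ, pow_succ', mul_assoc, ← mul_assoc Ci, h, one_mul, ih]

/-- The product of two functions close to one. -/
private theorem Step_mul {n : ℕ} {𝔸 : Type*} [NormedRing 𝔸] [NormedAlgebra ℝ 𝔸] {r : ℕ}
    {K qa qb : ℝ} (hK : 0 ≤ K) (ha : 0 ≤ qa) (hb : 0 ≤ qb) {a b : (Fin n → ℝ) → 𝔸}
    (h : Bd r K qa a) (h' : Bd r K qb b) :
    Bd r K (qa + qb + 2 ^ r * (qa * qb)) (fun x => (1 + a x) * (1 + b x) - 1) := by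
  have h1 := (h.add h').add (Bd.mul hK ha hb h h')
  have e : (fun x => a x + b x + a x * b x) = fun x => (1 + a x) * (1 + b x) - 1 := by
    funext x
    noncomm_ring
  rw [e] at h1
  exact h1

/-- The telescoping identity of the averages. -/
private theorem Step_tele {n : ℕ} {𝔸 : Type*} [NormedRing 𝔸] [NormedAlgebra ℝ 𝔸]
    (α : Fin n → ℝ) (Ci : 𝔸) (A : (Fin n → ℝ) → 𝔸) (N : ℕ) (x : Fin n → ℝ) :
    Ci * (∑ k ∈ Finset.range N, Xn α Ci A k (x + α)) * A x =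
      ∑ k ∈ Finset.range N, Xn α Ci A k x + (Xn α Ci A N x - 1) := by
  have h1 : ∀ k, Ci * Xn α Ci A k (x + α) * A x = Xn α Ci A (k + 1) x := by
    intro k
    unfold Xn
    rw [An_succ, pow_succ', mul_assoc, mul_assoc, mul_assoc]
  rw [Finset.mul_sum, Finset.sum_mul, Finset.sum_congr rfl fun k _ => h1 k]
  have h2 := Finset.sum_range_succ (fun k => Xn α Ci A k x) N
  have h3 := Finset.sum_range_succ' (fun k => Xn α Ci A k x) N
  have h4 : Xn α Ci A 0 x = 1 := by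
    unfold Xn
    rw [An_zero, pow_zero, mul_one]
  rw [h4] at h3
  rw [h2] at h3
  rw [← add_sub_assoc, h3, add_sub_cancel_right]

/-- The recursion of the transformed iterates. -/
private theorem Step_rec {n : ℕ} {𝔸 : Type*} [NormedRing 𝔸] [NormedAlgebra ℝ 𝔸]
    {α : Fin n → ℝ} {C Ci : 𝔸} (h : IsoC C Ci) {A M V P : (Fin n → ℝ) → 𝔸}
    (hP : ∀ x, Ci * M (x + α) * A x = (1 + P x) * M x) (k : ℕ) (x : Fin n → ℝ) :
    Ci ^ (k + 1) * M (x + ((k + 1 : ℕ) : ℝ) • α) * An α A (k + 1) x * V x =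
      (1 + Ci ^ k * P (x + (k : ℝ) • α) * C ^ k) *
        (Ci ^ k * M (x + (k : ℝ) • α) * An α A k x * V x) := by
  have e0 : x + ((k + 1 : ℕ) : ℝ) • α = x + (k : ℝ) • α + α := by
    push_cast
    rw [add_smul, one_smul, add_assoc]
  have e1 := Step_inv h.right k
  have e2 := Step_inv h.left k
  have e3 := hP (x + (k : ℝ) • α)
  rw [e0, An_succ', pow_succ]
  have e4 : Ci ^ k * Ci * M (x + (k : ℝ) • α + α) * (A (x + (k : ℝ) • α) * An α A k x) * V x =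
      Ci ^ k * (Ci * M (x + (k : ℝ) • α + α) * A (x + (k : ℝ) • α)) * An α A k x * V x := by
    simp only [mul_assoc]
  rw [e4, e3]
  have e5 : (1 + Ci ^ k * P (x + (k : ℝ) • α) * C ^ k) *
      (Ci ^ k * M (x + (k : ℝ) • α) * An α A k x * V x) =
      Ci ^ k * M (x + (k : ℝ) • α) * An α A k x * V x +
      Ci ^ k * P (x + (k : ℝ) • α) * (C ^ k * Ci ^ k) * M (x + (k : ℝ) • α) * An α A k x * V x := by
    rw [add_mul, one_mul]
    simp only [mul_assoc]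
  rw [e5, e1]
  simp only [mul_add, add_mul, mul_one, one_mul, mul_assoc]

/-- THE KEY STEP. Suppose all normalised iterates `X_k = Ci^k A_k` of a cocycle are `w`-close to one
in the sup norm, and that for `k ≤ N` they are `Bd r K c`-close to one. Then for `k ≤ c' N / w` they
are `Bd r (Λ K) c`-close to one, where `Λ ^ r ≥ c / w`.

Proof. Let `D ≥ 1` be the constant of `bd_int`. Let `c = 1 / (4 * 2^r)` (so `2^r c ≤ 1/2`), and `w₀`,
`c'` small depending on `r`, `D` (say `w₀ = c / (100 * 8^r * D)`, `c' = 1 / (1000 * 64^r * D)` times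
something; any choice works).
Write `T F x = Ci * F (x + α) * C`; then `X_{j+k} x = (T^j X_... )`: precisely
`X_{k+j} x = (Ci^j * X_k (x + j α) * C^j) * X_j x` (from `An_add`).
Let `M x = (1/N) ∑_{k<N} X_k x`. Then `M - 1` is `Bd r K c` (`Bd.avg`) and `‖M - 1‖ ≤ w`, so
`Bd r (ΛK) (D w)` by `bd_int`; `M` is invertible, `M⁻¹ - 1` is `Bd r K (2c)` and
`Bd r (ΛK) (2 D w)` (`Bd.inverse`).
Telescoping: `Ci * M (x+α) * A x = M x + (1/N) (X_N x - 1)`, hence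
`Ci * M (x+α) * A x * (M x)⁻¹ = 1 + P x` with `P x = (1/N) (X_N x - 1) (M x)⁻¹`;
`‖P‖ ≤ 2w/N`, `P` is `Bd r K (2^r * (c/N) * 2)`, so `Bd r (ΛK) (2^(r+1) D w/N)` by `bd_int`
(applied with `w := 2^(r+1) * w/N`).
Let `Y_k x = Ci^k * M (x + kα) * A_k x * (M x)⁻¹`. Then `Y_0 = 1`,
`Y_{k+1} x = (1 + Ci^k * P (x + kα) * C^k) * Y_k x` (from `An_succ'`), so by `tel` (and `Bd.conj`,
`Bd.translate`) `Y_k - 1` is `Bd r (ΛK) (2^(r+1) * k * 2^(r+1) D w / N)`, which is at most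
`c / (10 * 4^r)` for `k w ≤ c' N`.
Finally `X_k x = (Ci^k * (M (x+kα))⁻¹ * C^k) * Y_k x * M x` is a product of three factors `1 + small`
at the scale `ΛK`, so `X_k - 1` is `Bd r (ΛK) c`. -/
theorem growth_step (n : ℕ) (𝔸 : Type*) [NormedRing 𝔸] [NormedAlgebra ℝ 𝔸] [CompleteSpace 𝔸]
    [NormOneClass 𝔸] (r : ℕ) :
    ∃ c : ℝ, 0 < c ∧ c ≤ 1 ∧ ∃ c' : ℝ, 0 < c' ∧ c' ≤ 1 ∧ ∃ w₀ : ℝ, 0 < w₀ ∧ w₀ ≤ c ∧
      ∀ (α : Fin n → ℝ) (C Ci : 𝔸), IsoC C Ci → ∀ A : (Fin n → ℝ) → 𝔸, Smo A →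
      ∀ w : ℝ, 0 < w → w ≤ w₀ → (∀ k x, ‖Xn α Ci A k x - 1‖ ≤ w) →
      ∀ (N : ℕ) (K Λ : ℝ), 1 ≤ N → 0 < K → 1 ≤ Λ → c ≤ w * Λ ^ r →
      (∀ k ≤ N, Bd r K c (fun x => Xn α Ci A k x - 1)) →
      ∀ k : ℕ, (k : ℝ) * w ≤ c' * N → Bd r (Λ * K) c (fun x => Xn α Ci A k x - 1) := by
  obtain ⟨D, hD1, hD⟩ := bd_int n 𝔸 r
  have hD0 : 0 < D := lt_of_lt_of_le one_pos hD1
  obtain ⟨B, hBe⟩ : ∃ B : ℝ, B = 2 ^ r := ⟨_, rfl⟩
  have hB1 : 1 ≤ B := by rw [hBe]; exact one_le_pow₀ (by norm_num)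
  have hB0 : 0 < B := lt_of_lt_of_le one_pos hB1
  obtain ⟨c, hc⟩ : ∃ c : ℝ, c = 1 / (4 * B) := ⟨_, rfl⟩
  have hc0 : 0 < c := by rw [hc]; positivity
  have hBc : B * c = 1 / 4 := by rw [hc]; field_simp
  have hc1 : c ≤ 1 / 4 := by nlinarith
  have hBD : 1 ≤ B * D := by nlinarith
  have hB3 : 1 ≤ B ^ 3 * D := by
    have : 1 ≤ B ^ 3 := one_le_pow₀ hB1
    nlinarith
  obtain ⟨w₀, hw₀⟩ : ∃ w₀ : ℝ, w₀ = c / (20 * (B * D)) := ⟨_, rfl⟩
  obtain ⟨c', hc'⟩ : ∃ c' : ℝ, c' = c / (40 * (B ^ 3 * D)) := ⟨_, rfl⟩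
  have hw₀0 : 0 < w₀ := by rw [hw₀]; positivity
  have hc'0 : 0 < c' := by rw [hc']; positivity
  have hw₀c : w₀ * (20 * (B * D)) = c := by rw [hw₀]; field_simp
  have hc'c : c' * (40 * (B ^ 3 * D)) = c := by rw [hc']; field_simp
  refine ⟨c, hc0, by linarith, c', hc'0, by nlinarith, w₀, hw₀0, by nlinarith, ?_⟩
  intro α C Ci hI A hA w hw hww hX N K Λ hN hK hΛ hcw hXN k hk
  have hN0 : (0 : ℝ) < N := by exact_mod_cast hN
  have hL : 0 < Λ * K := mul_pos (lt_of_lt_of_le one_pos hΛ) hK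
  have hDw : 20 * (B * (D * w)) ≤ c := by
    have : w * (20 * (B * D)) ≤ w₀ * (20 * (B * D)) :=
      mul_le_mul_of_nonneg_right hww (by positivity)
    linarith
  have hDw0 : 0 < D * w := mul_pos hD0 hw
  have hDw1 : D * w ≤ B * (D * w) := le_mul_of_one_le_left hDw0.le hB1
  -- the average
  obtain ⟨m, hm⟩ : ∃ m : (Fin n → ℝ) → 𝔸, m = fun x =>
      (1 / (N : ℝ)) • ∑ k ∈ Finset.range N, (Xn α Ci A k x - 1) := ⟨_, rfl⟩
  have hmK : Bd r K c m := by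
    rw [hm]
    exact Bd.avg hK.le N hN fun k hk => hXN k hk.le
  have hmw : ∀ x, ‖m x‖ ≤ w := by
    intro x
    rw [hm]
    change ‖(1 / (N : ℝ)) • ∑ k ∈ Finset.range N, (Xn α Ci A k x - 1)‖ ≤ w
    rw [norm_smul, Real.norm_eq_abs, abs_of_pos (by positivity)]
    have h1 : ‖∑ k ∈ Finset.range N, (Xn α Ci A k x - 1)‖ ≤ N * w := by
      refine (norm_sum_le _ _).trans ?_
      refine (Finset.sum_le_sum fun k _ => hX k x).trans ?_
      rw [Finset.sum_const, Finset.card_range, nsmul_eq_mul]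
    rw [one_div, inv_mul_le_iff₀ hN0]
    exact h1
  have hmL : Bd r (Λ * K) (D * w) m := hD m K c w Λ hK hΛ hc0.le hw.le hmK hmw hcw
  have hMs : ∀ x, (1 / (N : ℝ)) • ∑ k ∈ Finset.range N, Xn α Ci A k x = 1 + m x := by
    intro x
    rw [hm]
    change _ = 1 + (1 / (N : ℝ)) • ∑ k ∈ Finset.range N, (Xn α Ci A k x - 1)
    rw [Finset.sum_sub_distrib, smul_sub, Finset.sum_const, Finset.card_range,
      ← Nat.cast_smul_eq_nsmul ℝ, smul_smul, one_div_mul_cancel hN0.ne', one_smul]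
    abel
  -- the inverse
  obtain ⟨hu, hvK⟩ := Bd.inverse hK.le hc0.le (by rw [← hBe]; linarith) hmK
  obtain ⟨-, hvL⟩ := Bd.inverse hL.le hDw0.le (by rw [← hBe]; linarith) hmL
  obtain ⟨V, hV⟩ : ∃ V : (Fin n → ℝ) → 𝔸, V = fun x => Ring.inverse (1 + m x) := ⟨_, rfl⟩
  have hVx : ∀ x, V x = Ring.inverse (1 + m x) := fun x => by rw [hV]
  have hvK' : Bd r K (2 * c) fun x => V x - 1 := by simpa only [hVx] using hvK
  have hvL' : Bd r (Λ * K) (2 * (D * w)) fun x => V x - 1 := by simpa only [hVx] using hvL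
  have hMV : ∀ x, (1 + m x) * V x = 1 := fun x => by
    rw [hVx]; exact Ring.mul_inverse_cancel _ (hu x)
  have hVM : ∀ x, V x * (1 + m x) = 1 := fun x => by
    rw [hVx]; exact Ring.inverse_mul_cancel _ (hu x)
  -- the error term
  obtain ⟨P, hP⟩ : ∃ P : (Fin n → ℝ) → 𝔸, P = fun x =>
      (1 / (N : ℝ)) • ((Xn α Ci A N x - 1) * V x) := ⟨_, rfl⟩
  have hPx : ∀ x, P x = (1 / (N : ℝ)) • ((Xn α Ci A N x - 1) * V x) := fun x => by rw [hP]
  have hVK : Bd r K 2 V := by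
    have h1 := (Bd.const (r := r) (n := n) hK.le (1 : 𝔸)).add hvK'
    have e1 : (fun x => (1 : 𝔸) + (V x - 1)) = V := by
      funext x
      rw [add_sub_cancel]
    rw [e1, norm_one] at h1
    exact h1.mono_q hK.le (by linarith)
  have hPK : Bd r K (2 ^ (r + 1) * c / N) P := by
    have h1 := (Bd.mul hK.le hc0.le (by norm_num) (hXN N le_rfl) hVK).smul (1 / (N : ℝ))
    rw [← hP] at h1
    refine h1.mono_q hK.le (le_of_eq ?_)
    rw [abs_of_pos (by positivity), pow_succ]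
    field_simp
  have hVn : ∀ x, ‖V x‖ ≤ 2 := fun x => hVK.norm_le x
  have hPn : ∀ x, ‖P x‖ ≤ 2 ^ (r + 1) * w / N := by
    intro x
    rw [hPx, norm_smul, Real.norm_eq_abs, abs_of_pos (by positivity)]
    have h1 : ‖(Xn α Ci A N x - 1) * V x‖ ≤ w * 2 :=
      (norm_mul_le _ _).trans (mul_le_mul (hX N x) (hVn x) (norm_nonneg _) hw.le)
    have h2 : (2 : ℝ) ^ (r + 1) = 2 * B := by rw [hBe, pow_succ, mul_comm]
    rw [h2, one_div, inv_mul_le_iff₀ hN0]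
    have h3 : (N : ℝ) * (2 * B * w / N) = 2 * B * w := by field_simp
    rw [h3]
    nlinarith
  have hPL : Bd r (Λ * K) (D * (2 ^ (r + 1) * w / N)) P := by
    refine hD P K (2 ^ (r + 1) * c / N) (2 ^ (r + 1) * w / N) Λ hK hΛ (by positivity)
      (by positivity) hPK hPn ?_
    rw [div_mul_eq_mul_div, mul_assoc]
    gcongr
  have hPM : ∀ x, Ci * (1 + m (x + α)) * A x = (1 + P x) * (1 + m x) := by
    intro x
    rw [← hMs (x + α), mul_smul_comm, smul_mul_assoc, Step_tele, smul_add, hMs x, add_mul (1 : 𝔸),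
      one_mul, hPx, smul_mul_assoc, mul_assoc, hVM, mul_one]
  -- the transformed iterates
  obtain ⟨Y, hY⟩ : ∃ Y : ℕ → (Fin n → ℝ) → 𝔸, Y = fun (k : ℕ) (x : Fin n → ℝ) =>
      Ci ^ k * (1 + m (x + (k : ℝ) • α)) * An α A k x * V x := ⟨_, rfl⟩
  have hYx : ∀ k x, Y k x = Ci ^ k * (1 + m (x + (k : ℝ) • α)) * An α A k x * V x :=
    fun k x => by rw [hY]
  have hY0 : ∀ x, Y 0 x = 1 := by
    intro x
    rw [hYx, pow_zero, one_mul, An_zero, mul_one, Nat.cast_zero, zero_smul, add_zero, hMV]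
  have hYs : ∀ k x, Y (k + 1) x = (1 + Ci ^ k * P (x + (k : ℝ) • α) * C ^ k) * Y k x := by
    intro k x
    rw [hYx, hYx]
    exact Step_rec (M := fun x => 1 + m x) hI hPM k x
  obtain ⟨p, hp⟩ : ∃ p : ℝ, p = D * (2 ^ (r + 1) * w / N) := ⟨_, rfl⟩
  have hp0 : 0 ≤ p := by rw [hp]; positivity
  have hPk : ∀ k : ℕ, Bd r (Λ * K) p fun x => Ci ^ k * P (x + (k : ℝ) • α) * C ^ k := by
    intro k
    rw [hp]
    exact (hPL.translate ((k : ℝ) • α)).conj _ _ (Step_npow hI.norm_inv_le k)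
      (Step_npow hI.norm_le k) hL.le (by positivity)
  have hkp : 2 ^ (r + 1) * ((k : ℝ) * p) ≤ c / 10 := by
    have e1 : 2 ^ (r + 1) * ((k : ℝ) * p) = 4 * B ^ 2 * D * ((k * w) / N) := by
      rw [hp, pow_succ, ← hBe]
      ring
    have e2 : (k * w) / (N : ℝ) ≤ c' := by
      rw [div_le_iff₀ hN0]
      exact hk
    rw [e1]
    have e3 : 4 * B ^ 2 * D * ((k * w) / N) ≤ 4 * B ^ 2 * D * c' :=
      mul_le_mul_of_nonneg_left e2 (by positivity)
    have e4 : 4 * B ^ 2 * D * c' * B = c / 10 := by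
      rw [← hc'c]
      ring
    have e5 : 4 * B ^ 2 * D * c' ≤ 4 * B ^ 2 * D * c' * B :=
      le_mul_of_one_le_right (by positivity) hB1
    linarith
  have hYk := tel hL.le hp0 k (fun k x => Ci ^ k * P (x + (k : ℝ) • α) * C ^ k) Y
    (fun k _ => hPk k) hY0 (fun k _ x => hYs k x) k le_rfl (by linarith)
  have hYk' : Bd r (Λ * K) (c / 10) fun x => Y k x - 1 := hYk.mono_q hL.le hkp
  -- the product
  have hvk : Bd r (Λ * K) (2 * (D * w)) fun x => Ci ^ k * (V (x + (k : ℝ) • α) - 1) * C ^ k :=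
    (hvL'.translate ((k : ℝ) • α)).conj _ _ (Step_npow hI.norm_inv_le k)
      (Step_npow hI.norm_le k) hL.le (by positivity)
  have h1 := Step_mul hL.le (by positivity) (by positivity) hvk hYk'
  have h2 := Step_mul hL.le (by positivity) hDw0.le h1 hmL
  have e1 : (fun x => (1 + ((1 + Ci ^ k * (V (x + (k : ℝ) • α) - 1) * C ^ k) *
      (1 + (Y k x - 1)) - 1)) * (1 + m x) - 1) = fun x => Xn α Ci A k x - 1 := by
    funext x
    congr 1
    have a1 : 1 + ((1 + Ci ^ k * (V (x + (k : ℝ) • α) - 1) * C ^ k) *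
        (1 + (Y k x - 1)) - 1) = (1 + Ci ^ k * (V (x + (k : ℝ) • α) - 1) * C ^ k) * Y k x := by
      rw [add_sub_cancel, add_sub_cancel]
    have a2 : 1 + Ci ^ k * (V (x + (k : ℝ) • α) - 1) * C ^ k =
        Ci ^ k * V (x + (k : ℝ) • α) * C ^ k := by
      rw [mul_sub, mul_one, sub_mul, Step_inv hI.left k, add_sub_cancel]
    rw [a1, a2, hYx]
    have a3 : Ci ^ k * V (x + (k : ℝ) • α) * C ^ k *
        (Ci ^ k * (1 + m (x + (k : ℝ) • α)) * An α A k x * V x) * (1 + m x) =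
        Ci ^ k * V (x + (k : ℝ) • α) * (C ^ k * Ci ^ k) * (1 + m (x + (k : ℝ) • α)) *
          An α A k x * (V x * (1 + m x)) := by
      simp only [mul_assoc]
    rw [a3, Step_inv hI.right k, hVM, mul_one, mul_one, mul_assoc (Ci ^ k) (V _), hVM, mul_one]
    rfl
  rw [e1] at h2
  refine h2.mono_q hL.le ?_
  rw [← hBe]
  have f1 : 2 * (D * w) ≤ c / 10 := by linarith
  have f2 : B * (2 * (D * w) * (c / 10)) ≤ c / 10 := by
    have : B * (2 * (D * w) * (c / 10)) = 2 * (D * w) * ((B * c) / 10) := by ring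
    rw [this, hBc]
    linarith
  obtain ⟨q1, hq1⟩ : ∃ q1 : ℝ, q1 = 2 * (D * w) + c / 10 + B * (2 * (D * w) * (c / 10)) := ⟨_, rfl⟩
  rw [← hq1]
  have f3 : q1 ≤ 3 * (c / 10) := by rw [hq1]; linarith
  have f4 : B * (q1 * (D * w)) ≤ c := by
    have g1 : B * (q1 * (D * w)) = q1 * (B * (D * w)) := by ring
    have g2 : B * (D * w) ≤ c / 20 := by linarith
    rw [g1]
    have g3 : q1 * (B * (D * w)) ≤ (3 * (c / 10)) * (c / 20) :=
      mul_le_mul f3 g2 (by positivity) (by positivity)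
    nlinarith
  nlinarith

end QPR
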