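import Mathlib

set_option autoImplicit false

/-!
# MP_e45e8e_an: vocabulary of the statements

The torus `T^d` is `UnitAddTorus (Fin d)`, that is `Fin d → ℝ/ℤ`.
-/

namespace QPR

/-- `α` is Diophantine (the condition of the problem and of the frozen statement). -/
def IsDiophantine {d : ℕ} (α : Fin d → ℝ) : Prop :=
  ∃ γ : ℝ, 0 < γ ∧ ∃ τ : ℝ, 0 < τ ∧ ∀ k : Fin d → ℤ, k ≠ 0 → ∀ n : ℤ,
    γ / (∑ i, |(k i : ℝ)|) ^ τ ≤ |∑ i, (k i : ℝ) * α i - (n : ℝ)|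

/-- `φ` is a `C^∞` function on the torus. -/
def IsSmoothFun {d : ℕ} {E : Type*} [NormedAddCommGroup E] [NormedSpace ℝ E]
    (φ : UnitAddTorus (Fin d) → E) : Prop :=
  ContDiff ℝ ((⊤ : ℕ∞) : WithTop ℕ∞) (fun x : Fin d → ℝ => φ (fun i => ((x i : ℝ) : UnitAddCircle)))

/-- the homeomorphism `h` of the torus is a `C^∞` diffeomorphism: composition with `h` and with its
inverse preserves the real `C^∞` functions. -/
def IsSmoothDiffeo {d : ℕ} (h : UnitAddTorus (Fin d) ≃ₜ UnitAddTorus (Fin d)) : Prop :=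
  ∀ φ : UnitAddTorus (Fin d) → ℝ, IsSmoothFun φ →
    IsSmoothFun (fun y => φ (h y)) ∧ IsSmoothFun (fun y => φ (h.symm y))

/-- `h` conjugates `f` to the translation by `α`. -/
def Conjugates {d : ℕ} (α : Fin d → ℝ) (h f : UnitAddTorus (Fin d) ≃ₜ UnitAddTorus (Fin d)) :
    Prop :=
  ∀ y, h (f y) = h y + (fun i => ((α i : ℝ) : UnitAddCircle))

/-- `T` is an `f`-invariant distribution: linear on `C^∞` functions, bounded by a multiple of some
`C^k` norm, and `T (φ ∘ f) = T φ`. -/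
def IsInvariantDistribution {d : ℕ} (f : UnitAddTorus (Fin d) ≃ₜ UnitAddTorus (Fin d))
    (T : (UnitAddTorus (Fin d) → ℝ) → ℝ) : Prop :=
  (∀ φ ψ : UnitAddTorus (Fin d) → ℝ, IsSmoothFun φ → IsSmoothFun ψ →
    ∀ a b : ℝ, T (a • φ + b • ψ) = a * T φ + b * T ψ) ∧
  (∃ k : ℕ, ∃ C : ℝ, ∀ φ : UnitAddTorus (Fin d) → ℝ, IsSmoothFun φ →
    ∀ M : ℝ, (∀ j : ℕ, j ≤ k → ∀ x : Fin d → ℝ,
      ‖iteratedFDeriv ℝ j (fun x : Fin d → ℝ => φ (fun i => ((x i : ℝ) : UnitAddCircle))) x‖ ≤ M) →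
    |T φ| ≤ C * M) ∧
  (∀ φ : UnitAddTorus (Fin d) → ℝ, IsSmoothFun φ → T (fun y => φ (f y)) = T φ)

/-- the space of `f`-invariant distributions is one-dimensional: there is a nonzero one, and all
others are scalar multiples of it (on `C^∞` functions). -/
def OneInvariantDistribution {d : ℕ} (f : UnitAddTorus (Fin d) ≃ₜ UnitAddTorus (Fin d)) : Prop :=
  ∃ T₀ : (UnitAddTorus (Fin d) → ℝ) → ℝ, IsInvariantDistribution f T₀ ∧
    (∃ φ : UnitAddTorus (Fin d) → ℝ, IsSmoothFun φ ∧ T₀ φ ≠ 0) ∧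
    ∀ T : (UnitAddTorus (Fin d) → ℝ) → ℝ, IsInvariantDistribution f T →
      ∃ c : ℝ, ∀ φ : UnitAddTorus (Fin d) → ℝ, IsSmoothFun φ → T φ = c * T₀ φ

end QPR
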