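import Pool.Agent.Lib.QPR.TForm

set_option autoImplicit false

namespace QPR

variable {d m : ℕ} {α : Fin d → ℝ} {f h : UnitAddTorus (Fin d) ≃ₜ UnitAddTorus (Fin d)}
  {l : Fin d → (Fin d → ℤ)} {P Q : Fin d → UnitAddTorus (Fin d) → ℂ}

/-- The algebra at one point. -/
private theorem TB1_alg {s s' : ℝ} {t t' : ℂ} {u U : ℝ} {v V p q : ℂ}
    (hp : ‖p‖ ^ 2 - ‖q‖ ^ 2 = 1) (hU : U ^ 2 - ‖V‖ ^ 2 = 1)
    (hs' : s' = U ^ 2 + ‖V‖ ^ 2) (ht' : t' = 2 * U * V) (hu0 : 0 < u)
    (hu : u ^ 2 = (s + 1) / 2) (ht : t = 2 * u * v)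
    (h1 : s = s' * (‖p‖ ^ 2 + ‖q‖ ^ 2) + 2 * (t' * star p * star q).re)
    (h2 : t = 2 * (s' : ℂ) * star p * q + t' * star p ^ 2 + star t' * q ^ 2) :
    ‖(U : ℂ) * p + V * star q‖ = u ∧
      (u : ℂ) * ((U : ℂ) * q + V * star p) = ((U : ℂ) * p + V * star q) * v := by
  have hns : ∀ z : ℂ, ((‖z‖ ^ 2 : ℝ) : ℂ) = z * star z := fun z => by
    rw [Complex.star_def, Complex.mul_conj, Complex.normSq_eq_norm_sq]
  have hpc : p * star p - q * star q = 1 := by
    rw [← hns, ← hns, ← Complex.ofReal_sub, hp, Complex.ofReal_one]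
  have hUc : (U : ℂ) ^ 2 - V * star V = 1 := by
    rw [← hns, ← Complex.ofReal_pow, ← Complex.ofReal_sub, hU, Complex.ofReal_one]
  have hsc' : (s' : ℂ) = (U : ℂ) ^ 2 + V * star V := by
    rw [← hns, hs', Complex.ofReal_add, Complex.ofReal_pow]
  have hre : ∀ z : ℂ, ((2 * z.re : ℝ) : ℂ) = z + star z := fun z => by
    rw [Complex.star_def, Complex.add_conj]
  have hsc : (s : ℂ) = (s' : ℂ) * (p * star p + q * star q) +
      (t' * star p * star q + star t' * p * q) := by
    have h3 := congrArg (fun r : ℝ => (r : ℂ)) h1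
    simp only [Complex.ofReal_add, Complex.ofReal_mul s'] at h3
    rw [h3, hns, hns]
    have h4 := hre (t' * star p * star q)
    rw [h4, star_mul', star_mul', star_star, star_star]
  have hst' : star t' = 2 * (U : ℂ) * star V := by
    rw [ht', star_mul', star_mul', Complex.star_def, Complex.conj_ofReal, Complex.conj_ofNat]
  set a : ℂ := (U : ℂ) * p + V * star q with ha
  set b : ℂ := (U : ℂ) * q + V * star p with hb
  have hsa : star a = (U : ℂ) * star p + star V * q := by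
    rw [ha, star_add, star_mul', star_mul', star_star, Complex.star_def, Complex.conj_ofReal]
  have hsb : star b = (U : ℂ) * star q + star V * p := by
    rw [hb, star_add, star_mul', star_mul', star_star, Complex.star_def, Complex.conj_ofReal]
  have hdiff : a * star a - b * star b = 1 := by
    rw [hsa, hsb, ha, hb]
    linear_combination (p * star p - q * star q) * hUc + hpc
  have hsum : a * star a + b * star b = s := by
    rw [hsc, hsc', hst', ht', hsa, hsb, ha, hb]
    ring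
  have hab : 2 * (star a * b) = t := by
    rw [h2, hsc', hst', ht', hsa, hb]
    ring
  have huc : (u : ℂ) ^ 2 = ((s : ℂ) + 1) / 2 := by
    have h3 := congrArg (fun r : ℝ => (r : ℂ)) hu
    simpa using h3
  have haa : a * star a = (u : ℂ) ^ 2 := by
    rw [huc]
    linear_combination (hdiff + hsum) / 2
  have hu0c : (u : ℂ) ≠ 0 := by
    rw [Ne, Complex.ofReal_eq_zero]
    exact hu0.ne'
  constructor
  · have h3 : ‖a‖ ^ 2 = u ^ 2 := by
      have h4 := haa
      rw [← hns, ← Complex.ofReal_pow] at h4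
      exact Complex.ofReal_injective h4
    exact (sq_eq_sq₀ (norm_nonneg a) hu0.le).mp h3
  · have h3 : (u : ℂ) * ((u : ℂ) * b) = (u : ℂ) * (a * v) := by
      have h4 : star a * b = (u : ℂ) * v := by
        rw [ht] at hab
        linear_combination hab / 2
      linear_combination a * h4 - b * haa
    exact mul_left_cancel₀ hu0c h3

/-- Continuous reduction to rotations. With `s, t` from `exists_form` put `u = √((s+1)/2)`,
`v = t / (2 u)`: `u^2 - |v|^2 = 1`, `u^2 + |v|^2 = s`, `2 u v = t`, i.e. `B^* B = [[s,t],[star t,s]]`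
for `B = [[u, v], [star v, u]]`. Let `O = B (f x) S (x) B (x)⁻¹ = [[p', q'], [star q', star p']]`;
invariance of the form gives `O^* O = 1`, so `|p'|^2 + |q'|^2 = 1 = |p'|^2 - |q'|^2`, `q' = 0`;
`κ = p'`. -/
theorem exists_uv (hα : DioV α) (L : Lev m α f h l P Q) (j : Fin d) (hj : (j : ℕ) = m) :
    ∃ (u : UnitAddTorus (Fin d) → ℝ) (v κ : UnitAddTorus (Fin d) → ℂ),
      Continuous u ∧ Continuous v ∧ Continuous κ ∧ DepLt m u ∧ DepLt m v ∧ DepLt m κ ∧
      (∀ x, 0 < u x) ∧ (∀ x, u x ^ 2 - ‖v x‖ ^ 2 = 1) ∧ (∀ x, ‖κ x‖ = 1) ∧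
      (∀ x, (u (f x) : ℂ) * P j x + v (f x) * star (Q j x) = κ x * u x) ∧
      (∀ x, (u (f x) : ℂ) * Q j x + v (f x) * star (P j x) = κ x * v x) := by
  obtain ⟨s, t, hs, ht, hsd, htd, hs0, hst, h1, h2⟩ := exists_form hα L j hj
  have hs1 : ∀ x, 0 < (s x + 1) / 2 := fun x => by
    have := hs0 x
    positivity
  set u : UnitAddTorus (Fin d) → ℝ := fun x => Real.sqrt ((s x + 1) / 2) with hu
  set v : UnitAddTorus (Fin d) → ℂ := fun x => t x / (2 * (u x : ℂ)) with hv
  have hu2 : ∀ x, u x ^ 2 = (s x + 1) / 2 := fun x => Real.sq_sqrt (hs1 x).le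
  have hu0 : ∀ x, 0 < u x := fun x => Real.sqrt_pos.mpr (hs1 x)
  have hu0c : ∀ x, (u x : ℂ) ≠ 0 := fun x => by
    rw [Ne, Complex.ofReal_eq_zero]
    exact (hu0 x).ne'
  have hu20 : ∀ x, (2 * (u x : ℂ)) ≠ 0 := fun x => mul_ne_zero two_ne_zero (hu0c x)
  have htv : ∀ x, t x = 2 * (u x : ℂ) * v x := fun x => by
    rw [hv]
    exact (mul_div_cancel₀ (t x) (hu20 x)).symm
  have hnv : ∀ x, ‖v x‖ ^ 2 = (s x - 1) / 2 := fun x => by
    have h3 : ‖t x‖ ^ 2 = 4 * u x ^ 2 * ‖v x‖ ^ 2 := by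
      rw [htv x, norm_mul, norm_mul, Complex.norm_real, Real.norm_of_nonneg (hu0 x).le]
      rw [Complex.norm_ofNat]
      ring
    have h4 := hst x
    rw [h3, hu2 x] at h4
    have h5 := hs1 x
    have h6 : (s x + 1) * (‖v x‖ ^ 2 - (s x - 1) / 2) = 0 := by linarith
    have h7 : s x + 1 ≠ 0 := by
      have := hs0 x
      positivity
    have h8 := (mul_eq_zero.mp h6).resolve_left h7
    linarith
  have hdet : ∀ x, u x ^ 2 - ‖v x‖ ^ 2 = 1 := fun x => by
    rw [hu2, hnv]
    ring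
  have hsum : ∀ x, s x = u x ^ 2 + ‖v x‖ ^ 2 := fun x => by
    rw [hu2, hnv]
    ring
  have hm : m ≤ (j : ℕ) := hj.ge
  have key : ∀ x, ‖(u (f x) : ℂ) * P j x + v (f x) * star (Q j x)‖ = u x ∧
      (u x : ℂ) * ((u (f x) : ℂ) * Q j x + v (f x) * star (P j x)) =
        ((u (f x) : ℂ) * P j x + v (f x) * star (Q j x)) * v x := fun x =>
    TB1_alg (L.nm j hm x) (hdet (f x)) (hsum (f x)) (htv (f x)) (hu0 x) (hu2 x) (htv x)
      (h1 x) (h2 x)
  have hcu : Continuous u := Real.continuous_sqrt.comp ((hs.add continuous_const).div_const 2)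
  have hcuc : Continuous fun x => (u x : ℂ) := Complex.continuous_ofReal.comp hcu
  have hcv : Continuous v := ht.div (continuous_const.mul hcuc) hu20
  have hdu : DepLt m u := fun x y hxy => by
    change Real.sqrt ((s x + 1) / 2) = Real.sqrt ((s y + 1) / 2)
    rw [hsd x y hxy]
  have hdv : DepLt m v := fun x y hxy => by
    change t x / (2 * (u x : ℂ)) = t y / (2 * (u y : ℂ))
    rw [htd x y hxy, hdu x y hxy]
  have hcP : Continuous (P j) := (L.smP j hm).continuous
  have hcQ : Continuous (Q j) := (L.smQ j hm).continuous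
  have hdP : DepLt m (P j) := hj ▸ L.depP j hm
  have hdQ : DepLt m (Q j) := hj ▸ L.depQ j hm
  refine ⟨u, v, fun x => ((u (f x) : ℂ) * P j x + v (f x) * star (Q j x)) / (u x : ℂ), hcu, hcv,
    ?_, hdu, hdv, ?_, hu0, hdet, ?_, ?_, ?_⟩
  · exact (((hcuc.comp f.continuous).mul hcP).add
      ((hcv.comp f.continuous).mul (continuous_star.comp hcQ))).div hcuc hu0c
  · intro x y hxy
    have e1 : u (f x) = u (f y) := L.dep_comp hdu x y hxy
    have e2 : v (f x) = v (f y) := L.dep_comp hdv x y hxy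
    change ((u (f x) : ℂ) * P j x + v (f x) * star (Q j x)) / (u x : ℂ) =
      ((u (f y) : ℂ) * P j y + v (f y) * star (Q j y)) / (u y : ℂ)
    rw [e1, e2, hdu x y hxy, hdP x y hxy, hdQ x y hxy]
  · intro x
    rw [norm_div, (key x).1, Complex.norm_real, Real.norm_of_nonneg (hu0 x).le,
      div_self (hu0 x).ne']
  · intro x
    exact (div_mul_cancel₀ _ (hu0c x)).symm
  · intro x
    have h3 := (key x).2
    have h4 : ((u (f x) : ℂ) * P j x + v (f x) * star (Q j x)) / (u x : ℂ) * v x =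
        (((u (f x) : ℂ) * P j x + v (f x) * star (Q j x)) * v x) / (u x : ℂ) :=
      div_mul_eq_mul_div _ _ _
    exact ((h4.trans (by rw [← h3])).trans (mul_div_cancel_left₀ _ (hu0c x))).symm

end QPR
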