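import Pool.Agent.Lib.QPR.TCoef

set_option autoImplicit false

namespace QPR

variable {d m : ℕ} {α : Fin d → ℝ} {f h : UnitAddTorus (Fin d) ≃ₜ UnitAddTorus (Fin d)}
  {l : Fin d → (Fin d → ℤ)} {P Q : Fin d → UnitAddTorus (Fin d) → ℂ}

private theorem TBd_ee1 (c : UnitAddCircle) : ‖ee c - 1‖ ≤ 2 * Real.pi * ‖c‖ := by
  induction c using QuotientAddGroup.induction_on with
  | H x =>
    have h1 : ‖((x : ℝ) : UnitAddCircle)‖ = |x - round x| := by
      have := AddCircle.norm_eq (1 : ℝ) (x := x)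
      simpa using this
    have h2 : ((x : ℝ) : UnitAddCircle) = ((x - round x : ℝ) : UnitAddCircle) := by
      rw [AddCircle.coe_sub]
      have : ((round x : ℝ) : UnitAddCircle) = 0 := by
        have h3 : ((round x : ℝ) : UnitAddCircle) = (((round x : ℤ) • (1 : ℝ) : ℝ) : UnitAddCircle) := by
          simp
        rw [h3, AddCircle.coe_zsmul]
        have h4 : ((1 : ℝ) : UnitAddCircle) = 0 := AddCircle.coe_period 1
        rw [h4, smul_zero]
      rw [this, sub_zero]
    change ‖ee ((x : ℝ) : UnitAddCircle) - 1‖ ≤ 2 * Real.pi * ‖((x : ℝ) : UnitAddCircle)‖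
    rw [h1, h2, ee_coe, ex]
    have h5 : (2 * Real.pi * Complex.I * ((x - round x : ℝ) : ℂ)) =
        Complex.I * ((2 * Real.pi * (x - round x) : ℝ) : ℂ) := by
      push_cast
      ring
    rw [h5]
    refine (Real.norm_exp_I_mul_ofReal_sub_one_le (x := 2 * Real.pi * (x - round x))).trans ?_
    rw [Real.norm_eq_abs, abs_mul, abs_of_pos Real.two_pi_pos]

private theorem TBd_ee2 (a b : UnitAddCircle) : ‖ee a - ee b‖ ≤ 2 * Real.pi * dist a b := by
  have h1 : ee a - ee b = ee b * (ee (a - b) - 1) := by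
    rw [mul_sub, ← ee_add, mul_one]
    congr 2
    abel
  rw [h1, norm_mul, norm_ee, one_mul, dist_eq_norm]
  exact TBd_ee1 _

/-- The Moebius map as a coordinate. -/
private theorem TBd_G (L : Lev m α f h l P Q) (j : Fin d) (hj : (j : ℕ) = m) (n : ℕ)
    (x : UnitAddTorus (Fin d)) (t : UnitAddCircle) :
    ((itPQ f (P j) (Q j) n x).1 * ee t + (itPQ f (P j) (Q j) n x).2)
        / (star (itPQ f (P j) (Q j) n x).2 * ee t + star (itPQ f (P j) (Q j) n x).1) =
      ee ((f : UnitAddTorus (Fin d) → UnitAddTorus (Fin d))^[n] (Function.update x j t) j) := by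
  have h1 : itPQ f (P j) (Q j) n (Function.update x j t) = itPQ f (P j) (Q j) n x := by
    apply itPQ_dep L j hj n
    intro i hi
    rw [Function.update_of_ne]
    rintro rfl
    omega
  rw [itPQ_mob L j hj n, h1, Function.update_self]

private theorem TBd_dist (x y : UnitAddTorus (Fin d)) (j : Fin d) (s t : UnitAddCircle) {r : ℝ}
    (hr : 0 < r) (hx : dist x y < r) (hs : dist s t < r) :
    dist (Function.update x j s) (Function.update y j t) < r := by
  rw [dist_pi_lt_iff hr]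
  intro i
  by_cases hi : i = j
  · subst hi
    rwa [Function.update_self, Function.update_self]
  · rw [Function.update_of_ne hi, Function.update_of_ne hi]
    exact (dist_le_pi_dist x y i).trans_lt hx

/-- The coefficients of all iterates are bounded: `mob_bd`, with `δ ≤ 1/2` from `equi` (for the points
`Function.update x j s`, `Function.update x j t`, whose coefficients agree by `itPQ_dep`; `ee` is
`2π`-Lipschitz, take `ε = 1/10`). -/
theorem itPQ_bd (L : Lev m α f h l P Q) (j : Fin d) (hj : (j : ℕ) = m) :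
    ∃ C : ℝ, 1 ≤ C ∧ ∀ n x, ‖(itPQ f (P j) (Q j) n x).1‖ ^ 2 ≤ C := by
  obtain ⟨δ₀, hδ₀, he⟩ := equi L.conj (1 / 10) (by norm_num)
  set δ : ℝ := min δ₀ (1 / 2) with hδ
  have hδ1 : 0 < δ := lt_min hδ₀ (by norm_num)
  have hδ2 : δ ≤ 1 / 2 := min_le_right _ _
  refine ⟨1 / δ, ?_, fun n x => ?_⟩
  · rw [le_div_iff₀ hδ1]
    linarith
  · refine mob_bd _ _ (itPQ_nm L j hj n x) δ hδ1 hδ2 fun s t hst => ?_
    rw [TBd_G L j hj, TBd_G L j hj]
    refine (TBd_ee2 _ _).trans_lt ?_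
    have h1 : dist (Function.update x j s) (Function.update x j t) < δ₀ :=
      TBd_dist x x j s t hδ₀ (by rwa [dist_self]) (hst.trans_le (min_le_left _ _))
    have h2 := (dist_le_pi_dist _ _ j).trans_lt (he n _ _ h1)
    have h3 : Real.pi < 4 := Real.pi_lt_four
    have h4 := Real.pi_pos
    nlinarith [dist_nonneg (x := (f : UnitAddTorus (Fin d) → UnitAddTorus (Fin d))^[n]
      (Function.update x j s) j) (y := (f : UnitAddTorus (Fin d) → UnitAddTorus (Fin d))^[n]
      (Function.update x j t) j)]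

private theorem TBd_int {p q : ℂ} (h : ‖p‖ ^ 2 - ‖q‖ ^ 2 = 1) {c : UnitAddCircle → ℂ}
    (hc : Continuous c) : MeasureTheory.Integrable
      (fun t : UnitAddCircle => c t * ((p * ee t + q) / (star q * ee t + star p))) := by
  have h1 : Continuous fun t : UnitAddCircle =>
      c t * ((p * ee t + q) / (star q * ee t + star p)) := by
    refine hc.mul (Continuous.div ?_ ?_ fun t => mob_den_ne p q _ h (norm_ee t))
    · exact (continuous_const.mul continuous_ee).add continuous_const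
    · exact (continuous_const.mul continuous_ee).add continuous_const
  exact h1.integrable_of_hasCompactSupport (HasCompactSupport.of_compactSpace _)

private theorem TBd_cmp {p q p' q' : ℂ} (h : ‖p‖ ^ 2 - ‖q‖ ^ 2 = 1)
    (h' : ‖p'‖ ^ 2 - ‖q'‖ ^ 2 = 1) {c : UnitAddCircle → ℂ}
    (hc : Continuous c) (hc1 : ∀ t, ‖c t‖ ≤ 1) {η : ℝ}
    (hη : ∀ t, ‖(p * ee t + q) / (star q * ee t + star p) -
      (p' * ee t + q') / (star q' * ee t + star p')‖ ≤ η) :
    ‖(∫ t : UnitAddCircle, c t * ((p * ee t + q) / (star q * ee t + star p))) -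
      ∫ t : UnitAddCircle, c t * ((p' * ee t + q') / (star q' * ee t + star p'))‖ ≤ η := by
  rw [← MeasureTheory.integral_sub (TBd_int h hc) (TBd_int h' hc)]
  have h0 : 0 ≤ η := (norm_nonneg _).trans (hη 0)
  have h1 := MeasureTheory.norm_integral_le_of_norm_le_const (μ := MeasureTheory.volume)
    (f := fun t : UnitAddCircle => c t * ((p * ee t + q) / (star q * ee t + star p)) -
      c t * ((p' * ee t + q') / (star q' * ee t + star p'))) (C := η)
    (Filter.Eventually.of_forall fun t => by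
      rw [← mul_sub, norm_mul]
      calc ‖c t‖ * ‖(p * ee t + q) / (star q * ee t + star p) -
            (p' * ee t + q') / (star q' * ee t + star p')‖ ≤ 1 * η :=
            mul_le_mul (hc1 t) (hη t) (norm_nonneg _) zero_le_one
        _ = η := one_mul η)
  have h2 : (MeasureTheory.volume : MeasureTheory.Measure UnitAddCircle).real Set.univ = 1 := by
    rw [MeasureTheory.Measure.real, UnitAddCircle.measure_univ, ENNReal.toReal_one]
  rwa [h2, mul_one] at h1

private theorem TBd_alg {p q p' q' : ℂ} {C η : ℝ} (h : ‖p‖ ^ 2 - ‖q‖ ^ 2 = 1)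
    (h' : ‖p'‖ ^ 2 - ‖q'‖ ^ 2 = 1) (hp : ‖p‖ ^ 2 ≤ C) (hp' : ‖p'‖ ^ 2 ≤ C)
    (h0 : ‖q / star p - q' / star p'‖ ≤ η) (h1 : ‖1 / (star p) ^ 2 - 1 / (star p') ^ 2‖ ≤ η) :
    |(‖p‖ ^ 2 + ‖q‖ ^ 2) - (‖p'‖ ^ 2 + ‖q'‖ ^ 2)| ≤ 4 * C ^ 2 * η ∧
      ‖star p * q - star p' * q'‖ ≤ 2 * C ^ 2 * η := by
  have hp1 : 1 ≤ ‖p‖ ^ 2 := by nlinarith [sq_nonneg ‖q‖]
  have hp1' : 1 ≤ ‖p'‖ ^ 2 := by nlinarith [sq_nonneg ‖q'‖]
  have hp0 : p ≠ 0 := by
    rintro rfl
    norm_num at hp1
  have hp0' : p' ≠ 0 := by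
    rintro rfl
    norm_num at hp1'
  have hsp : star p ≠ 0 := star_ne_zero.mpr hp0
  have hsp' : star p' ≠ 0 := star_ne_zero.mpr hp0'
  have hC : 0 ≤ C := by linarith
  have hη : 0 ≤ η := (norm_nonneg _).trans h0
  set a : ℝ := ‖q / star p‖ with ha
  set a' : ℝ := ‖q' / star p'‖ with ha'
  set b : ℝ := ‖1 / (star p) ^ 2‖ with hb
  set b' : ℝ := ‖1 / (star p') ^ 2‖ with hb'
  have ea : a * ‖p‖ = ‖q‖ := by
    rw [ha, norm_div, norm_star, div_mul_cancel₀]
    exact norm_ne_zero_iff.mpr hp0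
  have ea' : a' * ‖p'‖ = ‖q'‖ := by
    rw [ha', norm_div, norm_star, div_mul_cancel₀]
    exact norm_ne_zero_iff.mpr hp0'
  have eb : b * ‖p‖ ^ 2 = 1 := by
    rw [hb, norm_div, norm_pow, norm_star, norm_one, one_div, inv_mul_cancel₀]
    linarith
  have eb' : b' * ‖p'‖ ^ 2 = 1 := by
    rw [hb', norm_div, norm_pow, norm_star, norm_one, one_div, inv_mul_cancel₀]
    linarith
  have hab : |a - a'| ≤ η := (abs_norm_sub_norm_le _ _).trans h0
  have hbb : |b - b'| ≤ η := (abs_norm_sub_norm_le _ _).trans h1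
  have ha0 : 0 ≤ a := norm_nonneg _
  have ha0' : 0 ≤ a' := norm_nonneg _
  have hb0 : 0 ≤ b := norm_nonneg _
  have hb0' : 0 ≤ b' := norm_nonneg _
  set x : ℝ := ‖p‖ ^ 2 with hx
  set y : ℝ := ‖p'‖ ^ 2 with hy
  have ha2 : a ^ 2 * x = ‖q‖ ^ 2 := by rw [hx, ← mul_pow, ea]
  have ha2' : a' ^ 2 * y = ‖q'‖ ^ 2 := by rw [hy, ← mul_pow, ea']
  have ha1 : a ≤ 1 := by
    by_contra hcon
    push Not at hcon
    have : 1 < a ^ 2 := by nlinarith
    nlinarith
  have ha1' : a' ≤ 1 := by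
    by_contra hcon
    push Not at hcon
    have : 1 < a' ^ 2 := by nlinarith
    nlinarith
  have hb1 : b ≤ 1 := by nlinarith
  have hb1' : b' ≤ 1 := by nlinarith
  have hx0 : 0 ≤ x := by linarith
  have hy0 : 0 ≤ y := by linarith
  have hxy : x * y ≤ C ^ 2 := by
    rw [pow_two]
    exact mul_le_mul hp hp' hy0 hC
  constructor
  · have e1 : (‖p‖ ^ 2 + ‖q‖ ^ 2) - (‖p'‖ ^ 2 + ‖q'‖ ^ 2) =
        (x * y) * ((1 + a ^ 2) * (b' - b) + b * (a ^ 2 - a' ^ 2)) := by
      rw [← hx, ← hy, ← ha2, ← ha2']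
      linear_combination (-(1 + a ^ 2) * x) * eb' + ((1 + a' ^ 2) * y) * eb
    rw [e1, abs_mul, abs_of_nonneg (mul_nonneg hx0 hy0)]
    have e2 : |(1 + a ^ 2) * (b' - b) + b * (a ^ 2 - a' ^ 2)| ≤ 4 * η := by
      have e3 : |(1 + a ^ 2) * (b' - b)| ≤ 2 * η := by
        rw [abs_mul, abs_of_nonneg (by positivity), abs_sub_comm]
        exact mul_le_mul (by nlinarith) hbb (abs_nonneg _) (by norm_num)
      have e4 : |b * (a ^ 2 - a' ^ 2)| ≤ 2 * η := by
        rw [abs_mul, abs_of_nonneg hb0, show a ^ 2 - a' ^ 2 = (a + a') * (a - a') by ring, abs_mul,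
          abs_of_nonneg (by positivity)]
        calc b * ((a + a') * |a - a'|) ≤ 1 * (2 * η) := by
              refine mul_le_mul hb1 (mul_le_mul (by linarith) hab (abs_nonneg _) (by norm_num))
                (by positivity) (by norm_num)
          _ = 2 * η := by ring
      calc _ ≤ |(1 + a ^ 2) * (b' - b)| + |b * (a ^ 2 - a' ^ 2)| := abs_add_le _ _
        _ ≤ 4 * η := by linarith
    calc x * y * |(1 + a ^ 2) * (b' - b) + b * (a ^ 2 - a' ^ 2)| ≤ C ^ 2 * (4 * η) :=
          mul_le_mul hxy e2 (abs_nonneg _) (by positivity)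
      _ = 4 * C ^ 2 * η := by ring
  · set u : ℂ := q / star p with hu
    set u' : ℂ := q' / star p' with hu'
    set v : ℂ := 1 / (star p) ^ 2 with hv
    set v' : ℂ := 1 / (star p') ^ 2 with hv'
    have eu : u * star p = q := by rw [hu, div_mul_cancel₀ _ hsp]
    have eu' : u' * star p' = q' := by rw [hu', div_mul_cancel₀ _ hsp']
    have ev : v * (star p) ^ 2 = 1 := by rw [hv, one_div, inv_mul_cancel₀ (pow_ne_zero 2 hsp)]
    have ev' : v' * (star p') ^ 2 = 1 := by rw [hv', one_div, inv_mul_cancel₀ (pow_ne_zero 2 hsp')]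
    have e1 : star p * q - star p' * q' =
        ((star p) ^ 2 * (star p') ^ 2) * (u * (v' - v) + v * (u - u')) := by
      rw [← eu, ← eu']
      linear_combination (-(u * (star p) ^ 2)) * ev' + (u' * (star p') ^ 2) * ev
    rw [e1, norm_mul, norm_mul, norm_pow, norm_pow, norm_star, norm_star]
    have e2 : ‖u * (v' - v) + v * (u - u')‖ ≤ 2 * η := by
      calc ‖u * (v' - v) + v * (u - u')‖ ≤ ‖u * (v' - v)‖ + ‖v * (u - u')‖ := norm_add_le _ _
        _ = a * ‖v' - v‖ + b * ‖u - u'‖ := by rw [norm_mul, norm_mul]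
        _ ≤ 1 * η + 1 * η := by
          refine add_le_add (mul_le_mul ha1 ?_ (norm_nonneg _) (by norm_num))
            (mul_le_mul hb1 h0 (norm_nonneg _) (by norm_num))
          rw [norm_sub_rev]
          exact h1
        _ = 2 * η := by ring
    calc x * y * ‖u * (v' - v) + v * (u - u')‖ ≤ C ^ 2 * (2 * η) :=
          mul_le_mul hxy e2 (norm_nonneg _) (by positivity)
      _ = 2 * C ^ 2 * η := by ring

/-- The Hermitian forms `S_n^* S_n` are equicontinuous. For `x` and `t` the point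
`Function.update x j t` has `j`-th coordinate of `f^n` equal to the Moebius map at `ee t`
(`itPQ_mob`, `itPQ_dep`), so by `mob_int0`, `mob_int1` the numbers `g₀ = q_n / star p_n` and
`g₁ = 1 / (star p_n)^2` are integrals over `t` of functions which are equicontinuous in `x` (`equi`);
`|g₁| ≥ 1/C`, `‖p_n‖^2 + ‖q_n‖^2 = (1 + |g₀|^2)/|g₁|`, `star p_n * q_n = g₀ / g₁`. -/
theorem form_equi (L : Lev m α f h l P Q) (j : Fin d) (hj : (j : ℕ) = m) (ε : ℝ) (hε : 0 < ε) :
    ∃ δ : ℝ, 0 < δ ∧ ∀ (n : ℕ) (x y : UnitAddTorus (Fin d)), dist x y < δ →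
      |(‖(itPQ f (P j) (Q j) n x).1‖ ^ 2 + ‖(itPQ f (P j) (Q j) n x).2‖ ^ 2)
        - (‖(itPQ f (P j) (Q j) n y).1‖ ^ 2 + ‖(itPQ f (P j) (Q j) n y).2‖ ^ 2)| < ε ∧
      ‖star (itPQ f (P j) (Q j) n x).1 * (itPQ f (P j) (Q j) n x).2
        - star (itPQ f (P j) (Q j) n y).1 * (itPQ f (P j) (Q j) n y).2‖ < ε := by
  obtain ⟨C, hC1, hC⟩ := itPQ_bd L j hj
  have hC0 : 0 < C := by linarith
  obtain ⟨δ, hδ, he⟩ := equi L.conj (ε / (40 * C ^ 2)) (by positivity)
  refine ⟨δ, hδ, fun n x y hxy => ?_⟩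
  have hnx := itPQ_nm L j hj n x
  have hny := itPQ_nm L j hj n y
  have hG : ∀ t : UnitAddCircle, ‖((itPQ f (P j) (Q j) n x).1 * ee t + (itPQ f (P j) (Q j) n x).2)
        / (star (itPQ f (P j) (Q j) n x).2 * ee t + star (itPQ f (P j) (Q j) n x).1) -
      ((itPQ f (P j) (Q j) n y).1 * ee t + (itPQ f (P j) (Q j) n y).2)
        / (star (itPQ f (P j) (Q j) n y).2 * ee t + star (itPQ f (P j) (Q j) n y).1)‖ ≤
      ε / (5 * C ^ 2) := by
    intro t
    rw [TBd_G L j hj, TBd_G L j hj]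
    refine (TBd_ee2 _ _).trans ?_
    have h1 : dist (Function.update x j t) (Function.update y j t) < δ :=
      TBd_dist x y j t t hδ hxy (by rwa [dist_self])
    have h2 := (dist_le_pi_dist _ _ j).trans_lt (he n _ _ h1)
    have h3 : 2 * Real.pi ≤ 8 := by linarith [Real.pi_lt_four]
    calc 2 * Real.pi * dist _ _ ≤ 8 * (ε / (40 * C ^ 2)) :=
          mul_le_mul h3 h2.le dist_nonneg (by norm_num)
      _ = ε / (5 * C ^ 2) := by
          field_simp
          ring
  have hc0 : ∀ p q : ℂ, (∫ t : UnitAddCircle, (1 : ℂ) * ((p * ee t + q) / (star q * ee t + star p))) =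
      ∫ t : UnitAddCircle, (p * ee t + q) / (star q * ee t + star p) := by
    intro p q
    simp only [one_mul]
  have h0 := TBd_cmp hnx hny (c := fun _ => (1 : ℂ)) continuous_const (fun t => by simp) hG
  rw [hc0, hc0, mob_int0 _ _ hnx, mob_int0 _ _ hny] at h0
  have h1 := TBd_cmp hnx hny (c := fun t => ee (-t)) (continuous_ee.comp continuous_neg)
    (fun t => (norm_ee _).le) hG
  rw [mob_int1 _ _ hnx, mob_int1 _ _ hny] at h1
  obtain ⟨h2, h3⟩ := TBd_alg hnx hny (hC n x) (hC n y) h0 h1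
  have h4 : 4 * C ^ 2 * (ε / (5 * C ^ 2)) < ε := by
    have : 4 * C ^ 2 * (ε / (5 * C ^ 2)) = 4 / 5 * ε := by
      field_simp
    rw [this]
    linarith
  have h5 : 2 * C ^ 2 * (ε / (5 * C ^ 2)) < ε := by
    have : 2 * C ^ 2 * (ε / (5 * C ^ 2)) = 2 / 5 * ε := by
      field_simp
    rw [this]
    linarith
  exact ⟨h2.trans_lt h4, h3.trans_lt h5⟩

end QPR
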