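import Pool.Agent.Lib.QPR.TMin

set_option autoImplicit false

namespace QPR

open Filter Topology UnitAddTorus MeasureTheory

noncomputable local instance : MeasureSpace UnitAddCircle := ⟨AddCircle.haarAddCircle⟩

local instance : Measure.IsAddHaarMeasure (volume : Measure UnitAddCircle) :=
  inferInstanceAs (Measure.IsAddHaarMeasure AddCircle.haarAddCircle)

local instance : IsProbabilityMeasure (volume : Measure UnitAddCircle) :=
  inferInstanceAs (IsProbabilityMeasure AddCircle.haarAddCircle)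

private theorem TBirk_ee_zero : ee 0 = 1 := by
  unfold ee
  rw [AddCircle.toCircle_zero]
  rfl

private theorem TBirk_ee_neg (t : UnitAddCircle) : ee (-t) = (ee t)⁻¹ := by
  have h : ee (-t) * ee t = 1 := by rw [← ee_add, neg_add_cancel, TBirk_ee_zero]
  exact eq_inv_of_mul_eq_one_left h

private theorem TBirk_ee_ne (t : UnitAddCircle) : ee t ≠ 0 := by
  intro h
  have := norm_ee t
  rw [h, norm_zero] at this
  exact zero_ne_one this

private theorem TBirk_ee_sum {ι : Type*} (s : Finset ι) (t : ι → UnitAddCircle) :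
    ee (∑ i ∈ s, t i) = ∏ i ∈ s, ee (t i) := by
  classical
  induction s using Finset.induction_on with
  | empty => rw [Finset.sum_empty, Finset.prod_empty, TBirk_ee_zero]
  | insert a s ha ih => rw [Finset.sum_insert ha, Finset.prod_insert ha, ee_add, ih]

private theorem TBirk_mF {d : ℕ} (l : Fin d → ℤ) (y : UnitAddTorus (Fin d)) :
    UnitAddTorus.mFourier l y = ee (dotT l y) := by
  unfold dotT
  rw [TBirk_ee_sum]
  rfl

private theorem TBirk_dotT_add {d : ℕ} (l : Fin d → ℤ) (y z : UnitAddTorus (Fin d)) :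
    dotT l (y + z) = dotT l y + dotT l z := by
  unfold dotT
  rw [← Finset.sum_add_distrib]
  refine Finset.sum_congr rfl fun i _ => ?_
  rw [Pi.add_apply, smul_add]

private theorem TBirk_dotT_zsmul {d : ℕ} (l : Fin d → ℤ) (n : ℤ) (y : UnitAddTorus (Fin d)) :
    dotT l (n • y) = n • dotT l y := by
  unfold dotT
  rw [Finset.smul_sum]
  refine Finset.sum_congr rfl fun i _ => ?_
  rw [Pi.smul_apply, smul_comm]

private theorem TBirk_dotT_sub {d : ℕ} (k l : Fin d → ℤ) (y : UnitAddTorus (Fin d)) :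
    dotT (k - l) y = dotT k y - dotT l y := by
  unfold dotT
  rw [← Finset.sum_sub_distrib]
  refine Finset.sum_congr rfl fun i _ => ?_
  rw [Pi.sub_apply, sub_smul]

private theorem TBirk_dotT_pr {d : ℕ} (l : Fin d → ℤ) (x : Fin d → ℝ) :
    ee (dotT l (pr x)) = ex (dotZ l x) := by
  rw [← ee_coe]
  congr 1
  unfold dotT dotZ pr
  have h : ((∑ i, (l i : ℝ) * x i : ℝ) : UnitAddCircle)
      = ∑ i, (((l i : ℝ) * x i : ℝ) : UnitAddCircle) :=
    map_sum (QuotientAddGroup.mk' (AddSubgroup.zmultiples (1 : ℝ))) _ _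
  rw [h]
  refine Finset.sum_congr rfl fun i _ => ?_
  have h2 : ((l i : ℝ) * x i : ℝ) = l i • x i := by rw [zsmul_eq_mul]
  rw [h2]
  rfl

private theorem TBirk_coeff {d : ℕ} (k l : Fin d → ℤ) :
    UnitAddTorus.mFourierCoeff (UnitAddTorus.mFourier k) l = if k = l then 1 else 0 := by
  have h1 := UnitAddTorus.mFourierCoeff_toLp (d := Fin d) (UnitAddTorus.mFourier k) l
  have h2 := UnitAddTorus.mFourierBasis_repr (d := Fin d) (UnitAddTorus.mFourierLp 2 k) l
  rw [← h1, ← h2, ← congrFun (UnitAddTorus.coe_mFourierBasis (d := Fin d)) k,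
    HilbertBasis.repr_self, lp.single_apply]
  by_cases h : k = l
  · subst h
    simp
  · rw [if_neg h, Pi.single_eq_of_ne (Ne.symm h)]

private noncomputable def TBirk_A {d : ℕ} (α : Fin d → ℝ) (l : Fin d → ℤ)
    (y : UnitAddTorus (Fin d)) (g : UnitAddTorus (Fin d) → ℂ) (N : ℕ) : ℂ :=
  (1 / (N : ℂ)) * ∑ n ∈ Finset.range N, ee (-((n : ℤ) • dotT l (pr α))) * g (y + (n : ℤ) • pr α)

private theorem TBirk_A_add {d : ℕ} (α : Fin d → ℝ) (l : Fin d → ℤ)
    (y : UnitAddTorus (Fin d)) (g h : UnitAddTorus (Fin d) → ℂ) (N : ℕ) :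
    TBirk_A α l y (fun x => g x + h x) N = TBirk_A α l y g N + TBirk_A α l y h N := by
  unfold TBirk_A
  rw [← mul_add, ← Finset.sum_add_distrib]
  simp only [mul_add]

private theorem TBirk_A_smul {d : ℕ} (α : Fin d → ℝ) (l : Fin d → ℤ)
    (y : UnitAddTorus (Fin d)) (c : ℂ) (g : UnitAddTorus (Fin d) → ℂ) (N : ℕ) :
    TBirk_A α l y (fun x => c * g x) N = c * TBirk_A α l y g N := by
  unfold TBirk_A
  rw [mul_left_comm]
  congr 1
  rw [Finset.mul_sum]
  refine Finset.sum_congr rfl fun n _ => ?_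
  ring

private theorem TBirk_A_bound {d : ℕ} (α : Fin d → ℝ) (l : Fin d → ℤ)
    (y : UnitAddTorus (Fin d)) (g : UnitAddTorus (Fin d) → ℂ) (M : ℝ) (hM : 0 ≤ M)
    (hg : ∀ x, ‖g x‖ ≤ M) (N : ℕ) : ‖TBirk_A α l y g N‖ ≤ M := by
  unfold TBirk_A
  rcases Nat.eq_zero_or_pos N with h0 | h0
  · subst h0
    simpa using hM
  rw [norm_mul, norm_div, norm_one, Complex.norm_natCast]
  have hN : (0 : ℝ) < N := by exact_mod_cast h0
  have h1 : ‖∑ n ∈ Finset.range N, ee (-((n : ℤ) • dotT l (pr α))) * g (y + (n : ℤ) • pr α)‖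
      ≤ N * M := by
    refine (norm_sum_le _ _).trans ?_
    calc ∑ n ∈ Finset.range N, ‖ee (-((n : ℤ) • dotT l (pr α))) * g (y + (n : ℤ) • pr α)‖
        ≤ ∑ _n ∈ Finset.range N, M := by
          refine Finset.sum_le_sum fun n _ => ?_
          rw [norm_mul, norm_ee, one_mul]
          exact hg _
      _ = N * M := by rw [Finset.sum_const, Finset.card_range, nsmul_eq_mul]
  calc 1 / (N : ℝ) * ‖∑ n ∈ Finset.range N, ee (-((n : ℤ) • dotT l (pr α))) *
        g (y + (n : ℤ) • pr α)‖ ≤ 1 / (N : ℝ) * (N * M) :=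
        mul_le_mul_of_nonneg_left h1 (by positivity)
    _ = M := by field_simp

private theorem TBirk_mode {d : ℕ} {α : Fin d → ℝ} (hα : DioV α) (k l : Fin d → ℤ)
    (y : UnitAddTorus (Fin d)) :
    Tendsto (TBirk_A α l y (UnitAddTorus.mFourier k)) atTop
      (𝓝 (UnitAddTorus.mFourierCoeff (UnitAddTorus.mFourier k) l * ee (dotT l y))) := by
  set ζ : ℂ := ee (dotT (k - l) (pr α)) with hζ
  have hterm : ∀ n : ℕ, ee (-((n : ℤ) • dotT l (pr α))) *
      UnitAddTorus.mFourier k (y + (n : ℤ) • pr α) = ee (dotT k y) * ζ ^ n := by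
    intro n
    rw [TBirk_mF, TBirk_dotT_add, TBirk_dotT_zsmul, ee_add, TBirk_ee_neg, ee_zsmul, ee_zsmul, hζ,
      TBirk_dotT_sub, sub_eq_add_neg, ee_add, TBirk_ee_neg, zpow_natCast, zpow_natCast, mul_pow,
      inv_pow]
    ring
  have hA : ∀ N : ℕ, TBirk_A α l y (UnitAddTorus.mFourier k) N
      = (1 / (N : ℂ)) * (ee (dotT k y) * ∑ n ∈ Finset.range N, ζ ^ n) := by
    intro N
    unfold TBirk_A
    congr 1
    rw [Finset.mul_sum]
    exact Finset.sum_congr rfl fun n _ => hterm n
  rw [TBirk_coeff]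
  by_cases hkl : k = l
  · rw [if_pos hkl, one_mul]
    subst hkl
    have hz1 : ζ = 1 := by
      rw [hζ, TBirk_dotT_sub, sub_self, TBirk_ee_zero]
    refine tendsto_const_nhds.congr' ?_
    filter_upwards [eventually_ge_atTop 1] with N hN
    have hN0 : (N : ℂ) ≠ 0 := by exact_mod_cast (by omega : N ≠ 0)
    rw [hA, hz1]
    simp only [one_pow, Finset.sum_const, Finset.card_range, nsmul_eq_mul, mul_one]
    field_simp
  · rw [if_neg hkl, zero_mul]
    have hz1 : ζ ≠ 1 := by
      rw [hζ, TBirk_dotT_pr]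
      exact DioV.ne hα (k - l) (sub_ne_zero.mpr hkl)
    have hz2 : ‖ζ‖ = 1 := norm_ee _
    have hz3 : 0 < ‖ζ - 1‖ := norm_pos_iff.mpr (sub_ne_zero.mpr hz1)
    have hb : ∀ N : ℕ, ‖TBirk_A α l y (UnitAddTorus.mFourier k) N‖ ≤ (2 / ‖ζ - 1‖) * (1 / (N : ℝ)) := by
      intro N
      rw [hA, geom_sum_eq hz1, norm_mul, norm_mul, norm_ee, one_mul, norm_div, norm_one,
        Complex.norm_natCast, norm_div, mul_comm]
      refine mul_le_mul_of_nonneg_right ?_ (by positivity)
      refine div_le_div_of_nonneg_right ?_ hz3.le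
      calc ‖ζ ^ N - 1‖ ≤ ‖ζ ^ N‖ + ‖(1 : ℂ)‖ := norm_sub_le _ _
        _ = 2 := by rw [norm_pow, hz2, one_pow, norm_one]; norm_num
    have h0 : Tendsto (fun N : ℕ => (2 / ‖ζ - 1‖) * (1 / (N : ℝ))) atTop (𝓝 0) := by
      have := tendsto_one_div_atTop_nhds_zero_nat (𝕜 := ℝ)
      simpa using this.const_mul (2 / ‖ζ - 1‖)
    exact squeeze_zero_norm hb h0

private noncomputable def TBirk_L {d : ℕ} (l : Fin d → ℤ) (y : UnitAddTorus (Fin d))
    (g : UnitAddTorus (Fin d) → ℂ) : ℂ := UnitAddTorus.mFourierCoeff g l * ee (dotT l y)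

private theorem TBirk_int {d : ℕ} (g : C(UnitAddTorus (Fin d), ℂ)) (l : Fin d → ℤ) :
    MeasureTheory.Integrable (fun t => UnitAddTorus.mFourier (-l) t • g t) := by
  have : Continuous (fun t => UnitAddTorus.mFourier (-l) t • g t) :=
    (UnitAddTorus.mFourier (-l)).continuous.smul g.continuous
  exact this.integrable_of_hasCompactSupport (HasCompactSupport.of_compactSpace _)

private theorem TBirk_L_add {d : ℕ} (l : Fin d → ℤ) (y : UnitAddTorus (Fin d))
    (g h : C(UnitAddTorus (Fin d), ℂ)) :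
    TBirk_L l y (fun x => g x + h x) = TBirk_L l y g + TBirk_L l y h := by
  unfold TBirk_L UnitAddTorus.mFourierCoeff
  rw [← add_mul]
  congr 1
  refine Eq.trans ?_ (MeasureTheory.integral_add (TBirk_int g l) (TBirk_int h l))
  simp only [smul_add]

private theorem TBirk_L_smul {d : ℕ} (l : Fin d → ℤ) (y : UnitAddTorus (Fin d)) (c : ℂ)
    (g : UnitAddTorus (Fin d) → ℂ) :
    TBirk_L l y (fun x => c * g x) = c * TBirk_L l y g := by
  unfold TBirk_L UnitAddTorus.mFourierCoeff
  rw [← mul_assoc]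
  congr 1
  rw [← MeasureTheory.integral_const_mul]
  congr 1
  funext t
  simp only [smul_eq_mul]
  ring

private theorem TBirk_L_bound {d : ℕ} (l : Fin d → ℤ) (y : UnitAddTorus (Fin d))
    (g : UnitAddTorus (Fin d) → ℂ) (M : ℝ) (hg : ∀ x, ‖g x‖ ≤ M) : ‖TBirk_L l y g‖ ≤ M := by
  unfold TBirk_L UnitAddTorus.mFourierCoeff
  rw [norm_mul, norm_ee, mul_one]
  have h1 := MeasureTheory.norm_integral_le_of_norm_le_const
    (μ := (MeasureTheory.volume : MeasureTheory.Measure (UnitAddTorus (Fin d))))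
    (f := fun t => UnitAddTorus.mFourier (-l) t • g t) (C := M)
    (Filter.Eventually.of_forall fun t => by
      rw [norm_smul, TBirk_mF, norm_ee, one_mul]
      exact hg t)
  simpa using h1

/-- Twisted Birkhoff averages of a continuous function over an irrational translation converge
(pointwise) to a Fourier mode. Proof: for a trigonometric polynomial (finite combination of
`UnitAddTorus.mFourier k`) it is the geometric series (`DioV.ne`); in general approximate uniformly
(`UnitAddTorus.span_mFourier_closure_eq_top`); `UnitAddTorus.mFourierCoeff` is continuous in the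
sup norm. Here `UnitAddTorus.mFourier l y = ee (dotT l y)`. -/
theorem birk {d : ℕ} {α : Fin d → ℝ} (hα : DioV α) (g : UnitAddTorus (Fin d) → ℂ)
    (hg : Continuous g) (l : Fin d → ℤ) (y : UnitAddTorus (Fin d)) :
    Filter.Tendsto (fun N : ℕ => (1 / (N : ℂ)) * ∑ n ∈ Finset.range N,
        ee (-((n : ℤ) • dotT l (pr α))) * g (y + (n : ℤ) • pr α)) Filter.atTop
      (nhds (UnitAddTorus.mFourierCoeff g l * ee (dotT l y))) := by
  let S : Submodule ℂ C(UnitAddTorus (Fin d), ℂ) :=
    { carrier := {f | Tendsto (TBirk_A α l y f) atTop (𝓝 (TBirk_L l y f))}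
      add_mem' := by
        intro f h hf hh
        have h1 : Tendsto (fun N => TBirk_A α l y f N + TBirk_A α l y h N) atTop
            (𝓝 (TBirk_L l y f + TBirk_L l y h)) := Tendsto.add hf hh
        rw [← TBirk_L_add] at h1
        refine h1.congr fun N => ?_
        rw [← TBirk_A_add]
        rfl
      zero_mem' := by
        have h1 : TBirk_L l y ((0 : C(UnitAddTorus (Fin d), ℂ)) : UnitAddTorus (Fin d) → ℂ) = 0 := by
          refine Eq.trans ?_ ((TBirk_L_smul l y 0 (fun _ => (0 : ℂ))).trans (zero_mul _))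
          congr 1
          funext x
          simp
        show Tendsto _ _ (𝓝 (TBirk_L l y ((0 : C(UnitAddTorus (Fin d), ℂ)) :
          UnitAddTorus (Fin d) → ℂ)))
        rw [h1]
        refine tendsto_const_nhds.congr fun N => ?_
        unfold TBirk_A
        simp
      smul_mem' := by
        intro c f hf
        have h1 : Tendsto (fun N => c * TBirk_A α l y f N) atTop (𝓝 (c * TBirk_L l y f)) :=
          Tendsto.const_mul c hf
        rw [← TBirk_L_smul] at h1
        refine h1.congr fun N => ?_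
        rw [← TBirk_A_smul]
        rfl }
  have hspan : Submodule.span ℂ (Set.range (UnitAddTorus.mFourier (d := Fin d))) ≤ S := by
    rw [Submodule.span_le]
    rintro _ ⟨k, rfl⟩
    exact TBirk_mode hα k l y
  have hclosed : IsClosed (S : Set C(UnitAddTorus (Fin d), ℂ)) := by
    rw [← closure_subset_iff_isClosed]
    intro f hf
    rw [Metric.mem_closure_iff] at hf
    show Tendsto (TBirk_A α l y f) atTop (𝓝 (TBirk_L l y f))
    rw [Metric.tendsto_atTop]
    intro ε hε
    obtain ⟨h, hh, hd⟩ := hf (ε / 3) (by positivity)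
    have hh' : Tendsto (TBirk_A α l y h) atTop (𝓝 (TBirk_L l y h)) := hh
    rw [Metric.tendsto_atTop] at hh'
    obtain ⟨N0, hN0⟩ := hh' (ε / 3) (by positivity)
    refine ⟨N0, fun N hN => ?_⟩
    have hfh : ∀ x, ‖(f - h) x‖ ≤ dist f h := by
      intro x
      rw [dist_eq_norm]
      exact (f - h).norm_coe_le_norm x
    have e1 : TBirk_A α l y f N = TBirk_A α l y h N
        + TBirk_A α l y (((f - h : C(UnitAddTorus (Fin d), ℂ))) : UnitAddTorus (Fin d) → ℂ) N := by
      rw [← TBirk_A_add]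
      congr 1
      funext x
      simp
    have e2 : TBirk_L l y f = TBirk_L l y h
        + TBirk_L l y (((f - h : C(UnitAddTorus (Fin d), ℂ))) : UnitAddTorus (Fin d) → ℂ) := by
      have := TBirk_L_add l y h (f - h)
      rw [← this]
      congr 1
      funext x
      simp
    have b1 := TBirk_A_bound α l y (((f - h : C(UnitAddTorus (Fin d), ℂ))) :
      UnitAddTorus (Fin d) → ℂ) (dist f h) dist_nonneg hfh N
    have b2 := TBirk_L_bound l y (((f - h : C(UnitAddTorus (Fin d), ℂ))) :
      UnitAddTorus (Fin d) → ℂ) (dist f h) hfh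
    have b3 := hN0 N hN
    rw [dist_eq_norm] at b3 ⊢
    rw [e1, e2]
    generalize TBirk_A α l y h N = a at *
    generalize TBirk_L l y h = b at *
    generalize TBirk_A α l y (((f - h : C(UnitAddTorus (Fin d), ℂ))) :
      UnitAddTorus (Fin d) → ℂ) N = a' at *
    generalize TBirk_L l y (((f - h : C(UnitAddTorus (Fin d), ℂ))) :
      UnitAddTorus (Fin d) → ℂ) = b' at *
    calc ‖a + a' - (b + b')‖ = ‖(a - b) + a' + -b'‖ := by congr 1; ring
      _ ≤ ‖a - b‖ + ‖a'‖ + ‖-b'‖ := norm_add₃_le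
      _ < ε := by rw [norm_neg]; linarith
  have htop : (⟨g, hg⟩ : C(UnitAddTorus (Fin d), ℂ)) ∈ S := by
    have h1 : (Submodule.span ℂ (Set.range (UnitAddTorus.mFourier (d := Fin d)))).topologicalClosure
        ≤ S := Submodule.topologicalClosure_minimal _ hspan hclosed
    rw [UnitAddTorus.span_mFourier_closure_eq_top] at h1
    exact h1 Submodule.mem_top
  exact htop

/-- a continuous function all of whose Fourier coefficients vanish is zero. -/
theorem exists_coeff_ne {d : ℕ} (g : UnitAddTorus (Fin d) → ℂ) (hg : Continuous g)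
    (h0 : ∃ y, g y ≠ 0) : ∃ l : Fin d → ℤ, UnitAddTorus.mFourierCoeff g l ≠ 0 := by
  by_contra hne
  push Not at hne
  obtain ⟨y, hy⟩ := h0
  have hs : Summable (UnitAddTorus.mFourierCoeff (⟨g, hg⟩ : C(UnitAddTorus (Fin d), ℂ))) := by
    have : UnitAddTorus.mFourierCoeff (⟨g, hg⟩ : C(UnitAddTorus (Fin d), ℂ))
        = fun _ => (0 : ℂ) := by
      funext l
      exact hne l
    rw [this]
    exact summable_zero
  have h1 := UnitAddTorus.hasSum_mFourier_series_apply_of_summable hs y
  have h2 : HasSum (fun _ : Fin d → ℤ => (0 : ℂ)) (g y) := by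
    have h3 : (fun i : Fin d → ℤ => UnitAddTorus.mFourierCoeff
        (⟨g, hg⟩ : C(UnitAddTorus (Fin d), ℂ)) i • UnitAddTorus.mFourier i y)
        = fun _ => (0 : ℂ) := by
      funext i
      have h4 : UnitAddTorus.mFourierCoeff (⟨g, hg⟩ : C(UnitAddTorus (Fin d), ℂ)) i = 0 := hne i
      rw [h4, zero_smul]
    rw [h3] at h1
    exact h1
  exact hy (h2.unique hasSum_zero)

end QPR
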