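import Pool.Agent.Lib.QPR.MobInt
import Pool.Agent.Lib.QPR.TEq

set_option autoImplicit false

namespace QPR

variable {d m : ℕ} {α : Fin d → ℝ} {f h : UnitAddTorus (Fin d) ≃ₜ UnitAddTorus (Fin d)}
  {l : Fin d → (Fin d → ℤ)} {P Q : Fin d → UnitAddTorus (Fin d) → ℂ}

private theorem TCoef_dotT_add {d : ℕ} (l : Fin d → ℤ) (x y : UnitAddTorus (Fin d)) :
    dotT l (x + y) = dotT l x + dotT l y := by
  unfold dotT
  rw [← Finset.sum_add_distrib]
  exact Finset.sum_congr rfl fun i _ => by rw [Pi.add_apply, smul_add]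

/-- the first `m` coordinates are translated. -/
theorem Lev.coord (L : Lev m α f h l P Q) (i : Fin d) (hi : (i : ℕ) < m)
    (x : UnitAddTorus (Fin d)) : f x i = x i + dotT (l i) (pr α) := by
  rw [L.low i hi (f x), L.conj x, TCoef_dotT_add, ← L.low i hi x]

/-- functions depending on the first `m` coordinates, composed with `f`. -/
theorem Lev.dep_comp (L : Lev m α f h l P Q) {E : Type*} {φ : UnitAddTorus (Fin d) → E}
    (hφ : DepLt m φ) : DepLt m (fun x => φ (f x)) := by
  intro x x' hx
  apply hφ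
  intro i hi
  rw [L.coord i hi, L.coord i hi, hx i hi]

private theorem TCoef_nsq (z : ℂ) : ((‖z‖ ^ 2 : ℝ) : ℂ) = z * star z := by
  rw [Complex.ofReal_pow]
  exact (Complex.mul_conj' z).symm

private theorem TCoef_alg (a b p q : ℂ) (h1 : ‖a‖ ^ 2 - ‖b‖ ^ 2 = 1)
    (h2 : ‖p‖ ^ 2 - ‖q‖ ^ 2 = 1) :
    ‖a * p + b * star q‖ ^ 2 - ‖a * q + b * star p‖ ^ 2 = 1 := by
  have e1 : a * star a - b * star b = 1 := by
    rw [← TCoef_nsq, ← TCoef_nsq, ← Complex.ofReal_sub, h1, Complex.ofReal_one]
  have e2 : p * star p - q * star q = 1 := by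
    rw [← TCoef_nsq, ← TCoef_nsq, ← Complex.ofReal_sub, h2, Complex.ofReal_one]
  have e3 : (((‖a * p + b * star q‖ ^ 2 - ‖a * q + b * star p‖ ^ 2 : ℝ)) : ℂ)
      = ((1 : ℝ) : ℂ) := by
    rw [Complex.ofReal_sub, TCoef_nsq, TCoef_nsq, Complex.ofReal_one]
    simp only [star_add, star_mul', star_star]
    linear_combination (p * star p - q * star q) * e1 + e2
  exact Complex.ofReal_injective e3

/-- determinant one. -/
theorem itPQ_nm (L : Lev m α f h l P Q) (j : Fin d) (hj : (j : ℕ) = m) (n : ℕ)
    (x : UnitAddTorus (Fin d)) :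
    ‖(itPQ f (P j) (Q j) n x).1‖ ^ 2 - ‖(itPQ f (P j) (Q j) n x).2‖ ^ 2 = 1 := by
  induction n generalizing x with
  | zero => simp [itPQ]
  | succ n ih => exact TCoef_alg _ _ _ _ (ih (f x)) (L.nm j hj.ge x)

/-- dependence on the first `m` coordinates. -/
theorem itPQ_dep (L : Lev m α f h l P Q) (j : Fin d) (hj : (j : ℕ) = m) (n : ℕ) :
    DepLt m (itPQ f (P j) (Q j) n) := by
  induction n with
  | zero => intro x x' _; rfl
  | succ n ih =>
    intro x x' hx
    have h1 : P j x = P j x' := by
      have := L.depP j hj.ge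
      rw [hj] at this
      exact this x x' hx
    have h2 : Q j x = Q j x' := by
      have := L.depQ j hj.ge
      rw [hj] at this
      exact this x x' hx
    have h3 : itPQ f (P j) (Q j) n (f x) = itPQ f (P j) (Q j) n (f x') := L.dep_comp ih x x' hx
    simp only [itPQ, h1, h2, h3]

theorem itPQ_cont (L : Lev m α f h l P Q) (j : Fin d) (hj : (j : ℕ) = m) (n : ℕ) :
    Continuous (itPQ f (P j) (Q j) n) := by
  have hP : Continuous (P j) := (L.smP j hj.ge).continuous
  have hQ : Continuous (Q j) := (L.smQ j hj.ge).continuous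
  induction n with
  | zero => exact continuous_const
  | succ n ih =>
    have h1 : Continuous (fun x => itPQ f (P j) (Q j) n (f x)) := ih.comp f.continuous
    have h2 : Continuous (fun x => (itPQ f (P j) (Q j) n (f x)).1) := continuous_fst.comp h1
    have h3 : Continuous (fun x => (itPQ f (P j) (Q j) n (f x)).2) := continuous_snd.comp h1
    exact ((h2.mul hP).add (h3.mul hQ.star)).prodMk ((h2.mul hQ).add (h3.mul hP.star))

/-- the `j`-th coordinate of `f^n x` is the Moebius map with these coefficients. -/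
theorem itPQ_mob (L : Lev m α f h l P Q) (j : Fin d) (hj : (j : ℕ) = m) (n : ℕ)
    (x : UnitAddTorus (Fin d)) :
    ee ((f : UnitAddTorus (Fin d) → UnitAddTorus (Fin d))^[n] x j)
      = ((itPQ f (P j) (Q j) n x).1 * ee (x j) + (itPQ f (P j) (Q j) n x).2)
        / (star (itPQ f (P j) (Q j) n x).2 * ee (x j) + star (itPQ f (P j) (Q j) n x).1) := by
  induction n generalizing x with
  | zero => simp [itPQ]
  | succ n ih =>
    have hd : star (Q j x) * ee (x j) + star (P j x) ≠ 0 :=
      mob_den_ne _ _ _ (L.nm j hj.ge x) (norm_ee _)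
    have hd2 := mob_den_ne _ _ _ (itPQ_nm L j hj (n + 1) x) (norm_ee (x j))
    have hd3 := mob_den_ne _ _ _ (itPQ_nm L j hj n (f x)) (norm_ee (f x j))
    rw [Function.iterate_succ_apply, ih (f x), div_eq_div_iff hd3 hd2]
    have hm2 := L.mob j hj.ge x
    simp only [itPQ, star_add, star_mul', star_star] at hd2 ⊢
    have key : ((itPQ f (P j) (Q j) n (f x)).1 * ee (f x j) + (itPQ f (P j) (Q j) n (f x)).2)
        * (star (Q j x) * ee (x j) + star (P j x))
        = ((itPQ f (P j) (Q j) n (f x)).1 * P j x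
            + (itPQ f (P j) (Q j) n (f x)).2 * star (Q j x)) * ee (x j)
          + ((itPQ f (P j) (Q j) n (f x)).1 * Q j x
            + (itPQ f (P j) (Q j) n (f x)).2 * star (P j x)) := by
      linear_combination (itPQ f (P j) (Q j) n (f x)).1 * hm2
    have key2 : (star (itPQ f (P j) (Q j) n (f x)).2 * ee (f x j)
          + star (itPQ f (P j) (Q j) n (f x)).1)
        * (star (Q j x) * ee (x j) + star (P j x))
        = (star (itPQ f (P j) (Q j) n (f x)).1 * star (Q j x)
            + star (itPQ f (P j) (Q j) n (f x)).2 * P j x) * ee (x j)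
          + (star (itPQ f (P j) (Q j) n (f x)).1 * star (P j x)
            + star (itPQ f (P j) (Q j) n (f x)).2 * Q j x) := by
      linear_combination star (itPQ f (P j) (Q j) n (f x)).2 * hm2
    rw [← mul_left_inj' hd]
    linear_combination ((star (itPQ f (P j) (Q j) n (f x)).1 * star (Q j x)
            + star (itPQ f (P j) (Q j) n (f x)).2 * P j x) * ee (x j)
          + (star (itPQ f (P j) (Q j) n (f x)).1 * star (P j x)
            + star (itPQ f (P j) (Q j) n (f x)).2 * Q j x)) * key
      - (((itPQ f (P j) (Q j) n (f x)).1 * P j x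
            + (itPQ f (P j) (Q j) n (f x)).2 * star (Q j x)) * ee (x j)
          + ((itPQ f (P j) (Q j) n (f x)).1 * Q j x
            + (itPQ f (P j) (Q j) n (f x)).2 * star (P j x))) * key2

end QPR
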