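import Pool.Agent.Lib.QPR.TSm

set_option autoImplicit false

namespace QPR

private theorem TSm2_ex (y : ℝ) (u : ℂ) (hu : ‖u‖ = 1) :
    ex (y + 1 / (2 * Real.pi) * (Complex.log u).im) = ex y * u := by
  have hu0 : u ≠ 0 := by
    intro h
    rw [h, norm_zero] at hu
    exact zero_ne_one hu
  have hl : Complex.log u = ((Complex.log u).im : ℂ) * Complex.I := by
    apply Complex.ext
    · rw [Complex.log_re, hu, Real.log_one]
      simp
    · simp
  have h1 : u = Complex.exp (((Complex.log u).im : ℂ) * Complex.I) := by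
    rw [← hl, Complex.exp_log hu0]
  conv_rhs => rw [h1]
  rw [ex, ex, ← Complex.exp_add]
  congr 1
  have hpi : (Real.pi : ℂ) ≠ 0 := by
    exact_mod_cast Real.pi_ne_zero
  push_cast
  field_simp

/-- Criterion for smoothness of a torus map: all coordinates `ee (H x i)` are smooth. Proof: near a
point `x₀ : Fin d → ℝ` choose `t i : ℝ` with `(t i : UnitAddCircle) = H (pr x₀) i` and put
`g x i = t i + (1 / (2 π)) * (Complex.log (ee (H (pr x) i) / ee (H (pr x₀) i))).im`, a smooth
function near `x₀` with `pr (g x) = H (pr x)`; hence `φ (H (pr x)) = (φ ∘ pr) (g x)` near `x₀`. -/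
theorem smT_comp {d : ℕ} {E : Type*} [NormedAddCommGroup E] [NormedSpace ℝ E]
    (H : UnitAddTorus (Fin d) → UnitAddTorus (Fin d)) (hc : Continuous H)
    (h : ∀ i, SmT (fun x => ee (H x i))) (φ : UnitAddTorus (Fin d) → E) (hφ : SmT φ) :
    SmT (fun x => φ (H x)) := by
  rw [SmT, contDiff_iff_contDiffAt]
  intro x₀
  have ht : ∀ i, ∃ t : ℝ, (t : UnitAddCircle) = H (pr x₀) i := fun i =>
    QuotientAddGroup.mk_surjective (H (pr x₀) i)
  choose t ht using ht
  let u : (Fin d → ℝ) → Fin d → ℂ := fun x i => ee (H (pr x) i) / ee (H (pr x₀) i)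
  let g : (Fin d → ℝ) → Fin d → ℝ := fun x i =>
    t i + 1 / (2 * Real.pi) * (Complex.log (u x i)).im
  have hn : ∀ x i, ‖u x i‖ = 1 := fun x i => by
    change ‖ee (H (pr x) i) / ee (H (pr x₀) i)‖ = 1
    rw [norm_div, norm_ee, norm_ee, div_one]
  have hne : ∀ i, ee (H (pr x₀) i) ≠ 0 := fun i h0 => by
    have h1 := norm_ee (H (pr x₀) i)
    rw [h0, norm_zero] at h1
    exact zero_ne_one h1
  have hg : ∀ x, pr (g x) = H (pr x) := by
    intro x
    funext i
    apply ee_injective
    change ee ((g x i : ℝ) : UnitAddCircle) = ee (H (pr x) i)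
    rw [ee_coe]
    change ex (t i + 1 / (2 * Real.pi) * (Complex.log (u x i)).im) = _
    rw [TSm2_ex _ _ (hn x i), ← ee_coe, ht]
    change ee (H (pr x₀) i) * (ee (H (pr x) i) / ee (H (pr x₀) i)) = _
    rw [mul_div_cancel₀]
    exact hne i
  have hu : ∀ i, ContDiff ℝ ((⊤ : ℕ∞) : WithTop ℕ∞) (fun x => u x i) := fun i =>
    (h i).div_const _
  have hu1 : ∀ i, u x₀ i = 1 := fun i => div_self (hne i)
  have hgs : ContDiffAt ℝ ((⊤ : ℕ∞) : WithTop ℕ∞) g x₀ := by
    rw [contDiffAt_pi]
    intro i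
    refine contDiffAt_const.add (contDiffAt_const.mul ?_)
    have h1 : ContDiffAt ℝ ((⊤ : ℕ∞) : WithTop ℕ∞) (fun x => Complex.log (u x i)) x₀ := by
      refine ContDiffAt.comp (g := Complex.log) x₀ ?_ (hu i).contDiffAt
      have h0 : ContDiffAt ℂ ((⊤ : ℕ∞) : WithTop ℕ∞) Complex.log (u x₀ i) :=
        Complex.contDiffAt_log (by
          rw [hu1 i]
          exact Complex.one_mem_slitPlane)
      exact h0.restrict_scalars ℝ
    exact Complex.imCLM.contDiff.contDiffAt.comp x₀ h1
  have hfin : (fun x : Fin d → ℝ => φ (H (pr x))) = fun x => (fun y => φ (pr y)) (g x) := by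
    funext x
    beta_reduce
    rw [hg]
  rw [hfin]
  exact ContDiffAt.comp (g := fun y => φ (pr y)) x₀ (ContDiff.contDiffAt hφ) hgs

/-- in particular `SmM H`. -/
theorem smM_of_coord {d : ℕ} (H : UnitAddTorus (Fin d) → UnitAddTorus (Fin d))
    (hc : Continuous H) (h : ∀ i, SmT (fun x => ee (H x i))) : SmM H :=
  fun φ hφ => smT_comp H hc h φ hφ

/-- conversely (real and imaginary parts). -/
theorem SmM.coord {d : ℕ} {H : UnitAddTorus (Fin d) → UnitAddTorus (Fin d)} (h : SmM H)
    (i : Fin d) : SmT (fun x => ee (H x i)) := by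
  have h1 : SmT (fun x : UnitAddTorus (Fin d) => (ee (x i)).re) :=
    Complex.reCLM.contDiff.comp (smT_coord i)
  have h2 : SmT (fun x : UnitAddTorus (Fin d) => (ee (x i)).im) :=
    Complex.imCLM.contDiff.comp (smT_coord i)
  have h3 := h _ h1
  have h4 := h _ h2
  have h5 : SmT (fun x => (((ee (H x i)).re : ℝ) : ℂ)) := Complex.ofRealCLM.contDiff.comp h3
  have h6 : SmT (fun x => (((ee (H x i)).im : ℝ) : ℂ)) := Complex.ofRealCLM.contDiff.comp h4
  have h7 : (fun x => ee (H x i)) =
      fun x => (((ee (H x i)).re : ℝ) : ℂ) + (((ee (H x i)).im : ℝ) : ℂ) * Complex.I := by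
    funext x
    exact (Complex.re_add_im _).symm
  rw [h7]
  exact ContDiff.add h5 (ContDiff.mul h6 contDiff_const)

end QPR
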