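import Pool.Agent.Lib.QPR.TMin
import Pool.Agent.Lib.QPR.TSm2

set_option autoImplicit false

namespace QPR

open MeasureTheory

private theorem TCoh_hfm {n : ℕ} (ξ : Fin n → ℤ) (x : Fin n → ℝ) :
    UnitAddTorus.mFourier ξ (pr x) = ex (dotZ ξ x) := by
  simp only [UnitAddTorus.mFourier, ContinuousMap.coe_mk, pr, ex, dotZ]
  push_cast
  rw [Finset.mul_sum, Complex.exp_sum]
  refine Finset.prod_congr rfl fun i _ => ?_
  rw [fourier_coe_apply]
  congr 1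
  push_cast
  ring

private theorem TCoh_box (n : ℕ) :
    ({x : Fin n → ℝ | ∀ i, x i ∈ Set.Ioc ((0 : Fin n → ℝ) i) ((0 : Fin n → ℝ) i + 1)})
        = Set.univ.pi fun i => Set.Ioc ((0 : Fin n → ℝ) i) ((1 : Fin n → ℝ) i) := by
  ext x
  simp

private theorem TCoh_ae (n : ℕ) :
    (Set.univ.pi fun i => Set.Ioc ((0 : Fin n → ℝ) i) ((1 : Fin n → ℝ) i))
      =ᵐ[volume] Set.Icc (0 : Fin n → ℝ) 1 := by
  have hae := Measure.univ_pi_Ioc_ae_eq_Icc (μ := fun _ : Fin n => (volume : Measure ℝ))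
      (f := (0 : Fin n → ℝ)) (g := (1 : Fin n → ℝ))
  rw [volume_pi]
  exact hae

private theorem TCoh_coef {n : ℕ} (Q : UnitAddTorus (Fin n) → ℂ) (ξ : Fin n → ℤ) :
    UnitAddTorus.mFourierCoeff Q ξ = coef (fun x => Q (pr x)) ξ := by
  rw [UnitAddTorus.mFourierCoeff_eq_integral Q ξ 0, TCoh_box]
  unfold coef
  rw [setIntegral_congr_set (TCoh_ae n)]
  refine integral_congr_ae (Filter.Eventually.of_forall fun x => ?_)
  have h2 := TCoh_hfm (-ξ) x
  have h3 : dotZ (-ξ) x = -(dotZ ξ x) := by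
    simp [dotZ, Finset.sum_neg_distrib]
  change UnitAddTorus.mFourier (-ξ) (pr x) • Q (pr x) = Q (pr x) * ex (-(dotZ ξ x))
  rw [h2, h3, smul_eq_mul]
  ring

private theorem TCoh_hasSum {n : ℕ} (Q : C(UnitAddTorus (Fin n), ℂ))
    (hs : Summable fun ξ => coef (fun x => Q (pr x)) ξ) (y : UnitAddTorus (Fin n)) :
    HasSum (fun ξ => coef (fun x => Q (pr x)) ξ * UnitAddTorus.mFourier ξ y) (Q y) := by
  have e : (UnitAddTorus.mFourierCoeff Q) = fun ξ => coef (fun x => Q (pr x)) ξ :=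
    funext fun ξ => TCoh_coef Q ξ
  have hs' : Summable (UnitAddTorus.mFourierCoeff Q) := by
    rw [e]; exact hs
  have h := UnitAddTorus.hasSum_mFourier_series_apply_of_summable hs' y
  rw [e] at h
  exact h

private theorem TCoh_mean {n : ℕ} (ψ : UnitAddTorus (Fin n) → ℝ) (hψ : Continuous ψ) :
    ((∫ z, ψ z : ℝ) : ℂ) = coef (fun x => (ψ (pr x) : ℂ)) 0 := by
  have hmp : MeasurePreserving (fun (x : Fin n → ℝ) (i : Fin n) => ((x i : ℝ) : UnitAddCircle))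
      (Measure.pi fun i : Fin n => (volume : Measure ℝ).restrict (Set.Ioc 0 (0 + 1)))
      (Measure.pi fun _ : Fin n => (volume : Measure UnitAddCircle)) :=
    measurePreserving_pi _ _ fun i => UnitAddCircle.measurePreserving_mk 0
  have hinj : Continuous ψ := hψ
  have h1 : ∫ z, ψ z = ∫ x, ψ (pr x) ∂(Measure.pi fun _ : Fin n =>
      (volume : Measure ℝ).restrict (Set.Ioc 0 (0 + 1))) := by
    have h := integral_map (μ := Measure.pi fun _ : Fin n =>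
      (volume : Measure ℝ).restrict (Set.Ioc 0 (0 + 1))) hmp.measurable.aemeasurable
      (f := ψ) hinj.aestronglyMeasurable
    rw [hmp.map_eq] at h
    exact h
  have h2 : (Measure.pi fun _ : Fin n => (volume : Measure ℝ).restrict (Set.Ioc 0 (0 + 1))) =
      (volume : Measure (Fin n → ℝ)).restrict (Set.Icc 0 1) := by
    rw [← Measure.restrict_pi_pi, ← Measure.restrict_congr_set (TCoh_ae n), volume_pi]
    simp
  rw [h2] at h1
  rw [h1, coef, ← integral_complex_ofReal]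
  refine integral_congr_ae (Filter.Eventually.of_forall fun x => ?_)
  simp [dotZ, ex]

private theorem TCoh_bdd {n : ℕ} (q : (Fin n → ℝ) → ℂ) (hq : Smo q) (hp : Per q) (p : ℕ) :
    ∃ H : ℝ, 0 ≤ H ∧ ∀ x, ‖iteratedFDeriv ℝ p q x‖ ≤ H := by
  have hc : Continuous (iteratedFDeriv ℝ p q) :=
    hq.continuous_iteratedFDeriv (by exact_mod_cast le_top)
  obtain ⟨H, hH⟩ := (isCompact_Icc (a := (0 : Fin n → ℝ)) (b := 1)).exists_bound_of_continuousOn
    hc.continuousOn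
  refine ⟨H, ?_, fun x => ?_⟩
  · exact (norm_nonneg _).trans (hH 0 ⟨le_rfl, zero_le_one⟩)
  · have e : iteratedFDeriv ℝ p q x = iteratedFDeriv ℝ p q (fun i => Int.fract (x i)) := by
      have hx : x = (fun i => Int.fract (x i)) + fun i => ((⌊x i⌋ : ℤ) : ℝ) := by
        funext i; simp
      have h2 : (fun y => q (y + fun i => ((⌊x i⌋ : ℤ) : ℝ))) = q := funext fun y => hp y _
      conv_lhs => rw [hx]
      rw [← iteratedFDeriv_comp_add_right, h2]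
    rw [e]
    exact hH _ ⟨fun i => Int.fract_nonneg _, fun i => (Int.fract_lt_one _).le⟩

private theorem TCoh_one_le {n : ℕ} (ξ : Fin n → ℤ) (hξ : ξ ≠ 0) : (1 : ℝ) ≤ ‖ξ‖ := by
  obtain ⟨i, hi⟩ := Function.ne_iff.1 hξ
  have h1 : ‖ξ i‖ ≤ ‖ξ‖ := norm_le_pi_norm ξ i
  have h2 : (1 : ℝ) ≤ ‖ξ i‖ := by
    rw [Int.norm_eq_abs]
    have : (1 : ℤ) ≤ |ξ i| := Int.one_le_abs hi
    exact_mod_cast this
  linarith

private theorem TCoh_sum_le {n : ℕ} (ξ : Fin n → ℤ) :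
    (∑ i, |(ξ i : ℝ)|) ≤ n * ‖ξ‖ := by
  calc (∑ i, |(ξ i : ℝ)|) ≤ ∑ _i : Fin n, ‖ξ‖ := by
        apply Finset.sum_le_sum
        intro i _
        have h1 : ‖ξ i‖ ≤ ‖ξ‖ := norm_le_pi_norm ξ i
        rw [Int.norm_eq_abs] at h1
        exact_mod_cast h1
    _ = n * ‖ξ‖ := by simp

/-- lower bound for `ex t - 1`. -/
private theorem TCoh_ex_lower (t : ℝ) : 4 * |t - round t| ≤ ‖ex t - 1‖ := by
  have h1 : ex t = Complex.exp (Complex.I * ((2 * Real.pi * (t - round t) : ℝ) : ℂ)) := by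
    unfold ex
    rw [← Complex.exp_periodic.int_mul (round t) (Complex.I * ((2 * Real.pi * (t - round t) : ℝ) : ℂ))]
    congr 1
    push_cast
    ring
  rw [h1, Complex.norm_exp_I_mul_ofReal_sub_one]
  have h2 : |t - round t| ≤ 1 / 2 := abs_sub_round t
  have hpi := Real.pi_pos
  have h3 : |Real.pi * (t - round t)| ≤ Real.pi / 2 := by
    rw [abs_mul, abs_of_pos hpi]
    nlinarith
  have h4 := Real.mul_abs_le_abs_sin h3
  have h5 : 2 * Real.pi * (t - round t) / 2 = Real.pi * (t - round t) := by ring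
  rw [h5, norm_mul, Real.norm_eq_abs, Real.norm_eq_abs, abs_of_pos (by norm_num : (0:ℝ) < 2)]
  rw [abs_mul, abs_of_pos hpi] at h4
  have h6 : 2 / Real.pi * (Real.pi * |t - round t|) = 2 * |t - round t| := by
    field_simp
  rw [h6] at h4
  linarith

/-- small divisors. -/
private theorem TCoh_div {d : ℕ} {α : Fin d → ℝ} (hα : DioV α) :
    ∃ C : ℝ, 0 < C ∧ ∃ N : ℕ, ∀ ξ : Fin d → ℤ, ξ ≠ 0 →
      ‖(ex (dotZ ξ α) - 1)⁻¹‖ ≤ C * (1 + ‖ξ‖) ^ N ∧ ex (dotZ ξ α) - 1 ≠ 0 := by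
  obtain ⟨γ, hγ, τ, hτ, h⟩ := hα
  refine ⟨(d + 1) ^ ⌈τ⌉₊ / (4 * γ), by positivity, ⌈τ⌉₊, ?_⟩
  intro ξ hξ
  have h1 := TCoh_one_le ξ hξ
  have hs : (1 : ℝ) ≤ ∑ i, |(ξ i : ℝ)| := by
    obtain ⟨i, hi⟩ := Function.ne_iff.1 hξ
    have h2 : (1 : ℝ) ≤ |(ξ i : ℝ)| := by
      have : (1 : ℤ) ≤ |ξ i| := Int.one_le_abs hi
      exact_mod_cast this
    exact h2.trans (Finset.single_le_sum (f := fun i => |(ξ i : ℝ)|)
      (fun i _ => abs_nonneg _) (Finset.mem_univ i))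
  have h3 : (∑ i, |(ξ i : ℝ)|) ^ τ ≤ ((d + 1) * (1 + ‖ξ‖)) ^ ⌈τ⌉₊ := by
    have h4 : (∑ i, |(ξ i : ℝ)|) ≤ (d + 1) * (1 + ‖ξ‖) := by
      have := TCoh_sum_le ξ
      have hd : (0 : ℝ) ≤ d := Nat.cast_nonneg _
      nlinarith
    calc (∑ i, |(ξ i : ℝ)|) ^ τ ≤ (∑ i, |(ξ i : ℝ)|) ^ ((⌈τ⌉₊ : ℕ) : ℝ) :=
          Real.rpow_le_rpow_of_exponent_le hs (Nat.le_ceil τ)
      _ = (∑ i, |(ξ i : ℝ)|) ^ ⌈τ⌉₊ := Real.rpow_natCast _ _
      _ ≤ _ := pow_le_pow_left₀ (by linarith) h4 _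
  have h5 := h ξ hξ (round (dotZ ξ α))
  have h6 : |∑ i, (ξ i : ℝ) * α i - ((round (dotZ ξ α) : ℤ) : ℝ)| = |dotZ ξ α - round (dotZ ξ α)| := rfl
  rw [h6] at h5
  have h7 := TCoh_ex_lower (dotZ ξ α)
  have hsp : (0 : ℝ) < (∑ i, |(ξ i : ℝ)|) ^ τ := Real.rpow_pos_of_pos (by linarith) _
  have h8 : 4 * (γ / (∑ i, |(ξ i : ℝ)|) ^ τ) ≤ ‖ex (dotZ ξ α) - 1‖ := by linarith
  have h9 : 0 < 4 * (γ / (∑ i, |(ξ i : ℝ)|) ^ τ) := by positivity
  have h10 : 0 < ‖ex (dotZ ξ α) - 1‖ := lt_of_lt_of_le h9 h8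
  refine ⟨?_, norm_pos_iff.1 h10⟩
  rw [norm_inv]
  calc ‖ex (dotZ ξ α) - 1‖⁻¹ ≤ (4 * (γ / (∑ i, |(ξ i : ℝ)|) ^ τ))⁻¹ := inv_anti₀ h9 h8
    _ = (∑ i, |(ξ i : ℝ)|) ^ τ / (4 * γ) := by field_simp
    _ ≤ ((d + 1) * (1 + ‖ξ‖)) ^ ⌈τ⌉₊ / (4 * γ) := by gcongr
    _ = (d + 1) ^ ⌈τ⌉₊ / (4 * γ) * (1 + ‖ξ‖) ^ ⌈τ⌉₊ := by rw [mul_pow]; ring

private noncomputable def TCoh_phi {n : ℕ} (ξ : Fin n → ℤ) : (Fin n → ℝ) →L[ℝ] ℝ :=
  ∑ i, (ξ i : ℝ) • ContinuousLinearMap.proj i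

private theorem TCoh_phi_apply {n : ℕ} (ξ : Fin n → ℤ) (x : Fin n → ℝ) :
    TCoh_phi ξ x = dotZ ξ x := by
  simp [TCoh_phi, dotZ]

private theorem TCoh_phi_norm {n : ℕ} (ξ : Fin n → ℤ) : ‖TCoh_phi ξ‖ ≤ n * ‖ξ‖ := by
  refine ContinuousLinearMap.opNorm_le_bound _ (by positivity) fun x => ?_
  rw [TCoh_phi_apply, dotZ]
  calc ‖∑ i, (ξ i : ℝ) * x i‖ ≤ ∑ i, ‖(ξ i : ℝ) * x i‖ := norm_sum_le _ _
    _ ≤ ∑ _i : Fin n, ‖ξ‖ * ‖x‖ := by
        apply Finset.sum_le_sum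
        intro i _
        rw [norm_mul]
        have h1 : ‖ξ i‖ ≤ ‖ξ‖ := norm_le_pi_norm ξ i
        have h2 : ‖x i‖ ≤ ‖x‖ := norm_le_pi_norm x i
        have h3 : ‖(ξ i : ℝ)‖ = ‖ξ i‖ := by rw [Int.norm_eq_abs, Real.norm_eq_abs]
        rw [h3]
        gcongr
    _ = n * ‖ξ‖ * ‖x‖ := by simp; ring

private theorem TCoh_ex_hasDerivAt (t : ℝ) :
    HasDerivAt ex (2 * Real.pi * Complex.I * ex t) t := by
  have h1 : HasDerivAt (fun s : ℝ => (2 * Real.pi * Complex.I * (s : ℂ)))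
      (2 * Real.pi * Complex.I * 1) t := (Complex.ofRealCLM.hasDerivAt (x := t)).const_mul _
  have h2 := h1.cexp
  unfold ex
  convert h2 using 1
  ring

private theorem TCoh_norm_ex (t : ℝ) : ‖ex t‖ = 1 := by
  unfold ex
  rw [show (2 * Real.pi * Complex.I * (t : ℂ)) = ((2 * Real.pi * t : ℝ) : ℂ) * Complex.I by
    push_cast; ring]
  exact Complex.norm_exp_ofReal_mul_I _

private theorem TCoh_ex_contDiff : ContDiff ℝ ((⊤ : ℕ∞) : WithTop ℕ∞) ex := by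
  unfold ex
  exact (contDiff_const.mul Complex.ofRealCLM.contDiff).cexp

private theorem TCoh_iter_ex (i : ℕ) (t : ℝ) :
    iteratedDeriv i ex t = (2 * Real.pi * Complex.I) ^ i * ex t := by
  induction i generalizing t with
  | zero => simp
  | succ i ih =>
    rw [iteratedDeriv_succ]
    have : iteratedDeriv i ex = fun t => (2 * Real.pi * Complex.I) ^ i * ex t := funext ih
    rw [this, ((TCoh_ex_hasDerivAt t).const_mul _).deriv]
    ring

private theorem TCoh_iter_norm {n : ℕ} (ξ : Fin n → ℤ) (a : ℂ) (i : ℕ) (x : Fin n → ℝ) :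
    ‖iteratedFDeriv ℝ i (fun x => a * ex (dotZ ξ x)) x‖ ≤
      ‖a‖ * ((2 * Real.pi * n) ^ i * (1 + ‖ξ‖) ^ i) := by
  have e : (fun x : Fin n → ℝ => a * ex (dotZ ξ x)) = a • (ex ∘ TCoh_phi ξ) := by
    funext x
    simp [TCoh_phi_apply]
  have hcd : ContDiff ℝ ((⊤ : ℕ∞) : WithTop ℕ∞) (ex ∘ TCoh_phi ξ) :=
    TCoh_ex_contDiff.comp (TCoh_phi ξ).contDiff
  have hi : (i : WithTop ℕ∞) ≤ ((⊤ : ℕ∞) : WithTop ℕ∞) := by exact_mod_cast le_top
  rw [e, iteratedFDeriv_const_smul_apply (hcd.contDiffAt.of_le hi), norm_smul]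
  gcongr
  rw [ContinuousLinearMap.iteratedFDeriv_comp_right (TCoh_phi ξ) TCoh_ex_contDiff x hi]
  refine (ContinuousMultilinearMap.norm_compContinuousLinearMap_le _ _).trans ?_
  rw [norm_iteratedFDeriv_eq_norm_iteratedDeriv, TCoh_iter_ex, norm_mul, TCoh_norm_ex, mul_one,
    norm_pow]
  have h1 : ‖(2 * Real.pi * Complex.I : ℂ)‖ = 2 * Real.pi := by
    simp [abs_of_pos Real.pi_pos]
  rw [h1]
  simp only [Finset.prod_const, Finset.card_univ, Fintype.card_fin]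
  rw [← mul_pow, ← mul_pow]
  apply pow_le_pow_left₀ (by positivity)
  have h2 := TCoh_phi_norm ξ
  have hpi := Real.pi_pos
  calc 2 * Real.pi * ‖TCoh_phi ξ‖ ≤ 2 * Real.pi * (n * ‖ξ‖) := by gcongr
    _ ≤ 2 * Real.pi * n * (1 + ‖ξ‖) := by
        have : (0 : ℝ) ≤ 2 * Real.pi * n := by positivity
        nlinarith

private theorem TCoh_decay {n : ℕ} (q : (Fin n → ℝ) → ℂ) (hq : Smo q) (hp : Per q) (p : ℕ) :
    ∃ H : ℝ, 0 ≤ H ∧ ∀ ξ : Fin n → ℤ, ‖coef q ξ‖ * (1 + ‖ξ‖) ^ p ≤ H := by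
  obtain ⟨H, hH0, hH⟩ := TCoh_bdd q hq hp p
  obtain ⟨H0, hH00, hH0'⟩ := TCoh_bdd q hq hp 0
  refine ⟨2 ^ p * H + H0, by positivity, fun ξ => ?_⟩
  by_cases hξ : ξ = 0
  · have h1 := coef_decay q hq hp 0 H0 hH0' ξ
    subst hξ
    rw [pow_zero, mul_one] at h1
    rw [norm_zero, add_zero, one_pow, mul_one]
    have : 0 ≤ 2 ^ p * H := by positivity
    linarith
  · have h1 := TCoh_one_le ξ hξ
    have h2 := coef_decay q hq hp p H hH ξ
    have h3 : (1 + ‖ξ‖) ^ p ≤ 2 ^ p * ‖ξ‖ ^ p := by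
      rw [← mul_pow]
      exact pow_le_pow_left₀ (by positivity) (by linarith) _
    calc ‖coef q ξ‖ * (1 + ‖ξ‖) ^ p ≤ ‖coef q ξ‖ * (2 ^ p * ‖ξ‖ ^ p) := by gcongr
      _ = 2 ^ p * (‖coef q ξ‖ * ‖ξ‖ ^ p) := by ring
      _ ≤ 2 ^ p * H := by gcongr
      _ ≤ _ := by linarith

/-- The cohomological equation over a Diophantine translation, for smooth functions on the torus.
Fourier coefficients: `coef χ ξ = coef ψ ξ / (ex (dotZ ξ α) - 1)`, `ξ ≠ 0`, where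
`‖ex (dotZ ξ α) - 1‖ ≥ 4 γ / |ξ|_1 ^ τ`; these coefficients decay faster than every power
(`coef_decay`), so the series defines a smooth function (`contDiff_tsum`), and the equation holds by
uniqueness of Fourier coefficients (`eq_zero_of_coef`); take real parts. -/
theorem coh_eq {d : ℕ} {α : Fin d → ℝ} (hα : DioV α) (ψ : UnitAddTorus (Fin d) → ℝ)
    (hψ : SmT ψ) : ∃ χ : UnitAddTorus (Fin d) → ℝ, SmT χ ∧
      ∀ y, ψ y - (∫ z, ψ z) = χ (y + pr α) - χ y := by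
  have hcψ : Continuous ψ := hψ.continuous
  set Q : C(UnitAddTorus (Fin d), ℂ) := ⟨fun y => (ψ y : ℂ), by fun_prop⟩ with hQ
  set q : (Fin d → ℝ) → ℂ := fun x => Q (pr x) with hq
  have hqs : Smo q := Complex.ofRealCLM.contDiff.comp hψ
  have hqp : Per q := by
    intro x k
    have : pr (x + fun i => (k i : ℝ)) = pr x := by
      funext i
      simp only [pr, Pi.add_apply]
      rw [QuotientAddGroup.eq_iff_sub_mem]
      simp
    show Q (pr (x + fun i => (k i : ℝ))) = Q (pr x)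
    rw [this]
  obtain ⟨C, hC, N, hdiv⟩ := TCoh_div hα
  have hdec := TCoh_decay q hqs hqp
  choose H hH0 hH using hdec
  set a : (Fin d → ℤ) → ℂ := fun ξ => if ξ = 0 then 0 else coef q ξ * (ex (dotZ ξ α) - 1)⁻¹ with ha
  have hsl := summable_lattice d
  -- bound of `a`
  have hab : ∀ (i : ℕ) (ξ : Fin d → ℤ), ‖a ξ‖ * (1 + ‖ξ‖) ^ i ≤
      C * H (i + N + (d + 1)) * (1 / (1 + ‖ξ‖) ^ (d + 1)) := by
    intro i ξ
    have hpos : (0 : ℝ) < 1 + ‖ξ‖ := by positivity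
    have hCH : 0 ≤ C * H (i + N + (d + 1)) := mul_nonneg hC.le (hH0 _)
    by_cases hξ : ξ = 0
    · rw [ha]
      simp only [hξ, if_true, norm_zero, zero_mul]
      positivity
    · have h1 := (hdiv ξ hξ).1
      have h2 := hH (i + N + (d + 1)) ξ
      rw [ha]
      simp only [hξ, if_false]
      rw [norm_mul, mul_one_div, le_div_iff₀ (by positivity)]
      calc ‖coef q ξ‖ * ‖(ex (dotZ ξ α) - 1)⁻¹‖ * (1 + ‖ξ‖) ^ i * (1 + ‖ξ‖) ^ (d + 1)
          ≤ ‖coef q ξ‖ * (C * (1 + ‖ξ‖) ^ N) * (1 + ‖ξ‖) ^ i * (1 + ‖ξ‖) ^ (d + 1) := by gcongr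
        _ = C * (‖coef q ξ‖ * (1 + ‖ξ‖) ^ (i + N + (d + 1))) := by ring
        _ ≤ C * H (i + N + (d + 1)) := by gcongr
  have hsa : Summable fun ξ => ‖a ξ‖ := by
    refine Summable.of_nonneg_of_le (fun ξ => norm_nonneg _) (fun ξ => ?_)
      (hsl.mul_left (C * H (0 + N + (d + 1))))
    have := hab 0 ξ
    rwa [pow_zero, mul_one] at this
  have hsq : Summable fun ξ => coef q ξ := by
    refine Summable.of_norm_bounded (hsl.mul_left (H (d + 1))) (fun ξ => ?_)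
    have h2 := hH (d + 1) ξ
    rw [mul_one_div, le_div_iff₀ (by positivity)]
    exact h2
  have hnF : ∀ (ξ : Fin d → ℤ) (y : UnitAddTorus (Fin d)), ‖UnitAddTorus.mFourier ξ y‖ ≤ 1 := by
    intro ξ y
    calc _ ≤ ‖(UnitAddTorus.mFourier ξ : C(UnitAddTorus (Fin d), ℂ))‖ :=
          ContinuousMap.norm_coe_le_norm _ _
      _ = 1 := UnitAddTorus.mFourier_norm
  have hsy : ∀ y : UnitAddTorus (Fin d), Summable fun ξ => a ξ * UnitAddTorus.mFourier ξ y := by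
    intro y
    refine Summable.of_norm_bounded hsa (fun ξ => ?_)
    rw [norm_mul]
    exact mul_le_of_le_one_right (norm_nonneg _) (hnF ξ y)
  set X : UnitAddTorus (Fin d) → ℂ := fun y => ∑' ξ, a ξ * UnitAddTorus.mFourier ξ y with hX
  refine ⟨fun y => (X y).re, ?_, ?_⟩
  · -- smoothness
    have h1 : ContDiff ℝ ((⊤ : ℕ∞) : WithTop ℕ∞) (fun x : Fin d → ℝ => ∑' ξ, a ξ * ex (dotZ ξ x)) := by
      refine contDiff_tsum (N := (⊤ : ℕ∞))
        (v := fun i ξ => (2 * Real.pi * d) ^ i * (C * H (i + N + (d + 1)) *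
          (1 / (1 + ‖ξ‖) ^ (d + 1)))) ?_ ?_ ?_
      · intro ξ
        have e : (fun x : Fin d → ℝ => a ξ * ex (dotZ ξ x)) =
            fun x => a ξ * (ex (TCoh_phi ξ x)) := by
          funext x
          rw [TCoh_phi_apply]
        rw [e]
        exact contDiff_const.mul (TCoh_ex_contDiff.comp (TCoh_phi ξ).contDiff)
      · intro k _
        exact (hsl.mul_left _).mul_left _
      · intro i ξ x _
        refine (TCoh_iter_norm ξ (a ξ) i x).trans ?_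
        have h2 := hab i ξ
        calc ‖a ξ‖ * ((2 * Real.pi * d) ^ i * (1 + ‖ξ‖) ^ i)
            = (2 * Real.pi * d) ^ i * (‖a ξ‖ * (1 + ‖ξ‖) ^ i) := by ring
          _ ≤ _ := by
              have := Real.pi_pos
              gcongr
    have h2 : (fun x : Fin d → ℝ => (X (pr x)).re) =
        fun x => Complex.reCLM (∑' ξ, a ξ * ex (dotZ ξ x)) := by
      funext x
      rw [hX]
      simp only [TCoh_hfm]
      rfl
    show ContDiff ℝ _ (fun x : Fin d → ℝ => (X (pr x)).re)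
    rw [h2]
    exact Complex.reCLM.contDiff.comp h1
  · intro y
    have h1 : HasSum (fun ξ => coef q ξ * UnitAddTorus.mFourier ξ y) (Q y) :=
      TCoh_hasSum Q hsq y
    have h2 : HasSum (fun ξ => a ξ * UnitAddTorus.mFourier ξ (y + pr α)) (X (y + pr α)) :=
      (hsy (y + pr α)).hasSum
    have h3 : HasSum (fun ξ => a ξ * UnitAddTorus.mFourier ξ y) (X y) := (hsy y).hasSum
    have h4 := h2.sub h3
    have h5 : HasSum (fun ξ : Fin d → ℤ => if ξ = 0 then coef q 0 else 0) (coef q 0) :=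
      hasSum_ite_eq 0 (coef q 0)
    have h6 := h1.sub h5
    have hadd : ∀ ξ : Fin d → ℤ, UnitAddTorus.mFourier ξ (y + pr α) =
        UnitAddTorus.mFourier ξ y * ex (dotZ ξ α) := by
      intro ξ
      rw [← TCoh_hfm]
      simp only [UnitAddTorus.mFourier, ContinuousMap.coe_mk, Pi.add_apply]
      rw [← Finset.prod_mul_distrib]
      refine Finset.prod_congr rfl fun i _ => ?_
      simp [fourier_apply, smul_add, AddCircle.toCircle_add]
    have h7 : (fun ξ => a ξ * UnitAddTorus.mFourier ξ (y + pr α) -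
        a ξ * UnitAddTorus.mFourier ξ y) =
        fun ξ => coef q ξ * UnitAddTorus.mFourier ξ y - (if ξ = 0 then coef q 0 else 0) := by
      funext ξ
      rw [hadd]
      by_cases hξ : ξ = 0
      · subst hξ
        simp [ha, UnitAddTorus.mFourier_zero]
      · have h8 := (hdiv ξ hξ).2
        rw [ha]
        simp only [hξ, if_false]
        field_simp
        ring
    rw [h7] at h4
    have h8 : Q y - coef q 0 = X (y + pr α) - X y := h6.unique h4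
    have h9 := TCoh_mean ψ hcψ
    have h10 : coef q 0 = ((∫ z, ψ z : ℝ) : ℂ) := h9.symm
    rw [h10] at h8
    have h11 := congrArg Complex.re h8
    have h12 : (Q y).re = ψ y := rfl
    simpa [h12] using h11

end QPR
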