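import Pool.Agent.Lib.QPR.MatDefs
import Pool.Agent.Lib.QPR.TDef

set_option autoImplicit false

namespace QPR

/-- the eigenvalues of `Y ↦ diag (lam, 1) * Y * diag (lam, 1)⁻¹` on `2 × 2` matrices. -/
noncomputable def lamA (lam : ℂ) : Fin 2 × Fin 2 → ℂ := fun ab =>
  (if ab.1 = 0 then lam else 1) * star (if ab.2 = 0 then lam else 1)

private theorem TDio_ex_add (s t : ℝ) : ex (s + t) = ex s * ex t := by
  rw [ex, ex, ex, ← Complex.exp_add]
  congr 1
  push_cast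
  ring

private theorem TDio_ex_zero : ex 0 = 1 := by simp [ex]

private theorem TDio_ex_star (s : ℝ) : star (ex s) = ex (-s) := by
  rw [ex, ex, Complex.star_def, ← Complex.exp_conj]
  congr 1
  rw [map_mul, map_mul, map_mul, Complex.conj_ofReal, Complex.conj_ofReal, Complex.conj_I,
    map_ofNat]
  push_cast
  ring

private theorem TDio_norm (t : ℝ) (n : ℤ) (h : |t - n| ≤ 1 / 2) : 4 * |t - n| ≤ ‖ex t - 1‖ := by
  have e1 : ex t = ex (t - n) := by
    have : ex (n : ℝ) = 1 := by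
      rw [ex]
      rw [Complex.exp_eq_one_iff]
      exact ⟨n, by push_cast; ring⟩
    have h2 : t = (t - n) + n := by ring
    conv_lhs => rw [h2]
    rw [TDio_ex_add, this, mul_one]
  rw [e1]
  set s := t - (n : ℝ) with hs
  have e2 : ex s = Complex.exp (Complex.I * ((2 * Real.pi * s : ℝ) : ℂ)) := by
    rw [ex]; congr 1; push_cast; ring
  rw [e2, Complex.norm_exp_I_mul_ofReal_sub_one]
  have e3 : 2 * Real.pi * s / 2 = Real.pi * s := by ring
  rw [e3]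
  have h1 : |Real.pi * s| ≤ Real.pi / 2 := by
    rw [abs_mul, abs_of_pos Real.pi_pos]
    nlinarith [Real.pi_pos]
  have h2 := Real.mul_abs_le_abs_sin h1
  rw [abs_mul, abs_of_pos Real.pi_pos] at h2
  have e4 : 2 / Real.pi * (Real.pi * |s|) = 2 * |s| := by
    field_simp
  rw [e4] at h2
  rw [norm_mul, Real.norm_eq_abs, Real.norm_eq_abs]
  have : |(2 : ℝ)| = 2 := by norm_num
  rw [this]
  linarith

private theorem TDio_dotZ {d m : ℕ} (α : Fin d → ℝ) (L : Fin m → (Fin d → ℤ)) (k : Fin d → ℤ)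
    (ξ : Fin m → ℤ) (e : ℤ) :
    dotZ ((∑ i, ξ i • L i) + e • k) α
      = dotZ ξ (fun i : Fin m => dotZ (L i) α) + e * dotZ k α := by
  simp only [dotZ, Pi.add_apply, Finset.sum_apply, Pi.smul_apply, smul_eq_mul]
  push_cast
  simp only [add_mul, Finset.sum_add_distrib, Finset.sum_mul, Finset.mul_sum]
  rw [Finset.sum_comm]
  congr 1
  · refine Finset.sum_congr rfl fun i _ => Finset.sum_congr rfl fun j _ => by ring
  · refine Finset.sum_congr rfl fun i _ => by ring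

private theorem TDio_lamA (t : ℝ) (i j : Fin 2 × Fin 2) :
    ∃ e : ℤ, |e| ≤ 2 ∧ star (lamA (ex t) i) * lamA (ex t) j = ex (e * t) := by
  have hs : ∀ a b : Fin 2, ∃ e : ℤ, |e| ≤ 1 ∧ lamA (ex t) (a, b) = ex (e * t) := by
    intro a b
    fin_cases a <;> fin_cases b
    · refine ⟨0, by norm_num, ?_⟩
      simp only [lamA, Fin.zero_eta, if_true, TDio_ex_star, ← TDio_ex_add]
      congr 1; push_cast; ring
    · refine ⟨1, by norm_num, ?_⟩
      simp [lamA]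
    · refine ⟨-1, by norm_num, ?_⟩
      simp only [lamA, Fin.zero_eta, Fin.mk_one, if_true, TDio_ex_star]
      simp
    · refine ⟨0, by norm_num, ?_⟩
      simp [lamA, TDio_ex_zero]
  obtain ⟨e1, h1, h2⟩ := hs i.1 i.2
  obtain ⟨e2, h3, h4⟩ := hs j.1 j.2
  refine ⟨e2 - e1, ?_, ?_⟩
  · rw [abs_le] at h1 h3 ⊢
    constructor <;> omega
  · rw [show lamA (ex t) i = ex (e1 * t) from h2, show lamA (ex t) j = ex (e2 * t) from h4,
      TDio_ex_star, ← TDio_ex_add]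
    congr 1; push_cast; ring

/-- The Diophantine condition for the base rotation `θ i = dotZ (L i) α`, `i < m`, and the
eigenvalues `lamA (ex (dotZ k α))`: `star (lamA i) * lamA j = ex (e * dotZ k α)` with `|e| ≤ 2`, and
`e ≠ 0` if the two eigenvalues differ; with `q = ∑ ξ i • L i + e • k ≠ 0` one has
`‖ex (dotZ q α) - 1‖ ≥ 4 * dist (dotZ q α, ℤ) ≥ 4 γ / |q|_1 ^ τ` and `|q|_1 ≤ C (1 + ‖ξ‖)`. -/
theorem dioL_of {d m : ℕ} (α : Fin d → ℝ) (hα : DioV α) (L : Fin m → (Fin d → ℤ))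
    (k : Fin d → ℤ)
    (hind : ∀ (ξ : Fin m → ℤ) (e : ℤ), (∑ i, ξ i • L i) + e • k = 0 → ξ = 0 ∧ e = 0) :
    ∃ c : ℝ, 0 < c ∧ ∃ τ : ℕ,
      DioL (fun i : Fin m => dotZ (L i) α) (lamA (ex (dotZ k α))) c τ := by
  obtain ⟨γ, hγ, τ, hτ, hD⟩ := hα
  set C : ℝ := (∑ i, ∑ j, |(L i j : ℝ)|) + 2 * (∑ j, |(k j : ℝ)|) + 1 with hC
  have hC1 : 1 ≤ C := by
    have h1 : 0 ≤ ∑ i, ∑ j, |(L i j : ℝ)| :=
      Finset.sum_nonneg fun i _ => Finset.sum_nonneg fun j _ => abs_nonneg _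
    have h2 : 0 ≤ ∑ j, |(k j : ℝ)| := Finset.sum_nonneg fun j _ => abs_nonneg _
    rw [hC]; linarith
  have hC0 : 0 < C := by linarith
  refine ⟨4 * γ / C ^ ⌈τ⌉₊, by positivity, ⌈τ⌉₊, ?_⟩
  intro ξ i j hor
  obtain ⟨e, he, hlam⟩ := TDio_lamA (dotZ k α) i j
  rw [hlam, ← TDio_ex_add]
  set q : Fin d → ℤ := (∑ i, ξ i • L i) + e • k with hq
  have hdot : (e : ℝ) * dotZ k α + dotZ ξ (fun i : Fin m => dotZ (L i) α) = dotZ q α := by
    rw [hq, TDio_dotZ]; ring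
  rw [hdot]
  have hq0 : q ≠ 0 := by
    intro h0
    obtain ⟨h1, h2⟩ := hind ξ e h0
    rcases hor with h | h
    · exact h h1
    · apply h
      rw [h2] at hlam
      simp only [Int.cast_zero, zero_mul, TDio_ex_zero] at hlam
      obtain ⟨e', _, he'⟩ := TDio_lamA (dotZ k α) i i
      have hn : lamA (ex (dotZ k α)) i * star (lamA (ex (dotZ k α)) i) = 1 := by
        obtain ⟨a, b⟩ := i
        have hx : ex (dotZ k α) * star (ex (dotZ k α)) = 1 := by
          rw [TDio_ex_star, ← TDio_ex_add, add_neg_cancel, TDio_ex_zero]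
        have hx' : star (ex (dotZ k α)) * ex (dotZ k α) = 1 := by rw [mul_comm]; exact hx
        fin_cases a <;> fin_cases b <;> simp [lamA] <;>
          first
            | (simpa using hx)
            | (simpa using hx')
            | (have := congrArg₂ (· * ·) hx hx'; simpa [mul_assoc, mul_comm, mul_left_comm] using this)
      calc lamA (ex (dotZ k α)) i
          = lamA (ex (dotZ k α)) i * (star (lamA (ex (dotZ k α)) i) * lamA (ex (dotZ k α)) j) := by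
            rw [hlam, mul_one]
        _ = lamA (ex (dotZ k α)) j := by rw [← mul_assoc, hn, one_mul]
  -- the nearest integer
  set t : ℝ := dotZ q α with ht
  have h1 := TDio_norm t (round t) (abs_sub_round t)
  have h2 := hD q hq0 (round t)
  have h3 : |∑ i, (q i : ℝ) * α i - ((round t : ℤ) : ℝ)| = |t - (round t : ℤ)| := rfl
  rw [h3] at h2
  set Q : ℝ := ∑ i, |(q i : ℝ)| with hQ
  have hQ0 : 0 < Q := by
    obtain ⟨i0, hi0⟩ := Function.ne_iff.mp hq0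
    refine Finset.sum_pos' (fun i _ => abs_nonneg _) ⟨i0, Finset.mem_univ _, ?_⟩
    rw [abs_pos]
    exact_mod_cast hi0
  have hQC : Q ≤ C * (1 + ‖ξ‖) := by
    have hb : ∀ j, |(q j : ℝ)| ≤ (∑ i, |(L i j : ℝ)|) * ‖ξ‖ + 2 * |(k j : ℝ)| := by
      intro j
      have e1 : (q j : ℝ) = (∑ i, (ξ i : ℝ) * (L i j : ℝ)) + (e : ℝ) * (k j : ℝ) := by
        rw [hq]
        simp only [Pi.add_apply, Finset.sum_apply, Pi.smul_apply, smul_eq_mul]
        push_cast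
        rfl
      rw [e1]
      refine (abs_add_le _ _).trans (add_le_add ?_ ?_)
      · refine (Finset.abs_sum_le_sum_abs _ _).trans ?_
        rw [Finset.sum_mul]
        refine Finset.sum_le_sum fun i _ => ?_
        rw [abs_mul, mul_comm]
        refine mul_le_mul_of_nonneg_left ?_ (abs_nonneg _)
        have := norm_le_pi_norm ξ i
        rwa [Int.norm_eq_abs] at this
      · rw [abs_mul]
        refine mul_le_mul_of_nonneg_right ?_ (abs_nonneg _)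
        exact_mod_cast he
    have hs : Q ≤ ∑ j, ((∑ i, |(L i j : ℝ)|) * ‖ξ‖ + 2 * |(k j : ℝ)|) :=
      Finset.sum_le_sum fun j _ => hb j
    rw [Finset.sum_add_distrib, ← Finset.sum_mul, ← Finset.mul_sum, Finset.sum_comm] at hs
    refine hs.trans ?_
    have h5 : 0 ≤ ∑ i, ∑ j, |(L i j : ℝ)| :=
      Finset.sum_nonneg fun i _ => Finset.sum_nonneg fun j _ => abs_nonneg _
    have h6 : 0 ≤ ∑ j, |(k j : ℝ)| := Finset.sum_nonneg fun j _ => abs_nonneg _
    have h7 : 0 ≤ ‖ξ‖ := norm_nonneg _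
    rw [hC]
    nlinarith [mul_nonneg h6 h7]
  have hξ : 0 ≤ ‖ξ‖ := norm_nonneg _
  have hbase : 1 ≤ C * (1 + ‖ξ‖) := by nlinarith
  have hpow : Q ^ τ ≤ (C * (1 + ‖ξ‖)) ^ ⌈τ⌉₊ := by
    calc Q ^ τ ≤ (C * (1 + ‖ξ‖)) ^ τ := Real.rpow_le_rpow hQ0.le hQC hτ.le
      _ ≤ (C * (1 + ‖ξ‖)) ^ ((⌈τ⌉₊ : ℕ) : ℝ) := Real.rpow_le_rpow_of_exponent_le hbase (Nat.le_ceil τ)
      _ = _ := Real.rpow_natCast _ _
  have hQτ : 0 < Q ^ τ := Real.rpow_pos_of_pos hQ0 τ
  have h8 : 4 * γ / (C * (1 + ‖ξ‖)) ^ ⌈τ⌉₊ ≤ ‖ex t - 1‖ := by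
    calc 4 * γ / (C * (1 + ‖ξ‖)) ^ ⌈τ⌉₊ ≤ 4 * γ / Q ^ τ :=
          div_le_div_of_nonneg_left (by positivity) hQτ hpow
      _ = 4 * (γ / Q ^ τ) := by ring
      _ ≤ 4 * |t - (round t : ℤ)| := by linarith
      _ ≤ _ := h1
  have hp : 0 < (1 + ‖ξ‖) ^ ⌈τ⌉₊ := by positivity
  calc 4 * γ / C ^ ⌈τ⌉₊ = 4 * γ / (C * (1 + ‖ξ‖)) ^ ⌈τ⌉₊ * (1 + ‖ξ‖) ^ ⌈τ⌉₊ := by
        rw [mul_pow]
        field_simp
    _ ≤ _ := mul_le_mul_of_nonneg_right h8 hp.le

end QPR
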