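import Pool.Agent.Lib.QPR.TCoh

set_option autoImplicit false

namespace QPR

open MeasureTheory

/-- If the conjugacy `h` is smooth then every smooth function is a constant plus a smooth
coboundary: apply `coh_eq` to `ψ = φ ∘ h⁻¹` and compose with `h`. -/
theorem cob_of_smooth {d : ℕ} {α : Fin d → ℝ} (hα : DioV α)
    {f h : UnitAddTorus (Fin d) ≃ₜ UnitAddTorus (Fin d)} (hc : Conj α f h) (hh : SmM h)
    (hh' : SmM h.symm) (φ : UnitAddTorus (Fin d) → ℝ) (hφ : SmT φ) :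
    ∃ χ : UnitAddTorus (Fin d) → ℝ, SmT χ ∧
      ∀ y, φ y - (∫ z, φ (h.symm z)) = χ (f y) - χ y := by
  obtain ⟨χ, hχ, hc1⟩ := coh_eq hα (fun z => φ (h.symm z)) (hh' φ hφ)
  refine ⟨fun y => χ (h y), hh χ hχ, fun y => ?_⟩
  have h1 := hc1 (h y)
  simp only [Homeomorph.symm_apply_apply] at h1
  change φ y - (∫ z, φ (h.symm z)) = χ (h (f y)) - χ (h y)
  rw [h1, hc y]

end QPR
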