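import Pool.Agent.Lib.QPR.Stm
import Pool.Agent.Lib.QPR.TUniq

set_option autoImplicit false

/-!
# Invariant distributions from a smooth conjugacy
-/

namespace QPR

/-- constant functions are smooth. -/
theorem smT_const {d : ℕ} (c : ℝ) : SmT (fun _ : UnitAddTorus (Fin d) => c) := by
  unfold SmT
  exact contDiff_const

theorem smT_add {d : ℕ} {φ ψ : UnitAddTorus (Fin d) → ℝ} (hφ : SmT φ) (hψ : SmT ψ) :
    SmT (fun y => φ y + ψ y) := ContDiff.add hφ hψ

/-- translations are smooth. -/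
theorem smT_translate {d : ℕ} {φ : UnitAddTorus (Fin d) → ℝ} (hφ : SmT φ) (α : Fin d → ℝ) :
    SmT (fun y => φ (y + pr α)) := by
  have h0 : ContDiff ℝ ((⊤ : ℕ∞) : WithTop ℕ∞) (fun x : Fin d → ℝ => φ (pr x)) := hφ
  have h1 : ContDiff ℝ ((⊤ : ℕ∞) : WithTop ℕ∞) (fun x : Fin d → ℝ => φ (pr (x + α))) :=
    h0.comp (contDiff_id.add contDiff_const)
  have h2 : (fun x : Fin d → ℝ => φ (pr x + pr α)) = fun x : Fin d → ℝ => φ (pr (x + α)) := by
    funext x
    congr 1
  unfold SmT
  rw [h2]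
  exact h1

theorem pr_surj {d : ℕ} (y : UnitAddTorus (Fin d)) : ∃ x : Fin d → ℝ, pr x = y := by
  choose g hg using fun i => QuotientAddGroup.mk_surjective (y i)
  exact ⟨g, funext hg⟩

/-- the smooth conjugacy gives smoothness of `f`. -/
theorem smT_f {d : ℕ} {α : Fin d → ℝ} {f h : UnitAddTorus (Fin d) ≃ₜ UnitAddTorus (Fin d)}
    (hc : Conj α f h) (hs : SmM h) (hs' : SmM h.symm) {χ : UnitAddTorus (Fin d) → ℝ}
    (hχ : SmT χ) : SmT (fun y => χ (f y)) := by
  have h1 : SmT (fun y => χ (h.symm (y + pr α))) := smT_translate (hs' χ hχ) α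
  have h2 := hs _ h1
  have h3 : (fun y => χ (h.symm (h y + pr α))) = fun y => χ (f y) := by
    funext y
    rw [← hc y, h.symm_apply_apply]
  rw [h3] at h2
  exact h2

/-- a smooth conjugacy to a Diophantine translation gives a one-dimensional space of invariant
distributions. -/
theorem oneInvariantDistribution_of_smooth {d : ℕ} {α : Fin d → ℝ}
    {f h : UnitAddTorus (Fin d) ≃ₜ UnitAddTorus (Fin d)} (hα' : DioV α) (hc : Conj α f h)
    (hs : SmM h) (hs' : SmM h.symm) : OneInvariantDistribution f := by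
  have hcont : ∀ φ : UnitAddTorus (Fin d) → ℝ, SmT φ → Continuous φ := fun φ hφ => hφ.continuous
  have hint : ∀ φ : UnitAddTorus (Fin d) → ℝ, SmT φ →
      MeasureTheory.Integrable (fun z => φ (h.symm z)) := by
    intro φ hφ
    exact ((hcont φ hφ).comp h.symm.continuous).integrable_of_hasCompactSupport
      (HasCompactSupport.of_compactSpace _)
  have hprob : MeasureTheory.IsProbabilityMeasure
      (MeasureTheory.volume : MeasureTheory.Measure (UnitAddTorus (Fin d))) := by
    constructor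
    rw [MeasureTheory.volume_pi, ← Set.pi_univ Set.univ, MeasureTheory.Measure.pi_pi]
    simp
  refine ⟨fun φ => ∫ z, φ (h.symm z), ⟨?_, ?_, ?_⟩, ?_, ?_⟩
  · intro φ ψ hφ hψ a b
    simp only [Pi.add_apply, Pi.smul_apply, smul_eq_mul]
    rw [MeasureTheory.integral_add ((hint φ hφ).const_mul a) ((hint ψ hψ).const_mul b),
      MeasureTheory.integral_const_mul, MeasureTheory.integral_const_mul]
  · refine ⟨0, 1, fun φ hφ M hM => ?_⟩
    have hb : ∀ y, ‖φ y‖ ≤ M := by
      intro y
      obtain ⟨x, hx⟩ := pr_surj y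
      have := hM 0 le_rfl x
      rw [norm_iteratedFDeriv_zero] at this
      rw [← hx]
      exact this
    have h1 : ‖∫ z, φ (h.symm z)‖ ≤ M := by
      have := MeasureTheory.norm_integral_le_of_norm_le_const
        (μ := (MeasureTheory.volume : MeasureTheory.Measure (UnitAddTorus (Fin d))))
        (Filter.Eventually.of_forall fun z => hb (h.symm z))
      simpa using this
    rw [one_mul]
    exact h1
  · intro φ hφ
    have h1 : ∀ z, φ (f (h.symm z)) = φ (h.symm (z + pr α)) := by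
      intro z
      have := hc (h.symm z)
      rw [h.apply_symm_apply] at this
      rw [← this, h.symm_apply_apply]
    simp only [h1]
    exact MeasureTheory.integral_add_right_eq_self (fun z => φ (h.symm z)) (pr α)
  · refine ⟨fun _ => 1, smT_const 1, ?_⟩
    simp
  · rintro T ⟨hlin, -, hinv⟩
    refine ⟨T (fun _ => 1), fun φ hφ => ?_⟩
    obtain ⟨χ, hχ, hχ2⟩ := cob_of_smooth hα' hc hs hs' φ hφ
    have hχf : SmT (fun y => χ (f y)) := smT_f hc hs hs' hχ
    set a : ℝ := ∫ z, φ (h.symm z) with ha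
    have h1 : T ((1 : ℝ) • (fun y => χ (f y)) + (-1 : ℝ) • χ) = 0 := by
      have h5 := hlin (fun y => χ (f y)) χ hχf hχ 1 (-1)
      rw [h5, hinv χ hχ]
      ring
    have h2 : SmT ((1 : ℝ) • (fun y => χ (f y)) + (-1 : ℝ) • χ) := by
      have h6 : ContDiff ℝ ((⊤ : ℕ∞) : WithTop ℕ∞)
          (fun x : Fin d → ℝ => χ (f (pr x))) := hχf
      have h7 : ContDiff ℝ ((⊤ : ℕ∞) : WithTop ℕ∞) (fun x : Fin d → ℝ => χ (pr x)) := hχ
      exact (contDiff_const.smul h6).add (contDiff_const.smul h7)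
    have h3 : φ = a • (fun _ => (1 : ℝ)) + (1 : ℝ) • ((1 : ℝ) • (fun y => χ (f y))
        + (-1 : ℝ) • χ) := by
      funext y
      have := hχ2 y
      simp only [Pi.add_apply, Pi.smul_apply, smul_eq_mul]
      linarith
    have h4 := hlin (fun _ => (1 : ℝ)) ((1 : ℝ) • (fun y => χ (f y)) + (-1 : ℝ) • χ)
      (smT_const 1) h2 a 1
    rw [← h3, h1] at h4
    rw [h4]
    ring

end QPR
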