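import Pool.Agent.Lib.QPR.TB1
import Pool.Agent.Lib.QPR.TBirk

set_option autoImplicit false

namespace QPR

variable {d m : ℕ} {α : Fin d → ℝ} {f h : UnitAddTorus (Fin d) ≃ₜ UnitAddTorus (Fin d)}
  {l : Fin d → (Fin d → ℤ)} {P Q : Fin d → UnitAddTorus (Fin d) → ℂ}

private theorem TEig_den {a : ℝ} {b ζ : ℂ} (ha : 0 < a) (hn : a ^ 2 - ‖b‖ ^ 2 = 1)
    (hζ : ‖ζ‖ = 1) : star b * ζ + (a : ℂ) ≠ 0 := by
  intro h0
  have h1 : star b * ζ = -(a : ℂ) := eq_neg_of_add_eq_zero_left h0
  have h2 : ‖star b * ζ‖ = ‖-(a : ℂ)‖ := by rw [h1]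
  rw [norm_mul, norm_star, hζ, mul_one, norm_neg, Complex.norm_real, Real.norm_eq_abs,
    abs_of_pos ha] at h2
  rw [h2] at hn
  simp at hn

private theorem TEig_nn {a : ℝ} {b ζ : ℂ} (hζ : ‖ζ‖ = 1) :
    ‖(a : ℂ) * ζ + b‖ = ‖star b * ζ + (a : ℂ)‖ := by
  have h1 : ζ * star ζ = 1 := by
    have := Complex.mul_conj ζ
    rw [Complex.normSq_eq_norm_sq, hζ] at this
    simpa using this
  have h2 : (a : ℂ) * ζ + b = ζ * star (star b * ζ + (a : ℂ)) := by
    have h3 : star (star b * ζ + (a : ℂ)) = b * star ζ + (a : ℂ) := by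
      rw [star_add, star_mul, star_star]
      have : star (a : ℂ) = (a : ℂ) := Complex.conj_ofReal a
      rw [this]; ring
    rw [h3]
    linear_combination (-b) * h1
  rw [h2, norm_mul, hζ, one_mul, norm_star]

private theorem TEig_dotT_add {d : ℕ} (k : Fin d → ℤ) (y z : UnitAddTorus (Fin d)) :
    dotT k (y + z) = dotT k y + dotT k z := by
  unfold dotT
  rw [← Finset.sum_add_distrib]
  refine Finset.sum_congr rfl fun i _ => ?_
  rw [Pi.add_apply, smul_add]

private theorem TEig_dotT_pr {d : ℕ} (k : Fin d → ℤ) (α : Fin d → ℝ) :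
    ee (dotT k (pr α)) = ex (dotZ k α) := by
  rw [← ee_coe]
  congr 1
  unfold dotT dotZ
  have hs : ∀ (S : Finset (Fin d)) (g : Fin d → ℝ),
      ((∑ i ∈ S, g i : ℝ) : UnitAddCircle) = ∑ i ∈ S, ((g i : ℝ) : UnitAddCircle) := by
    classical
    intro S g
    induction S using Finset.induction_on with
    | empty => rfl
    | insert a S ha ih => rw [Finset.sum_insert ha, Finset.sum_insert ha, AddCircle.coe_add, ih]
  rw [hs]
  refine Finset.sum_congr rfl fun i _ => ?_
  unfold pr
  rw [← AddCircle.coe_zsmul, zsmul_eq_mul]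

private theorem TEig_dotT_cont {d : ℕ} (k : Fin d → ℤ) :
    Continuous (fun y : UnitAddTorus (Fin d) => dotT k y) := by
  unfold dotT
  exact continuous_finsetSum _ fun i _ => (continuous_apply i).zsmul (k i)

/-- The new coordinate is an integer combination of the coordinates of `h`. Let `u, v, κ` be as in
`exists_uv` and `Z x = (u ζ + v) / (star v ζ + u)`, `ζ = ee (x j)`: a continuous unimodular function
with `Z (f x) = κ x ^ 2 * Z x` (from the two relations and `L.mob`). The continuous function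
`Z ∘ h⁻¹` has a nonzero Fourier coefficient `a` at some `k` (`exists_coeff_ne`), and by `birk`
`(1/N) ∑_{n<N} ee (-(n • dotT k (pr α))) * Z (f^n x) → a * ee (dotT k (h x))`. As
`Z (f^n x) = (∏_{i<n} κ (f^i x))^2 * Z x`, the quotient `c x = ee (dotT k (h x)) / Z x` depends only
on the first `m` coordinates. The last relation: `ee (dotT k (h (f x))) = ex (dotZ k α) * ...`. -/
theorem exists_eig (hα : DioV α) (L : Lev m α f h l P Q) (j : Fin d) (hj : (j : ℕ) = m) :
    ∃ (u : UnitAddTorus (Fin d) → ℝ) (v κ c : UnitAddTorus (Fin d) → ℂ) (k : Fin d → ℤ),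
      Continuous u ∧ Continuous v ∧ Continuous κ ∧ Continuous c ∧
      DepLt m u ∧ DepLt m v ∧ DepLt m κ ∧ DepLt m c ∧
      (∀ x, 0 < u x) ∧ (∀ x, u x ^ 2 - ‖v x‖ ^ 2 = 1) ∧ (∀ x, ‖κ x‖ = 1) ∧ (∀ x, ‖c x‖ = 1) ∧
      (∀ x, (u (f x) : ℂ) * P j x + v (f x) * star (Q j x) = κ x * u x) ∧
      (∀ x, (u (f x) : ℂ) * Q j x + v (f x) * star (P j x) = κ x * v x) ∧
      (∀ x, ee (dotT k (h x)) * (star (v x) * ee (x j) + u x) = c x * (u x * ee (x j) + v x)) ∧
      (∀ x, c (f x) * κ x ^ 2 = ex (dotZ k α) * c x) := by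
  obtain ⟨u, v, κ, hu, hv, hκ, hdu, hdv, hdκ, hu0, hn, hκ1, h1, h2⟩ := exists_uv hα L j hj
  -- the function Z
  set ζ : UnitAddTorus (Fin d) → ℂ := fun x => ee (x j) with hζdef
  have hζ1 : ∀ x, ‖ζ x‖ = 1 := fun x => norm_ee _
  have hζc : Continuous ζ := continuous_ee.comp (continuous_apply j)
  set D : UnitAddTorus (Fin d) → ℂ := fun x => star (v x) * ζ x + (u x : ℂ) with hD
  set M : UnitAddTorus (Fin d) → ℂ := fun x => (u x : ℂ) * ζ x + v x with hM
  have hD0 : ∀ x, D x ≠ 0 := fun x => TEig_den (hu0 x) (hn x) (hζ1 x)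
  have hMD : ∀ x, ‖M x‖ = ‖D x‖ := fun x => TEig_nn (hζ1 x)
  have hM0 : ∀ x, M x ≠ 0 := fun x => by
    have := hMD x
    intro h0
    rw [h0, norm_zero] at this
    exact hD0 x (norm_eq_zero.mp this.symm)
  have hDc : Continuous D :=
    ((continuous_star.comp hv).mul hζc).add (Complex.continuous_ofReal.comp hu)
  have hMc : Continuous M := ((Complex.continuous_ofReal.comp hu).mul hζc).add hv
  set Z : UnitAddTorus (Fin d) → ℂ := fun x => M x / D x with hZ
  have hZc : Continuous Z := hMc.div hDc hD0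
  have hZ0 : ∀ x, Z x ≠ 0 := fun x => div_ne_zero (hM0 x) (hD0 x)
  have hZ1 : ∀ x, ‖Z x‖ = 1 := fun x => by
    show ‖M x / D x‖ = 1
    rw [norm_div, hMD x, div_self (norm_ne_zero_iff.mpr (hD0 x))]
  have hκ0 : ∀ x, κ x ≠ 0 := fun x => by
    have := hκ1 x
    intro h0
    rw [h0, norm_zero] at this
    exact zero_ne_one this
  have hκκ : ∀ x, κ x * star (κ x) = 1 := fun x => by
    have := Complex.mul_conj (κ x)
    rw [Complex.normSq_eq_norm_sq, hκ1] at this
    simpa using this
  -- equivariance of Z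
  have hZf : ∀ x, Z (f x) = κ x ^ 2 * Z x := by
    intro x
    have hm := L.mob j (by omega) x
    have hden : star (Q j x) * ζ x + star (P j x) ≠ 0 := by
      have hnm := L.nm j (by omega) x
      intro h0
      have e1 : star (Q j x) * ζ x = -star (P j x) := eq_neg_of_add_eq_zero_left h0
      have e2 : ‖star (Q j x) * ζ x‖ = ‖-star (P j x)‖ := by rw [e1]
      rw [norm_mul, norm_star, hζ1, mul_one, norm_neg, norm_star] at e2
      rw [e2] at hnm
      simp at hnm
    have hu' : star ((u (f x) : ℝ) : ℂ) = ((u (f x) : ℝ) : ℂ) := Complex.conj_ofReal _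
    have hu'' : star ((u x : ℝ) : ℂ) = ((u x : ℝ) : ℂ) := Complex.conj_ofReal _
    have g1 : star (v (f x)) * Q j x + (u (f x) : ℂ) * star (P j x)
        = star (κ x) * (u x : ℂ) := by
      have := congrArg star (h1 x)
      rw [star_add, star_mul, star_mul, star_mul, star_star, hu', hu''] at this
      linear_combination this
    have g2 : star (v (f x)) * P j x + (u (f x) : ℂ) * star (Q j x)
        = star (κ x) * star (v x) := by
      have := congrArg star (h2 x)
      rw [star_add, star_mul, star_mul, star_mul, star_star, hu'] at this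
      linear_combination this
    have hMf : M (f x) * (star (Q j x) * ζ x + star (P j x)) = κ x * M x := by
      show ((u (f x) : ℂ) * ee (f x j) + v (f x)) * (star (Q j x) * ee (x j) + star (P j x))
        = κ x * ((u x : ℂ) * ee (x j) + v x)
      linear_combination (u (f x) : ℂ) * hm + ee (x j) * h1 x + h2 x
    have hDf : D (f x) * (star (Q j x) * ζ x + star (P j x)) = star (κ x) * D x := by
      show (star (v (f x)) * ee (f x j) + (u (f x) : ℂ))
          * (star (Q j x) * ee (x j) + star (P j x))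
        = star (κ x) * (star (v x) * ee (x j) + (u x : ℂ))
      linear_combination star (v (f x)) * hm + ee (x j) * g2 + g1
    show M (f x) / D (f x) = κ x ^ 2 * (M x / D x)
    have hsκ : star (κ x) ≠ 0 := fun h0 => by
      have := hκκ x
      rw [h0, mul_zero] at this
      exact zero_ne_one this
    have e3 : M (f x) = κ x * M x / (star (Q j x) * ζ x + star (P j x)) := by
      rw [eq_div_iff hden, hMf]
    have e4 : D (f x) = star (κ x) * D x / (star (Q j x) * ζ x + star (P j x)) := by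
      rw [eq_div_iff hden, hDf]
    rw [e3, e4, div_div_div_cancel_right₀ hden]
    rw [div_eq_iff (mul_ne_zero hsκ (hD0 x))]
    have := hD0 x
    field_simp
    linear_combination (-(κ x * M x)) * hκκ x
  -- iterates
  have hit : ∀ (n : ℕ) (x : UnitAddTorus (Fin d)),
      Z ((f : UnitAddTorus (Fin d) → UnitAddTorus (Fin d))^[n] x)
        = (∏ i ∈ Finset.range n, κ ((f : UnitAddTorus (Fin d) → UnitAddTorus (Fin d))^[i] x)) ^ 2
          * Z x := by
    intro n x
    induction n with
    | zero => simp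
    | succ n ih =>
      rw [Function.iterate_succ_apply', hZf, ih, Finset.prod_range_succ]
      ring
  -- Fourier mode
  have hgc : Continuous (fun y => Z (h.symm y)) := hZc.comp h.symm.continuous
  obtain ⟨k, hk⟩ := exists_coeff_ne (fun y => Z (h.symm y)) hgc
    ⟨0, hZ0 _⟩
  set a : ℂ := UnitAddTorus.mFourierCoeff (fun y => Z (h.symm y)) k with ha
  have hlim : ∀ x, Filter.Tendsto (fun N : ℕ => (1 / (N : ℂ)) * ∑ n ∈ Finset.range N,
      ee (-((n : ℤ) • dotT k (pr α)))
        * (∏ i ∈ Finset.range n,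
          κ ((f : UnitAddTorus (Fin d) → UnitAddTorus (Fin d))^[i] x)) ^ 2) Filter.atTop
      (nhds (a * (ee (dotT k (h x)) / Z x))) := by
    intro x
    have hb := (birk hα (fun y => Z (h.symm y)) hgc k (h x)).mul_const (Z x)⁻¹
    have e5 : a * (ee (dotT k (h x)) / Z x) = a * ee (dotT k (h x)) * (Z x)⁻¹ := by
      rw [div_eq_mul_inv, mul_assoc]
    rw [e5]
    refine hb.congr fun N => ?_
    rw [mul_assoc, Finset.sum_mul]
    congr 1
    refine Finset.sum_congr rfl fun n _ => ?_
    have e6 : h.symm (h x + (n : ℤ) • pr α)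
        = (f : UnitAddTorus (Fin d) → UnitAddTorus (Fin d))^[n] x := by
      rw [← conj_iter L.conj n x, h.symm_apply_apply]
    show ee (-((n : ℤ) • dotT k (pr α))) * Z (h.symm (h x + (n : ℤ) • pr α)) * (Z x)⁻¹ = _
    rw [e6, hit]
    have := hZ0 x
    field_simp
  have hdit : ∀ i : ℕ, DepLt m
      (fun x => κ ((f : UnitAddTorus (Fin d) → UnitAddTorus (Fin d))^[i] x)) := by
    intro i
    induction i with
    | zero => simpa using hdκ
    | succ i ih =>
      have := L.dep_comp ih
      simpa [Function.iterate_succ_apply] using this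
  have hcdep : DepLt m (fun x => ee (dotT k (h x)) / Z x) := by
    intro x x' hxx
    have t1 := hlim x
    have t2 := hlim x'
    have e7 : (fun N : ℕ => (1 / (N : ℂ)) * ∑ n ∈ Finset.range N,
        ee (-((n : ℤ) • dotT k (pr α)))
          * (∏ i ∈ Finset.range n,
            κ ((f : UnitAddTorus (Fin d) → UnitAddTorus (Fin d))^[i] x)) ^ 2)
        = (fun N : ℕ => (1 / (N : ℂ)) * ∑ n ∈ Finset.range N,
        ee (-((n : ℤ) • dotT k (pr α)))
          * (∏ i ∈ Finset.range n,
            κ ((f : UnitAddTorus (Fin d) → UnitAddTorus (Fin d))^[i] x')) ^ 2) := by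
      funext N
      congr 1
      refine Finset.sum_congr rfl fun n _ => ?_
      congr 2
      exact Finset.prod_congr rfl fun i _ => hdit i x x' hxx
    rw [e7] at t1
    exact mul_left_cancel₀ hk (tendsto_nhds_unique t1 t2)
  refine ⟨u, v, κ, fun x => ee (dotT k (h x)) / Z x, k, hu, hv, hκ, ?_, hdu, hdv, hdκ, hcdep,
    hu0, hn, hκ1, ?_, h1, h2, ?_, ?_⟩
  · exact (continuous_ee.comp ((TEig_dotT_cont k).comp h.continuous)).div hZc hZ0
  · intro x
    show ‖ee (dotT k (h x)) / Z x‖ = 1
    rw [norm_div, norm_ee, hZ1, div_one]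
  · intro x
    show ee (dotT k (h x)) * D x = ee (dotT k (h x)) / (M x / D x) * M x
    have e8 := hD0 x
    have e9 := hM0 x
    field_simp
  · intro x
    show ee (dotT k (h (f x))) / Z (f x) * κ x ^ 2 = ex (dotZ k α) * (ee (dotT k (h x)) / Z x)
    rw [hZf, L.conj x, TEig_dotT_add, ee_add, TEig_dotT_pr]
    have e8 := hZ0 x
    have e9 := hκ0 x
    field_simp

end QPR
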