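import Pool.Agent.Lib.QPR.RL
import Pool.Agent.Lib.QPR.TDio

set_option autoImplicit false

namespace QPR

open scoped Kronecker

section TRLaux

open scoped Matrix.Norms.Operator

private theorem TRL_sum {ι : Type} [Fintype ι] [DecidableEq ι] (M : Matrix ι ι ℂ) :
    M = ∑ i, ∑ j, M i j • Matrix.single i j (1 : ℂ) := by
  conv_lhs => rw [Matrix.matrix_eq_sum_single M]
  refine Finset.sum_congr rfl fun i _ => Finset.sum_congr rfl fun j _ => ?_
  rw [Matrix.smul_single, smul_eq_mul, mul_one]

private theorem TRL_smo {m : ℕ} {ι : Type} [Fintype ι] [DecidableEq ι]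
    (F : (Fin m → ℝ) → Matrix ι ι ℂ) (h : ∀ i j, Smo (fun z => F z i j)) : Smo F := by
  have e : F = fun z => ∑ i, ∑ j, F z i j • Matrix.single i j (1 : ℂ) := by
    funext z
    exact TRL_sum (F z)
  rw [e]
  refine ContDiff.sum fun i _ => ContDiff.sum fun j _ => ?_
  exact (h i j).smul contDiff_const

private theorem TRL_cont {m : ℕ} {ι : Type} [Fintype ι] [DecidableEq ι]
    (F : (Fin m → ℝ) → Matrix ι ι ℂ) (h : ∀ i j, Continuous (fun z => F z i j)) :
    Continuous F := by
  have e : F = fun z => ∑ i, ∑ j, F z i j • Matrix.single i j (1 : ℂ) := by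
    funext z
    exact TRL_sum (F z)
  rw [e]
  refine continuous_finsetSum _ fun i _ => continuous_finsetSum _ fun j _ => ?_
  exact (h i j).smul continuous_const

private theorem TRL_entry {m : ℕ} {ι : Type} [Fintype ι] [DecidableEq ι]
    (F : (Fin m → ℝ) → Matrix ι ι ℂ) (h : Smo F) (i j : ι) : Smo (fun z => F z i j) := by
  have e : (fun z => F z i j) = fun z => (LinearMap.toContinuousLinearMap
      (Matrix.entryLinearMap ℝ ℂ i j)) (F z) := by
    funext z
    simp
  rw [e]
  exact (ContinuousLinearMap.contDiff _).comp h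

private theorem TRL_rig {m : ℕ} {ι : Type} [Fintype ι] [DecidableEq ι] [Nonempty ι]
    (θ : Fin m → ℝ) (lam : ι → ℂ) (hlam : ∀ i, ‖lam i‖ = 1)
    (AS AB : (Fin m → ℝ) → Matrix ι ι ℂ) (hASs : ∀ i j, Smo (fun z => AS z i j)) (hASp : Per AS)
    (hABc : ∀ i j, Continuous (fun z => AB z i j)) (hABp : Per AB) (hABu : ∀ x, IsUnit (AB x))
    (h : ∀ x, AB (x + θ) * AS x = cD lam * AB x)
    {c : ℝ} (hc : 0 < c) {τ : ℕ} (hd : DioL θ lam c τ) (i j : ι) :
    Smo (fun z => AB z i j) :=
  TRL_entry AB (rigidity θ lam hlam AS AB (TRL_smo AS hASs) hASp (TRL_cont AB hABc) hABp hABu h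
    hc hd) i j

end TRLaux

/-- Application of the rigidity theorem to the adjoint cocycle. On the base `ℝ^m` (rotation `θ`) let
`S = [[p, q], [star q, star p]]` (smooth, periodic, determinant one), `Bt = [[c u, c v], [star v, u]]`
(continuous, periodic, determinant `c`). The hypotheses give
`Bt (z+θ) * S z = star (κ z) • (diag (lam, 1) * Bt z)`. For an invertible `2 × 2` matrix `Y` let
`Ad Y = Y ⊗ₖ (Y⁻¹)ᵀ` (indexed by `Fin 2 × Fin 2`); it is multiplicative (`Matrix.mul_kronecker_mul`)
and kills scalars, so `Ad (Bt (z+θ)) * Ad (S z) = diagonal (lamA lam) * Ad (Bt z)`. By `rigidity`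
`Ad (Bt)` is smooth. Its entries at `((0,0),(0,0))`, `((0,1),(0,1))`, `((1,1),(0,1))` are `u^2`,
`c u^2`, `star v * u` (`Bt⁻¹ = [[u star c, -v], [-(star v * star c), u]]`), so `u`, `c`, `v` are
smooth. -/
theorem smooth_uvc {m : ℕ} (θ : Fin m → ℝ) (lam : ℂ) (hlam : ‖lam‖ = 1) {c₀ : ℝ} (hc₀ : 0 < c₀)
    {τ : ℕ} (hd : DioL θ (lamA lam) c₀ τ) (p q v κ c : (Fin m → ℝ) → ℂ) (u : (Fin m → ℝ) → ℝ)
    (hp : Smo p) (hpp : Per p) (hq : Smo q) (hqp : Per q) (hn : ∀ z, ‖p z‖ ^ 2 - ‖q z‖ ^ 2 = 1)
    (hu : Continuous u) (hup : Per u) (hv : Continuous v) (hvp : Per v)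
    (hc : Continuous c) (hcp : Per c) (hu0 : ∀ z, 0 < u z)
    (huv : ∀ z, u z ^ 2 - ‖v z‖ ^ 2 = 1) (hκ : ∀ z, ‖κ z‖ = 1) (hc1 : ∀ z, ‖c z‖ = 1)
    (h1 : ∀ z, (u (z + θ) : ℂ) * p z + v (z + θ) * star (q z) = κ z * u z)
    (h2 : ∀ z, (u (z + θ) : ℂ) * q z + v (z + θ) * star (p z) = κ z * v z)
    (h3 : ∀ z, c (z + θ) * κ z ^ 2 = lam * c z) :
    Smo u ∧ Smo v ∧ Smo c := by
  classical
  have nsq : ∀ w : ℂ, w * star w = ((‖w‖ ^ 2 : ℝ) : ℂ) := fun w => by
    rw [Complex.star_def, Complex.mul_conj, Complex.normSq_eq_norm_sq]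
  have hκ1 : ∀ z, κ z * star (κ z) = 1 := fun z => by rw [nsq, hκ]; simp
  have hc2 : ∀ z, c z * star (c z) = 1 := fun z => by rw [nsq, hc1]; simp
  have hlam2 : lam * star lam = 1 := by rw [nsq, hlam]; simp
  have hpq : ∀ z, p z * star (p z) - q z * star (q z) = 1 := fun z => by
    rw [nsq, nsq, ← Complex.ofReal_sub, hn z, Complex.ofReal_one]
  have huv' : ∀ z, (u z : ℂ) * u z - v z * star (v z) = 1 := fun z => by
    rw [nsq, ← Complex.ofReal_mul, ← Complex.ofReal_sub, ← pow_two, huv z, Complex.ofReal_one]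
  have su : ∀ z, star (u z : ℂ) = (u z : ℂ) := fun z => Complex.conj_ofReal _
  let Bt : (Fin m → ℝ) → Matrix (Fin 2) (Fin 2) ℂ := fun z =>
    !![c z * u z, c z * v z; star (v z), (u z : ℂ)]
  let Bi : (Fin m → ℝ) → Matrix (Fin 2) (Fin 2) ℂ := fun z =>
    !![u z * star (c z), -v z; -(star (v z) * star (c z)), (u z : ℂ)]
  let S : (Fin m → ℝ) → Matrix (Fin 2) (Fin 2) ℂ := fun z =>
    !![p z, q z; star (q z), star (p z)]
  let Si : (Fin m → ℝ) → Matrix (Fin 2) (Fin 2) ℂ := fun z =>
    !![star (p z), -q z; -star (q z), p z]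
  let D : Matrix (Fin 2) (Fin 2) ℂ := Matrix.diagonal ![lam, 1]
  let Di : Matrix (Fin 2) (Fin 2) ℂ := Matrix.diagonal ![star lam, 1]
  have hBB : ∀ z, Bt z * Bi z = 1 := by
    intro z
    have e1 := huv' z
    have e2 := hc2 z
    ext i j
    fin_cases i <;> fin_cases j <;>
      simp only [Bt, Bi, Matrix.mul_apply, Fin.sum_univ_two, Matrix.of_apply, Matrix.cons_val',
        Matrix.cons_val_zero, Matrix.cons_val_one, Matrix.one_apply, Fin.zero_eta, Fin.mk_one,
        Fin.isValue, Matrix.cons_val_fin_one, if_true] <;>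
      simp [-RCLike.star_def, -Complex.star_def]
    · linear_combination e1 * (c z * star (c z)) + e2
    · ring
    · ring
    · linear_combination e1
  have hBB' : ∀ z, Bi z * Bt z = 1 := fun z => mul_eq_one_comm.mp (hBB z)
  have hSS : ∀ z, S z * Si z = 1 := by
    intro z
    have e1 := hpq z
    ext i j
    fin_cases i <;> fin_cases j <;>
      simp only [S, Si, Matrix.mul_apply, Fin.sum_univ_two, Matrix.of_apply, Matrix.cons_val',
        Matrix.cons_val_zero, Matrix.cons_val_one, Matrix.one_apply, Fin.zero_eta, Fin.mk_one,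
        Fin.isValue, Matrix.cons_val_fin_one, if_true] <;>
      simp [-RCLike.star_def, -Complex.star_def]
    · linear_combination e1
    · ring
    · ring
    · linear_combination e1
  have hDD : Di * D = 1 := by
    simp only [Di, D, Matrix.diagonal_mul_diagonal]
    rw [← Matrix.diagonal_one]
    congr 1
    funext i
    fin_cases i
    · simp only [Fin.zero_eta, Matrix.cons_val_zero]
      rw [mul_comm]
      exact hlam2
    · simp
  have d00 : D 0 0 = lam := by simp [D]
  have d01 : D 0 1 = 0 := by simp [D]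
  have d10 : D 1 0 = 0 := by simp [D]
  have d11 : D 1 1 = 1 := by simp [D]
  have hBS : ∀ z, Bt (z + θ) * S z = star (κ z) • (D * Bt z) := by
    intro z
    have e1 := h1 z
    have e2 := h2 z
    have e3 := h3 z
    have e4 := hκ1 z
    have f1 : (u (z + θ) : ℂ) * star (p z) + star (v (z + θ)) * q z = star (κ z) * u z := by
      have := congrArg star e1
      simp only [star_add, star_mul', star_star, su] at this
      exact this
    have f2 : (u (z + θ) : ℂ) * star (q z) + star (v (z + θ)) * p z = star (κ z) * star (v z) := by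
      have := congrArg star e2
      simp only [star_add, star_mul', star_star, su] at this
      exact this
    have e5 : c (z + θ) * κ z = lam * c z * star (κ z) := by
      linear_combination star (κ z) * e3 - c (z + θ) * κ z * e4
    ext i j
    fin_cases i <;> fin_cases j <;>
      simp only [Bt, S, Matrix.mul_apply, Fin.sum_univ_two, Matrix.of_apply, Matrix.cons_val',
        Matrix.cons_val_zero, Matrix.cons_val_one, Fin.zero_eta, Fin.mk_one,
        Fin.isValue, Matrix.cons_val_fin_one, Matrix.smul_apply, smul_eq_mul, d00, d01, d10, d11]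
    · linear_combination c (z + θ) * e1 + u z * e5
    · linear_combination c (z + θ) * e2 + v z * e5
    · linear_combination f2
    · linear_combination f1
  have hSB : ∀ z, Si z * Bi (z + θ) = κ z • (Bi z * Di) := by
    intro z
    have a1 : (Bt (z + θ) * S z) * (Si z * Bi (z + θ)) = 1 := by
      rw [Matrix.mul_assoc, ← Matrix.mul_assoc (S z), hSS, Matrix.one_mul, hBB]
    have a2 : (κ z • (Bi z * Di)) * (Bt (z + θ) * S z) = 1 := by
      rw [hBS, Matrix.smul_mul, Matrix.mul_smul, smul_smul, hκ1, one_smul, Matrix.mul_assoc,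
        ← Matrix.mul_assoc Di, hDD, Matrix.one_mul, hBB']
    calc Si z * Bi (z + θ) = ((κ z • (Bi z * Di)) * (Bt (z + θ) * S z)) * (Si z * Bi (z + θ)) := by
          rw [a2, Matrix.one_mul]
      _ = κ z • (Bi z * Di) := by rw [Matrix.mul_assoc, a1, Matrix.mul_one]
  let AS : (Fin m → ℝ) → Matrix (Fin 2 × Fin 2) (Fin 2 × Fin 2) ℂ := fun z => S z ⊗ₖ (Si z).transpose
  let AB : (Fin m → ℝ) → Matrix (Fin 2 × Fin 2) (Fin 2 × Fin 2) ℂ := fun z =>
    Bt z ⊗ₖ (Bi z).transpose
  have hcoe : Continuous (fun z => (u z : ℂ)) := Complex.continuous_ofReal.comp hu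
  have hABu : ∀ z, IsUnit (AB z) := by
    intro z
    have t : AB z * ((Bi z) ⊗ₖ (Bt z).transpose) = 1 := by
      simp only [AB]
      rw [← Matrix.mul_kronecker_mul, hBB, ← Matrix.transpose_mul, hBB, Matrix.transpose_one,
        Matrix.one_kronecker_one]
    exact IsUnit.of_mul_eq_one _ t
  have hconj : ∀ z, AB (z + θ) * AS z = cD (lamA lam) * AB z := by
    intro z
    simp only [AB, AS]
    rw [← Matrix.mul_kronecker_mul, ← Matrix.transpose_mul, hBS, hSB, Matrix.transpose_smul,
      Matrix.smul_kronecker, Matrix.kronecker_smul, smul_smul, mul_comm (star (κ z)), hκ1, one_smul,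
      Matrix.transpose_mul, Matrix.mul_kronecker_mul]
    congr 1
    simp only [D, Di, Matrix.diagonal_transpose, Matrix.diagonal_kronecker_diagonal, cD]
    congr 1
    funext ab
    rcases ab with ⟨i, j⟩
    fin_cases i <;> fin_cases j <;> simp [lamA]
  have hASs : ∀ i j, Smo (fun z => AS z i j) := by
    have hsp : Smo (fun z => star (p z)) := by
      exact (Complex.conjCLE.contDiff).comp hp
    have hsq : Smo (fun z => star (q z)) := by
      exact (Complex.conjCLE.contDiff).comp hq
    have hSs : ∀ i j, Smo (fun z => S z i j) := by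
      intro i j
      fin_cases i <;> fin_cases j
      · exact hp
      · exact hq
      · exact hsq
      · exact hsp
    have hSis : ∀ i j, Smo (fun z => Si z i j) := by
      intro i j
      fin_cases i <;> fin_cases j
      · exact hsp
      · exact hq.neg
      · exact hsq.neg
      · exact hp
    intro i j
    exact (hSs i.1 j.1).mul (hSis j.2 i.2)
  have hASp : Per AS := by
    intro z k
    simp only [AS, S, Si, hpp z k, hqp z k]
  have hABc : ∀ i j, Continuous (fun z => AB z i j) := by
    have hsv : Continuous (fun z => star (v z)) := continuous_star.comp hv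
    have hsc : Continuous (fun z => star (c z)) := continuous_star.comp hc
    have hBc : ∀ i j, Continuous (fun z => Bt z i j) := by
      intro i j
      fin_cases i <;> fin_cases j
      · exact hc.mul hcoe
      · exact hc.mul hv
      · exact hsv
      · exact hcoe
    have hBic : ∀ i j, Continuous (fun z => Bi z i j) := by
      intro i j
      fin_cases i <;> fin_cases j
      · exact hcoe.mul hsc
      · exact hv.neg
      · exact (hsv.mul hsc).neg
      · exact hcoe
    intro i j
    exact (hBc i.1 j.1).mul (hBic j.2 i.2)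
  have hABp : Per AB := by
    intro z k
    simp only [AB, Bt, Bi, hcp z k, hup z k, hvp z k]
  have hl : ∀ i, ‖lamA lam i‖ = 1 := by
    rintro ⟨i, j⟩
    fin_cases i <;> fin_cases j <;> simp [lamA, hlam]
  have hAB := TRL_rig θ (lamA lam) hl AS AB hASs hASp hABc hABp hABu hconj hc₀ hd
  have g1 : Smo (fun z => ((u z ^ 2 : ℝ) : ℂ)) := by
    have t := hAB (0, 0) (0, 0)
    have e : (fun z => AB z (0, 0) (0, 0)) = fun z => ((u z ^ 2 : ℝ) : ℂ) := by
      funext z
      have e2 := hc2 z
      simp only [AB, Matrix.kroneckerMap_apply, Matrix.transpose_apply, Bt, Bi, Matrix.of_apply,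
        Matrix.cons_val', Matrix.cons_val_zero, Matrix.cons_val_fin_one]
      push_cast
      linear_combination (u z : ℂ) ^ 2 * e2
    rwa [e] at t
  have g2 : Smo (fun z => c z * (u z : ℂ) ^ 2) := by
    have t := hAB (0, 1) (0, 1)
    have e : (fun z => AB z (0, 1) (0, 1)) = fun z => c z * (u z : ℂ) ^ 2 := by
      funext z
      simp only [AB, Matrix.kroneckerMap_apply, Matrix.transpose_apply, Bt, Bi, Matrix.of_apply,
        Matrix.cons_val', Matrix.cons_val_zero, Matrix.cons_val_one, Matrix.cons_val_fin_one]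
      ring
    rwa [e] at t
  have g3 : Smo (fun z => star (v z) * (u z : ℂ)) := by
    have t := hAB (1, 1) (0, 1)
    have e : (fun z => AB z (1, 1) (0, 1)) = fun z => star (v z) * (u z : ℂ) := by
      funext z
      simp only [AB, Matrix.kroneckerMap_apply, Matrix.transpose_apply, Bt, Bi, Matrix.of_apply,
        Matrix.cons_val', Matrix.cons_val_zero, Matrix.cons_val_one, Matrix.cons_val_fin_one]
    rwa [e] at t
  have k1 : Smo (fun z => u z ^ 2) := by
    have t : (fun z => u z ^ 2) = fun z => Complex.reCLM ((u z ^ 2 : ℝ) : ℂ) := by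
      funext z
      rw [Complex.reCLM_apply, Complex.ofReal_re]
    rw [t]
    exact (ContinuousLinearMap.contDiff _).comp g1
  have k2 : Smo u := by
    have t : u = fun z => Real.sqrt (u z ^ 2) := by
      funext z
      rw [Real.sqrt_sq (hu0 z).le]
    rw [t]
    exact k1.sqrt (fun z => pow_ne_zero 2 (hu0 z).ne')
  have k3 : Smo (fun z => (u z : ℂ)) := by
    exact (Complex.ofRealCLM.contDiff).comp k2
  have une : ∀ z, (u z : ℂ) ≠ 0 := fun z => by exact_mod_cast (hu0 z).ne'
  refine ⟨k2, ?_, ?_⟩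
  · have t : v = fun z => star ((star (v z) * (u z : ℂ)) * ((u z : ℂ))⁻¹) := by
      funext z
      rw [mul_assoc, mul_inv_cancel₀ (une z), mul_one, star_star]
    rw [t]
    exact (Complex.conjCLE.contDiff).comp (g3.mul (k3.inv une))
  · have t : c = fun z => (c z * (u z : ℂ) ^ 2) * ((u z : ℂ) ^ 2)⁻¹ := by
      funext z
      rw [mul_assoc, mul_inv_cancel₀ (pow_ne_zero 2 (une z)), mul_one]
    rw [t]
    exact g2.mul ((k3.pow 2).inv (fun z => pow_ne_zero 2 (une z)))

end QPR
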