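import Pool.Agent.Lib.QPR.TInd
import Pool.Agent.Lib.QPR.TRL

set_option autoImplicit false

namespace QPR

variable {d m : ℕ} {α : Fin d → ℝ} {f h : UnitAddTorus (Fin d) ≃ₜ UnitAddTorus (Fin d)}
  {l : Fin d → (Fin d → ℤ)} {P Q : Fin d → UnitAddTorus (Fin d) → ℂ}

/-- extension by zero of the first `m` coordinates. -/
noncomputable def extT {d : ℕ} (m : ℕ) (z : Fin m → ℝ) : UnitAddTorus (Fin d) :=
  fun i => if hi : (i : ℕ) < m then ((z ⟨i, hi⟩ : ℝ) : UnitAddCircle) else 0

/-- extension by zero as a map of real vector spaces. -/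
private def TExt_ext {d : ℕ} (m : ℕ) (z : Fin m → ℝ) : Fin d → ℝ :=
  fun i => if hi : (i : ℕ) < m then z ⟨i, hi⟩ else 0

private theorem TExt_pr (m : ℕ) (z : Fin m → ℝ) :
    (extT m z : UnitAddTorus (Fin d)) = pr (TExt_ext m z) := by
  funext i
  unfold extT pr TExt_ext
  by_cases hi : (i : ℕ) < m
  · rw [dif_pos hi, dif_pos hi]
  · rw [dif_neg hi, dif_neg hi]
    rfl

private theorem TExt_smo (m : ℕ) : ContDiff ℝ ((⊤ : ℕ∞) : WithTop ℕ∞)
    (fun z : Fin m → ℝ => (TExt_ext m z : Fin d → ℝ)) := by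
  rw [contDiff_pi]
  intro i
  unfold TExt_ext
  by_cases hi : (i : ℕ) < m
  · simp only [dif_pos hi]
    exact contDiff_apply ℝ ℝ _
  · simp only [dif_neg hi]
    exact contDiff_const

private theorem TExt_smo_comp {E : Type*} [NormedAddCommGroup E] [NormedSpace ℝ E]
    {φ : UnitAddTorus (Fin d) → E} (hφ : SmT φ) (m : ℕ) :
    Smo (fun z : Fin m → ℝ => φ (extT m z)) := by
  have h1 := ContDiff.comp (g := fun x : Fin d → ℝ => φ (pr x)) hφ (TExt_smo m)
  have h2 : (fun z : Fin m → ℝ => φ (extT m z)) =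
      (fun x : Fin d → ℝ => φ (pr x)) ∘ fun z : Fin m → ℝ => (TExt_ext m z : Fin d → ℝ) := by
    funext z
    rw [Function.comp_apply, TExt_pr]
  rw [h2]
  exact h1

private theorem TExt_cont (m : ℕ) :
    Continuous (fun z : Fin m → ℝ => (extT m z : UnitAddTorus (Fin d))) := by
  refine continuous_pi fun i => ?_
  unfold extT
  by_cases hi : (i : ℕ) < m
  · simp only [dif_pos hi]
    exact (AddCircle.continuous_mk' 1).comp (continuous_apply _)
  · simp only [dif_neg hi]
    exact continuous_const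

private theorem TExt_int (n : ℤ) : (((n : ℝ)) : UnitAddCircle) = 0 :=
  (AddCircle.coe_eq_zero_iff 1).2 ⟨n, by simp⟩

private theorem TExt_add (m : ℕ) (z w : Fin m → ℝ) (i : Fin d) :
    extT m (z + w) i = (extT m z : UnitAddTorus (Fin d)) i +
      (if hi : (i : ℕ) < m then ((w ⟨i, hi⟩ : ℝ) : UnitAddCircle) else 0) := by
  unfold extT
  by_cases hi : (i : ℕ) < m
  · rw [dif_pos hi, dif_pos hi, dif_pos hi, Pi.add_apply, AddCircle.coe_add]
  · rw [dif_neg hi, dif_neg hi, dif_neg hi, add_zero]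

private theorem TExt_per {E : Type*} (φ : UnitAddTorus (Fin d) → E) (m : ℕ) :
    Per (fun z : Fin m → ℝ => φ (extT m z)) := by
  intro z k
  have h1 : (extT m (z + fun i => (k i : ℝ)) : UnitAddTorus (Fin d)) = extT m z := by
    funext i
    rw [TExt_add]
    by_cases hi : (i : ℕ) < m
    · rw [dif_pos hi, TExt_int, add_zero]
    · rw [dif_neg hi, add_zero]
  beta_reduce
  rw [h1]

/-- a function of the first `m` coordinates is smooth if its restriction is. -/
private theorem TExt_smT {E : Type*} [NormedAddCommGroup E] [NormedSpace ℝ E]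
    {φ : UnitAddTorus (Fin d) → E} {m : ℕ} (hmd : m ≤ d) (hφ : DepLt m φ)
    (hs : Smo (fun z : Fin m → ℝ => φ (extT m z))) : SmT φ := by
  have hR : ContDiff ℝ ((⊤ : ℕ∞) : WithTop ℕ∞)
      (fun x : Fin d → ℝ => fun i : Fin m => x (Fin.castLE hmd i)) := by
    rw [contDiff_pi]
    intro i
    exact contDiff_apply ℝ ℝ _
  have h1 := ContDiff.comp hs hR
  unfold SmT
  have h2 : (fun x : Fin d → ℝ => φ (pr x)) = (fun z : Fin m → ℝ => φ (extT m z)) ∘
      fun x : Fin d → ℝ => fun i : Fin m => x (Fin.castLE hmd i) := by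
    funext x
    rw [Function.comp_apply]
    apply hφ
    intro i hi
    unfold extT
    rw [dif_pos hi]
    rfl
  rw [h2]
  exact h1

private theorem TExt_dotT (k : Fin d → ℤ) (y : UnitAddTorus (Fin d)) :
    dotT k (y + pr α) = dotT k y + ((dotZ k α : ℝ) : UnitAddCircle) := by
  have hs : ∀ (S : Finset (Fin d)) (g : Fin d → ℝ),
      ((∑ i ∈ S, g i : ℝ) : UnitAddCircle) = ∑ i ∈ S, ((g i : ℝ) : UnitAddCircle) := by
    classical
    intro S g
    induction S using Finset.induction_on with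
    | empty => rfl
    | insert a S ha ih => rw [Finset.sum_insert ha, Finset.sum_insert ha, AddCircle.coe_add, ih]
  unfold dotT dotZ
  rw [hs, ← Finset.sum_add_distrib]
  refine Finset.sum_congr rfl fun i _ => ?_
  rw [Pi.add_apply, smul_add]
  congr 1
  unfold pr
  rw [← AddCircle.coe_zsmul, zsmul_eq_mul]

private theorem TExt_coord (L : Lev m α f h l P Q) (i : Fin d) (hi : (i : ℕ) < m)
    (x : UnitAddTorus (Fin d)) : f x i = x i + ((dotZ (l i) α : ℝ) : UnitAddCircle) := by
  rw [L.low i hi (f x), L.conj x, TExt_dotT, ← L.low i hi x]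

/-- THE NEW COORDINATE IS SMOOTH. From `exists_eig`, `indep`, `dioL_of` and `smooth_uvc` (applied to
the functions composed with `extT m`, with `θ i = dotZ (l i) α`; for `φ` with `DepLt m φ` one has
`φ (f (extT m z)) = φ (extT m (z + θ))` by `Lev.coord`, and `φ (pr x) = φ (extT m (x restricted))`). -/
theorem exists_smooth (hα : DioV α) (L : Lev m α f h l P Q) (j : Fin d) (hj : (j : ℕ) = m) :
    ∃ (u : UnitAddTorus (Fin d) → ℝ) (v c : UnitAddTorus (Fin d) → ℂ) (k : Fin d → ℤ),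
      SmT u ∧ SmT v ∧ SmT c ∧ DepLt m u ∧ DepLt m v ∧ DepLt m c ∧
      (∀ x, 0 < u x) ∧ (∀ x, u x ^ 2 - ‖v x‖ ^ 2 = 1) ∧ (∀ x, ‖c x‖ = 1) ∧
      (∀ x, ee (dotT k (h x)) * (star (v x) * ee (x j) + u x)
        = c x * (u x * ee (x j) + v x)) := by
  obtain ⟨u, v, κ, c, k, hu, hv, hκ, hc, hud, hvd, hκd, hcd, hu0, hn, hκ1, hc1, e1, e2, e3, e4⟩ :=
    exists_eig hα L j hj
  have hmd : m ≤ d := by
    rw [← hj]
    exact j.2.le
  have hmj : m ≤ (j : ℕ) := hj.ge
  -- the base rotation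
  let L' : Fin m → (Fin d → ℤ) := fun i => l (Fin.castLE hmd i)
  let θ : Fin m → ℝ := fun i => dotZ (L' i) α
  have hind : ∀ (ξ : Fin m → ℤ) (e : ℤ), (∑ i, ξ i • L' i) + e • k = 0 → ξ = 0 ∧ e = 0 := by
    intro ξ e h0
    let ξ' : Fin d → ℤ := fun i => if hi : (i : ℕ) < m then ξ ⟨i, hi⟩ else 0
    have hs : ∑ i, ξ i • L' i = ∑ i, ξ' i • l i := by
      refine Fintype.sum_of_injective (Fin.castLE hmd) (Fin.castLE_injective hmd) _ _ ?_ ?_
      · intro i hi
        have hi' : ¬ (i : ℕ) < m := fun hlt => hi ⟨⟨i, hlt⟩, rfl⟩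
        change (if hi : (i : ℕ) < m then ξ ⟨i, hi⟩ else 0) • l i = 0
        rw [dif_neg hi', zero_smul]
      · intro i
        change ξ i • l (Fin.castLE hmd i) =
          (if hi : ((Fin.castLE hmd i : Fin d) : ℕ) < m then ξ ⟨(Fin.castLE hmd i : Fin d), hi⟩
            else 0) • l (Fin.castLE hmd i)
        rw [dif_pos (show ((Fin.castLE hmd i : Fin d) : ℕ) < m from i.2)]
        rfl
    rw [hs] at h0
    obtain ⟨h1, h2⟩ := indep L j hj u v c k hud hvd hcd hu0 hn hc1 e3 ξ'
      (fun i hi => dif_neg (not_lt.2 hi)) e h0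
    refine ⟨?_, h2⟩
    funext i
    have h3 := congrFun h1 (Fin.castLE hmd i)
    change (if hi : ((Fin.castLE hmd i : Fin d) : ℕ) < m then ξ ⟨(Fin.castLE hmd i : Fin d), hi⟩
            else 0) = 0 at h3
    rw [dif_pos (show ((Fin.castLE hmd i : Fin d) : ℕ) < m from i.2)] at h3
    exact h3
  obtain ⟨c₀, hc₀, τ, hd⟩ := dioL_of α hα L' k hind
  -- the base map on functions of the first `m` coordinates
  have hmove : ∀ {E : Type} (φ : UnitAddTorus (Fin d) → E), DepLt m φ → ∀ z : Fin m → ℝ,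
      φ (f (extT m z)) = φ (extT m (z + θ)) := by
    intro E φ hφ z
    apply hφ
    intro i hi
    rw [TExt_coord L i hi, TExt_add, dif_pos hi]
    rfl
  have hlam : ‖ex (dotZ k α)‖ = 1 := by
    have h1 : (2 * Real.pi * Complex.I * (dotZ k α : ℝ) : ℂ) =
        ((2 * Real.pi * dotZ k α : ℝ) : ℂ) * Complex.I := by
      push_cast
      ring
    unfold ex
    rw [h1, Complex.norm_exp_ofReal_mul_I]
  have hcomp : ∀ {E : Type} [TopologicalSpace E] (φ : UnitAddTorus (Fin d) → E), Continuous φ →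
      Continuous (fun z : Fin m → ℝ => φ (extT m z)) := by
    intro E _ φ hφ
    exact hφ.comp (TExt_cont m)
  obtain ⟨s1, s2, s3⟩ := smooth_uvc θ (ex (dotZ k α)) hlam hc₀ hd
    (fun z => P j (extT m z)) (fun z => Q j (extT m z)) (fun z => v (extT m z))
    (fun z => κ (extT m z)) (fun z => c (extT m z)) (fun z => u (extT m z))
    (TExt_smo_comp (L.smP j hmj) m) (TExt_per _ m) (TExt_smo_comp (L.smQ j hmj) m)
    (TExt_per _ m) (fun z => L.nm j hmj _) (hcomp u hu) (TExt_per _ m) (hcomp v hv)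
    (TExt_per _ m) (hcomp c hc) (TExt_per _ m) (fun z => hu0 _) (fun z => hn _)
    (fun z => hκ1 _) (fun z => hc1 _)
    (fun z => by
      have := e1 (extT m z)
      rw [hmove u hud, hmove v hvd] at this
      exact this)
    (fun z => by
      have := e2 (extT m z)
      rw [hmove u hud, hmove v hvd] at this
      exact this)
    (fun z => by
      have := e4 (extT m z)
      rw [hmove c hcd] at this
      exact this)
  exact ⟨u, v, c, k, TExt_smT hmd hud s1, TExt_smT hmd hvd s2, TExt_smT hmd hcd s3, hud, hvd, hcd,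
    hu0, hn, hc1, e3⟩

end QPR
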