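import Pool.Agent.Lib.QPR.TStep

set_option autoImplicit false

namespace QPR

variable {d : ℕ} {α : Fin d → ℝ} {f h : UnitAddTorus (Fin d) ≃ₜ UnitAddTorus (Fin d)}
  {l : Fin d → (Fin d → ℤ)} {P Q : Fin d → UnitAddTorus (Fin d) → ℂ}

private theorem TFin_dotT {d : ℕ} (k : Fin d → ℤ) (x : Fin d → ℝ) :
    dotT k (pr x) = ((∑ j, (k j : ℝ) * x j : ℝ) : UnitAddCircle) := by
  unfold dotT pr
  have h1 : ((∑ j, (k j : ℝ) * x j : ℝ) : UnitAddCircle) =
      ∑ j, (((k j : ℝ) * x j : ℝ) : UnitAddCircle) :=
    map_sum (QuotientAddGroup.mk' (AddSubgroup.zmultiples (1 : ℝ))) _ _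
  rw [h1]
  refine Finset.sum_congr rfl fun j _ => ?_
  rw [← AddCircle.coe_zsmul, zsmul_eq_mul]

private theorem TFin_comp {d : ℕ} {H K : UnitAddTorus (Fin d) → UnitAddTorus (Fin d)}
    (hH : SmM H) (hK : SmM K) : SmM (fun y => H (K y)) :=
  fun φ hφ => hK (fun y => φ (H y)) (hH φ hφ)

private theorem TFin_lin {d : ℕ} (c : Fin d → ℝ) :
    ContDiff ℝ ((⊤ : ℕ∞) : WithTop ℕ∞) (fun x : Fin d → ℝ => ex (∑ j, c j * x j)) := by
  unfold ex
  have h1 : ContDiff ℝ ((⊤ : ℕ∞) : WithTop ℕ∞) (fun x : Fin d → ℝ => ∑ j, c j * x j) :=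
    ContDiff.sum fun j _ => contDiff_const.mul (contDiff_apply ℝ ℝ j)
  have h2 : ContDiff ℝ ((⊤ : ℕ∞) : WithTop ℕ∞)
      (fun x : Fin d → ℝ => ((∑ j, c j * x j : ℝ) : ℂ)) := Complex.ofRealCLM.contDiff.comp h1
  exact (contDiff_const.mul h2).cexp

/-- The last level. If every coordinate is an integer combination of the coordinates of `h`, then
`h⁻¹ y = (dotT (l i) y)_i` is the linear map of the integer matrix `l`; it is a bijection of the
torus, so the real matrix `l` is invertible (a real kernel vector would give a one-parameter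
subgroup in the kernel), and `h (pr x) = pr (l⁻¹ x)` for the real inverse matrix (both sides have the
same image under the injective map `h⁻¹`). Hence `h` and `h⁻¹` are smooth. -/
theorem lev_top (L : Lev d α f h l P Q) : SmM h ∧ SmM h.symm := by
  have hsym : ∀ y, ∀ i, h.symm y i = dotT (l i) y := by
    intro y i
    have := L.low i i.isLt (h.symm y)
    rwa [h.apply_symm_apply] at this
  have hpr : ∀ (x : Fin d → ℝ) (i : Fin d),
      h.symm (pr x) i = ((∑ j, (l i j : ℝ) * x j : ℝ) : UnitAddCircle) := fun x i => by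
    rw [hsym, TFin_dotT]
  let A : Matrix (Fin d) (Fin d) ℝ := fun i j => (l i j : ℝ)
  have hA : ∀ (x : Fin d → ℝ), h.symm (pr x) = pr (A.mulVec x) := fun x => by
    funext i
    rw [hpr]
    rfl
  -- the real matrix is invertible
  have hdet : A.det ≠ 0 := by
    intro h0
    obtain ⟨v, hv, hv0⟩ := Matrix.exists_mulVec_eq_zero_iff.mpr h0
    apply hv
    funext j
    by_contra hj
    have h1 : ∀ s : ℝ, pr (s • v) = pr (0 : Fin d → ℝ) := by
      intro s
      apply h.symm.injective
      rw [hA, hA, Matrix.mulVec_smul, hv0, smul_zero, Matrix.mulVec_zero]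
    have h2 := congrFun (h1 (1 / (2 * v j))) j
    have h3 : (((1 / 2 : ℝ)) : UnitAddCircle) = ((0 : ℝ) : UnitAddCircle) := by
      have h4 : (1 / (2 * v j)) * v j = 1 / 2 := by
        have : v j ≠ 0 := hj
        field_simp
      rw [← h4]
      exact h2
    rw [AddCircle.coe_zero] at h3
    obtain ⟨n, hn⟩ := (AddCircle.coe_eq_zero_iff (1 : ℝ)).mp h3
    rw [zsmul_eq_mul, mul_one] at hn
    have h5 : ((2 * n : ℤ) : ℝ) = ((1 : ℤ) : ℝ) := by push_cast; linarith
    have h6 : (2 * n : ℤ) = 1 := by exact_mod_cast h5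
    omega
  have hh : ∀ x : Fin d → ℝ, h (pr x) = pr (A⁻¹.mulVec x) := by
    intro x
    apply h.symm.injective
    rw [h.symm_apply_apply, hA, Matrix.mulVec_mulVec, Matrix.mul_nonsing_inv _
      (isUnit_iff_ne_zero.mpr hdet), Matrix.one_mulVec]
  refine ⟨smM_of_coord h h.continuous fun i => ?_,
    smM_of_coord h.symm h.symm.continuous fun i => ?_⟩
  · unfold SmT
    have h1 : (fun x : Fin d → ℝ => ee (h (pr x) i)) =
        fun x => ex (∑ j, A⁻¹ i j * x j) := by
      funext x
      rw [hh]
      change ee ((A⁻¹.mulVec x i : ℝ) : UnitAddCircle) = _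
      rw [ee_coe]
      rfl
    rw [h1]
    exact TFin_lin _
  · unfold SmT
    have h1 : (fun x : Fin d → ℝ => ee (h.symm (pr x) i)) =
        fun x => ex (∑ j, (l i j : ℝ) * x j) := by
      funext x
      rw [hpr, ee_coe]
    rw [h1]
    exact TFin_lin _

/-- Induction from level `0` to level `d` with `lev_step`. -/
theorem smooth_of_lev (hα : DioV α) (L : Lev 0 α f h l P Q) : SmM h ∧ SmM h.symm := by
  have key : ∀ k m : ℕ, m + k = d → ∀ (f h : UnitAddTorus (Fin d) ≃ₜ UnitAddTorus (Fin d))
      (l : Fin d → (Fin d → ℤ)) (P Q : Fin d → UnitAddTorus (Fin d) → ℂ),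
      Lev m α f h l P Q → SmM h ∧ SmM h.symm := by
    intro k
    induction k with
    | zero =>
      intro m hm f h l P Q L
      have : m = d := by omega
      subst this
      exact lev_top L
    | succ k ih =>
      intro m hm f h l P Q L
      obtain ⟨G, hG, hG', l', P', Q', L'⟩ := lev_step hα L (by omega)
      obtain ⟨h1, h2⟩ := ih (m + 1) (by omega) _ _ _ _ _ L'
      constructor
      · have h3 := TFin_comp h1 hG
        have h4 : (fun y => (G.symm.trans h) (G y)) = h := by
          funext y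
          change h (G.symm (G y)) = h y
          rw [G.symm_apply_apply]
        rwa [h4] at h3
      · have h3 := TFin_comp hG' h2
        have h4 : (fun y => G.symm ((G.symm.trans h).symm y)) = h.symm := by
          funext y
          change G.symm (G (h.symm y)) = h.symm y
          rw [G.symm_apply_apply]
        rwa [h4] at h3
  exact key d 0 (by omega) f h l P Q L

end QPR
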