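import Pool.Agent.Lib.QPR.TBd
import Pool.Agent.Lib.QPR.TMin

set_option autoImplicit false

namespace QPR

variable {d m : ℕ} {α : Fin d → ℝ} {f h : UnitAddTorus (Fin d) ≃ₜ UnitAddTorus (Fin d)}
  {l : Fin d → (Fin d → ℤ)} {P Q : Fin d → UnitAddTorus (Fin d) → ℂ}

private theorem TForm_nsq (z : ℂ) : ((‖z‖ ^ 2 : ℝ) : ℂ) = z * star z := by
  rw [Complex.ofReal_pow]
  exact (Complex.mul_conj' z).symm

private theorem TForm_re (z : ℂ) : ((2 * z.re : ℝ) : ℂ) = z + star z := by
  apply Complex.ext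
  · simp
    ring
  · simp

private theorem TForm_alg1 (a b p q : ℂ) :
    ‖a * p + b * star q‖ ^ 2 + ‖a * q + b * star p‖ ^ 2 =
      (‖a‖ ^ 2 + ‖b‖ ^ 2) * (‖p‖ ^ 2 + ‖q‖ ^ 2) +
        2 * ((2 * star a * b) * star p * star q).re := by
  apply Complex.ofReal_injective
  rw [Complex.ofReal_add, TForm_nsq, TForm_nsq, Complex.ofReal_add, Complex.ofReal_mul,
    Complex.ofReal_add, Complex.ofReal_add, TForm_nsq, TForm_nsq, TForm_nsq, TForm_nsq, TForm_re]
  have h2 : star (2 : ℂ) = 2 := by simp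
  simp only [star_add, star_mul', star_star, h2]
  ring

private theorem TForm_alg2 (a b p q : ℂ) :
    2 * star (a * p + b * star q) * (a * q + b * star p) =
      2 * ((‖a‖ ^ 2 + ‖b‖ ^ 2 : ℝ) : ℂ) * star p * q + (2 * star a * b) * star p ^ 2 +
        star (2 * star a * b) * q ^ 2 := by
  have h2 : star (2 : ℂ) = 2 := by simp
  rw [Complex.ofReal_add, TForm_nsq, TForm_nsq]
  simp only [star_add, star_mul', star_star, h2]
  ring

private theorem TForm_det (s : ℝ) (t p q : ℂ) (hpq : ‖p‖ ^ 2 - ‖q‖ ^ 2 = 1) :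
    (s * (‖p‖ ^ 2 + ‖q‖ ^ 2) + 2 * (t * star p * star q).re) ^ 2 -
      ‖2 * (s : ℂ) * star p * q + t * star p ^ 2 + star t * q ^ 2‖ ^ 2 = s ^ 2 - ‖t‖ ^ 2 := by
  have e2 : p * star p - q * star q = 1 := by
    rw [← TForm_nsq, ← TForm_nsq, ← Complex.ofReal_sub, hpq, Complex.ofReal_one]
  have h2 : star (2 : ℂ) = 2 := by simp
  have hs : star (s : ℂ) = (s : ℂ) := Complex.conj_ofReal s
  apply Complex.ofReal_injective
  rw [Complex.ofReal_sub, Complex.ofReal_sub, TForm_nsq, TForm_nsq, Complex.ofReal_pow,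
    Complex.ofReal_add, Complex.ofReal_mul, Complex.ofReal_add, TForm_nsq, TForm_nsq, TForm_re,
    Complex.ofReal_pow]
  simp only [star_add, star_mul', star_star, star_pow, h2, hs]
  linear_combination ((s : ℂ) ^ 2 - t * star t) * (p * star p - q * star q + 1) * e2

/-- the form `s`. -/
private noncomputable def TForm_s (f : UnitAddTorus (Fin d) → UnitAddTorus (Fin d))
    (p q : UnitAddTorus (Fin d) → ℂ) (n : ℕ) (x : UnitAddTorus (Fin d)) : ℝ :=
  ‖(itPQ f p q n x).1‖ ^ 2 + ‖(itPQ f p q n x).2‖ ^ 2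

/-- the form `t`. -/
private noncomputable def TForm_t (f : UnitAddTorus (Fin d) → UnitAddTorus (Fin d))
    (p q : UnitAddTorus (Fin d) → ℂ) (n : ℕ) (x : UnitAddTorus (Fin d)) : ℂ :=
  2 * star (itPQ f p q n x).1 * (itPQ f p q n x).2

private theorem TForm_rs (f : UnitAddTorus (Fin d) → UnitAddTorus (Fin d))
    (p q : UnitAddTorus (Fin d) → ℂ) (n : ℕ) (x : UnitAddTorus (Fin d)) :
    TForm_s f p q (n + 1) x = TForm_s f p q n (f x) * (‖p x‖ ^ 2 + ‖q x‖ ^ 2) +
      2 * (TForm_t f p q n (f x) * star (p x) * star (q x)).re :=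
  TForm_alg1 _ _ _ _

private theorem TForm_rt (f : UnitAddTorus (Fin d) → UnitAddTorus (Fin d))
    (p q : UnitAddTorus (Fin d) → ℂ) (n : ℕ) (x : UnitAddTorus (Fin d)) :
    TForm_t f p q (n + 1) x = 2 * ((TForm_s f p q n (f x) : ℝ) : ℂ) * star (p x) * q x +
      TForm_t f p q n (f x) * star (p x) ^ 2 + star (TForm_t f p q n (f x)) * q x ^ 2 :=
  TForm_alg2 _ _ _ _

private theorem TForm_lim {E : Type*} [NormedAddCommGroup E] [ProperSpace E]
    (U : Ultrafilter ℕ) (a : ℕ → E) (C : ℝ) (ha : ∀ n, ‖a n‖ ≤ C) :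
    ∃ z : E, Filter.Tendsto a U (nhds z) := by
  have hK : IsCompact (Metric.closedBall (0 : E) C) := isCompact_closedBall 0 C
  obtain ⟨z, -, hz⟩ := hK.ultrafilter_le_nhds (U.map a) (by
    rw [Filter.le_principal_iff, Ultrafilter.coe_map, Filter.mem_map]
    exact Filter.univ_mem' fun n => by
      rw [Set.mem_preimage, mem_closedBall_zero_iff]
      exact ha n)
  exact ⟨z, hz⟩

/-- averages -/
private noncomputable def TForm_av {E : Type*} [NormedAddCommGroup E] [NormedSpace ℝ E]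
    (a : ℕ → E) (N : ℕ) : E := ((N : ℝ) + 1)⁻¹ • ∑ n ∈ Finset.range (N + 1), a n

private theorem TForm_av_norm {E : Type*} [NormedAddCommGroup E] [NormedSpace ℝ E]
    (a : ℕ → E) (b : ℕ → ℝ) (ha : ∀ n, ‖a n‖ ≤ b n) (N : ℕ) : ‖TForm_av a N‖ ≤ TForm_av b N := by
  have hN : (0 : ℝ) < (N : ℝ) + 1 := by positivity
  unfold TForm_av
  rw [norm_smul, Real.norm_of_nonneg (inv_pos.mpr hN).le, smul_eq_mul]
  exact mul_le_mul_of_nonneg_left ((norm_sum_le _ _).trans (Finset.sum_le_sum fun n _ => ha n))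
    (inv_pos.mpr hN).le

private theorem TForm_av_const (C : ℝ) (N : ℕ) : TForm_av (fun _ => C) N = C := by
  have hN : ((N : ℝ) + 1) ≠ 0 := by positivity
  unfold TForm_av
  rw [Finset.sum_const, Finset.card_range, nsmul_eq_mul, smul_eq_mul]
  push_cast
  field_simp

private theorem TForm_av_le {E : Type*} [NormedAddCommGroup E] [NormedSpace ℝ E]
    (a : ℕ → E) (C : ℝ) (ha : ∀ n, ‖a n‖ ≤ C) (N : ℕ) : ‖TForm_av a N‖ ≤ C := by
  have := TForm_av_norm a (fun _ => C) ha N
  rwa [TForm_av_const] at this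

private theorem TForm_av_sub {E : Type*} [NormedAddCommGroup E] [NormedSpace ℝ E]
    (a b : ℕ → E) (N : ℕ) : TForm_av (fun n => a n - b n) N = TForm_av a N - TForm_av b N := by
  unfold TForm_av
  rw [Finset.sum_sub_distrib, smul_sub]

private theorem TForm_av_tel {E : Type*} [NormedAddCommGroup E] [NormedSpace ℝ E]
    (a : ℕ → E) (C : ℝ) (ha : ∀ n, ‖a n‖ ≤ C) :
    Filter.Tendsto (fun N => TForm_av (fun n => a (n + 1)) N - TForm_av a N) Filter.atTop
      (nhds 0) := by
  have h1 : ∀ N, TForm_av (fun n => a (n + 1)) N - TForm_av a N =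
      ((N : ℝ) + 1)⁻¹ • (a (N + 1) - a 0) := by
    intro N
    unfold TForm_av
    rw [← smul_sub, ← Finset.sum_sub_distrib, Finset.sum_range_sub]
  have h2 : Filter.Tendsto (fun N : ℕ => ((N : ℝ) + 1)⁻¹ * (2 * C)) Filter.atTop (nhds 0) := by
    have h3 := tendsto_one_div_add_atTop_nhds_zero_nat (𝕜 := ℝ)
    have h4 := h3.mul_const (2 * C)
    rw [zero_mul] at h4
    refine h4.congr fun N => ?_
    rw [one_div]
  refine squeeze_zero_norm (fun N => ?_) h2
  have hN : (0 : ℝ) < (N : ℝ) + 1 := by positivity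
  rw [h1, norm_smul, Real.norm_of_nonneg (inv_pos.mpr hN).le]
  refine mul_le_mul_of_nonneg_left ?_ (inv_pos.mpr hN).le
  calc ‖a (N + 1) - a 0‖ ≤ ‖a (N + 1)‖ + ‖a 0‖ := norm_sub_le _ _
    _ ≤ C + C := add_le_add (ha _) (ha _)
    _ = 2 * C := by ring

private theorem TForm_gap {a b : ℂ} {C : ℝ} (h : ‖a‖ ^ 2 - ‖b‖ ^ 2 = 1) (hC : ‖a‖ ^ 2 ≤ C) :
    ‖2 * star a * b‖ ≤ (‖a‖ ^ 2 + ‖b‖ ^ 2) - 1 / (4 * C) := by
  rw [norm_mul, norm_mul, norm_star, Complex.norm_ofNat]
  set x := ‖a‖ with hx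
  set y := ‖b‖ with hy
  have hx0 : 0 ≤ x := norm_nonneg a
  have hy0 : 0 ≤ y := norm_nonneg b
  have hx1 : 1 ≤ x := by nlinarith
  have hC0 : 0 < C := by nlinarith
  have hyx : y ≤ x := by nlinarith
  have h1 : 1 / (4 * C) ≤ (x - y) ^ 2 := by
    rw [div_le_iff₀ (by positivity)]
    have h2 : (x - y) * (x + y) = 1 := by linarith
    have h3 : (x + y) ^ 2 ≤ 4 * C := by nlinarith
    have h4 : 1 = (x - y) ^ 2 * (x + y) ^ 2 := by
      rw [← mul_pow, h2, one_pow]
    calc (1 : ℝ) = (x - y) ^ 2 * (x + y) ^ 2 := h4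
      _ ≤ (x - y) ^ 2 * (4 * C) := mul_le_mul_of_nonneg_left h3 (sq_nonneg _)
  nlinarith

/-- An invariant continuous Hermitian form `[[s, t], [star t, s]]` of determinant one. Let
`s_n = ‖p_n‖^2 + ‖q_n‖^2`, `t_n = 2 star p_n q_n` (`S_n^* S_n = [[s_n, t_n], [star t_n, s_n]]`); from
`S_{n+1} (x) = S_n (f x) S (x)`:
`s_{n+1} x = s_n (f x) (‖p‖^2 + ‖q‖^2) + 2 Re (t_n (f x) star p star q)`,
`t_{n+1} x = 2 s_n (f x) star p q + t_n (f x) (star p)^2 + star (t_n (f x)) q^2`.
Take the limit along an ultrafilter on `ℕ` (finer than `atTop`) of the averages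
`(1/N) ∑_{n<N} s_n x`, `(1/N) ∑_{n<N} t_n x` (bounded): the limits `s`, `t` are continuous
(`form_equi`), depend on the first `m` coordinates only, and satisfy the same relation without index
(the averages of `n` and `n+1` differ by `O (1/N)`). `s_n - |t_n| = (‖p_n‖ - ‖q_n‖)^2 ≥ 1/(4C)`, so
`s - |t| > 0`, `s > 0`; `s^2 - |t|^2` is continuous, positive and `f`-invariant
(determinants), hence constant (`inv_const`); divide by its square root. -/
theorem exists_form (hα : DioV α) (L : Lev m α f h l P Q) (j : Fin d) (hj : (j : ℕ) = m) :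
    ∃ (s : UnitAddTorus (Fin d) → ℝ) (t : UnitAddTorus (Fin d) → ℂ),
      Continuous s ∧ Continuous t ∧ DepLt m s ∧ DepLt m t ∧ (∀ x, 0 < s x) ∧
      (∀ x, s x ^ 2 - ‖t x‖ ^ 2 = 1) ∧
      (∀ x, s x = s (f x) * (‖P j x‖ ^ 2 + ‖Q j x‖ ^ 2)
        + 2 * (t (f x) * star (P j x) * star (Q j x)).re) ∧
      (∀ x, t x = 2 * (s (f x) : ℂ) * star (P j x) * Q j x + t (f x) * star (P j x) ^ 2
        + star (t (f x)) * Q j x ^ 2) := by
  obtain ⟨C, hC1, hC⟩ := itPQ_bd L j hj
  have hC0 : 0 < C := by linarith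
  set U : Ultrafilter ℕ := Ultrafilter.of Filter.atTop with hU
  have hUle : (U : Filter ℕ) ≤ Filter.atTop := Ultrafilter.of_le _
  -- bounds
  have hsb : ∀ x n, ‖TForm_s f (P j) (Q j) n x‖ ≤ 2 * C := by
    intro x n
    have h1 := hC n x
    have h2 := itPQ_nm L j hj n x
    unfold TForm_s
    rw [Real.norm_of_nonneg (by positivity)]
    linarith
  have hgap : ∀ x n, ‖TForm_t f (P j) (Q j) n x‖ ≤ TForm_s f (P j) (Q j) n x - 1 / (4 * C) :=
    fun x n => TForm_gap (itPQ_nm L j hj n x) (hC n x)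
  have hc0 : 0 < 1 / (4 * C) := by positivity
  have htb : ∀ x n, ‖TForm_t f (P j) (Q j) n x‖ ≤ 2 * C := by
    intro x n
    have h1 := hgap x n
    have h2 := hsb x n
    have h3 := Real.le_norm_self (TForm_s f (P j) (Q j) n x)
    linarith
  -- limits
  have hSe : ∀ x, ∃ z : ℝ, Filter.Tendsto (TForm_av (fun n => TForm_s f (P j) (Q j) n x)) U
      (nhds z) := fun x => TForm_lim U _ (2 * C) (TForm_av_le _ _ (hsb x))
  have hTe : ∀ x, ∃ z : ℂ, Filter.Tendsto (TForm_av (fun n => TForm_t f (P j) (Q j) n x)) U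
      (nhds z) := fun x => TForm_lim U _ (2 * C) (TForm_av_le _ _ (htb x))
  choose S hS using hSe
  choose T hT using hTe
  -- dependence
  have hSd : DepLt m S := by
    intro x x' hx
    have h1 := hS x
    have h2 : (fun n => TForm_s f (P j) (Q j) n x) = fun n => TForm_s f (P j) (Q j) n x' := by
      funext n
      unfold TForm_s
      rw [itPQ_dep L j hj n x x' hx]
    rw [h2] at h1
    exact tendsto_nhds_unique h1 (hS x')
  have hTd : DepLt m T := by
    intro x x' hx
    have h1 := hT x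
    have h2 : (fun n => TForm_t f (P j) (Q j) n x) = fun n => TForm_t f (P j) (Q j) n x' := by
      funext n
      unfold TForm_t
      rw [itPQ_dep L j hj n x x' hx]
    rw [h2] at h1
    exact tendsto_nhds_unique h1 (hT x')
  -- continuity
  have hScont : Continuous S := by
    rw [Metric.continuous_iff]
    intro y ε hε
    obtain ⟨δ, hδ, hd⟩ := form_equi L j hj (ε / 2) (by positivity)
    refine ⟨δ, hδ, fun x hx => ?_⟩
    have h1 : Filter.Tendsto (fun N => TForm_av (fun n => TForm_s f (P j) (Q j) n x) N -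
        TForm_av (fun n => TForm_s f (P j) (Q j) n y) N) U (nhds (S x - S y)) :=
      (hS x).sub (hS y)
    have h2 : ‖S x - S y‖ ≤ ε / 2 := by
      refine le_of_tendsto h1.norm (Filter.Eventually.of_forall fun N => ?_)
      rw [← TForm_av_sub]
      refine TForm_av_le _ _ (fun n => ?_) N
      rw [Real.norm_eq_abs]
      exact (hd n x y hx).1.le
    rw [dist_eq_norm]
    linarith
  have hTcont : Continuous T := by
    rw [Metric.continuous_iff]
    intro y ε hε
    obtain ⟨δ, hδ, hd⟩ := form_equi L j hj (ε / 4) (by positivity)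
    refine ⟨δ, hδ, fun x hx => ?_⟩
    have h1 : Filter.Tendsto (fun N => TForm_av (fun n => TForm_t f (P j) (Q j) n x) N -
        TForm_av (fun n => TForm_t f (P j) (Q j) n y) N) U (nhds (T x - T y)) :=
      (hT x).sub (hT y)
    have h2 : ‖T x - T y‖ ≤ ε / 2 := by
      refine le_of_tendsto h1.norm (Filter.Eventually.of_forall fun N => ?_)
      rw [← TForm_av_sub]
      refine TForm_av_le _ _ (fun n => ?_) N
      have h3 : TForm_t f (P j) (Q j) n x - TForm_t f (P j) (Q j) n y =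
          2 * (star (itPQ f (P j) (Q j) n x).1 * (itPQ f (P j) (Q j) n x).2
            - star (itPQ f (P j) (Q j) n y).1 * (itPQ f (P j) (Q j) n y).2) := by
        unfold TForm_t
        ring
      rw [h3, norm_mul, Complex.norm_ofNat]
      have := (hd n x y hx).2
      linarith
    rw [dist_eq_norm]
    linarith
  -- gap
  have hST : ∀ x, ‖T x‖ ≤ S x - 1 / (4 * C) := by
    intro x
    refine le_of_tendsto_of_tendsto (hT x).norm ((hS x).sub_const (1 / (4 * C)))
      (Filter.Eventually.of_forall fun N => ?_)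
    have h1 := TForm_av_norm _ _ (hgap x) N
    rw [TForm_av_sub, TForm_av_const] at h1
    exact h1
  have hSpos : ∀ x, 0 < S x := fun x => by
    have := hST x
    have := norm_nonneg (T x)
    linarith
  -- recurrences
  have hrS : ∀ x, S x = S (f x) * (‖P j x‖ ^ 2 + ‖Q j x‖ ^ 2)
        + 2 * (T (f x) * star (P j x) * star (Q j x)).re := by
    intro x
    have h1 : Filter.Tendsto (fun N => TForm_av (fun n => TForm_s f (P j) (Q j) n (f x)) N *
        (‖P j x‖ ^ 2 + ‖Q j x‖ ^ 2) + 2 * (TForm_av (fun n => TForm_t f (P j) (Q j) n (f x)) N *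
          star (P j x) * star (Q j x)).re) U (nhds (S (f x) * (‖P j x‖ ^ 2 + ‖Q j x‖ ^ 2)
        + 2 * (T (f x) * star (P j x) * star (Q j x)).re)) := by
      refine ((hS (f x)).mul_const _).add (Filter.Tendsto.const_mul 2 ?_)
      exact (Complex.continuous_re.tendsto _).comp (((hT (f x)).mul_const _).mul_const _)
    have h2 : ∀ N, TForm_av (fun n => TForm_s f (P j) (Q j) (n + 1) x) N =
        TForm_av (fun n => TForm_s f (P j) (Q j) n (f x)) N *
        (‖P j x‖ ^ 2 + ‖Q j x‖ ^ 2) + 2 * (TForm_av (fun n => TForm_t f (P j) (Q j) n (f x)) N *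
          star (P j x) * star (Q j x)).re := by
      intro N
      unfold TForm_av
      simp only [TForm_rs]
      have h6 : ∀ (r : ℝ) (z : ℂ), ((r • z) * star (P j x) * star (Q j x)).re =
          r * (z * star (P j x) * star (Q j x)).re := by
        intro r z
        rw [Complex.real_smul, mul_assoc, mul_assoc, Complex.re_ofReal_mul, mul_assoc]
      rw [Finset.sum_add_distrib, ← Finset.sum_mul, ← Finset.mul_sum, ← Complex.re_sum,
        ← Finset.sum_mul, ← Finset.sum_mul, h6, smul_eq_mul, smul_eq_mul]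
      ring
    have h3 := (TForm_av_tel _ _ (hsb x)).mono_left hUle
    have h4 := h3.add (hS x)
    rw [zero_add] at h4
    refine tendsto_nhds_unique h4 (h1.congr fun N => ?_)
    rw [← h2]
    simp only [sub_add_cancel]
  have hrT : ∀ x, T x = 2 * (S (f x) : ℂ) * star (P j x) * Q j x + T (f x) * star (P j x) ^ 2
        + star (T (f x)) * Q j x ^ 2 := by
    intro x
    have h1 : Filter.Tendsto (fun N =>
        2 * ((TForm_av (fun n => TForm_s f (P j) (Q j) n (f x)) N : ℝ) : ℂ) * star (P j x) * Q j x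
        + TForm_av (fun n => TForm_t f (P j) (Q j) n (f x)) N * star (P j x) ^ 2
        + star (TForm_av (fun n => TForm_t f (P j) (Q j) n (f x)) N) * Q j x ^ 2) U
        (nhds (2 * (S (f x) : ℂ) * star (P j x) * Q j x + T (f x) * star (P j x) ^ 2
        + star (T (f x)) * Q j x ^ 2)) := by
      refine Filter.Tendsto.add (Filter.Tendsto.add ?_ ?_) ?_
      · refine Filter.Tendsto.mul_const _ (Filter.Tendsto.mul_const _
          (Filter.Tendsto.const_mul _ ?_))
        exact (Complex.continuous_ofReal.tendsto _).comp (hS (f x))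
      · exact (hT (f x)).mul_const _
      · exact Filter.Tendsto.mul_const _ ((continuous_star.tendsto _).comp (hT (f x)))
    have h2 : ∀ N, TForm_av (fun n => TForm_t f (P j) (Q j) (n + 1) x) N =
        2 * ((TForm_av (fun n => TForm_s f (P j) (Q j) n (f x)) N : ℝ) : ℂ) * star (P j x) * Q j x
        + TForm_av (fun n => TForm_t f (P j) (Q j) n (f x)) N * star (P j x) ^ 2
        + star (TForm_av (fun n => TForm_t f (P j) (Q j) n (f x)) N) * Q j x ^ 2 := by
      intro N
      unfold TForm_av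
      simp only [TForm_rt]
      rw [Finset.sum_add_distrib, Finset.sum_add_distrib, ← Finset.sum_mul, ← Finset.sum_mul,
        ← Finset.mul_sum, ← Finset.sum_mul, ← Finset.sum_mul]
      simp only [Complex.real_smul, smul_eq_mul, Complex.ofReal_mul, Complex.ofReal_sum, star_mul',
        star_sum]
      have h5 : star ((((N : ℝ) + 1)⁻¹ : ℝ) : ℂ) = ((((N : ℝ) + 1)⁻¹ : ℝ) : ℂ) :=
        Complex.conj_ofReal _
      rw [h5]
      ring
    have h3 := (TForm_av_tel _ _ (htb x)).mono_left hUle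
    have h4 := h3.add (hT x)
    rw [zero_add] at h4
    refine tendsto_nhds_unique h4 (h1.congr fun N => ?_)
    rw [← h2]
    simp only [sub_add_cancel]
  -- determinant
  have hD : ∀ x, S (f x) ^ 2 - ‖T (f x)‖ ^ 2 = S x ^ 2 - ‖T x‖ ^ 2 := by
    intro x
    rw [hrS x, hrT x]
    exact (TForm_det _ _ _ _ (L.nm j hj.ge x)).symm
  have hDpos : ∀ x, 0 < S x ^ 2 - ‖T x‖ ^ 2 := by
    intro x
    have h1 := hST x
    have h2 := norm_nonneg (T x)
    nlinarith
  have hDc : ∀ x y, S x ^ 2 - ‖T x‖ ^ 2 = S y ^ 2 - ‖T y‖ ^ 2 := by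
    intro x y
    have h1 := inv_const hα L.conj (fun x => ((S x ^ 2 - ‖T x‖ ^ 2 : ℝ) : ℂ))
      (Complex.continuous_ofReal.comp ((hScont.pow 2).sub (hTcont.norm.pow 2)))
      (fun x => by rw [hD]) x y
    exact Complex.ofReal_injective h1
  set D : ℝ := S 0 ^ 2 - ‖T 0‖ ^ 2 with hDdef
  have hD0 : 0 < D := hDpos 0
  set k : ℝ := Real.sqrt D with hk
  have hk0 : 0 < k := Real.sqrt_pos.mpr hD0
  have hk2 : k ^ 2 = D := Real.sq_sqrt hD0.le
  refine ⟨fun x => k⁻¹ * S x, fun x => ((k⁻¹ : ℝ) : ℂ) * T x, continuous_const.mul hScont,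
    continuous_const.mul hTcont, ?_, ?_, fun x => mul_pos (inv_pos.mpr hk0) (hSpos x), ?_, ?_, ?_⟩
  · intro x x' hx
    simp only [hSd x x' hx]
  · intro x x' hx
    simp only [hTd x x' hx]
  · intro x
    simp only
    rw [norm_mul, Complex.norm_real, Real.norm_of_nonneg (inv_pos.mpr hk0).le, mul_pow, mul_pow,
      ← mul_sub, hDc x 0, ← hDdef, ← hk2, inv_pow, inv_mul_cancel₀ (pow_pos hk0 2).ne']
  · intro x
    simp only
    rw [hrS x]
    have h1 : (((k⁻¹ : ℝ) : ℂ) * T (f x) * star (P j x) * star (Q j x)).re =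
        k⁻¹ * (T (f x) * star (P j x) * star (Q j x)).re := by
      rw [mul_assoc, mul_assoc, Complex.re_ofReal_mul, mul_assoc]
    rw [h1]
    ring
  · intro x
    simp only
    rw [hrT x]
    have h5 : star ((k⁻¹ : ℝ) : ℂ) = ((k⁻¹ : ℝ) : ℂ) := Complex.conj_ofReal _
    rw [star_mul', h5, Complex.ofReal_mul]
    ring

end QPR
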