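import Pool.Agent.Lib.QPR.TSm2
import Pool.Agent.Lib.QPR.MobInt

set_option autoImplicit false

namespace QPR

/-- the map which replaces the `j`-th coordinate. -/
private noncomputable def TG_M {d : ℕ} (j : Fin d) (s : ℂ → UnitAddCircle)
    (Z : UnitAddTorus (Fin d) → ℂ) (x : UnitAddTorus (Fin d)) : UnitAddTorus (Fin d) :=
  Function.update x j (s (Z x))

private theorem TG_M_ne {d : ℕ} (j : Fin d) (s : ℂ → UnitAddCircle)
    (Z : UnitAddTorus (Fin d) → ℂ) (x : UnitAddTorus (Fin d)) {i : Fin d} (h : i ≠ j) :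
    TG_M j s Z x i = x i := Function.update_of_ne h _ _

private theorem TG_M_self {d : ℕ} (j : Fin d) (s : ℂ → UnitAddCircle)
    (Z : UnitAddTorus (Fin d) → ℂ) (x : UnitAddTorus (Fin d)) :
    TG_M j s Z x j = s (Z x) := Function.update_self _ _ _

private theorem TG_cont {d : ℕ} (j : Fin d) {s : ℂ → UnitAddCircle}
    (hs : ContinuousOn s {z : ℂ | ‖z‖ = 1}) {Z : UnitAddTorus (Fin d) → ℂ} (hZ : SmT Z)
    (hZ1 : ∀ x, ‖Z x‖ = 1) : Continuous (TG_M j s Z) := by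
  have h1 : Continuous fun x => s (Z x) := hs.comp_continuous hZ.continuous hZ1
  exact continuous_id.update j h1

private theorem TG_smM {d : ℕ} (j : Fin d) {s : ℂ → UnitAddCircle}
    (hs : ContinuousOn s {z : ℂ | ‖z‖ = 1}) (hs1 : ∀ z : ℂ, ‖z‖ = 1 → ee (s z) = z)
    {Z : UnitAddTorus (Fin d) → ℂ} (hZ : SmT Z)
    (hZ1 : ∀ x, ‖Z x‖ = 1) : SmM (TG_M j s Z) := by
  refine smM_of_coord _ (TG_cont j hs hZ hZ1) fun i => ?_
  by_cases h : i = j
  · subst h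
    have e : (fun x => ee (TG_M i s Z x i)) = Z := by
      funext x
      rw [TG_M_self, hs1 _ (hZ1 x)]
    rw [e]
    exact hZ
  · have e : (fun x => ee (TG_M j s Z x i)) = fun x => ee (x i) := by
      funext x
      rw [TG_M_ne j s Z x h]
    rw [e]
    exact smT_coord i

private theorem TG_div {d : ℕ} {a b : UnitAddTorus (Fin d) → ℂ} (ha : SmT a) (hb : SmT b)
    (h : ∀ x, b x ≠ 0) : SmT fun x => a x / b x := by
  have h1 : ContDiff ℝ ((⊤ : ℕ∞) : WithTop ℕ∞) fun x : Fin d → ℝ => (b (pr x))⁻¹ :=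
    ContDiff.inv hb fun x => h _
  have h2 := ContDiff.mul ha h1
  have e : (fun x => a x / b x) = fun x => a x * (b x)⁻¹ := by
    funext x
    rw [div_eq_mul_inv]
  rw [e]
  exact h2

private theorem TG_mul {d : ℕ} {a b : UnitAddTorus (Fin d) → ℂ} (ha : SmT a) (hb : SmT b) :
    SmT fun x => a x * b x := ContDiff.mul ha hb

private theorem TG_add {d : ℕ} {a b : UnitAddTorus (Fin d) → ℂ} (ha : SmT a) (hb : SmT b) :
    SmT fun x => a x + b x := ContDiff.add ha hb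

private theorem TG_sub {d : ℕ} {a b : UnitAddTorus (Fin d) → ℂ} (ha : SmT a) (hb : SmT b) :
    SmT fun x => a x - b x := ContDiff.sub ha hb

private theorem TG_star {d : ℕ} {a : UnitAddTorus (Fin d) → ℂ} (ha : SmT a) :
    SmT fun x => star (a x) := by
  have h1 := Complex.conjCLE.contDiff.comp (n := ((⊤ : ℕ∞) : WithTop ℕ∞)) ha
  exact h1

private theorem TG_ofReal {d : ℕ} {a : UnitAddTorus (Fin d) → ℝ} (ha : SmT a) :
    SmT fun x => (a x : ℂ) := by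
  have h1 := Complex.ofRealCLM.contDiff.comp (n := ((⊤ : ℕ∞) : WithTop ℕ∞)) ha
  exact h1

private theorem TG_star_ofReal (r : ℝ) : star (r : ℂ) = r := Complex.conj_ofReal r

private theorem TG_sq {u : ℝ} {v : ℂ} (h : u ^ 2 - ‖v‖ ^ 2 = 1) :
    (u : ℂ) * u - v * star v = 1 := by
  have h1 : v * star v = ((‖v‖ ^ 2 : ℝ) : ℂ) := by
    have h2 := Complex.mul_conj v
    rw [Complex.normSq_eq_norm_sq] at h2
    exact h2
  rw [h1, ← sq, ← Complex.ofReal_pow, ← Complex.ofReal_sub, h, Complex.ofReal_one]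

private theorem TG_norm_p (u : ℝ) (v : ℂ) (h : u ^ 2 - ‖v‖ ^ 2 = 1) :
    ‖(u : ℂ)‖ ^ 2 - ‖v‖ ^ 2 = 1 := by
  rw [Complex.norm_real, Real.norm_eq_abs, sq_abs]
  exact h

/-- the denominator of `Z1`. -/
private theorem TG_den1 {u : ℝ} {v z : ℂ} (h : u ^ 2 - ‖v‖ ^ 2 = 1) (hz : ‖z‖ = 1) :
    star v * z + (u : ℂ) ≠ 0 := by
  have h1 := mob_den_ne (u : ℂ) v z (TG_norm_p u v h) hz
  rwa [TG_star_ofReal] at h1

private theorem TG_norm1 {u : ℝ} {v z c : ℂ} (h : u ^ 2 - ‖v‖ ^ 2 = 1) (hz : ‖z‖ = 1)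
    (hc : ‖c‖ = 1) : ‖c * ((u : ℂ) * z + v) / (star v * z + (u : ℂ))‖ = 1 := by
  have h1 := mob_norm (u : ℂ) v z (TG_norm_p u v h) hz
  rw [TG_star_ofReal] at h1
  rw [mul_div_assoc, norm_mul, hc, h1, one_mul]

private theorem TG_aux {u : ℝ} {v z c : ℂ} (hc : ‖c‖ = 1) :
    c * (u : ℂ) - star v * z = c * (star (-v) * (z / c) + (u : ℂ)) ∧
    (u : ℂ) * z - c * v = c * ((u : ℂ) * (z / c) + -v) := by
  have hc0 : c ≠ 0 := by
    rintro rfl
    rw [norm_zero] at hc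
    exact zero_ne_one hc
  constructor
  · rw [star_neg]
    field_simp
    ring
  · field_simp
    ring

private theorem TG_den2 {u : ℝ} {v z c : ℂ} (h : u ^ 2 - ‖v‖ ^ 2 = 1) (hz : ‖z‖ = 1)
    (hc : ‖c‖ = 1) : c * (u : ℂ) - star v * z ≠ 0 := by
  have hc0 : c ≠ 0 := by
    rintro rfl
    rw [norm_zero] at hc
    exact zero_ne_one hc
  have hv : u ^ 2 - ‖-v‖ ^ 2 = 1 := by rwa [norm_neg]
  rw [(TG_aux (u := u) (v := v) (z := z) hc).1]
  exact mul_ne_zero hc0 (TG_den1 hv (by rw [norm_div, hz, hc, div_one]))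

private theorem TG_norm2 {u : ℝ} {v z c : ℂ} (h : u ^ 2 - ‖v‖ ^ 2 = 1) (hz : ‖z‖ = 1)
    (hc : ‖c‖ = 1) : ‖((u : ℂ) * z - c * v) / (c * (u : ℂ) - star v * z)‖ = 1 := by
  have hc0 : c ≠ 0 := by
    rintro rfl
    rw [norm_zero] at hc
    exact zero_ne_one hc
  have hv : u ^ 2 - ‖-v‖ ^ 2 = 1 := by rwa [norm_neg]
  have h1 := TG_norm1 (c := 1) hv (show ‖z / c‖ = 1 by rw [norm_div, hz, hc, div_one]) norm_one
  rw [one_mul] at h1
  rw [(TG_aux (u := u) (v := v) (z := z) hc).1, (TG_aux (u := u) (v := v) (z := z) hc).2,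
    mul_div_mul_left _ _ hc0]
  exact h1

private theorem TG_inv1 {u : ℝ} {v z c : ℂ} (h : u ^ 2 - ‖v‖ ^ 2 = 1) (hz : ‖z‖ = 1)
    (hc : ‖c‖ = 1) :
    ((u : ℂ) * (c * ((u : ℂ) * z + v) / (star v * z + (u : ℂ))) - c * v) /
      (c * (u : ℂ) - star v * (c * ((u : ℂ) * z + v) / (star v * z + (u : ℂ)))) = z := by
  have hc0 : c ≠ 0 := by
    rintro rfl
    rw [norm_zero] at hc
    exact zero_ne_one hc
  have hD := TG_den1 h hz
  have hs := TG_sq h
  have e1 : (u : ℂ) * (c * ((u : ℂ) * z + v) / (star v * z + (u : ℂ))) - c * v =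
      c * z / (star v * z + (u : ℂ)) := by
    rw [eq_div_iff hD, sub_mul, mul_assoc (u : ℂ), div_mul_cancel₀ _ hD]
    linear_combination c * z * hs
  have e2 : c * (u : ℂ) - star v * (c * ((u : ℂ) * z + v) / (star v * z + (u : ℂ))) =
      c / (star v * z + (u : ℂ)) := by
    rw [eq_div_iff hD, sub_mul, mul_assoc (star v), div_mul_cancel₀ _ hD]
    linear_combination c * hs
  rw [e1, e2, div_div_div_cancel_right₀ hD, mul_div_cancel_left₀ _ hc0]

private theorem TG_inv2 {u : ℝ} {v z c : ℂ} (h : u ^ 2 - ‖v‖ ^ 2 = 1) (hz : ‖z‖ = 1)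
    (hc : ‖c‖ = 1) :
    c * ((u : ℂ) * (((u : ℂ) * z - c * v) / (c * (u : ℂ) - star v * z)) + v) /
      (star v * (((u : ℂ) * z - c * v) / (c * (u : ℂ) - star v * z)) + (u : ℂ)) = z := by
  have hc0 : c ≠ 0 := by
    rintro rfl
    rw [norm_zero] at hc
    exact zero_ne_one hc
  have hD := TG_den2 h hz hc
  have hs := TG_sq h
  have e1 : (u : ℂ) * (((u : ℂ) * z - c * v) / (c * (u : ℂ) - star v * z)) + v =
      z / (c * (u : ℂ) - star v * z) := by
    rw [eq_div_iff hD, add_mul, mul_assoc (u : ℂ), div_mul_cancel₀ _ hD]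
    linear_combination z * hs
  have e2 : star v * (((u : ℂ) * z - c * v) / (c * (u : ℂ) - star v * z)) + (u : ℂ) =
      c / (c * (u : ℂ) - star v * z) := by
    rw [eq_div_iff hD, add_mul, mul_assoc (star v), div_mul_cancel₀ _ hD]
    linear_combination c * hs
  rw [e1, e2, mul_div_assoc', div_div_div_cancel_right₀ hD, mul_div_cancel_left₀ _ hc0]

/-- The change of the `j`-th coordinate. `G x i = x i` for `i ≠ j` and
`ee (G x j) = c (u ζ + v) / (star v ζ + u)`, `ζ = ee (x j)`; the inverse has the `j`-th coordinate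
`ee (G⁻¹ y j) = (u E - c v) / (c u - star v E)`, `E = ee (y j)` (the coefficients do not depend on the
`j`-th coordinate). Use `exists_ee_section` for the circle valued functions, `smM_of_coord` for
smoothness. -/
theorem exists_G {d : ℕ} (j : Fin d) (u : UnitAddTorus (Fin d) → ℝ)
    (v c : UnitAddTorus (Fin d) → ℂ) (hu : SmT u) (hv : SmT v) (hc : SmT c)
    (hud : DepLt (j : ℕ) u) (hvd : DepLt (j : ℕ) v) (hcd : DepLt (j : ℕ) c)
    (hu0 : ∀ x, 0 < u x) (hn : ∀ x, u x ^ 2 - ‖v x‖ ^ 2 = 1) (hc1 : ∀ x, ‖c x‖ = 1) :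
    ∃ G : UnitAddTorus (Fin d) ≃ₜ UnitAddTorus (Fin d), SmM G ∧ SmM G.symm ∧
      (∀ x, ∀ i, i ≠ j → G x i = x i) ∧ (∀ y, ∀ i, i ≠ j → G.symm y i = y i) ∧
      (∀ x, ee (G x j) * (star (v x) * ee (x j) + u x) = c x * (u x * ee (x j) + v x)) ∧
      (∀ y y' : UnitAddTorus (Fin d), (∀ i : Fin d, (i : ℕ) ≤ (j : ℕ) → y i = y' i) →
        G.symm y j = G.symm y' j) := by
  obtain ⟨s, hs1, hs⟩ := exists_ee_section
  let Z1 : UnitAddTorus (Fin d) → ℂ := fun x =>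
    c x * ((u x : ℂ) * ee (x j) + v x) / (star (v x) * ee (x j) + (u x : ℂ))
  let Z2 : UnitAddTorus (Fin d) → ℂ := fun y =>
    ((u y : ℂ) * ee (y j) - c y * v y) / (c y * (u y : ℂ) - star (v y) * ee (y j))
  have hZ1s : SmT Z1 := TG_div (TG_mul hc (TG_add (TG_mul (TG_ofReal hu) (smT_coord j)) hv))
    (TG_add (TG_mul (TG_star hv) (smT_coord j)) (TG_ofReal hu))
    fun x => TG_den1 (hn x) (norm_ee _)
  have hZ2s : SmT Z2 := TG_div (TG_sub (TG_mul (TG_ofReal hu) (smT_coord j)) (TG_mul hc hv))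
    (TG_sub (TG_mul hc (TG_ofReal hu)) (TG_mul (TG_star hv) (smT_coord j)))
    fun x => TG_den2 (hn x) (norm_ee _) (hc1 x)
  have hZ1n : ∀ x, ‖Z1 x‖ = 1 := fun x => TG_norm1 (hn x) (norm_ee _) (hc1 x)
  have hZ2n : ∀ x, ‖Z2 x‖ = 1 := fun x => TG_norm2 (hn x) (norm_ee _) (hc1 x)
  -- the coefficients do not change
  have hcoef : ∀ (Z : UnitAddTorus (Fin d) → ℂ) (x : UnitAddTorus (Fin d)),
      u (TG_M j s Z x) = u x ∧ v (TG_M j s Z x) = v x ∧ c (TG_M j s Z x) = c x := by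
    intro Z x
    have h1 : ∀ i : Fin d, (i : ℕ) < j → TG_M j s Z x i = x i := fun i hi =>
      TG_M_ne j s Z x fun h => by
        rw [h] at hi
        exact lt_irrefl _ hi
    exact ⟨hud _ _ h1, hvd _ _ h1, hcd _ _ h1⟩
  have hZ21 : ∀ x, Z2 (TG_M j s Z1 x) = ee (x j) := by
    intro x
    obtain ⟨e1, e2, e3⟩ := hcoef Z1 x
    have e4 : ee (TG_M j s Z1 x j) = Z1 x := by rw [TG_M_self, hs1 _ (hZ1n x)]
    change ((u (TG_M j s Z1 x) : ℂ) * ee (TG_M j s Z1 x j) -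
      c (TG_M j s Z1 x) * v (TG_M j s Z1 x)) / (c (TG_M j s Z1 x) * (u (TG_M j s Z1 x) : ℂ) -
        star (v (TG_M j s Z1 x)) * ee (TG_M j s Z1 x j)) = ee (x j)
    rw [e1, e2, e3, e4]
    exact TG_inv1 (hn x) (norm_ee _) (hc1 x)
  have hZ12 : ∀ x, Z1 (TG_M j s Z2 x) = ee (x j) := by
    intro x
    obtain ⟨e1, e2, e3⟩ := hcoef Z2 x
    have e4 : ee (TG_M j s Z2 x j) = Z2 x := by rw [TG_M_self, hs1 _ (hZ2n x)]
    change c (TG_M j s Z2 x) * ((u (TG_M j s Z2 x) : ℂ) * ee (TG_M j s Z2 x j) +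
      v (TG_M j s Z2 x)) / (star (v (TG_M j s Z2 x)) * ee (TG_M j s Z2 x j) +
        (u (TG_M j s Z2 x) : ℂ)) = ee (x j)
    rw [e1, e2, e3, e4]
    exact TG_inv2 (hn x) (norm_ee _) (hc1 x)
  have hleft : ∀ x, TG_M j s Z2 (TG_M j s Z1 x) = x := by
    intro x
    funext i
    by_cases h : i = j
    · subst h
      apply ee_injective
      rw [TG_M_self, hs1 _ (hZ2n _), hZ21]
    · rw [TG_M_ne j s Z2 _ h, TG_M_ne j s Z1 _ h]
  have hright : ∀ x, TG_M j s Z1 (TG_M j s Z2 x) = x := by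
    intro x
    funext i
    by_cases h : i = j
    · subst h
      apply ee_injective
      rw [TG_M_self, hs1 _ (hZ1n _), hZ12]
    · rw [TG_M_ne j s Z1 _ h, TG_M_ne j s Z2 _ h]
  let G : UnitAddTorus (Fin d) ≃ₜ UnitAddTorus (Fin d) :=
    { toFun := TG_M j s Z1
      invFun := TG_M j s Z2
      left_inv := hleft
      right_inv := hright
      continuous_toFun := TG_cont j hs hZ1s hZ1n
      continuous_invFun := TG_cont j hs hZ2s hZ2n }
  refine ⟨G, TG_smM j hs hs1 hZ1s hZ1n, TG_smM j hs hs1 hZ2s hZ2n,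
    fun x i h => TG_M_ne j s Z1 x h, fun y i h => TG_M_ne j s Z2 y h, fun x => ?_,
    fun y y' h => ?_⟩
  · change ee (TG_M j s Z1 x j) * _ = _
    rw [TG_M_self, hs1 _ (hZ1n x)]
    exact div_mul_cancel₀ _ (TG_den1 (hn x) (norm_ee _))
  · change TG_M j s Z2 y j = TG_M j s Z2 y' j
    rw [TG_M_self, TG_M_self]
    have h1 : ∀ i : Fin d, (i : ℕ) < j → y i = y' i := fun i hi => h i hi.le
    have e : Z2 y = Z2 y' := by
      change ((u y : ℂ) * ee (y j) - c y * v y) / (c y * (u y : ℂ) - star (v y) * ee (y j)) =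
        ((u y' : ℂ) * ee (y' j) - c y' * v y') / (c y' * (u y' : ℂ) - star (v y') * ee (y' j))
      rw [hud y y' h1, hvd y y' h1, hcd y y' h1, h j le_rfl]
    rw [e]

end QPR
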