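import Pool.Agent.Lib.QPR.TEig

set_option autoImplicit false

namespace QPR

variable {d m : ℕ} {α : Fin d → ℝ} {f h : UnitAddTorus (Fin d) ≃ₜ UnitAddTorus (Fin d)}
  {l : Fin d → (Fin d → ℤ)} {P Q : Fin d → UnitAddTorus (Fin d) → ℂ}

private theorem TInd_add (a b : Fin d → ℤ) (y : UnitAddTorus (Fin d)) :
    dotT (a + b) y = dotT a y + dotT b y := by
  simp only [dotT, Pi.add_apply, add_smul, Finset.sum_add_distrib]

private theorem TInd_smul (n : ℤ) (a : Fin d → ℤ) (y : UnitAddTorus (Fin d)) :
    dotT (n • a) y = n • dotT a y := by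
  simp only [dotT, Pi.smul_apply, smul_eq_mul, mul_smul, Finset.smul_sum]

private theorem TInd_sum (s : Finset (Fin d)) (a : Fin d → Fin d → ℤ)
    (y : UnitAddTorus (Fin d)) : dotT (∑ i ∈ s, a i) y = ∑ i ∈ s, dotT (a i) y := by
  classical
  induction s using Finset.induction_on with
  | empty => simp [dotT]
  | insert i s hi ih => rw [Finset.sum_insert hi, TInd_add, ih, Finset.sum_insert hi]

private theorem TInd_half {n : ℤ} (h : ∀ t : UnitAddCircle, n • t = 0) : n = 0 := by
  by_contra hn
  have hn' : (n : ℝ) ≠ 0 := by exact_mod_cast hn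
  have h1 := h (((1 / (2 * n) : ℝ)) : UnitAddCircle)
  have h2 : n • (((1 / (2 * n) : ℝ)) : UnitAddCircle) = ((1 / 2 : ℝ) : UnitAddCircle) := by
    rw [← AddCircle.coe_zsmul]
    congr 1
    rw [zsmul_eq_mul]
    field_simp
  rw [h2, AddCircle.coe_eq_zero_iff] at h1
  obtain ⟨k, hk⟩ := h1
  rw [zsmul_eq_mul, mul_one] at hk
  have h3 : (2 * k : ℝ) = 1 := by linarith
  have h4 : 2 * k = 1 := by exact_mod_cast h3
  omega

private theorem TInd_norm (t : UnitAddCircle) : ‖ee t‖ = 1 := by
  rw [ee]
  exact Circle.norm_coe _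

private theorem TInd_inj {s t : UnitAddCircle} (h : ee s = ee t) : s = t := by
  have h1 : AddCircle.toCircle s = AddCircle.toCircle t := Circle.ext h
  exact AddCircle.injective_toCircle one_ne_zero h1

private theorem TInd_infinite : Infinite UnitAddCircle := by
  have h1 : Infinite (Set.Ico (0 : ℝ) (0 + 1)) := (Set.Ico_infinite (by norm_num)).to_subtype
  exact Infinite.of_injective _ (AddCircle.equivIco (1 : ℝ) 0).symm.injective

/-- Independence of the integer vectors `l i`, `i < m`, and `k`. Suppose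
`∑_{i<m} ξ i • l i + e • k = 0`. Then `∏_{i<m} ee (x i) ^ ξ i * ee (dotT k (h x)) ^ e = 1` for all `x`.
If `e = 0` all `ξ i` vanish (vary `x i`). If `e ≠ 0`, fix the coordinates `≠ j` and vary `x j`:
`ee (dotT k (h x)) = c (u ζ + v)/(star v ζ + u)` takes every value of the unit circle (Moebius map)
while its `e`-th power is constant: contradiction. -/
theorem indep (L : Lev m α f h l P Q) (j : Fin d) (hj : (j : ℕ) = m)
    (u : UnitAddTorus (Fin d) → ℝ) (v c : UnitAddTorus (Fin d) → ℂ) (k : Fin d → ℤ)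
    (hu : DepLt m u) (hv : DepLt m v) (hc : DepLt m c) (hu0 : ∀ x, 0 < u x)
    (hn : ∀ x, u x ^ 2 - ‖v x‖ ^ 2 = 1) (hc1 : ∀ x, ‖c x‖ = 1)
    (he : ∀ x, ee (dotT k (h x)) * (star (v x) * ee (x j) + u x) = c x * (u x * ee (x j) + v x))
    (ξ : Fin d → ℤ) (hξ : ∀ i : Fin d, m ≤ (i : ℕ) → ξ i = 0) (e : ℤ)
    (h0 : (∑ i, ξ i • l i) + e • k = 0) : ξ = 0 ∧ e = 0 := by
  classical
  have key : ∀ x : UnitAddTorus (Fin d), (∑ i, ξ i • x i) + e • dotT k (h x) = 0 := by
    intro x
    have h1 : dotT ((∑ i, ξ i • l i) + e • k) (h x) =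
        (∑ i, ξ i • dotT (l i) (h x)) + e • dotT k (h x) := by
      rw [TInd_add, TInd_sum, TInd_smul]
      congr 1
      exact Finset.sum_congr rfl fun i _ => TInd_smul _ _ _
    have h2 : dotT (0 : Fin d → ℤ) (h x) = 0 := by simp [dotT]
    rw [h0, h2] at h1
    rw [h1]
    congr 1
    refine Finset.sum_congr rfl fun i _ => ?_
    by_cases hi : (i : ℕ) < m
    · rw [← L.low i hi x]
    · rw [hξ i (not_lt.1 hi), zero_smul, zero_smul]
  have hsing : ∀ (i : Fin d) (t : UnitAddCircle),
      (∑ i', ξ i' • (Pi.single i t : UnitAddTorus (Fin d)) i') = ξ i • t := by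
    intro i t
    rw [Finset.sum_eq_single i]
    · rw [Pi.single_eq_same]
    · intro b _ hb
      rw [Pi.single_eq_of_ne hb, smul_zero]
    · intro hi
      exact absurd (Finset.mem_univ i) hi
  have he0 : e = 0 := by
    by_contra hne
    have hξj : ξ j = 0 := hξ j (le_of_eq hj.symm)
    -- the values lie in the `e`-torsion
    have h1 : ∀ t : UnitAddCircle, e • dotT k (h (Pi.single j t)) = 0 := by
      intro t
      have h2 := key (Pi.single j t)
      rwa [hsing, hξj, zero_smul, zero_add] at h2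
    have hdep : ∀ t : UnitAddCircle, ∀ i : Fin d, (i : ℕ) < m →
        (Pi.single j t : UnitAddTorus (Fin d)) i = (0 : UnitAddTorus (Fin d)) i := by
      intro t i hi
      have hij : i ≠ j := by
        rintro rfl
        omega
      rw [Pi.single_eq_of_ne hij]
      rfl
    have hinj : Function.Injective fun t : UnitAddCircle => dotT k (h (Pi.single j t)) := by
      intro s t hst
      by_contra hne'
      have hst' : dotT k (h (Pi.single j s)) = dotT k (h (Pi.single j t)) := hst
      have e1 := he (Pi.single j s)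
      have e2 := he (Pi.single j t)
      rw [hst', hu _ _ (hdep s), hv _ _ (hdep s), hc _ _ (hdep s), Pi.single_eq_same] at e1
      rw [hu _ _ (hdep t), hv _ _ (hdep t), hc _ _ (hdep t), Pi.single_eq_same] at e2
      have e3 : (ee (dotT k (h (Pi.single j t))) * star (v 0) - c 0 * (u 0 : ℂ)) *
          (ee s - ee t) = 0 := by
        linear_combination e1 - e2
      have hζ : ee s - ee t ≠ 0 := fun h' => hne' (TInd_inj (sub_eq_zero.1 h'))
      have e4 := (mul_eq_zero.1 e3).resolve_right hζ
      have e5 : ‖ee (dotT k (h (Pi.single j t))) * star (v 0)‖ = ‖c 0 * (u 0 : ℂ)‖ := by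
        rw [sub_eq_zero.1 e4]
      rw [norm_mul, norm_mul, TInd_norm, hc1, one_mul, one_mul, norm_star, Complex.norm_real,
        Real.norm_eq_abs, abs_of_pos (hu0 0)] at e5
      have e6 := hn 0
      rw [e5] at e6
      linarith
    have hfin : {y : UnitAddCircle | e.natAbs • y = 0}.Finite :=
      AddCircle.finite_torsion (p := (1 : ℝ)) (Int.natAbs_pos.2 hne)
    have hfin2 : (Set.univ : Set UnitAddCircle).Finite := by
      refine Set.Finite.of_finite_image (hfin.subset ?_) (hinj.injOn (s := Set.univ))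
      rintro y ⟨t, _, rfl⟩
      exact natAbs_nsmul_eq_zero.2 (h1 t)
    have := TInd_infinite
    exact Set.infinite_univ hfin2
  refine ⟨?_, he0⟩
  funext i
  have h1 : ∀ t : UnitAddCircle, ξ i • t = 0 := by
    intro t
    have h2 := key (Pi.single i t)
    rwa [hsing, he0, zero_smul, add_zero] at h2
  exact TInd_half h1

end QPR
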