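import Pool.Agent.Lib.QPR.TDef

set_option autoImplicit false

namespace QPR

/-- basic properties of `ee`. -/
theorem ee_coe (x : ℝ) : ee (x : UnitAddCircle) = ex x := by
  rw [ee, AddCircle.toCircle_apply_mk, Circle.coe_exp, ex]
  congr 1
  push_cast
  ring

theorem norm_ee (t : UnitAddCircle) : ‖ee t‖ = 1 := Circle.norm_coe _

theorem ee_add (s t : UnitAddCircle) : ee (s + t) = ee s * ee t := by
  rw [ee, AddCircle.toCircle_add, Circle.coe_mul, ee, ee]

theorem ee_injective : Function.Injective ee :=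
  Circle.coe_injective.comp (AddCircle.injective_toCircle one_ne_zero)

theorem continuous_ee : Continuous ee :=
  continuous_subtype_val.comp AddCircle.continuous_toCircle

/-- every unit complex number is `ee t`, with `t` depending continuously on it. -/
theorem exists_ee_section : ∃ g : ℂ → UnitAddCircle,
    (∀ z : ℂ, ‖z‖ = 1 → ee (g z) = z) ∧ ContinuousOn g {z : ℂ | ‖z‖ = 1} := by
  classical
  let mk : {z : ℂ // ‖z‖ = 1} → Circle := fun z => ⟨z.1, mem_sphere_zero_iff_norm.2 z.2⟩
  have hmk : ∀ z, ((mk z : Circle) : ℂ) = z.1 := fun z => rfl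
  have hmkc : Continuous mk := Continuous.subtype_mk continuous_subtype_val _
  refine ⟨fun z => if h : ‖z‖ = 1 then
    (AddCircle.homeomorphCircle (T := (1 : ℝ)) one_ne_zero).symm (mk ⟨z, h⟩) else 0, ?_, ?_⟩
  · intro z hz
    simp only [dif_pos hz]
    rw [ee, ← AddCircle.homeomorphCircle_apply (T := (1 : ℝ)) one_ne_zero,
      Homeomorph.apply_symm_apply, hmk]
  · rw [continuousOn_iff_continuous_domRestrict]
    have h : Continuous fun z : {z : ℂ | ‖z‖ = 1} =>
        (AddCircle.homeomorphCircle (T := (1 : ℝ)) one_ne_zero).symm (mk z) :=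
      (Homeomorph.continuous _).comp hmkc
    refine h.congr fun z => ?_
    have hz : ‖(z : ℂ)‖ = 1 := z.2
    simp only [Set.domRestrict_apply, dif_pos hz]
    rfl

theorem ee_zsmul (n : ℤ) (t : UnitAddCircle) : ee (n • t) = ee t ^ n := by
  rw [ee, AddCircle.toCircle_zsmul, Circle.coe_zpow, ee]

/-- the coordinate functions are smooth. -/
theorem smT_coord {d : ℕ} (i : Fin d) : SmT (fun x : UnitAddTorus (Fin d) => ee (x i)) := by
  have h : (fun x : Fin d → ℝ => ee ((pr x) i)) = fun x => ex (x i) := by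
    funext x
    exact ee_coe (x i)
  rw [SmT, h]
  unfold ex
  have h1 : ContDiff ℝ ((⊤ : ℕ∞) : WithTop ℕ∞) fun x : Fin d → ℝ => ((x i : ℝ) : ℂ) :=
    Complex.ofRealCLM.contDiff.comp (contDiff_apply ℝ ℝ i)
  exact (contDiff_const.mul h1).cexp

private theorem tsm_quot {d : ℕ} : IsOpenQuotientMap (pr (d := d)) := by
  have h : IsOpenQuotientMap (Pi.map fun (_ : Fin d) (x : ℝ) => ((x : ℝ) : UnitAddCircle)) :=
    IsOpenQuotientMap.piMap fun _ => QuotientAddGroup.isOpenQuotientMap_mk
  exact h

/-- smooth functions are continuous. -/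
theorem SmT.continuous {d : ℕ} {E : Type*} [NormedAddCommGroup E] [NormedSpace ℝ E]
    {φ : UnitAddTorus (Fin d) → E} (h : SmT φ) : Continuous φ :=
  tsm_quot.continuous_comp_iff.1 (ContDiff.continuous h)

end QPR
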