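import Pool.Agent.Lib.QPR.TExt
import Pool.Agent.Lib.QPR.TG

set_option autoImplicit false

namespace QPR

variable {d m : ℕ} {α : Fin d → ℝ} {f h : UnitAddTorus (Fin d) ≃ₜ UnitAddTorus (Fin d)}
  {l : Fin d → (Fin d → ℤ)} {P Q : Fin d → UnitAddTorus (Fin d) → ℂ}

private theorem TStep_smT_symm {d : ℕ} (G : UnitAddTorus (Fin d) ≃ₜ UnitAddTorus (Fin d))
    (hG : SmM G.symm) (φ : UnitAddTorus (Fin d) → ℂ) (hφ : SmT φ) :
    SmT (fun y => φ (G.symm y)) :=
  smT_comp (fun y => G.symm y) G.symm.continuous (fun i => SmM.coord hG i) φ hφ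

private theorem TStep_dep {d : ℕ} (G : UnitAddTorus (Fin d) ≃ₜ UnitAddTorus (Fin d)) (j : Fin d)
    (h1 : ∀ y, ∀ i, i ≠ j → G.symm y i = y i)
    (h2 : ∀ y y' : UnitAddTorus (Fin d), (∀ i : Fin d, (i : ℕ) ≤ (j : ℕ) → y i = y' i) →
      G.symm y j = G.symm y' j)
    (r : ℕ) (hr : (j : ℕ) + 1 ≤ r) (φ : UnitAddTorus (Fin d) → ℂ) (hφ : DepLt r φ) :
    DepLt r (fun y => φ (G.symm y)) := by
  intro x x' hx
  apply hφ
  intro i hi
  by_cases hij : i = j
  · subst hij
    exact h2 x x' (fun i' hi' => hx i' (by omega))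
  · rw [h1 x i hij, h1 x' i hij]
    exact hx i hi

private theorem TStep_den {u : ℝ} {v z : ℂ} (hu : 0 < u) (hn : u ^ 2 - ‖v‖ ^ 2 = 1)
    (hz : ‖z‖ = 1) : star v * z + (u : ℂ) ≠ 0 := by
  intro h0
  have h1 : (u : ℂ) = -(star v * z) := by
    rw [eq_neg_iff_add_eq_zero, add_comm]
    exact h0
  have h2 : ‖(u : ℂ)‖ = ‖v‖ := by
    rw [h1, norm_neg, norm_mul, hz, mul_one, norm_star]
  rw [Complex.norm_real, Real.norm_eq_abs, abs_of_pos hu] at h2
  rw [h2] at hn
  simp at hn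

/-- One induction step. Take `u, v, c, k` from `exists_smooth` (`j = ⟨m, hm⟩`) and `G` from
`exists_G`; then `G x j = dotT k (h x)` (`ee_injective`). New data: `f' = G f G⁻¹`, `h' = h G⁻¹`,
`l' = Function.update l j k`, `P' i = P i ∘ G⁻¹`, `Q' i = Q i ∘ G⁻¹`. -/
theorem lev_step (hα : DioV α) (L : Lev m α f h l P Q) (hm : m < d) :
    ∃ G : UnitAddTorus (Fin d) ≃ₜ UnitAddTorus (Fin d), SmM G ∧ SmM G.symm ∧
      ∃ (l' : Fin d → (Fin d → ℤ)) (P' Q' : Fin d → UnitAddTorus (Fin d) → ℂ),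
        Lev (m + 1) α ((G.symm.trans f).trans G) (G.symm.trans h) l' P' Q' := by
  set j : Fin d := ⟨m, hm⟩ with hjdef
  have hj : (j : ℕ) = m := rfl
  obtain ⟨u, v, c, k, hu, hv, hc, hud, hvd, hcd, hu0, hn, hc1, he⟩ := exists_smooth hα L j hj
  obtain ⟨G, hG, hG', hGi, hGi', hGj, hGd⟩ :=
    exists_G j u v c hu hv hc (hj ▸ hud) (hj ▸ hvd) (hj ▸ hcd) hu0 hn hc1
  have hkey : ∀ x, G x j = dotT k (h x) := by
    intro x
    apply ee_injective
    have hden := TStep_den (hu0 x) (hn x) (norm_ee (x j))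
    apply mul_right_cancel₀ hden
    rw [hGj x, he x]
  refine ⟨G, hG, hG', Function.update l j k, fun i y => P i (G.symm y), fun i y => Q i (G.symm y),
    ?_⟩
  have hlow : ∀ i : Fin d, m + 1 ≤ (i : ℕ) → m ≤ (i : ℕ) := fun i hi => by omega
  have hne : ∀ i : Fin d, m + 1 ≤ (i : ℕ) → i ≠ j := by
    intro i hi hij
    rw [hij] at hi
    omega
  refine ⟨?_, ?_, ?_, ?_, ?_, ?_, ?_, ?_⟩
  · intro y
    show h (G.symm (G (f (G.symm y)))) = h (G.symm y) + pr α
    rw [G.symm_apply_apply, L.conj (G.symm y)]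
  · intro i hi x
    show x i = dotT (Function.update l j k i) (h (G.symm x))
    by_cases hij : i = j
    · rw [hij, Function.update_self, ← hkey (G.symm x), G.apply_symm_apply]
    · rw [Function.update_of_ne hij]
      have hi' : (i : ℕ) < m := by
        have : (i : ℕ) ≠ m := fun h0 => hij (Fin.ext h0)
        omega
      rw [← L.low i hi' (G.symm x), hGi' x i hij]
  · intro i hi
    exact TStep_smT_symm G hG' (P i) (L.smP i (hlow i hi))
  · intro i hi
    exact TStep_smT_symm G hG' (Q i) (L.smQ i (hlow i hi))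
  · intro i hi
    exact TStep_dep G j hGi' hGd (i : ℕ) (by omega) (P i) (L.depP i (hlow i hi))
  · intro i hi
    exact TStep_dep G j hGi' hGd (i : ℕ) (by omega) (Q i) (L.depQ i (hlow i hi))
  · intro i hi x
    exact L.nm i (hlow i hi) (G.symm x)
  · intro i hi x
    have h1 := L.mob i (hlow i hi) (G.symm x)
    show ee (G (f (G.symm x)) i) * (star (Q i (G.symm x)) * ee (x i) + star (P i (G.symm x)))
      = P i (G.symm x) * ee (x i) + Q i (G.symm x)
    rw [hGi _ i (hne i hi)]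
    rw [hGi' x i (hne i hi)] at h1
    exact h1

end QPR
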